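import Pool.Agent.Lib.MP_4318ff_ag.Spec.A2

/-!
# MP_4318ff_ag, module `A/AlgCl`
-/

set_option autoImplicit false

namespace Pool.Agent.Lib.MP_4318ff_ag

open scoped LinearAlgebra.Projectivization

open Polynomial

/-- The coefficients are changed by a linear functional. -/
theorem algcl_lin {k E : Type} [Field k] [Field E] [Algebra k E] (θ : E →ₗ[k] k) (r : E[X]) :
    ∃ r' : k[X], (∀ i, r'.coeff i = θ (r.coeff i)) ∧
      ∀ t : k, r'.eval t = θ (r.eval (algebraMap k E t)) := by
  refine ⟨∑ i ∈ Finset.range (r.natDegree + 1), C (θ (r.coeff i)) * X ^ i, fun i => ?_,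
    fun t => ?_⟩
  · rw [finsetSum_coeff]
    simp only [coeff_C_mul, coeff_X_pow, mul_ite, mul_one, mul_zero]
    rw [Finset.sum_ite_eq]
    split_ifs with h
    · rfl
    · have h2 : r.natDegree < i := by
        rw [Finset.mem_range] at h
        omega
      rw [coeff_eq_zero_of_natDegree_lt h2, map_zero]
  · rw [eval_finsetSum, eval_eq_sum_range, map_sum]
    refine Finset.sum_congr rfl fun i _ => ?_
    rw [eval_mul, eval_C, eval_pow, eval_X, ← map_pow, mul_comm (r.coeff i),
      ← Algebra.smul_def, map_smul, smul_eq_mul, mul_comm]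

theorem algcl_root {k E : Type} [Field k] [IsAlgClosed k] [Field E] [Algebra k E] (q : k[X])
    (hq : q ≠ 0) (w : E) (hw : aeval w q = 0) : ∃ v : k, algebraMap k E v = w := by
  have hint : IsIntegral k w := isAlgebraic_iff_isIntegral.1 ⟨q, hq, hw⟩
  have h1 := IsAlgClosed.degree_eq_one_of_irreducible k (minpoly.irreducible hint)
  exact minpoly.mem_range_of_degree_eq_one k w h1

theorem algcl_gen (k E K : Type) [Field k] [IsAlgClosed k] [Field E] [Field K] [Algebra k E]
    (j : E →+* K) (t : K) (ht : ∀ p : E[X], p.eval₂ j t = 0 → p = 0) (α : K) (r s : E[X])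
    (hs : s.eval₂ j t ≠ 0) (hα : α * s.eval₂ j t = r.eval₂ j t) (m : (k[X])[X]) (hm : m ≠ 0)
    (h0 : ∑ i ∈ Finset.range (m.natDegree + 1),
      (m.coeff i).eval₂ (j.comp (algebraMap k E)) t * α ^ i = 0) :
    ∃ r' s' : k[X], s' ≠ 0 ∧ α * s'.eval₂ (j.comp (algebraMap k E)) t =
      r'.eval₂ (j.comp (algebraMap k E)) t := by
  classical
  have hinf : Infinite k := IsAlgClosed.instInfinite
  obtain ⟨n, hn⟩ : ∃ n, n = m.natDegree := ⟨_, rfl⟩
  rw [← hn] at h0
  have hN : ∑ i ∈ Finset.range (n + 1), (m.coeff i).map (algebraMap k E) * r ^ i * s ^ (n - i) =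
      0 := by
    apply ht
    rw [eval₂_finsetSum]
    have e1 : ∀ i ∈ Finset.range (n + 1),
        ((m.coeff i).map (algebraMap k E) * r ^ i * s ^ (n - i)).eval₂ j t =
        (m.coeff i).eval₂ (j.comp (algebraMap k E)) t * α ^ i * (s.eval₂ j t) ^ n := by
      intro i hi
      have hi' : i ≤ n := by
        rw [Finset.mem_range] at hi
        omega
      rw [eval₂_mul, eval₂_mul, eval₂_pow, eval₂_pow, eval₂_map, ← hα, mul_pow]
      calc (m.coeff i).eval₂ (j.comp (algebraMap k E)) t * (α ^ i * (s.eval₂ j t) ^ i) *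
            (s.eval₂ j t) ^ (n - i) =
          (m.coeff i).eval₂ (j.comp (algebraMap k E)) t * α ^ i *
            ((s.eval₂ j t) ^ i * (s.eval₂ j t) ^ (n - i)) := by ring
        _ = _ := by rw [← pow_add, Nat.add_sub_cancel' hi']
    rw [Finset.sum_congr rfl e1, ← Finset.sum_mul, h0, zero_mul]
  have hs0 : s ≠ 0 := by
    rintro rfl
    exact hs (eval₂_zero _ _)
  have hval : ∀ t0 : k, s.eval (algebraMap k E t0) ≠ 0 → m.leadingCoeff.eval t0 ≠ 0 →
      ∃ v : k, r.eval (algebraMap k E t0) = algebraMap k E v * s.eval (algebraMap k E t0) := by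
    intro t0 hs1 hm1
    obtain ⟨v, hv⟩ := algcl_root (E := E) (m.map (evalRingHom t0)) (by
        intro h
        have h2 := congrArg (fun q => q.coeff m.natDegree) h
        simp only [coeff_map, coeff_zero, coe_evalRingHom] at h2
        exact hm1 h2)
      (r.eval (algebraMap k E t0) / s.eval (algebraMap k E t0)) (by
        have h2 := congrArg (fun q => q.eval (algebraMap k E t0)) hN
        simp only [eval_finsetSum, eval_mul, eval_pow, eval_zero, eval_map_algebraMap] at h2
        have h3 : (m.map (evalRingHom t0)).natDegree < n + 1 := by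
          rw [hn]
          exact Nat.lt_succ_of_le natDegree_map_le
        rw [aeval_eq_sum_range' h3]
        have h4 : (∑ i ∈ Finset.range (n + 1), (m.map (evalRingHom t0)).coeff i •
            (r.eval (algebraMap k E t0) / s.eval (algebraMap k E t0)) ^ i) *
            (s.eval (algebraMap k E t0)) ^ n = 0 := by
          rw [← h2, Finset.sum_mul]
          refine Finset.sum_congr rfl fun i hi => ?_
          have hi' : i ≤ n := by
            rw [Finset.mem_range] at hi
            omega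
          rw [coeff_map, coe_evalRingHom, Algebra.smul_def, div_pow,
            aeval_algebraMap_apply_eq_algebraMap_eval]
          have h5 : (s.eval (algebraMap k E t0)) ^ n =
              (s.eval (algebraMap k E t0)) ^ i * (s.eval (algebraMap k E t0)) ^ (n - i) := by
            rw [← pow_add, Nat.add_sub_cancel' hi']
          rw [h5]
          have h6 := pow_ne_zero i hs1
          field_simp
        exact (mul_eq_zero.1 h4).resolve_right (pow_ne_zero _ hs1))
    exact ⟨v, by rw [hv, div_mul_cancel₀ _ hs1]⟩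
  have hlc : s.leadingCoeff ≠ 0 := leadingCoeff_ne_zero.2 hs0
  obtain ⟨θ, hθ⟩ : ∃ θ : Module.Dual k E, θ s.leadingCoeff ≠ 0 := by
    by_contra hcon
    push Not at hcon
    exact hlc ((Module.forall_dual_apply_eq_zero_iff k _).1 hcon)
  obtain ⟨r', hr1, hr2⟩ := algcl_lin θ r
  obtain ⟨s', hs1, hs2⟩ := algcl_lin θ s
  have hs'0 : s' ≠ 0 := by
    rintro rfl
    have h2 := hs1 s.natDegree
    rw [coeff_zero] at h2
    exact hθ h2.symm
  have hD : r'.map (algebraMap k E) * s - s'.map (algebraMap k E) * r = 0 := by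
    have h2 : (r'.map (algebraMap k E) * s - s'.map (algebraMap k E) * r) *
        (s * m.leadingCoeff.map (algebraMap k E)) = 0 := by
      refine eq_zero_of_infinite_isRoot _ (Set.Infinite.mono ?_
        (Set.infinite_range_of_injective (algebraMap k E).injective))
      rintro _ ⟨t0, rfl⟩
      change IsRoot _ _
      rw [IsRoot.def, eval_mul, eval_sub, eval_mul, eval_mul, eval_mul, eval_map_algebraMap,
        eval_map_algebraMap, eval_map_algebraMap, aeval_algebraMap_apply_eq_algebraMap_eval,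
        aeval_algebraMap_apply_eq_algebraMap_eval, aeval_algebraMap_apply_eq_algebraMap_eval]
      by_cases c1 : s.eval (algebraMap k E t0) = 0
      · rw [c1, zero_mul, mul_zero]
      by_cases c2 : m.leadingCoeff.eval t0 = 0
      · rw [c2, map_zero, mul_zero, mul_zero]
      obtain ⟨v, hv⟩ := hval t0 c1 c2
      have h3 : r'.eval t0 = v * s'.eval t0 := by
        rw [hr2, hs2, hv, ← Algebra.smul_def, map_smul, smul_eq_mul]
      rw [h3, hv, map_mul]
      ring
    have h3 : s * m.leadingCoeff.map (algebraMap k E) ≠ 0 :=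
      mul_ne_zero hs0 ((Polynomial.map_ne_zero_iff (algebraMap k E).injective).2
        (leadingCoeff_ne_zero.2 hm))
    exact (mul_eq_zero.1 h2).resolve_right h3
  refine ⟨r', s', hs'0, ?_⟩
  have h2 := congrArg (fun q => q.eval₂ j t) hD
  simp only [eval₂_sub, eval₂_mul, eval₂_zero, eval₂_map] at h2
  rw [← hα] at h2
  have h3 : (r'.eval₂ (j.comp (algebraMap k E)) t - α * s'.eval₂ (j.comp (algebraMap k E)) t) *
      s.eval₂ j t = 0 := by
    rw [← h2]
    ring
  exact (sub_eq_zero.1 ((mul_eq_zero.1 h3).resolve_right hs)).symm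

/-- The field generated by `F₀` and the algebraic elements over `M` is generated by `l` over these elements. -/
theorem algcl_mem {k F₀ K : Type} [Field k] [Field F₀] [Field K] [Algebra k F₀] [Algebra F₀ K]
    [Algebra k K] [IsScalarTower k F₀ K] (l m : F₀) (M : IntermediateField k F₀)
    (hgen : ∀ f : F₀, ∃ h₁ h₂ : MvPolynomial (Fin 2) k,
      f = MvPolynomial.aeval ![l, m] h₁ / MvPolynomial.aeval ![l, m] h₂) (hm : m ∈ M) (α : K)
    (hα2 : α ∈ IntermediateField.adjoin F₀ {y : K | IsAlgebraic M y}) :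
    α ∈ IntermediateField.adjoin (algebraicClosure M K) {algebraMap F₀ K l} := by
  obtain ⟨N, hN⟩ : ∃ N, N = IntermediateField.adjoin (algebraicClosure M K) {algebraMap F₀ K l} :=
    ⟨_, rfl⟩
  rw [← hN]
  have hE : ∀ y : K, IsAlgebraic M y → y ∈ N := by
    intro y hy
    rw [hN]
    exact IntermediateField.algebraMap_mem _ (⟨y, mem_algebraicClosure_iff.2 hy⟩ :
      algebraicClosure M K)
  have hk : ∀ y : M, algebraMap F₀ K y ∈ N := by
    intro y
    exact hE _ (isAlgebraic_algebraMap (A := K) y)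
  have hp : ∀ h : MvPolynomial (Fin 2) k, algebraMap F₀ K (MvPolynomial.aeval ![l, m] h) ∈ N := by
    intro h
    induction h using MvPolynomial.induction_on with
    | C a =>
      rw [MvPolynomial.aeval_C]
      exact hk (algebraMap k M a)
    | add p q hp hq =>
      rw [map_add, map_add]
      exact add_mem hp hq
    | mul_X p i hp =>
      rw [map_mul, map_mul, MvPolynomial.aeval_X]
      refine mul_mem hp ?_
      fin_cases i
      · rw [hN]
        exact IntermediateField.subset_adjoin _ _ rfl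
      · exact hk ⟨m, hm⟩
  refine IntermediateField.adjoin_induction F₀ (p := fun x _ => x ∈ N) ?_ ?_ ?_ ?_ ?_ hα2
  · intro x hx
    exact hE x hx
  · intro f
    obtain ⟨h₁, h₂, rfl⟩ := hgen f
    rw [map_div₀]
    exact div_mem (hp _) (hp _)
  · intro x y _ _ hx hy
    exact add_mem hx hy
  · intro x _ hx
    exact inv_mem hx
  · intro x y _ _ hx hy
    exact mul_mem hx hy

/-- Abstract form of the linear disjointness. -/
theorem algcl_abs {k F₀ K : Type} [Field k] [IsAlgClosed k] [Field F₀] [Field K] [Algebra k F₀]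
    [Algebra F₀ K] [Algebra k K] [IsScalarTower k F₀ K] (l m : F₀) (M : IntermediateField k F₀)
    (hgen : ∀ f : F₀, ∃ h₁ h₂ : MvPolynomial (Fin 2) k,
      f = MvPolynomial.aeval ![l, m] h₁ / MvPolynomial.aeval ![l, m] h₂) (hm : m ∈ M)
    (hl : ¬ IsAlgebraic M l) (α : K) (hα : IsAlgebraic (Algebra.adjoin k {l}) α)
    (hα2 : α ∈ IntermediateField.adjoin F₀ {y : K | IsAlgebraic M y}) :
    ∃ p q : k[X], aeval l q ≠ 0 ∧
      α * algebraMap F₀ K (aeval l q) = algebraMap F₀ K (aeval l p) := by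
  have hmem := algcl_mem l m M hgen hm α hα2
  rw [IntermediateField.mem_adjoin_simple_iff] at hmem
  obtain ⟨r, s, hrs⟩ := hmem
  by_cases hs : aeval (algebraMap F₀ K l) s = 0
  · rw [hs, div_zero] at hrs
    exact ⟨0, 1, by rw [map_one]; exact one_ne_zero, by rw [hrs, zero_mul, map_zero, map_zero]⟩
  have htr : ¬ IsAlgebraic (algebraicClosure M K) (algebraMap F₀ K l) := by
    intro h
    have h2 : IsAlgebraic M (algebraMap F₀ K l) := h.restrictScalars M
    exact hl ((isAlgebraic_algebraMap_iff (algebraMap F₀ K).injective).1 h2)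
  have hmap : (algebraMap (algebraicClosure M K) K).comp (algebraMap k (algebraicClosure M K)) =
      algebraMap k K := rfl
  obtain ⟨p, hp, h0⟩ := hα
  have hsur : Function.Surjective (aeval (R := k)
      (⟨l, Algebra.subset_adjoin rfl⟩ : Algebra.adjoin k {l})) := by
    rintro ⟨x, hx⟩
    have hx' := hx
    rw [Algebra.adjoin_singleton_eq_range_aeval] at hx'
    obtain ⟨q, hq⟩ := hx'
    refine ⟨q, Subtype.ext ?_⟩
    change (Algebra.adjoin k {l}).val _ = x
    rw [← aeval_algHom_apply]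
    exact hq
  obtain ⟨g, hg⟩ := Polynomial.map_surjective (aeval (R := k)
      (⟨l, Algebra.subset_adjoin rfl⟩ : Algebra.adjoin k {l})).toRingHom hsur p
  have hgcoef : ∀ q : k[X], algebraMap (Algebra.adjoin k {l}) K ((aeval (R := k)
      (⟨l, Algebra.subset_adjoin rfl⟩ : Algebra.adjoin k {l})).toRingHom q) =
      q.eval₂ (algebraMap k K) (algebraMap F₀ K l) := by
    intro q
    change algebraMap F₀ K ((Algebra.adjoin k {l}).val _) = _
    rw [AlgHom.toRingHom_eq_coe, RingHom.coe_coe, ← aeval_algHom_apply,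
      ← aeval_algebraMap_apply]
    rfl
  obtain ⟨r', s', hs', h3⟩ := algcl_gen k (algebraicClosure M K) K
    (algebraMap (algebraicClosure M K) K) (algebraMap F₀ K l)
    (fun p hp => by
      by_contra hcon
      exact htr ⟨p, hcon, hp⟩) α r s hs
    (by
      rw [hrs]
      exact div_mul_cancel₀ _ hs) g (by
      rintro rfl
      rw [Polynomial.map_zero] at hg
      exact hp hg.symm) (by
      rw [hmap, ← h0, ← hg, aeval_def, eval₂_map, eval₂_eq_sum_range]
      refine Finset.sum_congr rfl fun i _ => ?_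
      rw [RingHom.comp_apply, hgcoef])
  rw [hmap] at h3
  have e1 : ∀ q : k[X], q.eval₂ (algebraMap k K) (algebraMap F₀ K l) =
      algebraMap F₀ K (aeval l q) := by
    intro q
    rw [← aeval_algebraMap_apply]
    rfl
  rw [e1, e1] at h3
  refine ⟨r', s', fun h => ?_, h3⟩
  have h4 : IsAlgebraic k l := ⟨s', hs', h⟩
  exact hl (h4.tower_top M)

section

open Matrix

variable {k : Type} [Field k]

/-- Adapted bases of the forms. -/
theorem algcl_basis {P Q : Pt k} (hPQ : P ≠ Q) : ∃ b c d : Fin 3 → k,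
    LinearIndependent k ![b, c, d] ∧ b ⬝ᵥ P.rep = 0 ∧ b ⬝ᵥ Q.rep = 0 ∧ c ⬝ᵥ P.rep = 0 ∧
    d ⬝ᵥ Q.rep = 0 ∧ (∀ v : Fin 3 → k, v ⬝ᵥ P.rep = 0 → ∃ x y : k, v = x • b + y • c) ∧
    ∀ v : Fin 3 → k, v ⬝ᵥ Q.rep = 0 → ∃ x y : k, v = x • b + y • d := by
  obtain ⟨p, hp⟩ : ∃ p, p = P.rep := ⟨_, rfl⟩
  obtain ⟨q, hq⟩ : ∃ q, q = Q.rep := ⟨_, rfl⟩
  have hind : LinearIndependent k ![p, q] := by
    have h1 := (Projectivization.independent_pair_iff_ne P Q).2 hPQ
    rw [Projectivization.independent_iff] at h1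
    have h2 : (Projectivization.rep ∘ ![P, Q]) = ![p, q] := by
      funext i
      fin_cases i
      · exact hp.symm
      · exact hq.symm
    rwa [h2] at h1
  rw [← hp, ← hq]
  have hb0 : p ⨯₃ q ≠ 0 := crossProduct_ne_zero_iff_linearIndependent.2 hind
  obtain ⟨i, hi⟩ : ∃ i, (p ⨯₃ q) i ≠ 0 := by
    by_contra hcon
    push Not at hcon
    exact hb0 (funext hcon)
  obtain ⟨w, hw⟩ : ∃ w : Fin 3 → k, w ⬝ᵥ p ⨯₃ q ≠ 0 := by
    refine ⟨Pi.single i 1, ?_⟩
    rw [single_one_dotProduct]
    exact hi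
  have e1 : (p ⨯₃ q) ⬝ᵥ p = 0 := by
    rw [dotProduct_comm]
    exact dot_self_cross p q
  have e2 : (p ⨯₃ q) ⬝ᵥ q = 0 := by
    rw [dotProduct_comm]
    exact dot_cross_self p q
  have e3 : (q ⨯₃ w) ⬝ᵥ q = 0 := by
    rw [dotProduct_comm]
    exact dot_self_cross q w
  have e4 : (w ⨯₃ p) ⬝ᵥ p = 0 := by
    rw [dotProduct_comm]
    exact dot_cross_self w p
  have e5 : (q ⨯₃ w) ⬝ᵥ p ≠ 0 := by
    rw [dotProduct_comm, ← triple_product_permutation w p q]
    exact hw
  have e6 : (w ⨯₃ p) ⬝ᵥ q ≠ 0 := by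
    rw [dotProduct_comm, triple_product_permutation q w p]
    exact hw
  have hli : LinearIndependent k ![p ⨯₃ q, w ⨯₃ p, q ⨯₃ w] := by
    rw [Fintype.linearIndependent_iff]
    intro g hg
    rw [Fin.sum_univ_three] at hg
    have hg' : g 0 • (p ⨯₃ q) + g 1 • (w ⨯₃ p) + g 2 • (q ⨯₃ w) = 0 := hg
    have h2 := congrArg (fun v => v ⬝ᵥ p) hg'
    simp only [add_dotProduct, smul_dotProduct, e1, e4, zero_add, zero_dotProduct,
      smul_eq_mul, mul_zero] at h2
    have h3 : g 2 = 0 := (mul_eq_zero.1 h2).resolve_right e5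
    have h4 := congrArg (fun v => v ⬝ᵥ q) hg'
    simp only [add_dotProduct, smul_dotProduct, e2, e3, zero_add, zero_dotProduct,
      smul_eq_mul, mul_zero, add_zero] at h4
    have h5 : g 1 = 0 := (mul_eq_zero.1 h4).resolve_right e6
    rw [h3, h5, zero_smul, zero_smul, add_zero, add_zero] at hg'
    have h6 : g 0 = 0 := (smul_eq_zero.1 hg').resolve_right hb0
    intro j
    fin_cases j
    · exact h6
    · exact h5
    · exact h3
  have hspan : ∀ v : Fin 3 → k, ∃ x y z : k, v = x • (p ⨯₃ q) + y • (w ⨯₃ p) + z • (q ⨯₃ w) := by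
    intro v
    have h1 := hli.span_eq_top_of_card_eq_finrank' (by simp)
    have h2 : v ∈ Submodule.span k (Set.range ![p ⨯₃ q, w ⨯₃ p, q ⨯₃ w]) := by
      rw [h1]
      trivial
    rw [Submodule.mem_span_range_iff_exists_fun] at h2
    obtain ⟨c, hc⟩ := h2
    rw [Fin.sum_univ_three] at hc
    exact ⟨c 0, c 1, c 2, hc.symm⟩
  refine ⟨p ⨯₃ q, w ⨯₃ p, q ⨯₃ w, hli, e1, e2, e4, e3, fun v hv => ?_, fun v hv => ?_⟩
  · obtain ⟨x, y, z, hxyz⟩ := hspan v
    refine ⟨x, y, ?_⟩
    rw [hxyz] at hv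
    simp only [add_dotProduct, smul_dotProduct, e1, e4, zero_add, smul_eq_mul, mul_zero] at hv
    have h3 : z = 0 := (mul_eq_zero.1 hv).resolve_right e5
    rw [hxyz, h3, zero_smul, add_zero]
  · obtain ⟨x, y, z, hxyz⟩ := hspan v
    refine ⟨x, z, ?_⟩
    rw [hxyz] at hv
    simp only [add_dotProduct, smul_dotProduct, e2, e3, zero_add, smul_eq_mul,
      add_zero, mul_zero] at hv
    have h3 : y = 0 := (mul_eq_zero.1 hv).resolve_right e6
    rw [hxyz, h3, zero_smul, add_zero]

/-- The pencil field is generated by one element. -/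
theorem algcl_PF (h1 : EvStmt) {P : Pt k} {b c : Fin 3 → k} (hb : b ≠ 0)
    (hs : ∀ v : Fin 3 → k, v ⬝ᵥ P.rep = 0 → ∃ x y : k, v = x • b + y • c) :
    PF P ≤ IntermediateField.adjoin k {ev c / ev b} := by
  unfold PF
  rw [IntermediateField.adjoin_le_iff]
  rintro _ ⟨v, v', hv, hv', rfl⟩
  have hb' : ev b ≠ 0 := fun h => hb (((h1 k).2.2 b).1 h)
  obtain ⟨x, y, rfl⟩ := hs v hv
  obtain ⟨x', y', rfl⟩ := hs v' hv'
  have key : ∀ x y : k, ev (x • b + y • c) =
      ev b * (algebraMap k (F k) x + algebraMap k (F k) y * (ev c / ev b)) := by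
    intro x y
    rw [(h1 k).1, (h1 k).2.1, (h1 k).2.1]
    field_simp
  have hm : ∀ x y : k, algebraMap k (F k) x + algebraMap k (F k) y * (ev c / ev b) ∈
      IntermediateField.adjoin k {ev c / ev b} := fun x y =>
    add_mem (IntermediateField.algebraMap_mem _ x) (mul_mem (IntermediateField.algebraMap_mem _ y)
      (IntermediateField.subset_adjoin _ _ rfl))
  rw [key, key, mul_div_mul_left _ _ hb']
  exact div_mem (hm x y) (hm x' y')

/-- Algebraic elements over a subfield of the field generated by one element. -/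
theorem algcl_alg {K : Type} [Ring K] [Algebra (F k) K] {M : IntermediateField k (F k)}
    {l : F k} (hM : M ≤ IntermediateField.adjoin k {l}) {x : K} (hx : IsAlgebraic M x) :
    IsAlgebraic (Algebra.adjoin k {l}) x := by
  rw [← IntermediateField.isAlgebraic_adjoin_iff]
  obtain ⟨p, hp, h0⟩ := hx
  refine ⟨p.map (IntermediateField.inclusion hM).toRingHom, ?_, ?_⟩
  · rw [Ne, Polynomial.map_eq_zero_iff]
    · exact hp
    · exact (IntermediateField.inclusion hM).toRingHom.injective
  · rw [aeval_def, eval₂_map]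
    rw [aeval_def] at h0
    exact h0

end

theorem tAlgCl : EvStmt → CoordStmt → AlgClStmt := by
  intro h1 h2 k _ _ _ K _ _ _ _ _ P Q α hPQ hα hα2
  obtain ⟨b, c, d, hli, hbP, hbQ, hcP, hdQ, hsP, hsQ⟩ := algcl_basis hPQ
  have hb : b ≠ 0 := hli.ne_zero 0
  have hcoord := (h2 k b c d hli).1
  have hPF := algcl_PF h1 hb hsP
  have hQF := algcl_PF h1 hb hsQ
  have hmQ : ev d / ev b ∈ PF Q := IntermediateField.subset_adjoin _ _ ⟨d, b, hdQ, hbQ, rfl⟩
  have hlP : ev c / ev b ∈ PF P := IntermediateField.subset_adjoin _ _ ⟨c, b, hcP, hbP, rfl⟩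
  have hind : AlgebraicIndependent k ![ev c / ev b, ev d / ev b] := hcoord.1
  have htr : ¬ IsAlgebraic (PF Q) (ev c / ev b) := by
    intro h
    have h3 := algcl_alg hQF h
    have h4 := hind.transcendental_adjoin (s := {1}) (i := 0) (by simp)
    rw [Set.image_singleton] at h4
    exact h4 h3
  obtain ⟨p, q, hq, hpq⟩ := algcl_abs (ev c / ev b) (ev d / ev b) (PF Q)
    (fun f => by
      obtain ⟨x, y, _, hxy⟩ := hcoord.2 f
      exact ⟨x, y, hxy⟩) hmQ htr α (algcl_alg hPF hα) hα2
  have hpoly : ∀ p : k[X], aeval (ev c / ev b) p ∈ PF P := by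
    intro p
    rw [aeval_eq_sum_range]
    exact sum_mem fun i _ => (PF P).smul_mem (pow_mem hlP i)
  refine ⟨aeval (ev c / ev b) p / aeval (ev c / ev b) q, div_mem (hpoly p) (hpoly q), ?_⟩
  rw [map_div₀, ← hpq]
  refine (mul_div_cancel_right₀ _ ?_).symm
  rw [Ne, FaithfulSMul.algebraMap_eq_zero_iff]
  exact hq

end Pool.Agent.Lib.MP_4318ff_ag
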