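import Pool.Agent.Lib.MP_4318ff_ag.Spec.A2

/-!
# MP_4318ff_ag, module `A/Avg`: properties of the averages
-/

set_option autoImplicit false

namespace Pool.Agent.Lib.MP_4318ff_ag

section avg

variable {k : Type} [Field k] {K : Type} [Field K] [Algebra (F k) K] [Algebra k K]
  [IsScalarTower k (F k) K]

private theorem avg_apply (g : K ≃ₐ[F k] K) (D : Derivation k K K) (x : K) :
    conjD g D x = g (D (g.symm x)) := rfl

private theorem avg_add (g : K ≃ₐ[F k] K) (D D' : Derivation k K K) :
    conjD g (D + D') = conjD g D + conjD g D' := by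
  apply Derivation.ext
  intro x
  rw [Derivation.add_apply, avg_apply, avg_apply, avg_apply, Derivation.add_apply, map_add]

private theorem avg_smul (g : K ≃ₐ[F k] K) (c : k) (D : Derivation k K K) :
    conjD g (c • D) = c • conjD g D := by
  apply Derivation.ext
  intro x
  rw [Derivation.smul_apply, avg_apply, avg_apply, Derivation.smul_apply]
  exact (g.toLinearMap.restrictScalars k).map_smul c (D (g.symm x))

private theorem avg_mul (g h : K ≃ₐ[F k] K) (D : Derivation k K K) :
    conjD g (conjD h D) = conjD (g * h) D := by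
  apply Derivation.ext
  intro x
  rw [avg_apply, avg_apply, avg_apply, AlgEquiv.mul_apply]
  rfl

/-- Conjugation as a linear map. -/
private noncomputable def avg_L (g : K ≃ₐ[F k] K) : Derivation k K K →ₗ[k] Derivation k K K where
  toFun := conjD g
  map_add' := avg_add g
  map_smul' := avg_smul g

private theorem avg_sum (g : K ≃ₐ[F k] K) {J : Type*} (s : Finset J)
    (f : J → Derivation k K K) : conjD g (∑ i ∈ s, f i) = ∑ i ∈ s, conjD g (f i) :=
  map_sum (avg_L g) f s

variable [FiniteDimensional (F k) K]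

open Classical in
/-- The elements of the subgroup. -/
private noncomputable def avg_S (N : Subgroup (K ≃ₐ[F k] K)) : Finset (K ≃ₐ[F k] K) :=
  Finset.univ.filter (fun g : K ≃ₐ[F k] K => g ∈ N)

omit [Algebra k K] [IsScalarTower k (F k) K] in
private theorem avg_mem (N : Subgroup (K ≃ₐ[F k] K)) (g : K ≃ₐ[F k] K) :
    g ∈ avg_S N ↔ g ∈ N := by
  simp [avg_S]

private theorem avg_eq (N : Subgroup (K ≃ₐ[F k] K)) (D : Derivation k K K) :
    avgD N D = ((avg_S N).card : k)⁻¹ • ∑ g ∈ avg_S N, conjD g D := rfl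

private theorem avg_card [CharZero k] (N : Subgroup (K ≃ₐ[F k] K)) :
    ((avg_S N).card : k) ≠ 0 := by
  rw [Nat.cast_ne_zero]
  exact (Finset.card_pos.2 ⟨1, (avg_mem N 1).2 N.one_mem⟩).ne'

private theorem avg_Dadd (N : Subgroup (K ≃ₐ[F k] K)) (D D' : Derivation k K K) :
    avgD N (D + D') = avgD N D + avgD N D' := by
  rw [avg_eq, avg_eq, avg_eq, ← smul_add, ← Finset.sum_add_distrib]
  simp only [avg_add]

private theorem avg_Dsmul (N : Subgroup (K ≃ₐ[F k] K)) (c : k) (D : Derivation k K K) :
    avgD N (c • D) = c • avgD N D := by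
  rw [avg_eq, avg_eq, smul_comm c]
  congr 1
  rw [Finset.smul_sum]
  exact Finset.sum_congr rfl fun g _ => avg_smul g c D

/-- The average as a linear map. -/
private noncomputable def avg_A (N : Subgroup (K ≃ₐ[F k] K)) :
    Derivation k K K →ₗ[k] Derivation k K K where
  toFun := avgD N
  map_add' := avg_Dadd N
  map_smul' := avg_Dsmul N

private theorem avg_fix (N : Subgroup (K ≃ₐ[F k] K)) (D : Derivation k K K) (g : K ≃ₐ[F k] K)
    (hg : g ∈ N) : conjD g (avgD N D) = avgD N D := by
  rw [avg_eq, avg_smul, avg_sum]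
  congr 1
  simp only [avg_mul]
  refine Finset.sum_equiv (Equiv.mulLeft g) (fun h => ?_) (fun h _ => rfl)
  rw [avg_mem, avg_mem]
  exact (N.mul_mem_cancel_left hg).symm

private theorem avg_right (N : Subgroup (K ≃ₐ[F k] K)) (D : Derivation k K K)
    (g : K ≃ₐ[F k] K) (hg : g ∈ N) : avgD N (conjD g D) = avgD N D := by
  rw [avg_eq, avg_eq]
  congr 1
  simp only [avg_mul]
  refine Finset.sum_equiv (Equiv.mulRight g) (fun h => ?_) (fun h _ => rfl)
  rw [avg_mem, avg_mem]
  exact (N.mul_mem_cancel_right hg).symm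

private theorem avg_id [CharZero k] (N : Subgroup (K ≃ₐ[F k] K)) (D : Derivation k K K)
    (h : ∀ g ∈ N, conjD g D = D) : avgD N D = D := by
  rw [avg_eq, Finset.sum_congr rfl fun g hg => h g ((avg_mem N g).1 hg), Finset.sum_const,
    ← Nat.cast_smul_eq_nsmul k, smul_smul, inv_mul_cancel₀ (avg_card N), one_smul]

private theorem avg_comm (N : Subgroup (K ≃ₐ[F k] K)) (hN : N.Normal) (g : K ≃ₐ[F k] K)
    (D : Derivation k K K) : conjD g (avgD N D) = avgD N (conjD g D) := by
  rw [avg_eq, avg_eq, avg_smul, avg_sum]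
  congr 1
  simp only [avg_mul]
  refine Finset.sum_equiv (MulAut.conj g).toEquiv (fun h => ?_) (fun h _ => ?_)
  · rw [avg_mem, avg_mem]
    change h ∈ N ↔ g * h * g⁻¹ ∈ N
    refine ⟨fun hh => hN.conj_mem h hh g, fun hh => ?_⟩
    have h1 := hN.conj_mem _ hh g⁻¹
    have h2 : g⁻¹ * (g * h * g⁻¹) * g⁻¹⁻¹ = h := by group
    rwa [h2] at h1
  · change conjD (g * h) D = conjD (g * h * g⁻¹ * g) D
    rw [inv_mul_cancel_right]

private theorem avg_abs [CharZero k] (M N : Subgroup (K ≃ₐ[F k] K)) (hNM : N ≤ M)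
    (D : Derivation k K K) : avgD M (avgD N D) = avgD M D := by
  have h1 : avgD M (avgD N D) = avg_A M (((avg_S N).card : k)⁻¹ • ∑ g ∈ avg_S N, conjD g D) := rfl
  rw [h1, map_smul, map_sum]
  have h2 : ∀ g ∈ avg_S N, avg_A M (conjD g D) = avgD M D := fun g hg =>
    avg_right M D g (hNM ((avg_mem N g).1 hg))
  rw [Finset.sum_congr rfl h2, Finset.sum_const, ← Nat.cast_smul_eq_nsmul k, smul_smul,
    inv_mul_cancel₀ (avg_card N), one_smul]

private theorem avg_sup [CharZero k] (N N' : Subgroup (K ≃ₐ[F k] K)) (hN : N.Normal)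
    (D : Derivation k K K) : avgD N (avgD N' D) = avgD (N ⊔ N') D := by
  set X := avgD N (avgD N' D) with hX
  -- the stabilizer of `X`
  let S : Subgroup (K ≃ₐ[F k] K) :=
    { carrier := {g | conjD g X = X}
      mul_mem' := by
        intro g h hg hh
        change conjD g X = X at hg
        change conjD h X = X at hh
        change conjD (g * h) X = X
        rw [← avg_mul, hh, hg]
      one_mem' := by
        change conjD 1 X = X
        apply Derivation.ext
        intro x
        rfl
      inv_mem' := by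
        intro g hg
        change conjD g X = X at hg
        change conjD g⁻¹ X = X
        conv_lhs => rw [← hg]
        rw [avg_mul, inv_mul_cancel]
        apply Derivation.ext
        intro x
        rfl }
  have h1 : N ⊔ N' ≤ S := by
    refine sup_le (fun g hg => ?_) (fun g hg => ?_)
    · exact avg_fix N _ g hg
    · change conjD g X = X
      rw [hX, avg_comm N hN, avg_fix N' _ g hg]
  have h2 : avgD (N ⊔ N') X = X := avg_id _ X fun g hg => h1 hg
  rw [← h2, hX, avg_abs _ _ le_sup_left, avg_abs _ _ le_sup_right]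

end avg

/-- **Properties of the averages.** -/
theorem tAvg : AvgStmt := by
  intro k _ _ K _ _ _ _ _
  refine ⟨avg_add, avg_smul, avg_mul, avg_Dadd, fun N D D' => ?_, fun N D g hg => avg_fix N D g hg,
    avg_id, fun N W hW D hD => ?_, fun N N' hN _ D => avg_sup N N' hN D,
    fun N hN g D => avg_comm N hN g D⟩
  · exact map_sub (avg_A N) D D'
  · rw [avg_eq]
    exact W.smul_mem _ (W.sum_mem fun g hg => hW g ((avg_mem N g).1 hg) D hD)

end Pool.Agent.Lib.MP_4318ff_ag
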