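import Pool.Agent.Lib.MP_4318ff_ag.Spec.A1

/-!
# MP_4318ff_ag: every divisor lies in a chart (`ChartExStmt`)
-/

set_option autoImplicit false

namespace Pool.Agent.Lib.MP_4318ff_ag

open scoped LinearAlgebra.Projectivization

section chartex

variable {k : Type} [Field k]

/-- The form `q i * x j - q j * x i`. -/
def chartex_f (q : Fin 3 → k) (i j : Fin 3) : Fin 3 → k :=
  q i • Pi.single j 1 - q j • Pi.single i 1

theorem chartex_f_dot (q t : Fin 3 → k) (i j : Fin 3) :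
    chartex_f q i j ⬝ᵥ t = q i * t j - q j * t i := by
  unfold chartex_f
  rw [sub_dotProduct, smul_dotProduct, smul_dotProduct, single_dotProduct, single_dotProduct]
  simp

theorem chartex_two (q : Fin 3 → k) (hq : q ≠ 0) :
    ∃ c d : Fin 3 → k, LinearIndependent k ![c, d] ∧ c ⬝ᵥ q = 0 ∧ d ⬝ᵥ q = 0 := by
  obtain ⟨i, hi⟩ := Function.ne_iff.mp hq
  have hi' : q i ≠ 0 := hi
  have key : ∀ j l : Fin 3, j ≠ i → l ≠ i → j ≠ l →
      LinearIndependent k ![chartex_f q i j, chartex_f q i l] := by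
    intro j l hj hl hjl
    rw [LinearIndependent.pair_iff]
    intro s t hst
    constructor
    · have h := congrFun hst j
      simp only [chartex_f, Pi.add_apply, Pi.smul_apply, Pi.sub_apply, smul_eq_mul,
        Pi.single_eq_same, Pi.single_eq_of_ne hj, Pi.single_eq_of_ne hjl, Pi.zero_apply] at h
      have h' : s * q i = 0 := by linear_combination h
      exact (mul_eq_zero.mp h').resolve_right hi'
    · have h := congrFun hst l
      simp only [chartex_f, Pi.add_apply, Pi.smul_apply, Pi.sub_apply, smul_eq_mul,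
        Pi.single_eq_same, Pi.single_eq_of_ne hl, Pi.single_eq_of_ne hjl.symm,
        Pi.zero_apply] at h
      have h' : t * q i = 0 := by linear_combination h
      exact (mul_eq_zero.mp h').resolve_right hi'
  have h3 : ∀ i : Fin 3, ∃ j l : Fin 3, j ≠ i ∧ l ≠ i ∧ j ≠ l := by decide
  obtain ⟨j, l, hj, hl, hjl⟩ := h3 i
  refine ⟨chartex_f q i j, chartex_f q i l, key j l hj hl hjl, ?_, ?_⟩
  · rw [chartex_f_dot]; ring
  · rw [chartex_f_dot]; ring

theorem chartex_sep (Q T : Pt k) (h : Q ≠ T) :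
    ∃ c : Fin 3 → k, c ⬝ᵥ Q.rep = 0 ∧ c ⬝ᵥ T.rep ≠ 0 := by
  by_contra hcon
  push Not at hcon
  obtain ⟨i, hi⟩ := Function.ne_iff.mp Q.rep_nonzero
  have hi' : Q.rep i ≠ 0 := hi
  have hall : ∀ j, T.rep j = (T.rep i / Q.rep i) * Q.rep j := by
    intro j
    have h1 := hcon (chartex_f Q.rep i j) (by rw [chartex_f_dot]; ring)
    rw [chartex_f_dot] at h1
    field_simp
    linear_combination h1
  have h2 : (T.rep i / Q.rep i) • Q.rep = T.rep := by
    funext j
    rw [Pi.smul_apply, smul_eq_mul, hall j]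
  apply h
  have h3 : T = Q := by
    rw [← T.mk_rep, ← Q.mk_rep]
    rw [Projectivization.mk_eq_mk_iff']
    exact ⟨T.rep i / Q.rep i, by rw [h2]⟩
  exact h3.symm

theorem chartex_ex (r : ℕ) (C : Config k r) (O : Subalgebra k (F k)) (b : Fin 3 → k)
    (hb : UnitForm O b)
    (ha : ∀ P : Pt k, ∃ a : Fin 3 → k, a ≠ 0 ∧ a ⬝ᵥ P.rep = 0 ∧
      ∀ c : Fin 3 → k, c ⬝ᵥ P.rep = 0 → ev c / ev a ∈ O) :
    ∃ u : Chart C, u.R ≤ O := by
  choose a ha0 ha1 ha2 using ha
  refine ⟨{ b := b, b_ne := hb.1, a := a, a_ne := fun P _ => ha0 P,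
            a_through := fun P _ => ha1 P }, ?_⟩
  apply Algebra.adjoin_le
  rintro z (⟨c, rfl⟩ | ⟨P, _, c, hc, rfl⟩)
  · exact hb.2 c
  · exact ha2 P c hc

end chartex

/-- **Every divisor lies in a chart.** -/
theorem tChartEx : EvStmt → CurveStmt → ExcStmt → ChartExStmt := by
  intro _ hcv hex k _ r C O hO
  rcases hO with hO | ⟨T, _, hO⟩
  · obtain ⟨-, ⟨b, hb⟩, h3, -⟩ := hcv k O hO
    apply chartex_ex r C O b hb
    intro P
    obtain ⟨c, d, hcd, hc, hd⟩ := chartex_two P.rep P.rep_nonzero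
    have hc0 : c ≠ 0 := hcd.ne_zero 0
    rcases h3 c hc0 with h | h
    · exact ⟨c, hc0, hc, fun e _ => h.2 e⟩
    · have h' := (h d hcd).1
      exact ⟨d, h'.1, hd, fun e _ => h'.2 e⟩
  · obtain ⟨h1, h2, -, -⟩ := (hex k T).2 O hO
    obtain ⟨i, hi⟩ := Function.ne_iff.mp T.rep_nonzero
    have hb : (Pi.single i 1 : Fin 3 → k) ⬝ᵥ T.rep ≠ 0 := by
      rw [single_dotProduct, one_mul]
      exact hi
    apply chartex_ex r C O _ (h1 _ hb)
    intro P
    by_cases hP : P = T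
    · subst hP
      obtain ⟨c, d, hcd, hc, hd⟩ := chartex_two P.rep P.rep_nonzero
      have hc0 : c ≠ 0 := hcd.ne_zero 0
      exact ⟨c, hc0, hc, fun e he => h2 c e hc0 hc he⟩
    · obtain ⟨c, hc, hc'⟩ := chartex_sep P T hP
      exact ⟨c, (h1 c hc').1, hc, fun e _ => (h1 c hc').2 e⟩

end Pool.Agent.Lib.MP_4318ff_ag
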