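import Mathlib
import Pool.Agent.Lib.MP_4318ff_ag.Spec.Defs

/-!
# MP_4318ff_ag, G2: coordinates

* `ev` is linear and injective.
* for a basis `b, c, d` of the linear forms, `(c/b, d/b)` and `(c/b, d/c)` are coordinates.
-/

set_option autoImplicit false

namespace Pool.Agent.Lib.MP_4318ff_ag

variable {k : Type} [Field k]

theorem ev_add (a b : Fin 3 → k) : ev (a + b) = ev a + ev b := by
  simp [ev, add_mul, Finset.sum_add_distrib]

theorem ev_smul (c : k) (a : Fin 3 → k) : ev (c • a) = algebraMap k (F k) c * ev a := by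
  simp [ev, Finset.mul_sum, mul_assoc]

theorem ev_zero : ev (0 : Fin 3 → k) = 0 := by simp [ev]

theorem ev_neg (a : Fin 3 → k) : ev (-a) = - ev a := by simp [ev]

theorem ev_sub (a b : Fin 3 → k) : ev (a - b) = ev a - ev b := by
  rw [sub_eq_add_neg, ev_add, ev_neg, sub_eq_add_neg]

theorem ev_single (i : Fin 3) : ev (Pi.single i (1 : k)) = gen k i := by
  simp [ev, Pi.single_apply]

theorem gen_zero : gen k 0 = 1 := rfl

theorem gen_one : gen k 1 = algebraMap (MvPolynomial (Fin 2) k) (F k) (MvPolynomial.X 0) := rfl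

theorem gen_two : gen k 2 = algebraMap (MvPolynomial (Fin 2) k) (F k) (MvPolynomial.X 1) := rfl

/-- `ev a` is the image of a polynomial of degree one. -/
theorem ev_eq (a : Fin 3 → k) : ev a = algebraMap (MvPolynomial (Fin 2) k) (F k)
    (MvPolynomial.C (a 0) + MvPolynomial.C (a 1) * MvPolynomial.X 0 + MvPolynomial.C (a 2) * MvPolynomial.X 1) := by
  have h : ∀ c : k, algebraMap k (F k) c = algebraMap (MvPolynomial (Fin 2) k) (F k) (MvPolynomial.C c) := by
    intro c
    rw [IsScalarTower.algebraMap_apply k (MvPolynomial (Fin 2) k) (F k)]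
    rfl
  rw [ev, Fin.sum_univ_three, gen_zero, gen_one, gen_two, h, h, h]
  simp only [map_add, map_mul, mul_one]

theorem ev_eq_zero {a : Fin 3 → k} (h : ev a = 0) : a = 0 := by
  rw [ev_eq, map_eq_zero_iff _ (IsFractionRing.injective (MvPolynomial (Fin 2) k) (F k))] at h
  have h0 := congrArg (MvPolynomial.coeff 0) h
  have h1 := congrArg (MvPolynomial.coeff (Finsupp.single 0 1)) h
  have h2 := congrArg (MvPolynomial.coeff (Finsupp.single 1 1)) h
  simp only [MvPolynomial.coeff_add, MvPolynomial.coeff_C_mul, MvPolynomial.coeff_C, MvPolynomial.coeff_X,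
    MvPolynomial.coeff_zero] at h0 h1 h2
  have e1 : (Finsupp.single (0 : Fin 2) 1 : Fin 2 →₀ ℕ) ≠ 0 := by simp
  have e2 : (Finsupp.single (1 : Fin 2) 1 : Fin 2 →₀ ℕ) ≠ 0 := by simp
  have e3 : (Finsupp.single (0 : Fin 2) 1 : Fin 2 →₀ ℕ) ≠ Finsupp.single 1 1 := by
    intro h
    have := DFunLike.congr_fun h 0
    simp at this
  simp [e1, e2, e3, e1.symm, e2.symm, e3.symm] at h0 h1 h2
  ext i
  fin_cases i
  · exact h0
  · exact h1
  · exact h2

theorem ev_ne_zero {a : Fin 3 → k} (h : a ≠ 0) : ev a ≠ 0 := fun h' => h (ev_eq_zero h')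

theorem ev_injective : Function.Injective (ev : (Fin 3 → k) → F k) := by
  intro a b h
  have : ev (a - b) = 0 := by rw [ev_sub, h, sub_self]
  exact sub_eq_zero.1 (ev_eq_zero this)

/-! ### Transcendence degree -/

theorem trdeg_F : Algebra.trdeg k (F k) = 2 := by
  have h := (IsTranscendenceBasis.mvPolynomial (Fin 2) k)
  have : Algebra.IsAlgebraic (MvPolynomial (Fin 2) k) (F k) :=
    IsLocalization.isAlgebraic _ (nonZeroDivisors (MvPolynomial (Fin 2) k))
  have h2 := h.algebraMap_comp (A := F k)
  rw [← h2.cardinalMk_eq_trdeg]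
  simp

/-- Two generators of the field are coordinates. -/
theorem isCoord_of_adjoin (z w : F k) (h : IntermediateField.adjoin k {z, w} = ⊤) : IsCoord z w := by
  have hr : Set.range ![z, w] = {z, w} := by
    ext u
    rw [Set.mem_range, Fin.exists_fin_two]
    simp [eq_comm]
  have hfrac : ∀ f : F k, ∃ h₁ h₂ : MvPolynomial (Fin 2) k, f = cm z w h₁ / cm z w h₂ := by
    intro f
    have hf : f ∈ IntermediateField.adjoin k {z, w} := by rw [h]; trivial
    rw [IntermediateField.mem_adjoin_iff_div] at hf
    obtain ⟨r, hr', s, hs', rfl⟩ := hf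
    rw [← hr, Algebra.adjoin_range_eq_range_aeval] at hr' hs'
    obtain ⟨h₁, rfl⟩ := hr'
    obtain ⟨h₂, rfl⟩ := hs'
    exact ⟨h₁, h₂, rfl⟩
  have halg : Algebra.IsAlgebraic (Algebra.adjoin k (Set.range ![z, w])) (F k) := by
    constructor
    intro f
    obtain ⟨h₁, h₂, hf⟩ := hfrac f
    have m : ∀ g, cm z w g ∈ Algebra.adjoin k (Set.range ![z, w]) := by
      intro g
      rw [Algebra.adjoin_range_eq_range_aeval]
      exact ⟨g, rfl⟩
    by_cases h0 : cm z w h₂ = 0
    · rw [hf, h0, div_zero]
      exact isAlgebraic_zero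
    · refine ⟨Polynomial.C ⟨_, m h₂⟩ * Polynomial.X - Polynomial.C ⟨_, m h₁⟩, ?_, ?_⟩
      · intro h1
        have := congrArg (fun p => Polynomial.coeff p 1) h1
        simp only [Polynomial.coeff_sub, Polynomial.coeff_C_mul, Polynomial.coeff_X_one, mul_one,
          Polynomial.coeff_C_succ, sub_zero, Polynomial.coeff_zero] at this
        exact h0 (congrArg Subtype.val this)
      · simp only [map_sub, map_mul, Polynomial.aeval_C, Polynomial.aeval_X]
        rw [hf]
        change cm z w h₂ * (cm z w h₁ / cm z w h₂) - cm z w h₁ = 0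
        field_simp
        ring
  have hb := Algebra.IsAlgebraic.isTranscendenceBasis_of_le_trdeg_of_finite k ![z, w] (by rw [trdeg_F]; simp)
  have hinj : Function.Injective (cm z w) := hb.1
  refine ⟨hinj, fun f => ?_⟩
  obtain ⟨h₁, h₂, hf⟩ := hfrac f
  by_cases h0 : h₂ = 0
  · refine ⟨0, 1, one_ne_zero, ?_⟩
    rw [hf, h0]
    simp
  · exact ⟨h₁, h₂, h0, hf⟩

/-! ### The standard coordinates -/

theorem adjoin_gen : IntermediateField.adjoin k {gen k 1, gen k 2} = ⊤ := by
  rw [eq_top_iff]
  intro f _
  rw [IntermediateField.mem_adjoin_iff_div]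
  obtain ⟨p, q, hq, rfl⟩ := IsFractionRing.div_surjective (A := MvPolynomial (Fin 2) k) f
  have h : ∀ g : MvPolynomial (Fin 2) k,
      algebraMap (MvPolynomial (Fin 2) k) (F k) g ∈ Algebra.adjoin k {gen k 1, gen k 2} := by
    intro g
    induction g using MvPolynomial.induction_on with
    | C a =>
      have : algebraMap (MvPolynomial (Fin 2) k) (F k) (MvPolynomial.C a) = algebraMap k (F k) a := by
        rw [IsScalarTower.algebraMap_apply k (MvPolynomial (Fin 2) k) (F k)]
        rfl
      rw [this]
      exact Subalgebra.algebraMap_mem _ _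
    | add p q hp hq => rw [map_add]; exact add_mem hp hq
    | mul_X p i hp =>
      rw [map_mul]
      refine mul_mem hp (Algebra.subset_adjoin ?_)
      fin_cases i
      · exact Or.inl rfl
      · exact Or.inr rfl
  exact ⟨_, h p, _, h q, rfl⟩

/-- An intermediate field which contains the quotients of a basis of the forms is everything. -/
theorem eq_top_of_quot {b c d : Fin 3 → k} (h : LinearIndependent k ![b, c, d]) (L : IntermediateField k (F k))
    (hc : ev c / ev b ∈ L) (hd : ev d / ev b ∈ L) : L = ⊤ := by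
  have hb : b ≠ 0 := h.ne_zero 0
  have hs : ∀ a : Fin 3 → k, ev a / ev b ∈ L := by
    intro a
    have hsp : (⊤ : Submodule k (Fin 3 → k)) ≤ Submodule.span k (Set.range ![b, c, d]) := by
      rw [LinearIndependent.span_eq_top_of_card_eq_finrank' h (by simp)]
    have ha : a ∈ Submodule.span k (Set.range ![b, c, d]) := hsp trivial
    induction ha using Submodule.span_induction with
    | mem x hx =>
      obtain ⟨i, rfl⟩ := hx
      fin_cases i
      · change ev b / ev b ∈ L
        rw [div_self (ev_ne_zero hb)]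
        exact one_mem _
      · exact hc
      · exact hd
    | zero => rw [ev_zero, zero_div]; exact zero_mem _
    | add x y _ _ hx hy => rw [ev_add, add_div]; exact add_mem hx hy
    | smul t x _ hx =>
      rw [ev_smul, mul_div_assoc]
      exact mul_mem (L.algebraMap_mem t) hx
  have h1 : ev b ∈ L := by
    have := hs (Pi.single 0 1)
    rw [ev_single, gen_zero] at this
    have h2 := inv_mem this
    rwa [one_div, inv_inv] at h2
  have hg : ∀ i, gen k i ∈ L := by
    intro i
    have := mul_mem (hs (Pi.single i 1)) h1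
    rwa [ev_single, div_mul_cancel₀ _ (ev_ne_zero hb)] at this
  rw [eq_top_iff, ← adjoin_gen, IntermediateField.adjoin_le_iff]
  rintro x (rfl | rfl)
  · exact hg 1
  · exact hg 2

/-- The affine coordinates `c / b, d / b`. -/
theorem isCoord_affine {b c d : Fin 3 → k} (h : LinearIndependent k ![b, c, d]) :
    IsCoord (ev c / ev b) (ev d / ev b) := by
  apply isCoord_of_adjoin
  apply eq_top_of_quot h
  · exact IntermediateField.subset_adjoin _ _ (Or.inl rfl)
  · exact IntermediateField.subset_adjoin _ _ (Or.inr rfl)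

/-- The coordinates `c / b, d / c` of a chart of the blow-up of the point `c = d = 0`. -/
theorem isCoord_blowup {b c d : Fin 3 → k} (h : LinearIndependent k ![b, c, d]) :
    IsCoord (ev c / ev b) (ev d / ev c) := by
  apply isCoord_of_adjoin
  have h1 : ev c / ev b ∈ IntermediateField.adjoin k {ev c / ev b, ev d / ev c} :=
    IntermediateField.subset_adjoin _ _ (Or.inl rfl)
  have h2 : ev d / ev c ∈ IntermediateField.adjoin k {ev c / ev b, ev d / ev c} :=
    IntermediateField.subset_adjoin _ _ (Or.inr rfl)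
  apply eq_top_of_quot h _ h1
  have h3 := mul_mem h2 h1
  have hc : ev c ≠ 0 := ev_ne_zero (h.ne_zero 1)
  rwa [div_mul_div_cancel₀ hc] at h3

end Pool.Agent.Lib.MP_4318ff_ag
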