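import Pool.Agent.Lib.MP_4318ff_ag.Spec.A1
import Pool.Agent.Lib.MP_4318ff_ag.A.G2

set_option autoImplicit false

namespace Pool.Agent.Lib.MP_4318ff_ag

theorem tCoord : CoordStmt := fun _ _ _ _ _ h => ⟨isCoord_affine h, isCoord_blowup h⟩

end Pool.Agent.Lib.MP_4318ff_ag
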