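import Pool.Agent.Lib.MP_4318ff_ag.Spec.A3

/-!
# MP_4318ff_ag, module A/Core: the core theorem
-/

set_option autoImplicit false

namespace Pool.Agent.Lib.MP_4318ff_ag

open scoped LinearAlgebra.Projectivization

private lemma core_ic_mono {k : Type} [Field k] (K : Type) [Field K] [Algebra (F k) K]
    {S T : Subalgebra k (F k)} (h : S ≤ T) {y : K} (hy : y ∈ ic K S) : y ∈ ic K T := by
  obtain ⟨f, hf, hfy⟩ := (show IsIntegral S y from hy)
  refine (show IsIntegral T y from ⟨f.map (Subalgebra.inclusion h).toRingHom, hf.map _, ?_⟩)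
  rw [Polynomial.eval₂_map]
  exact hfy

/-- a second point of `M` on a line -/
private lemma core_other (hTwo : TwoStmt) {k : Type} [Field k] {r : ℕ} (C : Config k r)
    (hrig : C.InfRigid) (hr : 6 ≤ r) (i : Fin r) (T : Pt k) :
    ∃ Q ∈ C.M, T ≠ Q ∧ i ∈ C.through Q := by
  obtain ⟨P, hP, Q, hQ, hPQ, hiP, hiQ⟩ := hTwo k r C hrig hr i
  by_cases h : T = P
  · exact ⟨Q, hQ, by rw [h]; exact hPQ, hiQ⟩
  · exact ⟨P, hP, h, hiP⟩

/-- regularity of the cochain -/
private lemma core_reg (hHartK : HartKStmt) (hRegCurve : RegCurveStmt) (hRegExc : RegExcStmt)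
    (hInv : InvStmt) (hTwo : TwoStmt) (hSpn : SpnStmt) (hBas : BasStmt) (hExc : ExcStmt)
    {k : Type} [Field k] [CharZero k] [IsAlgClosed k] {r n : ℕ} (C : Config k r) (K : Type)
    [Field K] [Algebra (F k) K] [Algebra k K] [IsScalarTower k (F k) K] [FiniteDimensional (F k) K]
    [IsGalois (F k) K] (hrig : C.InfRigid) (hr : 6 ≤ r) (hn : r ≤ n + 1) (hroots : Roots K C n)
    (P₀ : Pt k) (S : Set (Pt k)) (hS : ∀ P ∈ C.M, P ≠ P₀ → P ∈ S)
    (u : Chart C) (E : Derivation k K K)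
    (hreg : ∀ P ∈ S, ∀ O, IsDiv C O → u.R ≤ O → RegAt C n P O E)
    (hcase : ∀ T ∈ C.M, T ∈ S ∨ (T = P₀ ∧ ∀ g ∈ NP K T, conjD g E = E))
    (y : K) (hy : y ∈ ic K u.R) (hyK : y ∈ Kummer K C n) : E y ∈ ic K u.R := by
  have hn0 : 0 < n := by omega
  have hn2 : 2 ≤ n := by omega
  refine hHartK k r C K u (E y) fun O hO huO => ?_
  have hyO : y ∈ ic K O := core_ic_mono K huO hy
  rcases hO with hcur | ⟨T, hT, hexc⟩
  · refine hRegCurve k r n C K O E P₀ hn0 hroots hcur ?_ ?_ ?_ y hyO hyK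
    · intro i
      obtain ⟨P, hP, hne, hiP⟩ := core_other hTwo C hrig hr i P₀
      exact ⟨P, hP, fun h => hne h.symm, hiP⟩
    · exact (hSpn k r C hrig hr).1 P₀
    · intro P hP hne
      exact hreg P (hS P hP hne) O (Or.inl hcur) huO
  · have hdiv : IsDiv C O := Or.inr ⟨T, hT, hexc⟩
    obtain ⟨hB1, -, hB3, -, -, -⟩ := hBas k r C
    obtain ⟨i, hi, j, hj, m, hm, hij, him, hjm⟩ := hB3 T hT
    rcases hcase T hT with hTS | ⟨hTP, hinv⟩
    · -- a line through T and a point of S on it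
      have hex : ∃ i' ∈ C.through T, ∃ Q ∈ C.M, T ≠ Q ∧ i' ∈ C.through Q ∧ Q ∈ S := by
        by_cases hT0 : T = P₀
        · obtain ⟨Q, hQ, hne, hiQ⟩ := core_other hTwo C hrig hr i T
          exact ⟨i, hi, Q, hQ, hne, hiQ, hS Q hQ (by rw [← hT0]; exact fun h => hne h.symm)⟩
        · have h1 : ∃ i' ∈ C.through T, i' ∉ C.through P₀ := by
            by_contra hcon
            push Not at hcon
            exact hT0 (hB1 i j T P₀ hij hi hj (hcon i hi) (hcon j hj))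
          obtain ⟨i', hi', hi0⟩ := h1
          obtain ⟨Q, hQ, hne, hiQ⟩ := core_other hTwo C hrig hr i' T
          exact ⟨i', hi', Q, hQ, hne, hiQ, hS Q hQ (by rintro rfl; exact hi0 hiQ)⟩
      obtain ⟨i', hi', Q, hQ, hne, hiQ, hQS⟩ := hex
      refine hRegExc k r n C K T Q i' O E hn0 hroots hexc hne hQ hi' hiQ
        (hreg Q hQS O hdiv huO) ?_ y hyO hyK
      intro c d hc hcT hdT
      exact (hreg T hTS O hdiv huO).1 d c hdT hcT (((hExc k T).2 O hexc).2.1 c d hc hcT hdT)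
    · obtain ⟨Q₁, hQ₁, hne₁, hiQ₁⟩ := core_other hTwo C hrig hr i T
      obtain ⟨Q₂, hQ₂, hne₂, hiQ₂⟩ := core_other hTwo C hrig hr j T
      have hR₁ := hreg Q₁ (hS Q₁ hQ₁ (by rw [← hTP]; exact fun h => hne₁ h.symm)) O hdiv huO
      have hR₂ := hreg Q₂ (hS Q₂ hQ₂ (by rw [← hTP]; exact fun h => hne₂ h.symm)) O hdiv huO
      exact hRegExc k r n C K T Q₁ i O E hn0 hroots hexc hne₁ hQ₁ hi hiQ₁ hR₁
        (hInv k r n C K T Q₁ Q₂ i j O E hn2 hroots hexc hij hne₁ hne₂ hQ₁ hQ₂ hi hj hiQ₁ hiQ₂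
          hR₁ hR₂ hinv) y hyO hyK

/-- two different points of `M`, different from `P₀` -/
private lemma core_two (hSpn : SpnStmt) (hBas : BasStmt) {k : Type} [Field k] {r : ℕ}
    (C : Config k r) (hrig : C.InfRigid) (hr : 6 ≤ r) (P₀ : Pt k) :
    ∃ P ∈ C.M, ∃ Q ∈ C.M, P ≠ P₀ ∧ Q ≠ P₀ ∧ P ≠ Q := by
  obtain ⟨hspn, -⟩ := hSpn k r C hrig hr
  have h1 : (Pi.single 0 1 : Fin 3 → k) ≠ 0 := by
    intro h
    have := congrFun h 0
    simp at this
  obtain ⟨P, hP, hP0, -⟩ := hspn P₀ _ h1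
  obtain ⟨-, -, hB3, -, -, -⟩ := hBas k r C
  obtain ⟨i, hi, j, hj, m, hm, hij, -, -⟩ := hB3 P hP
  have hne : C.ℓ i ≠ 0 := by
    have := (C.indep i j hij).ne_zero 0
    simpa using this
  obtain ⟨Q, hQ, hQ0, hQi⟩ := hspn P₀ _ hne
  refine ⟨P, hP, Q, hQ, hP0, hQ0, ?_⟩
  rintro rfl
  exact hQi hi

/-- The core theorem. -/
theorem tCore : MFinStmt → VecStmt → HartKStmt → DerUniqStmt → RegEqStmt → RegModStmt →
    RegCurveStmt → RegExcStmt → InvStmt → AvgStmt → TwoStmt → SpnStmt → BasStmt → ExcStmt →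
    CoreStmt := by
  intro hMFin hVec hHartK hDerUniq hRegEq hRegMod hRegCurve hRegExc hInv hAvg hTwo hSpn hBas hExc
  intro k _ _ _ r n C K _ _ _ _ _ _ hrig hr hn hroots D P₀ hext hcase
  classical
  have hn0 : 0 < n := by omega
  have hfin : C.M.Finite := hMFin k r C
  obtain ⟨A, hA, B, hB, hA0, hB0, hAB⟩ := core_two hSpn hBas C hrig hr P₀
  -- the vector fields for a finite set S of points
  have main : ∀ S : Finset (Pt k), (∀ P ∈ S, P ∈ C.M) → (∀ P ∈ C.M, P ≠ P₀ → P ∈ S) →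
      (∀ P ∈ S, ExtOne n P D) → ∃ E : Chart C → Derivation k K K,
        (∀ u v, D u v = E v - E u) ∧
        ∀ u, ∀ P ∈ S, ∀ O, IsDiv C O → u.R ≤ O → RegAt C n P O (E u) := by
    intro S hSM hS hSext
    choose! Δ hΔ using hSext
    obtain ⟨E, hE⟩ := hVec k r n C K hrig hr hn hroots P₀ S hSM hS D Δ
      (fun P hP u O hO huO => (hΔ P hP).1 u O hO huO) (fun P hP u v => (hΔ P hP).2 u v)
    refine ⟨E, ?_, ?_⟩
    · intro u v
      have key : ∀ P ∈ S, EqOn P (D u v) (E v - E u) := by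
        intro P hP c c' hc hc'
        have h1 := (hΔ P hP).2 u v c c' hc hc'
        have h2 := hE v P hP c c' hc hc'
        have h3 := hE u P hP c c' hc hc'
        rw [h1, Derivation.sub_apply, Derivation.sub_apply, h2, h3]
      exact hDerUniq k K A B (D u v) (E v - E u) hAB (key A (hS A hA hA0)) (key B (hS B hB hB0))
    · intro u P hP O hO huO
      exact hRegEq k r n C K P O (E u) (Δ P u) hn0 (hE u P hP) ((hΔ P hP).1 u O hO huO)
  rcases hcase with hP0 | hinv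
  · -- case 1
    obtain ⟨E, hDE, hreg⟩ := main hfin.toFinset (fun P hP => hfin.mem_toFinset.1 hP)
      (fun P hP _ => hfin.mem_toFinset.2 hP) (by
        intro P hP
        by_cases h : P = P₀
        · rw [h]; exact hP0
        · exact hext P (hfin.mem_toFinset.1 hP) h)
    refine ⟨E, fun u y hy hyK => ?_, hDE⟩
    exact core_reg hHartK hRegCurve hRegExc hInv hTwo hSpn hBas hExc C K hrig hr hn hroots P₀ C.M
      (fun P hP _ => hP) u (E u)
      (fun P hP O hO huO => hreg u P (hfin.mem_toFinset.2 hP) O hO huO)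
      (fun T hT => Or.inl hT) y hy hyK
  · -- case 2
    obtain ⟨E₀, hDE, hreg⟩ := main (hfin.toFinset.filter (fun P => P ≠ P₀))
      (fun P hP => hfin.mem_toFinset.1 (Finset.mem_filter.1 hP).1)
      (fun P hP hne => Finset.mem_filter.2 ⟨hfin.mem_toFinset.2 hP, hne⟩) (by
        intro P hP
        have h := Finset.mem_filter.1 hP
        exact hext P (hfin.mem_toFinset.1 h.1) h.2)
    obtain ⟨-, -, -, -, hA5, hA6, hA7, hA8, -, -⟩ := hAvg k K
    refine ⟨fun u => avgD (NP K P₀) (E₀ u), fun u y hy hyK => ?_, ?_⟩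
    · refine core_reg hHartK hRegCurve hRegExc hInv hTwo hSpn hBas hExc C K hrig hr hn hroots P₀
        {P | P ∈ C.M ∧ P ≠ P₀} (fun P hP hne => ⟨hP, hne⟩) u (avgD (NP K P₀) (E₀ u)) ?_ ?_ y hy hyK
      · rintro P ⟨hP, hne⟩ O hO huO
        obtain ⟨W, hW, hWg⟩ := (hRegMod k r n C K).2.1 P O
        rw [← hW]
        refine hA8 (NP K P₀) W (fun g _ D' hD' => hWg g D' hD') (E₀ u) ?_
        rw [hW]
        exact hreg u P (Finset.mem_filter.2 ⟨hfin.mem_toFinset.2 hP, hne⟩) O hO huO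
      · intro T hT
        by_cases h : T = P₀
        · refine Or.inr ⟨h, fun g hg => ?_⟩
          rw [h] at hg
          exact hA6 (NP K P₀) (E₀ u) g hg
        · exact Or.inl ⟨hT, h⟩
    · intro u v
      change D u v = avgD (NP K P₀) (E₀ v) - avgD (NP K P₀) (E₀ u)
      rw [← hA5, ← hDE u v]
      exact (hA7 (NP K P₀) (D u v) (fun g hg => hinv g hg u v)).symm

end Pool.Agent.Lib.MP_4318ff_ag
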