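import Pool.Agent.Lib.MP_4318ff_ag.A.Curve1

/-!
# MP_4318ff_ag, A/Curve: curves of the plane
-/

set_option autoImplicit false

namespace Pool.Agent.Lib.MP_4318ff_ag

open MvPolynomial

variable {k : Type} [Field k]

lemma curve_basis {b c d : Fin 3 → k} (h : LinearIndependent k ![b, c, d]) (a : Fin 3 → k) :
    ∃ β γ δ : k, a = β • b + γ • c + δ • d := by
  have hcard : Fintype.card (Fin 3) = Module.finrank k (Fin 3 → k) := by
    rw [Module.finrank_fintype_fun_eq_card]
  obtain ⟨B, hB⟩ : ∃ B : Module.Basis (Fin 3) k (Fin 3 → k), ⇑B = ![b, c, d] :=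
    ⟨basisOfLinearIndependentOfCardEqFinrank h hcard, by simp⟩
  have h1 := B.sum_repr a
  rw [Fin.sum_univ_three, hB] at h1
  exact ⟨B.repr a 0, B.repr a 1, B.repr a 2, h1.symm⟩

lemma curve_ne {b c d : Fin 3 → k} (h : LinearIndependent k ![b, c, d]) : b ≠ 0 :=
  h.ne_zero 0

/-- The polynomial of a linear form. -/
noncomputable def curve_L (β γ δ : k) : MvPolynomial (Fin 2) k := C β + C γ * X 0 + C δ * X 1

lemma curve_ev3 (hE : EvStmt) (β γ δ : k) (b c d : Fin 3 → k) :
    ev (β • b + γ • c + δ • d) = algebraMap k (F k) β * ev b + algebraMap k (F k) γ * ev c +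
      algebraMap k (F k) δ * ev d := by
  obtain ⟨h1, h2, -⟩ := hE k
  rw [h1, h1, h2, h2, h2]

lemma curve_cmL (hE : EvStmt) {b c d : Fin 3 → k} (hb : b ≠ 0) (β γ δ : k) :
    cm (ev c / ev b) (ev d / ev b) (curve_L β γ δ) = ev (β • b + γ • c + δ • d) / ev b := by
  have hb0 : ev b ≠ 0 := fun h => hb (((hE k).2.2 b).mp h)
  unfold curve_L
  simp only [map_add, map_mul, curve_cmC, curve_cm0, curve_cm1]
  rw [curve_ev3 hE]
  field_simp

lemma curve_form (hE : EvStmt) {b c d : Fin 3 → k} (h : LinearIndependent k ![b, c, d])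
    (a : Fin 3 → k) : ∃ β γ δ : k, a = β • b + γ • c + δ • d ∧
      ev a / ev b = cm (ev c / ev b) (ev d / ev b) (curve_L β γ δ) := by
  obtain ⟨β, γ, δ, e⟩ := curve_basis h a
  exact ⟨β, γ, δ, e, by rw [curve_cmL hE (curve_ne h), ← e]⟩

lemma curve_deg (β γ δ : k) : (curve_L β γ δ).totalDegree ≤ 1 := by
  unfold curve_L
  refine (totalDegree_add _ _).trans (max_le ((totalDegree_add _ _).trans (max_le ?_ ?_)) ?_)
  · rw [totalDegree_C]
    exact Nat.zero_le 1
  · refine (totalDegree_mul _ _).trans ?_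
    rw [totalDegree_C, totalDegree_X]
  · refine (totalDegree_mul _ _).trans ?_
    rw [totalDegree_C, totalDegree_X]

lemma curve_dvd {p L : MvPolynomial (Fin 2) k} (hp : Irreducible p) (hL : L ≠ 0)
    (hd : L.totalDegree ≤ 1) (h : p ∣ L) : ∃ s : k, s ≠ 0 ∧ L = C s * p := by
  obtain ⟨g, hg⟩ := h
  have hp0 : p ≠ 0 := hp.ne_zero
  have hg0 : g ≠ 0 := by
    rintro rfl
    rw [mul_zero] at hg
    exact hL hg
  have h1 : p.totalDegree ≠ 0 := by
    intro h0
    rw [totalDegree_eq_zero_iff_eq_C] at h0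
    apply hp.not_isUnit
    rw [h0]
    have hc : coeff 0 p ≠ 0 := by
      intro hc
      rw [hc, map_zero] at h0
      exact hp0 h0
    exact (isUnit_iff_ne_zero.mpr hc).map C
  have h2 := totalDegree_mul_of_isDomain hp0 hg0
  rw [← hg] at h2
  have h3 : g.totalDegree = 0 := by omega
  rw [totalDegree_eq_zero_iff_eq_C] at h3
  refine ⟨coeff 0 g, ?_, ?_⟩
  · intro hc
    rw [hc, map_zero] at h3
    exact hg0 h3
  · rw [← h3, hg, mul_comm]

theorem tCurve (hE : EvStmt) (hC : CoordStmt) (hL : LocStmt) : CurveStmt := by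
  intro k _ O hO
  obtain ⟨b0, c0, d0, p, hli, hO⟩ := hO
  have hp : Irreducible p := hO.1
  have hc := (hC k b0 c0 d0 hli).1
  obtain ⟨hcmO, hunit, hunif⟩ := (hL k _ _ hc p hp).2 O hO
  have hb0 : b0 ≠ 0 := curve_ne hli
  have hev : ∀ a : Fin 3 → k, a ≠ 0 → ev a ≠ 0 := fun a ha h => ha (((hE k).2.2 a).mp h)
  have hform : ∀ a : Fin 3 → k, ev a / ev b0 ∈ O := by
    intro a
    obtain ⟨β, γ, δ, -, e⟩ := curve_form hE hli a
    rw [e]
    exact hcmO _
  have hUF : ∀ b : Fin 3 → k, b ≠ 0 → (ev b / ev b0)⁻¹ ∈ O → UnitForm O b := by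
    intro b hb h
    refine ⟨hb, fun c => ?_⟩
    have h1 := hev b hb
    have h2 := hev b0 hb0
    have : ev c / ev b = ev c / ev b0 * (ev b / ev b0)⁻¹ := by
      field_simp
    rw [this]
    exact mul_mem (hform c) h
  refine ⟨⟨_, hunif⟩, ⟨b0, hb0, hform⟩, ?_, ?_⟩
  · intro b hb
    obtain ⟨β, γ, δ, eb, e⟩ := curve_form hE hli b
    have hLb : curve_L β γ δ ≠ 0 := by
      intro h
      rw [h, map_zero] at e
      exact div_ne_zero (hev b hb) (hev b0 hb0) e
    by_cases hpL : p ∣ curve_L β γ δ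
    · right
      intro c hbc
      have hc0 : c ≠ 0 := hbc.ne_zero 1
      obtain ⟨s, hs, eL⟩ := curve_dvd hp hLb (curve_deg β γ δ) hpL
      obtain ⟨β', γ', δ', ec, e'⟩ := curve_form hE hli c
      have hLc : curve_L β' γ' δ' ≠ 0 := by
        intro h
        rw [h, map_zero] at e'
        exact div_ne_zero (hev c hc0) (hev b0 hb0) e'
      have hpc : ¬ p ∣ curve_L β' γ' δ' := by
        intro hcon
        obtain ⟨s', hs', eL'⟩ := curve_dvd hp hLc (curve_deg β' γ' δ') hcon
        have h1 : ev (s' • b) = ev (s • c) := by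
          rw [(hE k).2.1, (hE k).2.1]
          have h2 : ev b = cm (ev c0 / ev b0) (ev d0 / ev b0) (C s * p) * ev b0 := by
            rw [← eL, ← e, div_mul_cancel₀ _ (hev b0 hb0)]
          have h3 : ev c = cm (ev c0 / ev b0) (ev d0 / ev b0) (C s' * p) * ev b0 := by
            rw [← eL', ← e', div_mul_cancel₀ _ (hev b0 hb0)]
          rw [h2, h3]
          simp only [map_mul, curve_cmC]
          ring
        have h4 : s' • b + (-s) • c = 0 := by
          have h5 : ev (s' • b + (-s) • c) = 0 := by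
            rw [(hE k).1, h1, (hE k).2.1, (hE k).2.1, map_neg]
            ring
          exact ((hE k).2.2 _).mp h5
        have h6 := LinearIndependent.pair_iff.mp hbc s' (-s) h4
        exact hs' h6.1
      have hcinv : (ev c / ev b0)⁻¹ ∈ O := by
        rw [e']
        exact (hunit _ hLc).mpr hpc
      refine ⟨hUF c hc0 hcinv, ?_⟩
      have h7 : ev b / ev c = cm (ev c0 / ev b0) (ev d0 / ev b0) p *
          (algebraMap k (F k) s * (ev c / ev b0)⁻¹) := by
        have h8 : ev b / ev c = (ev b / ev b0) * (ev c / ev b0)⁻¹ := by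
          have h9 := hev b0 hb0
          have h10 := hev c hc0
          field_simp
        rw [h8, e, eL, map_mul, curve_cmC]
        ring
      rw [h7]
      refine curve_unif_mul hunif (mul_mem (O.algebraMap_mem s) hcinv) ?_ ?_
      · rw [mul_inv, inv_inv, ← map_inv₀]
        exact mul_mem (O.algebraMap_mem _) (hform c)
      · refine mul_ne_zero ?_ (inv_ne_zero (div_ne_zero (hev c hc0) (hev b0 hb0)))
        rw [Ne, map_eq_zero]
        exact hs
    · left
      apply hUF b hb
      rw [e]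
      exact (hunit _ hLb).mpr hpL
  · intro b c d hbcd hU
    have hb : b ≠ 0 := curve_ne hbcd
    have hevb := hev b hb
    have hevb0 := hev b0 hb0
    have hc' := (hC k b c d hbcd).1
    have f1 : ∀ a : Fin 3 → k, ∃ h, ev a / ev b0 = cm (ev c0 / ev b0) (ev d0 / ev b0) h := by
      intro a
      obtain ⟨β, γ, δ, -, e⟩ := curve_form hE hli a
      exact ⟨_, e⟩
    have f2 : ∀ a : Fin 3 → k, ∃ h, ev a / ev b = cm (ev c / ev b) (ev d / ev b) h := by
      intro a
      obtain ⟨β, γ, δ, -, e⟩ := curve_form hE hbcd a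
      exact ⟨_, e⟩
    have g1 : ∀ a : Fin 3 → k, ev a / ev b * (ev b / ev b0) = ev a / ev b0 := by
      intro a
      field_simp
    have g2 : ∀ a : Fin 3 → k, ev a / ev b0 * (ev b / ev b0)⁻¹ = ev a / ev b := by
      intro a
      field_simp
    have g3 : (ev b / ev b0)⁻¹ = ev b0 / ev b := inv_div _ _
    refine curve_change hL (t := ev b / ev b0) hc hc' ?_ ?_ ?_ ?_ ?_ ?_ (div_ne_zero hevb hevb0) hO ?_
    · rw [g1]; exact f1 c
    · rw [g1]; exact f1 d
    · exact f1 b
    · rw [g2]; exact f2 c0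
    · rw [g2]; exact f2 d0
    · rw [g3]; exact f2 b0
    · rw [g3]; exact hU.2 b0

end Pool.Agent.Lib.MP_4318ff_ag
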