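import Pool.Agent.Lib.MP_4318ff_ag.Spec.A1

/-!
# MP_4318ff_ag, A/Curve1: change of coordinates for a divisor
-/

set_option autoImplicit false

namespace Pool.Agent.Lib.MP_4318ff_ag

open MvPolynomial

variable {k : Type} [Field k]

lemma curve_cm0 (z w : F k) : cm z w (X 0) = z := by
  unfold cm
  rw [aeval_X]
  rfl

lemma curve_cm1 (z w : F k) : cm z w (X 1) = w := by
  unfold cm
  rw [aeval_X]
  rfl

lemma curve_cmC (z w : F k) (a : k) : cm z w (C a) = algebraMap k (F k) a := by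
  unfold cm
  rw [aeval_C]

lemma curve_dom {O O' : Subalgebra k (F k)} {π π' : F k} (h : IsUnif O π) (h' : IsUnif O' π')
    (hle : O' ≤ O) : O' = O := by
  refine le_antisymm hle ?_
  intro f hf
  by_cases hf0 : f = 0
  · rw [hf0]
    exact zero_mem _
  obtain ⟨e, u, hu, hu', he⟩ := h'.2.2 f hf0
  have hu0 : u ≠ 0 := by
    rintro rfl
    rw [mul_zero] at he
    exact hf0 he
  have hπ'0 : π' ≠ 0 := by
    rintro rfl
    exact h'.2.1 (by rw [inv_zero]; exact zero_mem _)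
  rcases le_or_gt 0 e with he0 | he0
  · obtain ⟨n, rfl⟩ := Int.eq_ofNat_of_zero_le he0
    rw [he, zpow_natCast]
    exact mul_mem (pow_mem h'.1 n) hu
  · exfalso
    have h1 : π'⁻¹ ∈ O := by
      obtain ⟨n, hn⟩ : ∃ n : ℕ, e = -((n : ℤ) + 1) := ⟨(-e - 1).toNat, by omega⟩
      have h2 : π'⁻¹ = f * u⁻¹ * π' ^ n := by
        rw [he, hn]
        rw [zpow_neg, zpow_add₀ hπ'0, zpow_natCast, zpow_one]
        field_simp
      rw [h2]
      exact mul_mem (mul_mem hf (hle hu')) (pow_mem (hle h'.1) n)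
    have h3 : ∀ g : F k, g ∈ O := by
      intro g
      by_cases hg0 : g = 0
      · rw [hg0]
        exact zero_mem _
      obtain ⟨e2, u2, hu2, -, he2⟩ := h'.2.2 g hg0
      rw [he2]
      refine mul_mem ?_ (hle hu2)
      rcases le_or_gt 0 e2 with h4 | h4
      · obtain ⟨n, rfl⟩ := Int.eq_ofNat_of_zero_le h4
        rw [zpow_natCast]
        exact pow_mem (hle h'.1) n
      · obtain ⟨n, hn⟩ : ∃ n : ℕ, e2 = -(n : ℤ) := ⟨(-e2).toNat, by omega⟩
        rw [hn, zpow_neg, zpow_natCast, ← inv_pow]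
        exact pow_mem h1 n
    exact h.2.1 (h3 _)

lemma curve_unif_mul {O : Subalgebra k (F k)} {π v : F k} (h : IsUnif O π) (hv : v ∈ O)
    (hv' : v⁻¹ ∈ O) (hv0 : v ≠ 0) : IsUnif O (π * v) := by
  refine ⟨mul_mem h.1 hv, ?_, ?_⟩
  · intro h1
    refine h.2.1 ?_
    have h2 : π⁻¹ = (π * v)⁻¹ * v := by
      rw [mul_inv, mul_assoc, inv_mul_cancel₀ hv0, mul_one]
    rw [h2]
    exact mul_mem h1 hv
  · intro f hf
    obtain ⟨e, u, hu, hu', he⟩ := h.2.2 f hf
    have h3 : ∀ e : ℤ, v ^ e ∈ O := by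
      intro e
      rcases le_or_gt 0 e with h4 | h4
      · obtain ⟨n, rfl⟩ := Int.eq_ofNat_of_zero_le h4
        rw [zpow_natCast]
        exact pow_mem hv n
      · obtain ⟨n, hn⟩ : ∃ n : ℕ, e = -(n : ℤ) := ⟨(-e).toNat, by omega⟩
        rw [hn, zpow_neg, zpow_natCast, ← inv_pow]
        exact pow_mem hv' n
    refine ⟨e, v ^ (-e) * u, mul_mem (h3 _) hu, ?_, ?_⟩
    · rw [mul_inv, ← zpow_neg, neg_neg]
      exact mul_mem (h3 _) hu'
    · rw [he, mul_zpow, mul_assoc, ← mul_assoc (v ^ e), ← zpow_add₀ hv0, add_neg_cancel, zpow_zero,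
        one_mul]

lemma curve_hom {z w z' w' t : F k} (hz : ∃ h, z' * t = cm z w h) (hw : ∃ h, w' * t = cm z w h)
    (ht : ∃ h, t = cm z w h) (h : MvPolynomial (Fin 2) k) :
    ∃ (N : ℕ) (H : MvPolynomial (Fin 2) k), cm z' w' h * t ^ N = cm z w H := by
  obtain ⟨hz, ehz⟩ := hz
  obtain ⟨hw, ehw⟩ := hw
  obtain ⟨T, eT⟩ := ht
  induction h using MvPolynomial.induction_on with
  | C a => exact ⟨0, C a, by rw [pow_zero, mul_one, curve_cmC, curve_cmC]⟩
  | add f g hf hg =>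
    obtain ⟨N1, H1, e1⟩ := hf
    obtain ⟨N2, H2, e2⟩ := hg
    refine ⟨N1 + N2, H1 * T ^ N2 + H2 * T ^ N1, ?_⟩
    simp only [map_add, map_mul, map_pow]
    rw [← e1, ← e2, ← eT]
    ring
  | mul_X f i hf =>
    obtain ⟨N1, H1, e1⟩ := hf
    rcases (by omega : i = 0 ∨ i = 1) with rfl | rfl
    · refine ⟨N1 + 1, H1 * hz, ?_⟩
      simp only [map_mul, curve_cm0]
      rw [← e1, ← ehz]
      ring
    · refine ⟨N1 + 1, H1 * hw, ?_⟩
      simp only [map_mul, curve_cm1]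
      rw [← e1, ← ehw]
      ring

lemma curve_factor {z w : F k} {O : Subalgebra k (F k)} (h : MvPolynomial (Fin 2) k) (h0 : h ≠ 0)
    (hO : (cm z w h)⁻¹ ∉ O) :
    ∃ q : MvPolynomial (Fin 2) k, Irreducible q ∧ q ∣ h ∧ (cm z w q)⁻¹ ∉ O := by
  induction h using WfDvdMonoid.induction_on_irreducible with
  | zero => exact absurd rfl h0
  | unit u hu =>
    exfalso
    obtain ⟨a, ha, rfl⟩ := MvPolynomial.isUnit_iff_eq_C_of_isReduced.mp hu
    rw [curve_cmC, ← map_inv₀] at hO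
    exact hO (O.algebraMap_mem _)
  | mul a i ha hi ih =>
    by_cases h1 : (cm z w i)⁻¹ ∈ O
    · have h2 : (cm z w a)⁻¹ ∉ O := by
        intro h2
        apply hO
        rw [map_mul, mul_inv]
        exact mul_mem h1 h2
      obtain ⟨q, hq, hqa, hqO⟩ := ih ha h2
      exact ⟨q, hq, hqa.mul_left i, hqO⟩
    · exact ⟨i, hi, Dvd.intro a rfl, h1⟩

/-- Change of coordinates. -/
theorem curve_change (hL : LocStmt) {z w z' w' t : F k} (hc : IsCoord z w) (hc' : IsCoord z' w')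
    (hz : ∃ h, z' * t = cm z w h) (hw : ∃ h, w' * t = cm z w h) (ht : ∃ h, t = cm z w h)
    (hz' : ∃ h, z * t⁻¹ = cm z' w' h) (hw' : ∃ h, w * t⁻¹ = cm z' w' h)
    (ht' : ∃ h, t⁻¹ = cm z' w' h) (ht0 : t ≠ 0) {p : MvPolynomial (Fin 2) k}
    {O : Subalgebra k (F k)} (hO : IsLoc z w p O) (htO : t⁻¹ ∈ O) :
    ∃ p', IsLoc z' w' p' O := by
  have hp : Irreducible p := hO.1
  obtain ⟨hcmO, hunit, hunif⟩ := (hL k z w hc p hp).2 O hO
  have htO' : t ∈ O := by
    obtain ⟨h, e⟩ := ht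
    rw [e]
    exact hcmO h
  have hz'O : z' ∈ O := by
    obtain ⟨h, e⟩ := hz
    have : z' = cm z w h * t⁻¹ := by rw [← e, mul_assoc, mul_inv_cancel₀ ht0, mul_one]
    rw [this]
    exact mul_mem (hcmO h) htO
  have hw'O : w' ∈ O := by
    obtain ⟨h, e⟩ := hw
    have : w' = cm z w h * t⁻¹ := by rw [← e, mul_assoc, mul_inv_cancel₀ ht0, mul_one]
    rw [this]
    exact mul_mem (hcmO h) htO
  have hcm'O : ∀ h, cm z' w' h ∈ O := by
    intro h
    obtain ⟨N, H, e⟩ := curve_hom hz hw ht h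
    have : cm z' w' h = cm z w H * t⁻¹ ^ N := by
      rw [← e, mul_assoc, ← mul_pow, mul_inv_cancel₀ ht0, one_pow, mul_one]
    rw [this]
    exact mul_mem (hcmO H) (pow_mem htO N)
  have hcm0 : ∀ h, h ≠ 0 → cm z w h ≠ 0 := by
    intro h h0 h1
    exact h0 (hc.1 (by rw [h1, map_zero]))
  have hcm'0 : ∀ h, h ≠ 0 → cm z' w' h ≠ 0 := by
    intro h h0 h1
    exact h0 (hc'.1 (by rw [h1, map_zero]))
  -- the polynomial p in the new coordinates
  obtain ⟨N, qt, eqt⟩ := curve_hom hz' hw' ht' p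
  have hqt0 : qt ≠ 0 := by
    rintro rfl
    rw [map_zero] at eqt
    have h1 := mul_eq_zero.mp eqt
    rcases h1 with h1 | h1
    · exact hcm0 p hp.ne_zero h1
    · exact pow_ne_zero N (inv_ne_zero ht0) h1
  have hqtO : (cm z' w' qt)⁻¹ ∉ O := by
    intro h1
    have h2 : (cm z w p)⁻¹ ∈ O := by
      have : (cm z w p)⁻¹ = (cm z' w' qt)⁻¹ * t⁻¹ ^ N := by
        rw [← eqt, mul_inv, mul_assoc, inv_mul_cancel₀ (pow_ne_zero _ (inv_ne_zero ht0)), mul_one]
      rw [this]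
      exact mul_mem h1 (pow_mem htO N)
    exact ((hunit p hp.ne_zero).mp h2) dvd_rfl
  obtain ⟨q, hq, hqqt, hqO⟩ := curve_factor qt hqt0 hqtO
  have key : ∀ h, h ≠ 0 → (cm z' w' h)⁻¹ ∉ O → q ∣ h := by
    intro h h0 h1
    obtain ⟨N1, H, eH⟩ := curve_hom hz hw ht h
    have hH0 : H ≠ 0 := by
      rintro rfl
      rw [map_zero] at eH
      exact mul_ne_zero (hcm'0 h h0) (pow_ne_zero _ ht0) eH
    have hHp : p ∣ H := by
      by_contra hcon
      have h2 := (hunit H hH0).mpr hcon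
      apply h1
      have : (cm z' w' h)⁻¹ = (cm z w H)⁻¹ * t ^ N1 := by
        rw [← eH, mul_inv, mul_assoc, inv_mul_cancel₀ (pow_ne_zero _ ht0), mul_one]
      rw [this]
      exact mul_mem h2 (pow_mem htO' N1)
    obtain ⟨G, hG⟩ := hHp
    obtain ⟨N2, G', eG'⟩ := curve_hom hz' hw' ht' G
    obtain ⟨T', eT'⟩ := ht'
    have e1 : h * T' ^ (N + N2) = qt * G' * T' ^ N1 := by
      apply hc'.1
      simp only [map_mul, map_pow]
      rw [← eG', ← eqt, ← eT']
      have e2 : cm z' w' h = cm z w p * cm z w G * t⁻¹ ^ N1 := by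
        rw [← map_mul, ← hG, ← eH, mul_assoc, ← mul_pow, mul_inv_cancel₀ ht0, one_pow, mul_one]
      rw [e2]
      ring
    have e3 : q ∣ h * T' ^ (N + N2) := by
      rw [e1, mul_assoc]
      exact hqqt.mul_right _
    rcases hq.prime.dvd_or_dvd e3 with h3 | h3
    · exact h3
    · exfalso
      obtain ⟨s, hs⟩ := hq.prime.dvd_of_dvd_pow h3
      apply hqO
      have hq0 : cm z' w' q ≠ 0 := hcm'0 q hq.ne_zero
      have : (cm z' w' q)⁻¹ = t * cm z' w' s := by
        have e4 : t⁻¹ = cm z' w' q * cm z' w' s := by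
          rw [← map_mul, ← hs]
          exact eT'
        have e5 : t * (cm z' w' q * cm z' w' s) = 1 := by
          rw [← e4, mul_inv_cancel₀ ht0]
        rw [inv_eq_iff_eq_inv]
        refine eq_inv_of_mul_eq_one_left ?_
        rw [← e5]
        ring
      rw [this]
      exact mul_mem htO' (hcm'O s)
  obtain ⟨O', hO'⟩ := (hL k z' w' hc' q hq).1
  have hunif' := ((hL k z' w' hc' q hq).2 O' hO').2.2
  have hle : O' ≤ O := by
    intro f hf
    obtain ⟨h1, h2, hq2, e⟩ := (hO'.2 f).mp hf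
    have h20 : h2 ≠ 0 := by
      rintro rfl
      exact hq2 (dvd_zero _)
    have h3 : (cm z' w' h2)⁻¹ ∈ O := by
      by_contra hcon
      exact hq2 (key h2 h20 hcon)
    have : f = cm z' w' h1 * (cm z' w' h2)⁻¹ := by
      rw [← e, mul_assoc, mul_inv_cancel₀ (hcm'0 h2 h20), mul_one]
    rw [this]
    exact mul_mem (hcm'O h1) h3
  have hOO : O' = O := curve_dom hunif hunif' hle
  exact ⟨q, hOO ▸ hO'⟩

end Pool.Agent.Lib.MP_4318ff_ag
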