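import Pool.Agent.Lib.MP_4318ff_ag.Spec.A2

/-!
# MP_4318ff_ag, module A/DerUniq: a derivation is determined by its values along two pencils
-/

set_option autoImplicit false

namespace Pool.Agent.Lib.MP_4318ff_ag

open scoped LinearAlgebra.Projectivization

variable {k : Type} [Field k]

/-- two different points have a nonzero minor -/
private lemma deruniq_minor (P Q : Pt k) (h : P ≠ Q) :
    ∃ i j : Fin 3, P.rep i * Q.rep j ≠ P.rep j * Q.rep i := by
  by_contra hcon
  push Not at hcon
  have hP : ∃ i, P.rep i ≠ 0 := by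
    by_contra h0
    push Not at h0
    exact P.rep_nonzero (funext h0)
  obtain ⟨i, hi⟩ := hP
  apply h
  have h1 : (Q.rep i / P.rep i) • P.rep = Q.rep := by
    ext j
    have := hcon i j
    simp only [Pi.smul_apply, smul_eq_mul]
    rw [div_mul_eq_mul_div, div_eq_iff hi]
    rw [mul_comm (Q.rep i), mul_comm (Q.rep j)]
    exact this.symm
  have h2 : Projectivization.mk k Q.rep Q.rep_nonzero = Projectivization.mk k P.rep P.rep_nonzero :=
    (Projectivization.mk_eq_mk_iff' k _ _ _ _).2 ⟨_, h1⟩
  rw [Projectivization.mk_rep, Projectivization.mk_rep] at h2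
  exact h2.symm

/-- the form `p_i e_j - p_j e_i` -/
private noncomputable def deruniq_c (p : Fin 3 → k) (i j : Fin 3) : Fin 3 → k :=
  p i • (Pi.single j 1) - p j • (Pi.single i 1)

private lemma deruniq_c_dot (p q : Fin 3 → k) (i j : Fin 3) :
    deruniq_c p i j ⬝ᵥ q = p i * q j - p j * q i := by
  simp [deruniq_c, sub_dotProduct, smul_dotProduct, single_dotProduct]

/-- the cross product -/
private def deruniq_x (p q : Fin 3 → k) : Fin 3 → k :=
  ![p 1 * q 2 - p 2 * q 1, p 2 * q 0 - p 0 * q 2, p 0 * q 1 - p 1 * q 0]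

private lemma deruniq_x_dot1 (p q : Fin 3 → k) : deruniq_x p q ⬝ᵥ p = 0 := by
  simp only [deruniq_x, dotProduct, Fin.sum_univ_three, Matrix.cons_val_zero, Matrix.cons_val_one,
    Matrix.cons_val]
  ring

private lemma deruniq_x_dot2 (p q : Fin 3 → k) : deruniq_x p q ⬝ᵥ q = 0 := by
  simp only [deruniq_x, dotProduct, Fin.sum_univ_three, Matrix.cons_val_zero, Matrix.cons_val_one,
    Matrix.cons_val]
  ring

private lemma deruniq_x_ne (p q : Fin 3 → k) (i j : Fin 3) (h : p i * q j ≠ p j * q i) :
    deruniq_x p q ≠ 0 := by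
  intro h0
  have e0 := congrFun h0 0
  have e1 := congrFun h0 1
  have e2 := congrFun h0 2
  simp only [deruniq_x, Matrix.cons_val_zero, Matrix.cons_val_one, Matrix.cons_val,
    Pi.zero_apply] at e0 e1 e2
  apply h
  fin_cases i <;> fin_cases j <;> simp <;> first
    | linear_combination e0
    | linear_combination e1
    | linear_combination e2
    | linear_combination -e0
    | linear_combination -e1
    | linear_combination -e2

private lemma deruniq_li (b c d p q : Fin 3 → k) (hb : b ≠ 0) (hbp : b ⬝ᵥ p = 0) (hbq : b ⬝ᵥ q = 0)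
    (hcp : c ⬝ᵥ p = 0) (hcq : c ⬝ᵥ q ≠ 0) (hdq : d ⬝ᵥ q = 0) (hdp : d ⬝ᵥ p ≠ 0) :
    LinearIndependent k ![b, c, d] := by
  rw [Fintype.linearIndependent_iff]
  intro g hg
  rw [Fin.sum_univ_three] at hg
  simp only [Matrix.cons_val_zero, Matrix.cons_val_one, Matrix.cons_val] at hg
  have h1 : g 1 = 0 := by
    have := congrArg (fun v => v ⬝ᵥ q) hg
    simp only [add_dotProduct, smul_dotProduct, hbq, hdq, zero_dotProduct, smul_eq_mul, mul_zero,
      zero_add, add_zero] at this
    exact (mul_eq_zero.1 this).resolve_right hcq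
  have h2 : g 2 = 0 := by
    have := congrArg (fun v => v ⬝ᵥ p) hg
    simp only [add_dotProduct, smul_dotProduct, hbp, hcp, zero_dotProduct, smul_eq_mul, mul_zero,
      zero_add] at this
    exact (mul_eq_zero.1 this).resolve_right hdp
  have h0 : g 0 = 0 := by
    rw [h1, h2, zero_smul, zero_smul, add_zero, add_zero] at hg
    exact (smul_eq_zero.1 hg).resolve_right hb
  intro i
  fin_cases i
  · exact h0
  · exact h1
  · exact h2

private lemma deruniq_cm {K : Type} [Field K] [Algebra (F k) K] [Algebra k K]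
    [IsScalarTower k (F k) K] (D : Derivation k K K) (z w : F k)
    (hz : D (algebraMap (F k) K z) = 0) (hw : D (algebraMap (F k) K w) = 0)
    (h : MvPolynomial (Fin 2) k) : D (algebraMap (F k) K (cm z w h)) = 0 := by
  induction h using MvPolynomial.induction_on with
  | C a =>
    have h1 : cm z w (MvPolynomial.C a) = algebraMap k (F k) a := by
      simp [cm]
    rw [h1, ← IsScalarTower.algebraMap_apply]
    exact D.map_algebraMap a
  | add p q hp hq => rw [map_add, map_add, map_add, hp, hq, add_zero]
  | mul_X p i hp =>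
    have h1 : cm z w (MvPolynomial.X i) = ![z, w] i := by
      simp [cm]
    have h2 : D (algebraMap (F k) K (![z, w] i)) = 0 := by
      fin_cases i
      · exact hz
      · exact hw
    rw [map_mul, map_mul, D.leibniz, hp, h1, h2, smul_zero, smul_zero, add_zero]

private lemma deruniq_F {K : Type} [Field K] [Algebra (F k) K] [Algebra k K]
    [IsScalarTower k (F k) K] (D : Derivation k K K) (z w : F k) (hzw : IsCoord z w)
    (hz : D (algebraMap (F k) K z) = 0) (hw : D (algebraMap (F k) K w) = 0) (f : F k) :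
    D (algebraMap (F k) K f) = 0 := by
  obtain ⟨h1, h2, -, hf⟩ := hzw.2 f
  rw [hf, map_div₀, D.leibniz_div, deruniq_cm D z w hz hw, deruniq_cm D z w hz hw, smul_zero,
    smul_zero, sub_zero, smul_zero]

private lemma deruniq_K [CharZero k] {K : Type} [Field K] [Algebra (F k) K] [Algebra k K]
    [IsScalarTower k (F k) K] [FiniteDimensional (F k) K] (D : Derivation k K K)
    (hF : ∀ f : F k, D (algebraMap (F k) K f) = 0) (y : K) : D y = 0 := by
  have : CharZero (F k) := charZero_of_injective_algebraMap (algebraMap k (F k)).injective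
  have hlin : ∀ (f : F k) (x : K), D (f • x) = f • D x := by
    intro f x
    rw [Algebra.smul_def, D.leibniz, hF f, smul_zero, add_zero, smul_eq_mul, ← Algebra.smul_def]
  let L : K →ₗ[F k] K :=
    { toFun := D
      map_add' := fun a b => map_add D a b
      map_smul' := fun f x => hlin f x }
  let D' : Derivation (F k) K K := Derivation.mk' L (fun a b => D.leibniz a b)
  have h1 : D' y = D y := rfl
  have h2 := D'.map_aeval (minpoly (F k) y) y
  rw [minpoly.aeval, map_zero] at h2
  have h3 : Polynomial.aeval y (Polynomial.derivative (minpoly (F k) y)) ≠ 0 :=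
    (Algebra.IsSeparable.isSeparable (F k) y).aeval_derivative_ne_zero (minpoly.aeval _ _)
  rw [← h1]
  exact (smul_eq_zero.1 h2.symm).resolve_left h3

/-- A derivation is determined by its values along two pencils. -/
theorem tDerUniq : EvStmt → CoordStmt → DerUniqStmt := by
  intro _ hCoord k _ _ K _ _ _ _ _ P Q Δ Δ' hPQ hP hQ
  obtain ⟨i, j, hij⟩ := deruniq_minor P Q hPQ
  set p := P.rep with hp
  set q := Q.rep with hq
  have hb : deruniq_x p q ≠ 0 := deruniq_x_ne p q i j hij
  have hcp : deruniq_c p i j ⬝ᵥ p = 0 := by rw [deruniq_c_dot]; ring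
  have hcq : deruniq_c p i j ⬝ᵥ q ≠ 0 := by
    rw [deruniq_c_dot]
    exact sub_ne_zero.2 hij
  have hdq : deruniq_c q i j ⬝ᵥ q = 0 := by rw [deruniq_c_dot]; ring
  have hdp : deruniq_c q i j ⬝ᵥ p ≠ 0 := by
    rw [deruniq_c_dot]
    intro h
    apply hij
    linear_combination -h
  have hli := deruniq_li _ _ _ p q hb (deruniq_x_dot1 p q) (deruniq_x_dot2 p q) hcp hcq hdq hdp
  have hco := (hCoord k _ _ _ hli).1
  have hz : (Δ - Δ') (algebraMap (F k) K (ev (deruniq_c p i j) / ev (deruniq_x p q))) = 0 := by
    rw [Derivation.sub_apply, hP _ _ hcp (deruniq_x_dot1 p q), sub_self]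
  have hw : (Δ - Δ') (algebraMap (F k) K (ev (deruniq_c q i j) / ev (deruniq_x p q))) = 0 := by
    rw [Derivation.sub_apply, hQ _ _ hdq (deruniq_x_dot2 p q), sub_self]
  have hF := deruniq_F (Δ - Δ') _ _ hco hz hw
  ext y
  have := deruniq_K (Δ - Δ') hF y
  rw [Derivation.sub_apply] at this
  exact sub_eq_zero.1 this

end Pool.Agent.Lib.MP_4318ff_ag
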