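import Pool.Agent.Lib.MP_4318ff_ag.Spec.A2

/-!
# MP_4318ff_ag: vector fields from vectors
-/

set_option autoImplicit false

namespace Pool.Agent.Lib.MP_4318ff_ag

open scoped LinearAlgebra.Projectivization TensorProduct

/-- a derivation of `K` with prescribed values on the coordinates -/
theorem derv_exists (k : Type) [Field k] [CharZero k] (K : Type) [Field K] [Algebra (F k) K]
    [Algebra k K] [IsScalarTower k (F k) K] [FiniteDimensional (F k) K] (y : Fin 2 → K) :
    ∃ E : Derivation k K K, ∀ i : Fin 2,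
      E (algebraMap (F k) K (algebraMap (MvPolynomial (Fin 2) k) (F k) (MvPolynomial.X i))) =
        y i := by
  let _ : Algebra (MvPolynomial (Fin 2) k) K :=
    ((algebraMap (F k) K).comp (algebraMap (MvPolynomial (Fin 2) k) (F k))).toAlgebra
  have hst : IsScalarTower (MvPolynomial (Fin 2) k) (F k) K :=
    IsScalarTower.of_algebraMap_eq fun _ => rfl
  have hst2 : IsScalarTower k (MvPolynomial (Fin 2) k) K := by
    refine IsScalarTower.of_algebraMap_eq fun c => ?_
    change algebraMap k K c = algebraMap (F k) K (algebraMap (MvPolynomial (Fin 2) k) (F k)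
      (algebraMap k (MvPolynomial (Fin 2) k) c))
    rw [← IsScalarTower.algebraMap_apply k (MvPolynomial (Fin 2) k) (F k),
      ← IsScalarTower.algebraMap_apply k (F k) K]
  have hc : CharZero (F k) := charZero_of_injective_algebraMap
    (algebraMap k (F k)).injective
  have h1 : Algebra.FormallyEtale (MvPolynomial (Fin 2) k) (F k) :=
    Algebra.FormallyEtale.of_isLocalization (nonZeroDivisors _)
  have h2 : Algebra.FormallyEtale (F k) K := Algebra.FormallyEtale.of_isSeparable _ K
  have h3 : Algebra.FormallyEtale (MvPolynomial (Fin 2) k) K :=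
    Algebra.FormallyEtale.comp _ (F k) _
  let D0 : Derivation k (MvPolynomial (Fin 2) k) K := MvPolynomial.mkDerivation k y
  let φ : K ⊗[MvPolynomial (Fin 2) k] (Ω[MvPolynomial (Fin 2) k⁄k]) →ₗ[K] K :=
    LinearMap.liftBaseChange K D0.liftKaehlerDifferential
  let χ : Ω[K⁄k] →ₗ[K] K :=
    φ ∘ₗ (KaehlerDifferential.tensorKaehlerEquivOfFormallyEtale k
      (MvPolynomial (Fin 2) k) K).symm.toLinearMap
  refine ⟨χ.compDer (KaehlerDifferential.D k K), fun i => ?_⟩
  change φ ((KaehlerDifferential.tensorKaehlerEquivOfFormallyEtale k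
    (MvPolynomial (Fin 2) k) K).symm (KaehlerDifferential.D k K
      (algebraMap (MvPolynomial (Fin 2) k) K (MvPolynomial.X i)))) = y i
  rw [KaehlerDifferential.tensorKaehlerEquivOfFormallyEtale_symm_D_algebraMap]
  simp [φ, D0]

theorem tDerV : DerVStmt := by
  intro k _ _ K _ _ _ _ _ v
  obtain ⟨E, hE⟩ := derv_exists k K
    ![v 1 - v 0 * algebraMap (F k) K
        (algebraMap (MvPolynomial (Fin 2) k) (F k) (MvPolynomial.X 0)),
      v 2 - v 0 * algebraMap (F k) K
        (algebraMap (MvPolynomial (Fin 2) k) (F k) (MvPolynomial.X 1))]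
  refine ⟨E, fun c => ?_⟩
  have h0 := hE 0
  have h1 := hE 1
  have hk : ∀ a : k, E (algebraMap k K a) = 0 := fun a => E.map_algebraMap a
  have ht : ∀ a : k, algebraMap (F k) K (algebraMap k (F k) a) = algebraMap k K a := fun a =>
    (IsScalarTower.algebraMap_apply k (F k) K a).symm
  unfold ev
  simp only [gen, Fin.sum_univ_three, Matrix.cons_val_zero, Matrix.cons_val_one,
    Matrix.cons_val] at h0 h1 ⊢
  simp only [map_add, map_mul, mul_one, ht, Derivation.leibniz, hk, h0, h1, smul_eq_mul,
    mul_zero, add_zero]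
  ring

end Pool.Agent.Lib.MP_4318ff_ag
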