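import Mathlib
import Pool.Agent.Lib.MP_4318ff_ag.Spec.Defs

/-!
# MP_4318ff_ag, G1: the minimal polynomial lemma

If `y` is integral over every `O` of a family of integrally closed subalgebras of the field `F`, then the coefficients of the
minimal polynomial of `y` lie in the intersection of the family.
-/

set_option autoImplicit false

namespace Pool.Agent.Lib.MP_4318ff_ag

open Polynomial

section General

variable {k F' K' : Type*} [Field k] [Field F'] [Algebra k F'] [Field K'] [Algebra F' K']

/-- The coefficients of the minimal polynomial of an element integral over `O` are integral over `O`. -/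
theorem isIntegral_coeff_minpoly (O : Subalgebra k F') {y : K'} (hy : IsIntegral O y) (n : ℕ) :
    IsIntegral O ((minpoly F' y).coeff n) := by
  have hyF : IsIntegral F' y := hy.tower_top
  obtain ⟨f, hf, hfy⟩ := hy
  have hd : minpoly F' y ∣ f.map (algebraMap O F') := by
    apply minpoly.dvd
    rw [Polynomial.aeval_def, Polynomial.eval₂_map]
    rw [← IsScalarTower.algebraMap_eq O F' K']
    exact hfy
  have h := integralClosure.mem_lifts_of_monic_of_dvd_map (R := O) F' hf (minpoly.monic hyF) hd
  rw [Polynomial.lifts_iff_coeff_lifts] at h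
  obtain ⟨c, hc⟩ := h n
  rw [← hc]
  exact c.2

/-- If `O` is integrally closed in `F` then the coefficients of the minimal polynomial of an integral element are in `O`. -/
theorem coeff_minpoly_mem (O : Subalgebra k F') (hO : ∀ f : F', IsIntegral O f → f ∈ O) {y : K'}
    (hy : IsIntegral O y) (n : ℕ) : (minpoly F' y).coeff n ∈ O :=
  hO _ (isIntegral_coeff_minpoly O hy n)

/-- If the coefficients of the minimal polynomial of `y` are in `S` then `y` is integral over `S`. -/
theorem isIntegral_of_coeff_minpoly_mem (S : Subalgebra k F') {y : K'} (hy : IsIntegral F' y)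
    (h : ∀ n, (minpoly F' y).coeff n ∈ S) : IsIntegral S y := by
  have hl : minpoly F' y ∈ Polynomial.lifts (algebraMap S F') := by
    rw [Polynomial.lifts_iff_coeff_lifts]
    intro n
    exact ⟨⟨_, h n⟩, rfl⟩
  obtain ⟨g, hg, -, hm⟩ := Polynomial.lifts_and_degree_eq_and_monic hl (minpoly.monic hy)
  refine ⟨g, hm, ?_⟩
  rw [IsScalarTower.algebraMap_eq S F' K', ← Polynomial.eval₂_map, hg]
  exact minpoly.aeval F' y

/-- **The minimal polynomial lemma.** -/
theorem isIntegral_of_forall {ι : Type*} (S : Subalgebra k F') (O : ι → Subalgebra k F')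
    (hO : ∀ i, ∀ f : F', IsIntegral (O i) f → f ∈ O i) (hS : ∀ f : F', (∀ i, f ∈ O i) → f ∈ S)
    {y : K'} (hyF : IsIntegral F' y) (h : ∀ i, IsIntegral (O i) y) : IsIntegral S y :=
  isIntegral_of_coeff_minpoly_mem S hyF fun n => hS _ fun i => coeff_minpoly_mem (O i) (hO i) (h i) n

end General

section Ic

variable {k : Type} [Field k] (K : Type) [Field K] [Algebra (F k) K]

theorem mem_ic {S : Subalgebra k (F k)} {y : K} : y ∈ ic K S ↔ IsIntegral S y := Iff.rfl

theorem ic_mono {S T : Subalgebra k (F k)} (h : S ≤ T) : ic K S ≤ ic K T := by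
  intro y hy
  obtain ⟨f, hf, hfy⟩ := (mem_ic K).1 hy
  refine (mem_ic K).2 ⟨f.map (Subalgebra.inclusion h).toRingHom, hf.map _, ?_⟩
  rw [Polynomial.eval₂_map]
  exact hfy

theorem algebraMap_mem_ic {S : Subalgebra k (F k)} {f : F k} (hf : f ∈ S) : algebraMap (F k) K f ∈ ic K S :=
  (mem_ic K).2 (isIntegral_algebraMap (R := S) (A := K) (x := ⟨f, hf⟩))

/-- The minimal polynomial lemma for `ic`. -/
theorem ic_of_forall [Algebra.IsAlgebraic (F k) K] {ι : Type*} (S : Subalgebra k (F k))
    (O : ι → Subalgebra k (F k)) (hO : ∀ i, ∀ f : F k, IsIntegral (O i) f → f ∈ O i)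
    (hS : ∀ f : F k, (∀ i, f ∈ O i) → f ∈ S) {y : K} (h : ∀ i, y ∈ ic K (O i)) : y ∈ ic K S :=
  isIntegral_of_forall S O hO hS (Algebra.IsAlgebraic.isAlgebraic y).isIntegral h

end Ic

end Pool.Agent.Lib.MP_4318ff_ag
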