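import Pool.Agent.Lib.MP_4318ff_ag.Spec.A1
import Pool.Agent.Lib.MP_4318ff_ag.A.G1

set_option autoImplicit false

namespace Pool.Agent.Lib.MP_4318ff_ag

/-- Divisors have integrally closed local rings. -/
theorem hartK_intClosed (hU : UnifStmt) (hC : CurveStmt) (hE : ExcStmt) {k : Type} [Field k] {r : ℕ} {C : Config k r}
    {O : Subalgebra k (F k)} (hO : IsDiv C O) (f : F k) (hf : IsIntegral O f) : f ∈ O := by
  have key : ∃ π, IsUnif O π := by
    rcases hO with hO | ⟨P, -, hO⟩
    · exact (hC k O hO).1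
    · obtain ⟨b, c, d, hl, hc, hd, -⟩ := id hO
      have hb : b ⬝ᵥ P.rep ≠ 0 := by
        intro hb
        have hM : (Matrix.of ![b, c, d]).mulVec P.rep = 0 := by
          ext i
          fin_cases i
          · exact hb
          · exact hc
          · exact hd
        have hu : IsUnit (Matrix.of ![b, c, d]) := by
          rw [← Matrix.linearIndependent_rows_iff_isUnit]
          exact hl
        have hinj := Matrix.mulVec_injective_iff_isUnit.2 hu
        exact P.rep_nonzero (hinj (by rw [hM, Matrix.mulVec_zero]))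
      exact ⟨_, ((hE k P).2 O hO).2.2.1 b c hb (hl.ne_zero 1) hc⟩
  obtain ⟨π, hπ⟩ := key
  exact (hU k O π hπ).2.1 f hf

theorem tHartK : UnifStmt → CurveStmt → ExcStmt → HartStmt → HartKStmt := by
  intro hU hC hE hH k _ r C K _ _ _ u y hy
  exact ic_of_forall K (ι := {O : Subalgebra k (F k) // IsDiv C O ∧ u.R ≤ O}) u.R (fun O => O.1)
    (fun O f hf => hartK_intClosed hU hC hE O.2.1 f hf)
    (fun f hf => hH k r C u f fun O h1 h2 => hf ⟨O, h1, h2⟩)
    (fun O => hy O.1 O.2.1 O.2.2)

end Pool.Agent.Lib.MP_4318ff_ag
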