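import Pool.Agent.Lib.MP_4318ff_ag.Spec.A3
import Pool.Agent.Lib.MP_4318ff_ag.A.HartK

/-!
# MP_4318ff_ag: descent of invariant derivations
-/

set_option autoImplicit false

namespace Pool.Agent.Lib.MP_4318ff_ag

open scoped LinearAlgebra.Projectivization TensorProduct

section

variable {k : Type} [Field k] {K : Type} [Field K] [Algebra (F k) K] [Algebra k K]
  [IsScalarTower k (F k) K]

/-- an invariant derivation maps `F` to `F` -/
theorem desc_descend [FiniteDimensional (F k) K] [IsGalois (F k) K] (Δ : Derivation k K K)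
    (h : ∀ g : K ≃ₐ[F k] K, conjD g Δ = Δ) :
    ∃ δ : Derivation k (F k) (F k), ∀ f, Δ (algebraMap (F k) K f) = algebraMap (F k) K (δ f) := by
  have h1 : ∀ f : F k, ∃ y : F k, algebraMap (F k) K y = Δ (algebraMap (F k) K f) := by
    intro f
    have h2 : Δ (algebraMap (F k) K f) ∈ Set.range (algebraMap (F k) K) := by
      rw [IsGalois.mem_range_algebraMap_iff_fixed]
      intro g
      have h3 : conjD g Δ (algebraMap (F k) K f) = Δ (algebraMap (F k) K f) := by rw [h g]
      have h4 : conjD g Δ (algebraMap (F k) K f) = g (Δ (g.symm (algebraMap (F k) K f))) := rfl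
      rw [h4, AlgEquiv.commutes] at h3
      exact h3
    obtain ⟨y, hy⟩ := h2
    exact ⟨y, hy⟩
  choose d hd using h1
  have hinj := (algebraMap (F k) K).injective
  refine ⟨Derivation.mk'
    { toFun := d
      map_add' := ?_
      map_smul' := ?_ } ?_, fun f => (hd f).symm⟩
  · intro a b
    apply hinj
    rw [hd, map_add, map_add, map_add, hd, hd]
  · intro c a
    apply hinj
    have e : ∀ z : F k, algebraMap (F k) K (c • z) = c • algebraMap (F k) K z := by
      intro z
      rw [Algebra.smul_def c z, map_mul, ← IsScalarTower.algebraMap_apply k (F k) K,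
        ← Algebra.smul_def]
    rw [hd, RingHom.id_apply, e, Δ.map_smul, e, hd]
  · intro a b
    apply hinj
    change algebraMap (F k) K (d (a * b)) = algebraMap (F k) K (a • d b + b • d a)
    rw [hd, map_mul, Δ.leibniz, map_add, smul_eq_mul, smul_eq_mul, smul_eq_mul, smul_eq_mul,
      map_mul, map_mul, hd, hd]

/-- a derivation of `F` extends to a separable algebraic extension -/
theorem desc_extend [CharZero k] [FiniteDimensional (F k) K] (δ : Derivation k (F k) (F k)) :
    ∃ Δ : Derivation k K K, ∀ f, Δ (algebraMap (F k) K f) = algebraMap (F k) K (δ f) := by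
  have hc : CharZero (F k) := charZero_of_injective_algebraMap (algebraMap k (F k)).injective
  have h2 : Algebra.FormallyEtale (F k) K := Algebra.FormallyEtale.of_isSeparable _ K
  let D0 : Derivation k (F k) K := (Algebra.linearMap (F k) K).compDer δ
  let φ : K ⊗[F k] (Ω[F k⁄k]) →ₗ[K] K := LinearMap.liftBaseChange K D0.liftKaehlerDifferential
  let χ : Ω[K⁄k] →ₗ[K] K :=
    φ ∘ₗ (KaehlerDifferential.tensorKaehlerEquivOfFormallyEtale k (F k) K).symm.toLinearMap
  refine ⟨χ.compDer (KaehlerDifferential.D k K), fun f => ?_⟩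
  change φ ((KaehlerDifferential.tensorKaehlerEquivOfFormallyEtale k (F k) K).symm
    (KaehlerDifferential.D k K (algebraMap (F k) K f))) = algebraMap (F k) K (δ f)
  rw [KaehlerDifferential.tensorKaehlerEquivOfFormallyEtale_symm_D_algebraMap]
  simp [φ, D0]

omit [Algebra k K] [IsScalarTower k (F k) K] in
theorem desc_ic_iff (O : Subalgebra k (F k)) (x : F k) :
    algebraMap (F k) K x ∈ ic K O ↔ IsIntegral O x := by
  change IsIntegral O (algebraMap (F k) K x) ↔ IsIntegral O x
  exact isIntegral_algebraMap_iff (algebraMap (F k) K).injective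

omit [Algebra k K] [IsScalarTower k (F k) K] in
theorem desc_ic_of_mem {O : Subalgebra k (F k)} {x : F k} (hx : x ∈ O) :
    algebraMap (F k) K x ∈ ic K O := by
  rw [desc_ic_iff]
  exact isIntegral_algebraMap (R := O) (A := F k) (x := ⟨x, hx⟩)

end

/-- the logarithmic derivative of a quotient -/
theorem desc_logder {k : Type} [Field k] {L : Type} [Field L] [Algebra k L]
    (δ : Derivation k L L) {x y : L} (hx : x ≠ 0) (hy : y ≠ 0) :
    δ (x / y) / (x / y) = δ x / x - δ y / y := by
  have h1 : x = (x / y) * y := by field_simp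
  have h2 : δ x = (x / y) * δ y + y * δ (x / y) := by
    conv_lhs => rw [h1]
    rw [δ.leibniz, smul_eq_mul, smul_eq_mul]
  have h3 : δ (x / y) = (δ x - (x / y) * δ y) / y := by
    rw [h2]
    field_simp
    ring
  rw [h3]
  field_simp

/-- `λ = ℓ_i / ℓ_j` in `O` is a uniformiser or its inverse is in `O` -/
theorem desc_unif (hC : CurveStmt) (hE : ExcStmt) {k : Type} [Field k] {r : ℕ} (C : Config k r)
    (O : Subalgebra k (F k)) (hO : IsDiv C O) (i j : Fin r)
    (h0 : ev (C.ℓ i) ≠ 0) (h : ev (C.ℓ j) / ev (C.ℓ i) ∉ O) :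
    IsUnif O (ev (C.ℓ i) / ev (C.ℓ j)) := by
  have hi0 : C.ℓ i ≠ 0 := by
    intro h1
    apply h0
    rw [h1]
    simp [ev]
  have hij : i ≠ j := by
    intro h1
    apply h
    rw [h1] at h0 ⊢
    rw [div_self h0]
    exact O.one_mem
  rcases hO with hO | ⟨T, -, hO⟩
  · rcases (hC k O hO).2.2.1 (C.ℓ i) hi0 with h1 | h1
    · exact absurd (h1.2 (C.ℓ j)) h
    · exact (h1 (C.ℓ j) (C.indep i j hij)).2
  · have hT := (hE k T).2 O hO
    have hiT : C.ℓ i ⬝ᵥ T.rep = 0 := by
      by_contra h1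
      exact h ((hT.1 (C.ℓ i) h1).2 (C.ℓ j))
    have hjT : C.ℓ j ⬝ᵥ T.rep ≠ 0 := by
      intro h1
      exact h (hT.2.1 (C.ℓ i) (C.ℓ j) hi0 hiT h1)
    exact hT.2.2.1 (C.ℓ j) (C.ℓ i) hjT hi0 hiT

/-- if `λ z ^ n` is in `O` for a uniformiser `λ` and `n ≥ 2` then `z` is in `O` -/
theorem desc_pow (hU : UnifStmt) {k : Type} [Field k] {O : Subalgebra k (F k)} {π : F k}
    (hπ : IsUnif O π) {n : ℕ} (hn : 2 ≤ n) {z : F k} (hz : π * z ^ n ∈ O) : z ∈ O := by
  by_cases hz0 : z = 0
  · rw [hz0]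
    exact O.zero_mem
  obtain ⟨e, u, hu1, hu2, hzu⟩ := hπ.2.2 z hz0
  have hπ0 : π ≠ 0 := by
    intro h0
    apply hπ.2.1
    rw [h0, inv_zero]
    exact O.zero_mem
  have hu0 : u ≠ 0 := by
    intro h0
    apply hz0
    rw [hzu, h0, mul_zero]
  have h1 : π ^ (1 + n * e) * u ^ n ∈ O := by
    have h2 : π ^ (1 + n * e) * u ^ n = π * z ^ n := by
      rw [hzu, mul_pow, zpow_add₀ hπ0, zpow_one, mul_comm (n : ℤ) e, zpow_mul, zpow_natCast]
      ring
    rw [h2]
    exact hz
  have h3 := (hU k O π hπ).2.2.2 (1 + n * e) (u ^ n) (pow_ne_zero n hu0) (O.pow_mem hu1 n)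
    (by rw [← inv_pow]; exact O.pow_mem hu2 n) h1
  have he : 0 ≤ e := by
    by_contra h4
    have h5 : e ≤ -1 := by omega
    have h6 : (n : ℤ) * e ≤ (n : ℤ) * (-1) :=
      mul_le_mul_of_nonneg_left h5 (by positivity)
    have h7 : (2 : ℤ) ≤ n := by exact_mod_cast hn
    omega
  obtain ⟨m, hm⟩ := Int.eq_ofNat_of_zero_le he
  rw [hzu, hm, zpow_natCast]
  exact O.mul_mem (O.pow_mem hπ.1 m) hu1

theorem tDesc : UnifStmt → CurveStmt → ExcStmt → TauStmt → DescStmt := by
  intro hU hC hE hT k _ _ r n C K _ _ _ _ _ _ hn hR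
  refine ⟨fun Δ hΔ => ?_, fun δ => ?_⟩
  · obtain ⟨δ, hδ⟩ := desc_descend Δ hΔ
    refine ⟨δ, hδ, fun P O hO hreg => ?_⟩
    have hcl : ∀ x : F k, algebraMap (F k) K x ∈ ic K O → x ∈ O := fun x hx =>
      hartK_intClosed hU hC hE hO x ((desc_ic_iff O x).1 hx)
    refine ⟨fun c c' hc hc' hcc => hcl _ ?_, fun i hi j hj hij => ?_⟩
    · rw [← hδ]
      exact hreg.1 c c' hc hc' hcc
    · by_cases hl : ev (C.ℓ i) / ev (C.ℓ j) = 0
      · rw [hl, div_zero]
        exact O.zero_mem
      have hi0 : ev (C.ℓ i) ≠ 0 := fun h => hl (by rw [h, zero_div])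
      have hj0 : ev (C.ℓ j) ≠ 0 := fun h => hl (by rw [h, div_zero])
      by_cases hinv : ev (C.ℓ j) / ev (C.ℓ i) ∈ O
      · have h1 : δ (ev (C.ℓ i) / ev (C.ℓ j)) ∈ O := by
          apply hcl
          rw [← hδ]
          exact hreg.1 _ _ hi hj hij
        rw [div_eq_mul_inv, inv_div]
        exact O.mul_mem h1 hinv
      · have hπ := desc_unif hC hE C O hO i j hi0 hinv
        apply desc_pow hU hπ hn
        apply hcl
        have h2 := (hT k r n C K P O Δ (by omega) hR hreg i hi j hj hij).2.1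
        have h3 : algebraMap (F k) K (δ (ev (C.ℓ i) / ev (C.ℓ j)) / (ev (C.ℓ i) / ev (C.ℓ j))) =
            Δ (algebraMap (F k) K (ev (C.ℓ i))) / algebraMap (F k) K (ev (C.ℓ i)) -
              Δ (algebraMap (F k) K (ev (C.ℓ j))) / algebraMap (F k) K (ev (C.ℓ j)) := by
          rw [desc_logder δ hi0 hj0, map_sub, map_div₀ (algebraMap (F k) K) (δ (ev (C.ℓ i))),
            map_div₀ (algebraMap (F k) K) (δ (ev (C.ℓ j))), ← hδ, ← hδ]
        rw [map_mul, map_pow, h3]
        exact h2
  · obtain ⟨Δ, hΔ⟩ := desc_extend (K := K) δ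
    refine ⟨Δ, hΔ, fun P O hreg => ⟨fun c c' hc hc' hcc => ?_, fun i hi j hj hij z hz => ?_⟩⟩
    · rw [hΔ]
      exact desc_ic_of_mem (hreg.1 c c' hc hc' hcc)
    · by_cases hz0 : z = 0
      · rw [hz0, map_zero]
        exact (ic K O).zero_mem
      have hK : CharZero K := charZero_of_injective_algebraMap (algebraMap k K).injective
      have hn0 : (n : K) ≠ 0 := by
        rw [Nat.cast_ne_zero]
        omega
      have hzi : z ∈ ic K O := by
        change IsIntegral O z
        apply IsIntegral.of_pow (n := n) (by omega)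
        rw [hz]
        exact desc_ic_of_mem hij
      have h1 := desc_ic_of_mem (K := K) (hreg.2 i hi j hj hij)
      have h2 : Δ (z ^ n) = (n : K) * z ^ (n - 1) * Δ z := by
        rw [Δ.leibniz_pow, smul_eq_mul, nsmul_eq_mul]
        ring
      rw [hz, hΔ] at h2
      have h3 : z ^ n = z ^ (n - 1) * z := by
        rw [← pow_succ]
        congr 1
        omega
      have h4 : Δ z = algebraMap k K ((n : k)⁻¹) * z *
          algebraMap (F k) K (δ (ev (C.ℓ i) / ev (C.ℓ j)) / (ev (C.ℓ i) / ev (C.ℓ j))) := by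
        rw [map_div₀, h2, ← hz, h3, map_inv₀, map_natCast]
        have hzn : z ^ (n - 1) ≠ 0 := pow_ne_zero _ hz0
        field_simp
      rw [h4]
      have h5 : algebraMap k K ((n : k)⁻¹) ∈ ic K O := by
        rw [IsScalarTower.algebraMap_apply k (F k) K]
        exact desc_ic_of_mem (O.algebraMap_mem _)
      exact (ic K O).mul_mem ((ic K O).mul_mem h5 hzi) h1

end Pool.Agent.Lib.MP_4318ff_ag
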