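import Pool.Agent.Lib.MP_4318ff_ag.Spec.A2

/-!
# MP_4318ff_ag, module `A/Disj`
-/

set_option autoImplicit false

namespace Pool.Agent.Lib.MP_4318ff_ag

open scoped LinearAlgebra.Projectivization

section

variable {k : Type} [Field k] {K : Type} [Field K] [Algebra (F k) K] [Algebra k K]
  [IsScalarTower k (F k) K]

theorem disj_alg (P : Pt k) (g : K ≃ₐ[F k] K) {y : K} (hy : IsAlgebraic (PF P) y) :
    IsAlgebraic (PF P) (g y) := by
  obtain ⟨p, hp, h0⟩ := hy
  refine ⟨p, hp, ?_⟩
  have h1 : ∀ x : PF P, g (algebraMap (PF P) K x) = algebraMap (PF P) K x := by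
    intro x
    have h2 : algebraMap (PF P) K x = algebraMap (F k) K (x : F k) := rfl
    rw [h2, AlgEquiv.commutes]
  have h3 : g (Polynomial.aeval y p) = Polynomial.aeval (g y) p := by
    rw [Polynomial.aeval_eq_sum_range, Polynomial.aeval_eq_sum_range, map_sum]
    refine Finset.sum_congr rfl fun i _ => ?_
    rw [Algebra.smul_def, Algebra.smul_def, map_mul, map_pow, h1]
  rw [← h3, h0, map_zero]

/-- The action of a subgroup of the Galois group on the elements algebraic over the pencil field. -/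
@[reducible] noncomputable def disj_act (P : Pt k) (N : Subgroup (K ≃ₐ[F k] K)) :
    MulSemiringAction N (algebraicClosure (PF P) K) where
  smul n y := ⟨n.1 y.1, mem_algebraicClosure_iff.2
    (disj_alg P n.1 (mem_algebraicClosure_iff.1 y.2))⟩
  one_smul _ := Subtype.ext rfl
  mul_smul _ _ _ := Subtype.ext rfl
  smul_zero n := Subtype.ext (map_zero n.1)
  smul_add n _ _ := Subtype.ext (map_add n.1 _ _)
  smul_one n := Subtype.ext (map_one n.1)
  smul_mul n _ _ := Subtype.ext (map_mul n.1 _ _)

theorem disj_fix [FiniteDimensional (F k) K] [IsGalois (F k) K] (Q : Pt k) (x : K)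
    (hx : ∀ g ∈ NP K Q, g x = x) :
    x ∈ IntermediateField.adjoin (F k) {y : K | IsAlgebraic (PF Q) y} := by
  have h1 := IsGalois.fixedField_fixingSubgroup
    (IntermediateField.adjoin (F k) {y : K | IsAlgebraic (PF Q) y})
  rw [← h1, IntermediateField.mem_fixedField_iff]
  intro g hg
  refine hx g fun y hy => ?_
  rw [IntermediateField.mem_fixingSubgroup_iff] at hg
  exact hg y (IntermediateField.subset_adjoin _ _ hy)

end

theorem disj_main (hA : AlgClStmt) (k : Type) [Field k] [CharZero k] [IsAlgClosed k] (K : Type)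
    [Field K] [Algebra (F k) K] [Algebra k K] [IsScalarTower k (F k) K]
    [FiniteDimensional (F k) K] [IsGalois (F k) K] (P Q : Pt k) (hPQ : P ≠ Q)
    (N : Subgroup (K ≃ₐ[F k] K)) (hP : NP K P ≤ N) (hQ : NP K Q ≤ N) (g : K ≃ₐ[F k] K) :
    g ∈ N := by
  have hfix : ∀ x : algebraicClosure (PF P) K, (∀ n ∈ N, n x.1 = x.1) → g x.1 = x.1 := by
    intro x hx
    have h1 : x.1 ∈ IntermediateField.adjoin (F k) {y : K | IsAlgebraic (PF Q) y} :=
      disj_fix Q x.1 fun h hh => hx h (hQ hh)
    obtain ⟨f, _, hf⟩ := hA k K P Q x.1 hPQ (mem_algebraicClosure_iff.1 x.2) h1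
    rw [hf, AlgEquiv.commutes]
  let _ := disj_act (K := K) P N
  let e : algebraicClosure (PF P) K ≃+* algebraicClosure (PF P) K :=
    { toFun := fun y => ⟨g y.1, mem_algebraicClosure_iff.2
        (disj_alg P g (mem_algebraicClosure_iff.1 y.2))⟩
      invFun := fun y => ⟨g.symm y.1, mem_algebraicClosure_iff.2
        (disj_alg P g.symm (mem_algebraicClosure_iff.1 y.2))⟩
      left_inv := fun y => Subtype.ext (g.symm_apply_apply y.1)
      right_inv := fun y => Subtype.ext (g.apply_symm_apply y.1)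
      map_mul' := fun _ _ => Subtype.ext (map_mul g _ _)
      map_add' := fun _ _ => Subtype.ext (map_add g _ _) }
  let e' : algebraicClosure (PF P) K ≃ₐ[FixedPoints.subfield N (algebraicClosure (PF P) K)]
      algebraicClosure (PF P) K :=
    AlgEquiv.ofRingEquiv (f := e) fun x => Subtype.ext (hfix x.1 fun n hn =>
      congrArg Subtype.val (x.2 ⟨n, hn⟩))
  obtain ⟨n, hn⟩ := FixedPoints.toAlgAut_surjective N (algebraicClosure (PF P) K) e'
  have h1 : n.1⁻¹ * g ∈ NP K P := by
    intro y hy
    have h2 := DFunLike.congr_fun hn ⟨y, mem_algebraicClosure_iff.2 hy⟩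
    have h3 : n.1 y = g y := congrArg Subtype.val h2
    rw [AlgEquiv.mul_apply, ← h3]
    exact n.1.symm_apply_apply y
  have h3 := N.mul_mem n.2 (hP h1)
  rwa [mul_inv_cancel_left] at h3

theorem tDisj : AlgClStmt → DisjStmt := by
  intro hA k _ _ _ K _ _ _ _ _ _ P Q hPQ
  rw [Subgroup.eq_top_iff']
  exact fun g => disj_main hA k K P Q hPQ _ le_sup_left le_sup_right g

end Pool.Agent.Lib.MP_4318ff_ag
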