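import Pool.Agent.Lib.MP_4318ff_ag.Spec.A1
import Pool.Agent.Lib.MP_4318ff_ag.A.G2

set_option autoImplicit false

namespace Pool.Agent.Lib.MP_4318ff_ag

theorem tEv : EvStmt := by
  intro k _
  refine ⟨ev_add, ev_smul, fun a => ⟨ev_eq_zero, ?_⟩⟩
  rintro rfl
  exact ev_zero

end Pool.Agent.Lib.MP_4318ff_ag
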