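import Pool.Agent.Lib.MP_4318ff_ag.A.Curve

/-!
# MP_4318ff_ag, A/Exc: the exceptional curve over a point
-/

set_option autoImplicit false

namespace Pool.Agent.Lib.MP_4318ff_ag

open MvPolynomial

variable {k : Type} [Field k]

/-- The linear map `a ↦ a ⬝ᵥ p`. -/
noncomputable def exc_f (p : Fin 3 → k) : (Fin 3 → k) →ₗ[k] k where
  toFun a := a ⬝ᵥ p
  map_add' a b := add_dotProduct a b p
  map_smul' t a := by
    rw [smul_dotProduct]
    rfl

lemma exc_f_apply (p a : Fin 3 → k) : exc_f p a = a ⬝ᵥ p := rfl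

lemma exc_ne (p : Fin 3 → k) (hp : p ≠ 0) : ∃ b : Fin 3 → k, b ⬝ᵥ p ≠ 0 := by
  by_contra hcon
  push Not at hcon
  apply hp
  funext i
  have := hcon (Pi.single i 1)
  rw [single_dotProduct, one_mul] at this
  exact this

/-- A basis of the forms, adapted to a point. -/
lemma exc_perp (p : Fin 3 → k) (hp : p ≠ 0) :
    ∃ b c d : Fin 3 → k, LinearIndependent k ![b, c, d] ∧ b ⬝ᵥ p ≠ 0 ∧ c ⬝ᵥ p = 0 ∧ d ⬝ᵥ p = 0 := by
  obtain ⟨b, hb⟩ := exc_ne p hp
  have hsurj : Function.Surjective (exc_f p) := by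
    intro y
    refine ⟨(y / (b ⬝ᵥ p)) • b, ?_⟩
    rw [map_smul, exc_f_apply, smul_eq_mul, div_mul_cancel₀ _ hb]
  have hrank : Module.finrank k (LinearMap.ker (exc_f p)) = 2 := by
    have h1 := LinearMap.finrank_range_add_finrank_ker (exc_f p)
    rw [LinearMap.range_eq_top.mpr hsurj, finrank_top, Module.finrank_self,
      Module.finrank_fintype_fun_eq_card, Fintype.card_fin] at h1
    omega
  have B := Module.finBasisOfFinrankEq k (LinearMap.ker (exc_f p)) hrank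
  have hli : LinearIndependent k ![(B 0 : Fin 3 → k), (B 1 : Fin 3 → k)] := by
    have h2 := B.linearIndependent.map' (LinearMap.ker (exc_f p)).subtype
      (Submodule.ker_subtype _)
    have h3 : (⇑(LinearMap.ker (exc_f p)).subtype ∘ ⇑B) =
        ![(B 0 : Fin 3 → k), (B 1 : Fin 3 → k)] := by
      funext i
      rcases (by omega : i = 0 ∨ i = 1) with rfl | rfl <;> rfl
    rw [h3] at h2
    exact h2
  refine ⟨b, B 0, B 1, ?_, hb, (B 0).2, (B 1).2⟩
  refine linearIndependent_finCons.mpr ⟨hli, ?_⟩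
  intro hmem
  have hle : Submodule.span k (Set.range ![(B 0 : Fin 3 → k), (B 1 : Fin 3 → k)]) ≤
      LinearMap.ker (exc_f p) := by
    rw [Submodule.span_le]
    rintro x ⟨i, rfl⟩
    fin_cases i
    · exact (B 0).2
    · exact (B 1).2
  exact hb (hle hmem)

lemma exc_b {p b c d : Fin 3 → k} (hp : p ≠ 0) (h : LinearIndependent k ![b, c, d])
    (hc : c ⬝ᵥ p = 0) (hd : d ⬝ᵥ p = 0) : b ⬝ᵥ p ≠ 0 := by
  intro hb
  obtain ⟨a, ha⟩ := exc_ne p hp
  obtain ⟨β, γ, δ, e⟩ := curve_basis h a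
  apply ha
  rw [e, ← exc_f_apply, map_add, map_add, map_smul, map_smul, map_smul, exc_f_apply, exc_f_apply,
    exc_f_apply, hb, hc, hd]
  simp

lemma exc_X0 {h : MvPolynomial (Fin 2) k} (hd : X 0 ∣ h) :
    aeval ![(0 : MvPolynomial (Fin 2) k), X 1] h = 0 := by
  obtain ⟨g, rfl⟩ := hd
  rw [map_mul, aeval_X]
  simp

/-- The polynomials of the linear forms. -/
noncomputable def exc_E (β γ δ : k) : MvPolynomial (Fin 2) k :=
  C β + C γ * X 0 + C δ * (X 0 * X 1)

/-- The polynomials of the linear forms vanishing at the point. -/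
noncomputable def exc_V (γ δ : k) : MvPolynomial (Fin 2) k := C γ + C δ * X 1

lemma exc_E_dvd {β γ δ : k} (hβ : β ≠ 0) : ¬ X 0 ∣ exc_E β γ δ := by
  intro h
  have h1 := exc_X0 h
  unfold exc_E at h1
  simp only [map_add, map_mul, aeval_X, aeval_C] at h1
  simp only [Matrix.cons_val_zero, mul_zero, zero_mul, add_zero] at h1
  rw [algebraMap_eq, C_eq_zero] at h1
  exact hβ h1

lemma exc_V_dvd {γ δ : k} (h0 : exc_V γ δ ≠ 0) : ¬ X 0 ∣ exc_V γ δ := by
  intro h
  have h1 := exc_X0 h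
  apply h0
  rw [← h1]
  unfold exc_V
  simp only [map_add, map_mul, aeval_X, aeval_C]
  simp [algebraMap_eq]

lemma exc_cmE (hE : EvStmt) {b c d : Fin 3 → k} (hb : b ≠ 0) (hc : c ≠ 0) (β γ δ : k) :
    cm (ev c / ev b) (ev d / ev c) (exc_E β γ δ) = ev (β • b + γ • c + δ • d) / ev b := by
  have hb0 : ev b ≠ 0 := fun h => hb (((hE k).2.2 b).mp h)
  have hc0 : ev c ≠ 0 := fun h => hc (((hE k).2.2 c).mp h)
  unfold exc_E
  simp only [map_add, map_mul, curve_cmC, curve_cm0, curve_cm1]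
  rw [curve_ev3 hE]
  field_simp

lemma exc_cmV (hE : EvStmt) {b c d : Fin 3 → k} (hc : c ≠ 0) (γ δ : k) :
    cm (ev c / ev b) (ev d / ev c) (exc_V γ δ) = ev (γ • c + δ • d) / ev c := by
  have hc0 : ev c ≠ 0 := fun h => hc (((hE k).2.2 c).mp h)
  unfold exc_V
  simp only [map_add, map_mul, curve_cmC, curve_cm1]
  rw [(hE k).1, (hE k).2.1, (hE k).2.1]
  field_simp

lemma exc_formE (hE : EvStmt) {b c d p : Fin 3 → k} (h : LinearIndependent k ![b, c, d])
    (hc : c ⬝ᵥ p = 0) (hd : d ⬝ᵥ p = 0) (a : Fin 3 → k) :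
    ∃ β γ δ : k, a ⬝ᵥ p = β * (b ⬝ᵥ p) ∧
      ev a / ev b = cm (ev c / ev b) (ev d / ev c) (exc_E β γ δ) := by
  obtain ⟨β, γ, δ, e⟩ := curve_basis h a
  refine ⟨β, γ, δ, ?_, ?_⟩
  · rw [e, ← exc_f_apply, map_add, map_add, map_smul, map_smul, map_smul, exc_f_apply,
      exc_f_apply, exc_f_apply, hc, hd]
    simp
  · have h0 : b ≠ 0 := h.ne_zero 0
    have h1 : c ≠ 0 := h.ne_zero 1
    rw [exc_cmE hE h0 h1, ← e]

lemma exc_formV (hE : EvStmt) {b c d p : Fin 3 → k} (hp : p ≠ 0)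
    (h : LinearIndependent k ![b, c, d])
    (hc : c ⬝ᵥ p = 0) (hd : d ⬝ᵥ p = 0) (a : Fin 3 → k) (ha : a ⬝ᵥ p = 0) :
    ∃ γ δ : k, ev a / ev c = cm (ev c / ev b) (ev d / ev c) (exc_V γ δ) := by
  obtain ⟨β, γ, δ, e⟩ := curve_basis h a
  refine ⟨γ, δ, ?_⟩
  have hβ : β = 0 := by
    have h1 : a ⬝ᵥ p = β * (b ⬝ᵥ p) := by
      rw [e, ← exc_f_apply, map_add, map_add, map_smul, map_smul, map_smul, exc_f_apply,
        exc_f_apply, exc_f_apply, hc, hd]
      simp
    rw [ha] at h1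
    exact (mul_eq_zero.mp h1.symm).resolve_right (exc_b hp h hc hd)
  rw [hβ, zero_smul, zero_add] at e
  have h1 : c ≠ 0 := h.ne_zero 1
  rw [exc_cmV hE h1, ← e]

lemma exc_irr : Irreducible (X 0 : MvPolynomial (Fin 2) k) := (MvPolynomial.X_prime).irreducible

theorem tExc (hE : EvStmt) (hC : CoordStmt) (hL : LocStmt) : ExcStmt := by
  intro k _ P
  have hP0 : P.rep ≠ 0 := P.rep_nonzero
  have hev : ∀ a : Fin 3 → k, a ≠ 0 → ev a ≠ 0 := fun a ha h => ha (((hE k).2.2 a).mp h)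
  constructor
  · obtain ⟨b, c, d, hli, -, hc, hd⟩ := exc_perp P.rep hP0
    obtain ⟨O, hO⟩ := (hL k _ _ (hC k b c d hli).2 (X 0) exc_irr).1
    exact ⟨O, b, c, d, hli, hc, hd, hO⟩
  · intro O hO
    obtain ⟨b0, c0, d0, hli, hc0P, hd0P, hO⟩ := hO
    have hcoord := (hC k b0 c0 d0 hli).2
    obtain ⟨hcmO, hunit, hunif⟩ := (hL k _ _ hcoord (X 0) exc_irr).2 O hO
    rw [curve_cm0] at hunif
    have hb0P := exc_b hP0 hli hc0P hd0P
    have hb0 : b0 ≠ 0 := hli.ne_zero 0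
    have hc0 : c0 ≠ 0 := hli.ne_zero 1
    have hformE : ∀ a : Fin 3 → k, ev a / ev b0 ∈ O := by
      intro a
      obtain ⟨β, γ, δ, -, e⟩ := exc_formE hE hli hc0P hd0P a
      rw [e]
      exact hcmO _
    have hformV : ∀ a : Fin 3 → k, a ⬝ᵥ P.rep = 0 → ev a / ev c0 ∈ O := by
      intro a ha
      obtain ⟨γ, δ, e⟩ := exc_formV hE hP0 hli hc0P hd0P a ha
      rw [e]
      exact hcmO _
    have hinvE : ∀ b : Fin 3 → k, b ⬝ᵥ P.rep ≠ 0 → (ev b / ev b0)⁻¹ ∈ O := by
      intro b hb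
      obtain ⟨β, γ, δ, e1, e⟩ := exc_formE hE hli hc0P hd0P b
      have hβ : β ≠ 0 := by
        rintro rfl
        rw [zero_mul] at e1
        exact hb e1
      rw [e]
      refine (hunit _ ?_).mpr (exc_E_dvd hβ)
      intro h0
      exact exc_E_dvd (γ := γ) (δ := δ) hβ (by rw [h0]; exact dvd_zero _)
    have hinvV : ∀ c : Fin 3 → k, c ≠ 0 → c ⬝ᵥ P.rep = 0 → (ev c / ev c0)⁻¹ ∈ O := by
      intro c hc hcP
      obtain ⟨γ, δ, e⟩ := exc_formV hE hP0 hli hc0P hd0P c hcP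
      have h0 : exc_V γ δ ≠ 0 := by
        intro h0
        rw [h0, map_zero] at e
        exact div_ne_zero (hev c hc) (hev c0 hc0) e
      rw [e]
      exact (hunit _ h0).mpr (exc_V_dvd h0)
    have h1 : ∀ b : Fin 3 → k, b ⬝ᵥ P.rep ≠ 0 → UnitForm O b := by
      intro b hb
      have hbn : b ≠ 0 := by
        rintro rfl
        exact hb (zero_dotProduct _)
      refine ⟨hbn, fun c => ?_⟩
      have h1 := hev b hbn
      have h2 := hev b0 hb0
      have : ev c / ev b = ev c / ev b0 * (ev b / ev b0)⁻¹ := by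
        field_simp
      rw [this]
      exact mul_mem (hformE c) (hinvE b hb)
    have h2 : ∀ c d : Fin 3 → k, c ≠ 0 → c ⬝ᵥ P.rep = 0 → d ⬝ᵥ P.rep = 0 → ev d / ev c ∈ O := by
      intro c d hc hcP hdP
      have h1 := hev c hc
      have h2 := hev c0 hc0
      have : ev d / ev c = ev d / ev c0 * (ev c / ev c0)⁻¹ := by
        field_simp
      rw [this]
      exact mul_mem (hformV d hdP) (hinvV c hc hcP)
    have h3 : ∀ b c : Fin 3 → k, b ⬝ᵥ P.rep ≠ 0 → c ≠ 0 → c ⬝ᵥ P.rep = 0 →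
        IsUnif O (ev c / ev b) := by
      intro b c hb hc hcP
      have hbn : b ≠ 0 := by
        rintro rfl
        exact hb (zero_dotProduct _)
      have e1 := hev c hc
      have e2 := hev c0 hc0
      have e3 := hev b hbn
      have e4 := hev b0 hb0
      have : ev c / ev b = ev c0 / ev b0 * ((ev c / ev c0) * (ev b / ev b0)⁻¹) := by
        field_simp
      rw [this]
      refine curve_unif_mul hunif (mul_mem (hformV c hcP) (hinvE b hb)) ?_ ?_
      · rw [mul_inv, inv_inv]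
        exact mul_mem (hinvV c hc hcP) (hformE b)
      · exact mul_ne_zero (div_ne_zero e1 e2) (inv_ne_zero (div_ne_zero e3 e4))
    refine ⟨h1, h2, h3, ?_⟩
    intro b c d hbcd hcP hdP
    have hbP := exc_b hP0 hbcd hcP hdP
    have hb : b ≠ 0 := hbcd.ne_zero 0
    have hc : c ≠ 0 := hbcd.ne_zero 1
    have hcoord' := (hC k b c d hbcd).2
    have e1 := hev c hc
    have e2 := hev c0 hc0
    have e3 := hev b hb
    have e4 := hev b0 hb0
    have fE : ∀ a : Fin 3 → k, ∃ h, ev a / ev b0 = cm (ev c0 / ev b0) (ev d0 / ev c0) h := by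
      intro a
      obtain ⟨β, γ, δ, -, e⟩ := exc_formE hE hli hc0P hd0P a
      exact ⟨_, e⟩
    have fV : ∀ a : Fin 3 → k, a ⬝ᵥ P.rep = 0 →
        ∃ h, ev a / ev c0 = cm (ev c0 / ev b0) (ev d0 / ev c0) h := by
      intro a ha
      obtain ⟨γ, δ, e⟩ := exc_formV hE hP0 hli hc0P hd0P a ha
      exact ⟨_, e⟩
    have gE : ∀ a : Fin 3 → k, ∃ h, ev a / ev b = cm (ev c / ev b) (ev d / ev c) h := by
      intro a
      obtain ⟨β, γ, δ, -, e⟩ := exc_formE hE hbcd hcP hdP a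
      exact ⟨_, e⟩
    have gV : ∀ a : Fin 3 → k, a ⬝ᵥ P.rep = 0 →
        ∃ h, ev a / ev c = cm (ev c / ev b) (ev d / ev c) h := by
      intro a ha
      obtain ⟨γ, δ, e⟩ := exc_formV hE hP0 hbcd hcP hdP a ha
      exact ⟨_, e⟩
    have hmul : ∀ (z w x y : F k), (∃ h, x = cm z w h) → (∃ h, y = cm z w h) →
        ∃ h, x * y = cm z w h := by
      rintro z w x y ⟨h, rfl⟩ ⟨h', rfl⟩
      exact ⟨h * h', by rw [map_mul]⟩
    have hT : (ev b / ev b0 * (ev c / ev c0))⁻¹ = ev b0 / ev b * (ev c0 / ev c) := by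
      field_simp
    obtain ⟨p', hp'⟩ := curve_change hL (t := ev b / ev b0 * (ev c / ev c0)) hcoord hcoord'
      (by
        have : ev c / ev b * (ev b / ev b0 * (ev c / ev c0)) = ev c / ev b0 * (ev c / ev c0) := by
          field_simp
        rw [this]
        exact hmul _ _ _ _ (fE c) (fV c hcP))
      (by
        have : ev d / ev c * (ev b / ev b0 * (ev c / ev c0)) = ev b / ev b0 * (ev d / ev c0) := by
          field_simp
        rw [this]
        exact hmul _ _ _ _ (fE b) (fV d hdP))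
      (hmul _ _ _ _ (fE b) (fV c hcP))
      (by
        have : ev c0 / ev b0 * (ev b / ev b0 * (ev c / ev c0))⁻¹ =
            ev c0 / ev b * (ev c0 / ev c) := by
          field_simp
        rw [this]
        exact hmul _ _ _ _ (gE c0) (gV c0 hc0P))
      (by
        have : ev d0 / ev c0 * (ev b / ev b0 * (ev c / ev c0))⁻¹ =
            ev b0 / ev b * (ev d0 / ev c) := by
          field_simp
        rw [this]
        exact hmul _ _ _ _ (gE b0) (gV d0 hd0P))
      (by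
        rw [hT]
        exact hmul _ _ _ _ (gE b0) (gV c0 hc0P))
      (mul_ne_zero (div_ne_zero e3 e4) (div_ne_zero e1 e2)) hO
      (by
        rw [hT]
        exact mul_mem ((h1 b hbP).2 b0) (h2 c c0 hc hcP hc0P))
    have hu' := ((hL k _ _ hcoord' p' hp'.1).2 O hp').2.1 (X 0) (X_ne_zero 0)
    rw [curve_cm0] at hu'
    have hdvd : p' ∣ X 0 := by
      by_contra hcon
      exact (h3 b c hbP hc hcP).2.1 (hu'.mpr hcon)
    have hass : Associated p' (X 0) := hp'.1.associated_of_dvd exc_irr hdvd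
    refine ⟨exc_irr, fun f => ?_⟩
    rw [hp'.2 f]
    simp only [hass.dvd_iff_dvd_left]

end Pool.Agent.Lib.MP_4318ff_ag
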