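import Pool.Agent.Lib.MP_4318ff_ag.Spec.A2

/-!
# MP_4318ff_ag: the cochains for which the pencil `P` extends
-/

set_option autoImplicit false

namespace Pool.Agent.Lib.MP_4318ff_ag

open scoped LinearAlgebra.Projectivization

section

variable {k : Type} [Field k] {K : Type} [Field K] [Algebra (F k) K] [Algebra k K]
  [IsScalarTower k (F k) K]

theorem extmod_conj (g : K ≃ₐ[F k] K) (D : Derivation k K K) (f : F k) :
    conjD g D (algebraMap (F k) K f) = g (D (algebraMap (F k) K f)) := by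
  change g (D (g.symm (algebraMap (F k) K f))) = _
  rw [AlgEquiv.commutes]

/-- The derivations with algebraic values on the pencil. -/
def extmod_alg (P : Pt k) : Submodule k (Derivation k K K) where
  carrier := {D | ∀ c c' : Fin 3 → k, c ⬝ᵥ P.rep = 0 → c' ⬝ᵥ P.rep = 0 →
    IsAlgebraic (PF P) (D (algebraMap (F k) K (ev c / ev c')))}
  add_mem' := by
    intro D D' h h' c c' hc hc'
    rw [Derivation.add_apply]
    exact (h c c' hc hc').add (h' c c' hc hc')
  zero_mem' := by
    intro c c' _ _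
    rw [Derivation.coe_zero, Pi.zero_apply]
    exact isAlgebraic_zero
  smul_mem' := by
    intro a D h c c' hc hc'
    rw [Derivation.smul_apply, Algebra.smul_def]
    refine IsAlgebraic.mul ?_ (h c c' hc hc')
    have h1 : algebraMap k K a = algebraMap (PF P) K (algebraMap k (PF P) a) := by
      rw [IsScalarTower.algebraMap_apply k (F k) K, IsScalarTower.algebraMap_apply k (PF P) (F k),
        ← IsScalarTower.algebraMap_apply (PF P) (F k) K]
    rw [h1]
    exact isAlgebraic_algebraMap _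

theorem extmod_alg_conj (P : Pt k) (g : K ≃ₐ[F k] K) (D : Derivation k K K)
    (h : D ∈ extmod_alg (K := K) P) : conjD g D ∈ extmod_alg (K := K) P := by
  intro c c' hc hc'
  rw [extmod_conj]
  exact (h c c' hc hc').algHom ((g.restrictScalars (PF P)).toAlgHom)

/-- The derivations which vanish on the pencil. -/
def extmod_ker (P : Pt k) : Submodule k (Derivation k K K) where
  carrier := {D | ∀ c c' : Fin 3 → k, c ⬝ᵥ P.rep = 0 → c' ⬝ᵥ P.rep = 0 →
    D (algebraMap (F k) K (ev c / ev c')) = 0}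
  add_mem' := by
    intro D D' h h' c c' hc hc'
    rw [Derivation.add_apply, h c c' hc hc', h' c c' hc hc', add_zero]
  zero_mem' := by
    intro c c' _ _
    rw [Derivation.coe_zero, Pi.zero_apply]
  smul_mem' := by
    intro a D h c c' hc hc'
    rw [Derivation.smul_apply, h c c' hc hc', smul_zero]

theorem extmod_ker_conj (P : Pt k) (g : K ≃ₐ[F k] K) (D : Derivation k K K)
    (h : D ∈ extmod_ker (K := K) P) : conjD g D ∈ extmod_ker (K := K) P := by
  intro c c' hc hc'
  rw [extmod_conj, h c c' hc hc', map_zero]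

theorem extmod_eqOn (P : Pt k) (D D' : Derivation k K K) :
    EqOn P D D' ↔ D - D' ∈ extmod_ker (K := K) P := by
  constructor
  · intro h c c' hc hc'
    rw [Derivation.sub_apply, h c c' hc hc', sub_self]
  · intro h c c' hc hc'
    have := h c c' hc hc'
    rw [Derivation.sub_apply, sub_eq_zero] at this
    exact this

end

theorem extmod_sub {M : Type} [AddCommGroup M] (a b c d a' b' c' d' : M) :
    a - (b - c + d) - (a' - (b' - c' + d')) = (a - a') - ((b - b') - (c - c') + (d - d')) := by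
  abel

theorem extmod_add {M : Type} [AddCommGroup M] (a b c d a' b' c' d' : M) :
    a - (b - c + d) + (a' - (b' - c' + d')) = (a + a') - ((b + b') - (c + c') + (d + d')) := by
  abel

theorem tExtMod (h1 : RegModStmt) (h2 : AvgStmt) : ExtModStmt := by
  intro k _ _ r n C K _ _ _ _ _ P D D' hD hD'
  obtain ⟨Δ, E, hΔ, hE, hDE⟩ := hD
  obtain ⟨Δ', E', hΔ', hE', hDE'⟩ := hD'
  obtain ⟨-, hreg, -⟩ := h1 k r n C K
  obtain ⟨-, -, -, hadd, hsub, -, -, hW, -, -⟩ := h2 k K
  refine ⟨⟨fun u => Δ u - Δ' u, fun a a' => E a a' - E' a a', ?_, ?_, ?_⟩,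
    ⟨fun u => Δ u + Δ' u, fun a a' => E a a' + E' a a', ?_, ?_, ?_⟩, fun N =>
    ⟨fun u => avgD N (Δ u), fun a a' => avgD N (E a a'), ?_, ?_, ?_⟩⟩
  · intro u O hO hu
    obtain ⟨W, hW1, -⟩ := hreg P O
    exact (hW1 _).1 (W.sub_mem ((hW1 _).2 (hΔ u O hO hu)) ((hW1 _).2 (hΔ' u O hO hu)))
  · intro a a' ha ha' haP haP'
    refine ⟨fun O hO h h' => ?_, ?_⟩
    · obtain ⟨W, hW1, -⟩ := hreg P O
      exact (hW1 _).1 (W.sub_mem ((hW1 _).2 ((hE a a' ha ha' haP haP').1 O hO h h'))
        ((hW1 _).2 ((hE' a a' ha ha' haP haP').1 O hO h h')))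
    · exact (extmod_alg (K := K) P).sub_mem (hE a a' ha ha' haP haP').2
        (hE' a a' ha ha' haP haP').2
  · intro u v
    rw [extmod_eqOn]
    have e1 := (extmod_ker (K := K) P).sub_mem ((extmod_eqOn P _ _).1 (hDE u v))
      ((extmod_eqOn P _ _).1 (hDE' u v))
    rw [extmod_sub] at e1
    exact e1
  · intro u O hO hu
    obtain ⟨W, hW1, -⟩ := hreg P O
    exact (hW1 _).1 (W.add_mem ((hW1 _).2 (hΔ u O hO hu)) ((hW1 _).2 (hΔ' u O hO hu)))
  · intro a a' ha ha' haP haP'
    refine ⟨fun O hO h h' => ?_, ?_⟩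
    · obtain ⟨W, hW1, -⟩ := hreg P O
      exact (hW1 _).1 (W.add_mem ((hW1 _).2 ((hE a a' ha ha' haP haP').1 O hO h h'))
        ((hW1 _).2 ((hE' a a' ha ha' haP haP').1 O hO h h')))
    · exact (extmod_alg (K := K) P).add_mem (hE a a' ha ha' haP haP').2
        (hE' a a' ha ha' haP haP').2
  · intro u v
    rw [extmod_eqOn]
    have e1 := (extmod_ker (K := K) P).add_mem ((extmod_eqOn P _ _).1 (hDE u v))
      ((extmod_eqOn P _ _).1 (hDE' u v))
    rw [extmod_add] at e1
    exact e1
  · intro u O hO hu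
    obtain ⟨W, hW1, hW2⟩ := hreg P O
    exact (hW1 _).1 (hW N W (fun g _ => hW2 g) _ ((hW1 _).2 (hΔ u O hO hu)))
  · intro a a' ha ha' haP haP'
    refine ⟨fun O hO h h' => ?_, ?_⟩
    · obtain ⟨W, hW1, hW2⟩ := hreg P O
      exact (hW1 _).1 (hW N W (fun g _ => hW2 g) _
        ((hW1 _).2 ((hE a a' ha ha' haP haP').1 O hO h h')))
    · exact hW N (extmod_alg (K := K) P) (fun g _ D hD => extmod_alg_conj P g D hD) _
        (hE a a' ha ha' haP haP').2
  · intro u v
    rw [extmod_eqOn]
    have e1 := hW N (extmod_ker (K := K) P) (fun g _ D hD => extmod_ker_conj P g D hD) _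
      ((extmod_eqOn P _ _).1 (hDE u v))
    rw [hsub, hadd, hsub] at e1
    exact e1

end Pool.Agent.Lib.MP_4318ff_ag
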