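import Pool.Agent.Lib.MP_4318ff_ag.A.Fix1

set_option autoImplicit false

namespace Pool.Agent.Lib.MP_4318ff_ag

open Polynomial

theorem tFix : EvStmt → CoordStmt → UnifStmt → ExcStmt → FixStmt := by
  intro h1 h2 h3 h4 k _ _ _ n K _ _ _ _ _ _ T O b c x hn hO hb hc0 hc hx hint
  obtain ⟨ea, es, ez⟩ := h1 k
  obtain ⟨b0, c0, d0, hl0, hc0T, hd0T, hloc⟩ := id hO
  have hcd0 : LinearIndependent k ![c0, d0] := by
    rw [LinearIndependent.pair_iff]
    intro s t hst
    have h5 := (Fintype.linearIndependent_iff.1 hl0) ![0, s, t] (by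
      rw [Fin.sum_univ_three]
      simpa using hst)
    exact ⟨by simpa using h5 1, by simpa using h5 2⟩
  obtain ⟨d, hd, hl⟩ := fix_exists hb hc hc0 hc0T hd0T hcd0
  obtain ⟨-, x2⟩ := h4 k T
  obtain ⟨e1, e2, e3, e4⟩ := x2 O hO
  have hPF := fix_PF_le h1 T O hb hc hd hl e2
  have ht : IsUnif O (ev c / ev b) := e3 b c hb hc0 hc
  set t : F k := ev c / ev b with htdef
  have hcoord := (h2 k b c d hl).2
  rw [← htdef] at hcoord
  -- the subfield of the elements algebraic over the pencil field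
  let L : Subfield K := (algebraicClosure (PF T) K).toSubfield
  have hLmem : ∀ y : K, y ∈ L ↔ IsAlgebraic (PF T) y := fun y => mem_algebraicClosure_iff
  have hL : ∀ y ∈ L, y ∈ ic K O := by
    intro y hy
    rw [hLmem] at hy
    have hy' : IsIntegral (PF T) y := isAlgebraic_iff_isIntegral.1 hy
    let j : PF T →+* O :=
      { toFun := fun f => ⟨f.1, hPF f.1 f.2⟩
        map_one' := rfl
        map_mul' := fun _ _ => rfl
        map_zero' := rfl
        map_add' := fun _ _ => rfl }
    have := IsIntegral.map_of_comp_eq j (RingHom.id K) (by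
      ext f
      rfl) hy'
    exact this
  have hPFL : ∀ f ∈ PF T, algebraMap (F k) K f ∈ L := by
    intro f hf
    rw [hLmem]
    exact isAlgebraic_algebraMap (⟨f, hf⟩ : PF T)
  -- the field generated by `L` and `t`
  let S : Subfield K := (IntermediateField.adjoin L {algebraMap (F k) K t}).toSubfield
  have hS : ∀ y, y ∈ S ↔ ∃ r s : L[X], y = aeval (algebraMap (F k) K t) r / aeval (algebraMap (F k) K t) s :=
    fun y => IntermediateField.mem_adjoin_simple_iff L y
  have hLS : ∀ y ∈ L, y ∈ S := fun y hy =>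
    (IntermediateField.adjoin L {algebraMap (F k) K t}).algebraMap_mem ⟨y, hy⟩
  have htS : algebraMap (F k) K t ∈ S := IntermediateField.mem_adjoin_simple_self L _
  have hkPF : ∀ a : k, algebraMap k (F k) a ∈ PF T := fun a => (PF T).algebraMap_mem a
  have hwPF : ev d / ev c ∈ PF T := IntermediateField.subset_adjoin k _ ⟨d, c, hd, hc, rfl⟩
  have hcm : ∀ h : MvPolynomial (Fin 2) k, algebraMap (F k) K (cm t (ev d / ev c) h) ∈ S := by
    intro h
    induction h using MvPolynomial.induction_on with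
    | C a =>
      unfold cm
      rw [MvPolynomial.aeval_C]
      exact hLS _ (hPFL _ (hkPF a))
    | add p q hp hq =>
      rw [map_add, map_add]
      exact S.add_mem hp hq
    | mul_X p i hp =>
      rw [map_mul, map_mul]
      refine S.mul_mem hp ?_
      unfold cm
      rw [MvPolynomial.aeval_X]
      fin_cases i
      · exact htS
      · exact hLS _ (hPFL _ hwPF)
  have hFS : ∀ f : F k, algebraMap (F k) K f ∈ S := by
    intro f
    obtain ⟨p, q, -, hf⟩ := hcoord.2 f
    rw [hf, map_div₀]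
    exact S.div_mem (hcm p) (hcm q)
  let M : IntermediateField (F k) K := S.toIntermediateField hFS
  let N : IntermediateField (F k) K := IntermediateField.adjoin (F k) {y | IsAlgebraic (PF T) y}
  have hNM : N ≤ M := by
    rw [IntermediateField.adjoin_le_iff]
    intro y hy
    exact hLS y ((hLmem y).2 hy)
  have hxN : x ∈ N := by
    rw [← IsGalois.fixedField_fixingSubgroup N, IntermediateField.mem_fixedField_iff]
    intro g hg
    refine hx g ?_
    intro y hy
    exact (IntermediateField.mem_fixingSubgroup_iff N g).1 hg y (IntermediateField.subset_adjoin (F k) _ hy)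
  obtain ⟨r, s, hrs⟩ := (hS x).1 (hNM hxN)
  by_cases hx0 : x = 0
  · rw [hx0]
    exact zero_mem _
  have hr0 : r ≠ 0 := by
    intro h
    apply hx0
    rw [hrs, h, map_zero, zero_div]
  have hs0 : s ≠ 0 := by
    intro h
    apply hx0
    rw [hrs, h, map_zero, div_zero]
  have ht0 : t ≠ 0 := by
    intro h0
    apply ht.2.1
    rw [h0, inv_zero]
    exact O.zero_mem
  have hφt0 : algebraMap (F k) K t ≠ 0 := by
    intro h
    exact ht0 ((algebraMap (F k) K).injective (by rw [h, map_zero]))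
  -- take out the powers of `X`
  have key : ∀ p : L[X], p ≠ 0 → ∃ (i : ℕ) (u : K), u ∈ ic K O ∧ u⁻¹ ∈ ic K O ∧ u ≠ 0 ∧
      aeval (algebraMap (F k) K t) p = (algebraMap (F k) K t) ^ i * u ∨
      (aeval (algebraMap (F k) K t) p = 0) := by
    intro p hp
    obtain ⟨q, hq1, hq2⟩ := Polynomial.exists_eq_pow_rootMultiplicity_mul_and_not_dvd p hp 0
    rw [C_0, sub_zero] at hq1 hq2
    have hq3 : q.coeff 0 ≠ 0 := fun h => hq2 (X_dvd_iff.2 h)
    obtain ⟨v1, v2⟩ := fix_poly h3 O t ht L hL q hq3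
    refine ⟨rootMultiplicity 0 p, aeval (algebraMap (F k) K t) q, ?_⟩
    by_cases hv : aeval (algebraMap (F k) K t) q = 0
    · right
      rw [hq1, map_mul, hv, mul_zero]
    · left
      refine ⟨v1, v2, hv, ?_⟩
      conv_lhs => rw [hq1]
      rw [map_mul, map_pow, aeval_X]
  obtain ⟨i, u, hu⟩ := key r hr0
  obtain ⟨j, v, hv⟩ := key s hs0
  have hr1 : aeval (algebraMap (F k) K t) r ≠ 0 := by
    intro h
    apply hx0
    rw [hrs, h, zero_div]
  have hs1 : aeval (algebraMap (F k) K t) s ≠ 0 := by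
    intro h
    apply hx0
    rw [hrs, h, div_zero]
  obtain ⟨u1, u2, u0, u3⟩ := hu.resolve_right hr1
  obtain ⟨v1, v2, v0, v3⟩ := hv.resolve_right hs1
  set e : ℤ := (i : ℤ) - j with he
  have hxe : x = (algebraMap (F k) K t) ^ e * (u * v⁻¹) := by
    rw [hrs, u3, v3, he, zpow_sub₀ hφt0, zpow_natCast, zpow_natCast]
    field_simp
  set y : K := u * v⁻¹ with hy
  have hy1 : y ∈ ic K O := mul_mem u1 v2
  have hy2 : y⁻¹ ∈ ic K O := by
    rw [hy, mul_inv, inv_inv]
    exact mul_mem u2 v1
  have hy0 : y ≠ 0 := mul_ne_zero u0 (inv_ne_zero v0)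
  have hpow : algebraMap (F k) K (t ^ (1 + e * n)) ∈ ic K O := by
    have h5 : algebraMap (F k) K (t ^ (1 + e * n)) = (algebraMap (F k) K t * x ^ n) * (y⁻¹) ^ n := by
      rw [hxe, mul_pow, map_zpow₀, zpow_add₀ hφt0, zpow_one, zpow_mul, zpow_natCast, inv_pow]
      field_simp
    rw [h5]
    exact mul_mem hint (pow_mem hy2 n)
  obtain ⟨w1, w2, w3, w4⟩ := h3 k O t ht
  have hpowO : t ^ (1 + e * n) ∈ O := by
    refine w2 _ ?_
    have h6 : IsIntegral O (algebraMap (F k) K (t ^ (1 + e * n))) := hpow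
    exact (isIntegral_algebraMap_iff (algebraMap (F k) K).injective).1 h6
  have hnn : 0 ≤ 1 + e * n := by
    refine w4 _ 1 one_ne_zero O.one_mem ?_ ?_
    · rw [inv_one]
      exact O.one_mem
    · rw [mul_one]
      exact hpowO
  have he0 : 0 ≤ e := by
    by_contra hneg
    have h7 : e ≤ -1 := by omega
    have h8 : (2 : ℤ) ≤ n := by exact_mod_cast hn
    nlinarith
  obtain ⟨m, hm⟩ := Int.eq_ofNat_of_zero_le he0
  rw [hxe, hm]
  refine mul_mem ?_ hy1
  have h9 : algebraMap (F k) K t ∈ ic K O := by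
    rw [fix_mem]
    exact isIntegral_algebraMap (R := O) (A := K) (x := ⟨t, ht.1⟩)
  rw [zpow_natCast]
  exact pow_mem h9 m

end Pool.Agent.Lib.MP_4318ff_ag
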