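import Pool.Agent.Lib.MP_4318ff_ag.Spec.A2

set_option autoImplicit false

namespace Pool.Agent.Lib.MP_4318ff_ag

open Polynomial

section Forms

variable {k : Type} [Field k]

theorem fix_tri {T b c d : Fin 3 → k} (hb : b ⬝ᵥ T ≠ 0) (hc : c ⬝ᵥ T = 0) (hd : d ⬝ᵥ T = 0)
    (hcd : LinearIndependent k ![c, d]) : LinearIndependent k ![b, c, d] := by
  rw [Fintype.linearIndependent_iff]
  intro g hg
  have h3 : g 0 • b + g 1 • c + g 2 • d = 0 := by
    rw [Fin.sum_univ_three] at hg
    simpa using hg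
  have h0 : g 0 = 0 := by
    have h4 : (g 0 • b + g 1 • c + g 2 • d) ⬝ᵥ T = 0 := by rw [h3]; simp
    rw [add_dotProduct, add_dotProduct, smul_dotProduct, smul_dotProduct, smul_dotProduct, hc, hd] at h4
    simp only [smul_eq_mul, mul_zero, add_zero] at h4
    exact (mul_eq_zero.1 h4).resolve_right hb
  rw [h0, zero_smul, zero_add] at h3
  have h5 := (LinearIndependent.pair_iff.1 hcd) (g 1) (g 2) h3
  intro i
  fin_cases i
  · exact h0
  · exact h5.1
  · exact h5.2

theorem fix_span {b c d : Fin 3 → k} (h : LinearIndependent k ![b, c, d]) (e : Fin 3 → k) :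
    ∃ β γ δ : k, e = β • b + γ • c + δ • d := by
  have hcard : Fintype.card (Fin 3) = Module.finrank k (Fin 3 → k) := by simp
  let B := basisOfLinearIndependentOfCardEqFinrank h hcard
  have h1 := B.sum_repr e
  refine ⟨B.repr e 0, B.repr e 1, B.repr e 2, ?_⟩
  rw [Fin.sum_univ_three] at h1
  have hB : ⇑B = ![b, c, d] := coe_basisOfLinearIndependentOfCardEqFinrank h hcard
  rw [hB] at h1
  simpa using h1.symm

theorem fix_exists {T b c c0 d0 : Fin 3 → k} (hb : b ⬝ᵥ T ≠ 0) (hc : c ⬝ᵥ T = 0) (hc1 : c ≠ 0)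
    (hc0 : c0 ⬝ᵥ T = 0) (hd0 : d0 ⬝ᵥ T = 0) (h : LinearIndependent k ![c0, d0]) :
    ∃ d : Fin 3 → k, d ⬝ᵥ T = 0 ∧ LinearIndependent k ![b, c, d] := by
  by_cases h1 : LinearIndependent k ![c, c0]
  · exact ⟨c0, hc0, fix_tri hb hc hc0 h1⟩
  · refine ⟨d0, hd0, fix_tri hb hc hd0 ?_⟩
    rw [LinearIndependent.pair_iff' hc1] at h1 ⊢
    push Not at h1
    obtain ⟨a, ha⟩ := h1
    intro r hr
    have h2 := (LinearIndependent.pair_iff.1 h) r (-a) ?_
    · have h3 : a = 0 := by simpa using h2.2
      have h4 : r = 0 := h2.1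
      rw [h4, zero_smul] at hr
      have h5 := h.ne_zero 1
      exact h5 (by simpa using hr.symm)
    · rw [← ha, ← hr, smul_smul, neg_smul, smul_smul, mul_comm r a]
      simp

end Forms

section Rings

variable {k : Type} [Field k]

/-- inverses of polynomials in `w` -/
theorem fix_inv [IsAlgClosed k] (O : Subalgebra k (F k)) (w : F k) (h : ∀ a : k, (w - algebraMap k (F k) a)⁻¹ ∈ O)
    (q : k[X]) : (aeval w q)⁻¹ ∈ O := by
  have hs := (IsAlgClosed.splits q).eq_prod_roots
  rw [hs, map_mul, mul_inv, aeval_C]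
  refine O.mul_mem ?_ ?_
  · rw [← map_inv₀]
    exact O.algebraMap_mem _
  · rw [map_multiset_prod, Multiset.map_map, ← Multiset.prod_map_inv]
    refine Subalgebra.multiset_prod_mem _ ?_
    intro x hx
    rw [Multiset.mem_map] at hx
    obtain ⟨a, -, rfl⟩ := hx
    simp only [Function.comp_apply, map_sub, aeval_X, aeval_C]
    exact h a

/-- the fields `PF T` and `k(w)` -/
theorem fix_PF (h1 : EvStmt) (T : Pt k) {b c d : Fin 3 → k} (hb : b ⬝ᵥ T.rep ≠ 0) (hc : c ⬝ᵥ T.rep = 0)
    (hd : d ⬝ᵥ T.rep = 0) (hl : LinearIndependent k ![b, c, d]) :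
    PF T ≤ IntermediateField.adjoin k {ev d / ev c} := by
  obtain ⟨ea, es, ez⟩ := h1 k
  unfold PF
  rw [IntermediateField.adjoin_le_iff]
  rintro z ⟨e, e', he, he', rfl⟩
  have hc0 : c ≠ 0 := by simpa using hl.ne_zero 1
  have hec : ev c ≠ 0 := fun h => hc0 ((ez c).1 h)
  have key : ∀ e : Fin 3 → k, e ⬝ᵥ T.rep = 0 →
      ev e / ev c ∈ IntermediateField.adjoin k {ev d / ev c} := by
    intro e he
    obtain ⟨β, γ, δ, hh⟩ := fix_span hl e
    have hβ : β = 0 := by
      rw [hh, add_dotProduct, add_dotProduct, smul_dotProduct, smul_dotProduct, smul_dotProduct, hc, hd] at he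
      simp only [smul_eq_mul, mul_zero, add_zero] at he
      exact (mul_eq_zero.1 he).resolve_right hb
    rw [hβ, zero_smul, zero_add] at hh
    have h2 : ev e / ev c = algebraMap k (F k) γ + algebraMap k (F k) δ * (ev d / ev c) := by
      rw [hh, ea, es, es]
      field_simp
    rw [h2]
    exact add_mem (IntermediateField.algebraMap_mem _ _)
      (mul_mem (IntermediateField.algebraMap_mem _ _) (IntermediateField.mem_adjoin_simple_self k _))
  have h3 : ev e / ev e' = (ev e / ev c) / (ev e' / ev c) := by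
    rw [div_div_div_cancel_right₀ hec]
  rw [h3]
  exact div_mem (key e he) (key e' he')

theorem fix_PF_le [IsAlgClosed k] (h1 : EvStmt) (T : Pt k) (O : Subalgebra k (F k)) {b c d : Fin 3 → k}
    (hb : b ⬝ᵥ T.rep ≠ 0) (hc : c ⬝ᵥ T.rep = 0)
    (hd : d ⬝ᵥ T.rep = 0) (hl : LinearIndependent k ![b, c, d])
    (hO : ∀ c d : Fin 3 → k, c ≠ 0 → c ⬝ᵥ T.rep = 0 → d ⬝ᵥ T.rep = 0 → ev d / ev c ∈ O) :
    ∀ f ∈ PF T, f ∈ O := by
  intro f hf
  obtain ⟨ea, es, ez⟩ := h1 k
  have hc0 : c ≠ 0 := by simpa using hl.ne_zero 1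
  have hec : ev c ≠ 0 := fun h => hc0 ((ez c).1 h)
  have h2 := fix_PF h1 T hb hc hd hl hf
  rw [IntermediateField.mem_adjoin_simple_iff] at h2
  obtain ⟨p, q, rfl⟩ := h2
  have hw : ev d / ev c ∈ O := hO c d hc0 hc hd
  rw [div_eq_mul_inv]
  refine O.mul_mem ?_ ?_
  · have := aeval_mem_adjoin_singleton (R := k) (p := p) (ev d / ev c)
    exact (Algebra.adjoin_le (Set.singleton_subset_iff.2 hw)) this
  · refine fix_inv O _ ?_ q
    intro a
    have h3 : (ev d / ev c - algebraMap k (F k) a)⁻¹ = ev c / ev (d + (-a) • c) := by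
      rw [ea, es, map_neg]
      have h4 : ev d / ev c - algebraMap k (F k) a = (ev d + -(algebraMap k (F k)) a * ev c) / ev c := by
        field_simp
        ring
      rw [h4, inv_div]
    rw [h3]
    refine hO _ _ ?_ ?_ hc
    · intro h5
      have h6 := (Fintype.linearIndependent_iff.1 hl) ![0, -a, 1] ?_ 2
      · simp at h6
      · rw [Fin.sum_univ_three]
        change (0 : k) • b + (-a) • c + (1 : k) • d = 0
        rw [zero_smul, one_smul, zero_add, add_comm]
        exact h5
    · rw [add_dotProduct, smul_dotProduct, hc, hd]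
      simp

end Rings

section Big

variable {k : Type} [Field k] {K : Type} [Field K] [Algebra (F k) K]

theorem fix_mem (O : Subalgebra k (F k)) (y : K) : y ∈ ic K O ↔ IsIntegral O y := Iff.rfl

/-- `t` lies in the Jacobson radical -/
theorem fix_unit (h3 : UnifStmt) (O : Subalgebra k (F k)) (t : F k) (ht : IsUnif O t) (y : K)
    (hy : y ∈ ic K O) : (1 + algebraMap (F k) K t * y)⁻¹ ∈ ic K O := by
  obtain ⟨u1, u2, u3, u4⟩ := h3 k O t ht
  let B := integralClosure O K
  have htB : algebraMap (F k) K t ∈ B := by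
    change IsIntegral O _
    exact isIntegral_algebraMap (R := O) (A := K) (x := ⟨t, ht.1⟩)
  let tB : B := ⟨algebraMap (F k) K t, htB⟩
  let yB : B := ⟨y, hy⟩
  have hu : IsUnit (1 + tB * yB) := by
    by_contra hn
    obtain ⟨M, hM, hzM⟩ := exists_max_ideal_of_mem_nonunits hn
    have hm : (Ideal.comap (algebraMap O B) M).IsMaximal :=
      Ideal.isMaximal_comap_of_isIntegral_of_isMaximal (R := O) (S := B) M
    let tO : O := ⟨t, ht.1⟩
    have htm : tO ∈ Ideal.comap (algebraMap O B) M := by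
      by_contra hnt
      obtain ⟨a, ha, s, hs⟩ : ∃ a ∈ Ideal.comap (algebraMap O B) M, ∃ s, a + tO * s = 1 := by
        have h5 := (Ideal.isMaximal_iff.1 hm).2 (Ideal.comap (algebraMap O B) M ⊔ Ideal.span {tO}) tO le_sup_left hnt
          (Ideal.mem_sup_right (Ideal.mem_span_singleton_self _))
        rw [Submodule.mem_sup] at h5
        obtain ⟨a, ha, z, hz, haz⟩ := h5
        rw [Ideal.mem_span_singleton] at hz
        obtain ⟨s, rfl⟩ := hz
        exact ⟨a, ha, s, haz⟩
      have ha' : (a : F k) = 1 - t * s := by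
        have : (a : F k) + t * s = 1 := by
          have := congrArg (Subtype.val) hs
          simpa using this
        linear_combination this
      have hau : (a : F k)⁻¹ ∈ O := by
        by_contra hna
        have h6 := u3 (a : F k) a.2 hna
        apply ht.2.1
        have ht0 : t ≠ 0 := by
          intro h0
          apply ht.2.1
          rw [h0, inv_zero]
          exact O.zero_mem
        have h7 : t⁻¹ = (a : F k) / t + s := by
          rw [ha']
          field_simp
          ring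
        rw [h7]
        exact O.add_mem h6 s.2
      have ha0 : (a : F k) ≠ 0 := by
        intro h0
        rw [ha'] at h0
        have h8 : t * s = 1 := by linear_combination -h0
        apply ht.2.1
        rw [← eq_inv_of_mul_eq_one_right h8]
        exact s.2
      have h9 : (1 : O) ∈ Ideal.comap (algebraMap O B) M := by
        have : (⟨(a : F k)⁻¹, hau⟩ : O) * a = 1 := by
          apply Subtype.ext
          simp [ha0]
        rw [← this]
        exact Ideal.mul_mem_left _ _ ha
      exact hm.ne_top ((Ideal.eq_top_iff_one _).2 h9)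
    have htM : tB ∈ M := by
      have h10 : algebraMap O B tO = tB := by
        apply Subtype.ext
        rfl
      rw [← h10]
      exact htm
    have h11 : (1 : B) ∈ M := by
      have h20 : (1 : B) = (1 + tB * yB) + (-1) * (tB * yB) := by ring
      have h21 : tB * yB ∈ M := M.mul_mem_right _ htM
      rw [h20]
      exact M.add_mem hzM (M.mul_mem_left _ h21)
    exact hM.ne_top ((Ideal.eq_top_iff_one _).2 h11)
  obtain ⟨v, hv⟩ := hu
  have h12 : (v : B) * (↑v⁻¹ : B) = 1 := v.mul_inv
  have h13 : (1 + algebraMap (F k) K t * y) * ((↑v⁻¹ : B) : K) = 1 := by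
    have := congrArg (Subtype.val) h12
    rw [hv] at this
    simpa using this
  have h14 : (1 + algebraMap (F k) K t * y)⁻¹ = ((↑v⁻¹ : B) : K) := (eq_inv_of_mul_eq_one_right h13).symm
  rw [h14]
  exact (↑v⁻¹ : B).2

/-- values of polynomials with nonzero constant coefficient -/
theorem fix_poly (h3 : UnifStmt) (O : Subalgebra k (F k)) (t : F k) (ht : IsUnif O t) (L : Subfield K)
    (hL : ∀ y ∈ L, y ∈ ic K O) (p : L[X]) (hp : p.coeff 0 ≠ 0) :
    aeval (algebraMap (F k) K t) p ∈ ic K O ∧ (aeval (algebraMap (F k) K t) p)⁻¹ ∈ ic K O := by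
  have htB : algebraMap (F k) K t ∈ ic K O := by
    rw [fix_mem]
    exact isIntegral_algebraMap (R := O) (A := K) (x := ⟨t, ht.1⟩)
  have hval : ∀ q : L[X], aeval (algebraMap (F k) K t) q ∈ ic K O := by
    intro q
    rw [aeval_eq_sum_range]
    refine sum_mem fun i _ => ?_
    rw [Algebra.smul_def]
    exact mul_mem (hL _ (q.coeff i).2) (pow_mem htB i)
  refine ⟨hval p, ?_⟩
  have h0 : ((p.coeff 0 : L) : K) ≠ 0 := by
    intro h
    exact hp (Subtype.ext h)
  have e1 : aeval (algebraMap (F k) K t) p =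
      (p.coeff 0 : K) * (1 + algebraMap (F k) K t * (((p.coeff 0 : K))⁻¹ * aeval (algebraMap (F k) K t) p.divX)) := by
    have := congrArg (aeval (algebraMap (F k) K t)) (divX_mul_X_add p)
    rw [map_add, map_mul, aeval_X, aeval_C] at this
    rw [← this]
    have h5 : (algebraMap L K) (p.coeff 0) = (p.coeff 0 : K) := rfl
    rw [h5]
    field_simp
    ring
  rw [e1, mul_inv]
  refine mul_mem ?_ ?_
  · exact hL _ (L.inv_mem (p.coeff 0).2)
  · refine fix_unit h3 O t ht _ ?_
    exact mul_mem (hL _ (L.inv_mem (p.coeff 0).2)) (hval _)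

end Big

end Pool.Agent.Lib.MP_4318ff_ag
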