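import Pool.Agent.Lib.MP_4318ff_ag.Spec.A1
import Pool.Agent.Lib.MP_4318ff_ag.A.G2

/-!
# MP_4318ff_ag, module A/Glob: the functions do not depend on the chart
-/

set_option autoImplicit false

namespace Pool.Agent.Lib.MP_4318ff_ag

theorem glob_div {k K : Type} [Field k] [Field K] [Algebra k K] (E : Derivation k K K) {a b : K}
    (ha : a ≠ 0) (hb : b ≠ 0) (h : E (a / b) = 0) : E a / a = E b / b := by
  have h1 : E a = a / b * E b := by
    have h2 : E (a / b * b) = a / b * E b + b * E (a / b) := by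
      rw [Derivation.leibniz, smul_eq_mul, smul_eq_mul]
    rw [div_mul_cancel₀ a hb, h, mul_zero, add_zero] at h2
    exact h2
  rw [h1]
  field_simp

theorem glob_ne {k : Type} [Field k] {r : ℕ} (C : Config k r) {i j : Fin r} (hij : i ≠ j) :
    ev (C.ℓ i) ≠ 0 ∧ ev (C.ℓ j) ≠ 0 := by
  have h := C.indep i j hij
  exact ⟨fun h0 => h.ne_zero 0 (ev_eq_zero h0), fun h0 => h.ne_zero 1 (ev_eq_zero h0)⟩

theorem tGlob : GlobStmt := by
  intro k _ r C K _ _ _ _ S D₀ Δ Δ' s hE hs0 hs1 hs2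
  let φ := algebraMap (F k) K
  have hinj : Function.Injective φ := φ.injective
  -- one point
  have key : ∀ P ∈ S, ∑ i, algebraMap k K (s P i) *
      ((Δ' P - Δ P - D₀) (φ (ev (C.ℓ i))) / φ (ev (C.ℓ i))) = 0 := by
    intro P hP
    have hκ : ∃ κ : K, ∀ i ∈ C.through P,
        (Δ' P - Δ P - D₀) (φ (ev (C.ℓ i))) / φ (ev (C.ℓ i)) = κ := by
      by_cases h : ∃ j, j ∈ C.through P
      · obtain ⟨j, hj⟩ := h
        refine ⟨(Δ' P - Δ P - D₀) (φ (ev (C.ℓ j))) / φ (ev (C.ℓ j)), fun i hi => ?_⟩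
        by_cases hij : i = j
        · rw [hij]
        · obtain ⟨hi0, hj0⟩ := glob_ne C hij
          refine glob_div _ (fun h => hi0 (hinj (h.trans (map_zero φ).symm)))
            (fun h => hj0 (hinj (h.trans (map_zero φ).symm))) ?_
          rw [← map_div₀, Derivation.sub_apply, sub_eq_zero]
          exact (hE P hP (C.ℓ i) (C.ℓ j) hi hj).symm
      · exact ⟨0, fun i hi => absurd ⟨i, hi⟩ h⟩
    obtain ⟨κ, hκ⟩ := hκ
    have h1 : ∀ i, algebraMap k K (s P i) *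
        ((Δ' P - Δ P - D₀) (φ (ev (C.ℓ i))) / φ (ev (C.ℓ i))) = algebraMap k K (s P i) * κ := by
      intro i
      by_cases hi : i ∈ C.through P
      · rw [hκ i hi]
      · rw [hs0 P hP i hi, map_zero, zero_mul, zero_mul]
    rw [Finset.sum_congr rfl fun i _ => h1 i, ← Finset.sum_mul, ← map_sum, hs1 P hP, map_zero,
      zero_mul]
  -- the sum of the terms of `D₀`
  have hD : ∑ P ∈ S, ∑ i, algebraMap k K (s P i) * (D₀ (φ (ev (C.ℓ i))) / φ (ev (C.ℓ i))) = 0 := by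
    rw [Finset.sum_comm]
    refine Finset.sum_eq_zero fun i _ => ?_
    rw [← Finset.sum_mul, ← map_sum, hs2 i, map_zero, zero_mul]
  have h3 : ∑ P ∈ S, ∑ i, algebraMap k K (s P i) *
      ((Δ' P - Δ P - D₀) (φ (ev (C.ℓ i))) / φ (ev (C.ℓ i))) = 0 :=
    Finset.sum_eq_zero key
  have h4 : ∀ P i, algebraMap k K (s P i) *
      ((Δ' P - Δ P - D₀) (φ (ev (C.ℓ i))) / φ (ev (C.ℓ i))) =
      algebraMap k K (s P i) * (Δ' P (φ (ev (C.ℓ i))) / φ (ev (C.ℓ i))) -
      algebraMap k K (s P i) * (Δ P (φ (ev (C.ℓ i))) / φ (ev (C.ℓ i))) -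
      algebraMap k K (s P i) * (D₀ (φ (ev (C.ℓ i))) / φ (ev (C.ℓ i))) := by
    intro P i
    rw [Derivation.sub_apply, Derivation.sub_apply]
    ring
  simp only [h4, Finset.sum_sub_distrib] at h3
  rw [hD, sub_zero, sub_eq_zero] at h3
  exact h3.symm

end Pool.Agent.Lib.MP_4318ff_ag
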