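import Pool.Agent.Lib.MP_4318ff_ag.Spec.A2

/-!
MP_4318ff_ag, module A/Good: regularity of a derivation on the integral elements of the Kummer field.
-/

set_option autoImplicit false

namespace Pool.Agent.Lib.MP_4318ff_ag

section

variable {k : Type} [Field k]

private lemma good_ne {r : ℕ} (C : Config k r) (i : Fin r) : C.ℓ i ≠ 0 := by
  intro h0
  have h1 : ∀ j, j = i := by
    intro j
    by_contra hj
    have h2 := (C.indep i j (fun h => hj h.symm)).ne_zero 0
    exact h2 h0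
  have h2 : Set.range C.ℓ = {0} := by
    ext v
    constructor
    · rintro ⟨j, rfl⟩
      rw [h1 j, h0]
      rfl
    · rintro hv
      exact ⟨i, by rw [h0, Set.mem_singleton_iff.1 hv]⟩
  have h3 := C.span
  rw [h2, Submodule.span_zero_singleton] at h3
  exact bot_ne_top h3

private lemma good_zpow (O : Subalgebra k (F k)) (x : F k) (hx : x ∈ O) (hx' : x⁻¹ ∈ O) (e : ℤ) :
    x ^ e ∈ O := by
  rcases le_total 0 e with he | he
  · obtain ⟨m, rfl⟩ := Int.eq_ofNat_of_zero_le he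
    rw [zpow_natCast]
    exact O.pow_mem hx m
  · obtain ⟨m, hm⟩ := Int.eq_ofNat_of_zero_le (show 0 ≤ -e by omega)
    have h1 : e = -(m : ℤ) := by omega
    rw [h1, zpow_neg, zpow_natCast, ← inv_pow]
    exact O.pow_mem hx' m

private lemma good_prod (hEv : EvStmt) {r : ℕ} (C : Config k r) (O : Subalgebra k (F k))
    (h : ∀ i j, ev (C.ℓ i) / ev (C.ℓ j) ∈ O) (e : Fin r → ℤ) (he : ∑ i, e i = 0) :
    ∏ i, ev (C.ℓ i) ^ e i ∈ O := by
  have h0 : ∀ i, ev (C.ℓ i) ≠ 0 := fun i hi => good_ne C i (((hEv k).2.2 _).1 hi)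
  rcases Nat.eq_zero_or_pos r with hr | hr
  · subst hr
    rw [Finset.univ_eq_empty, Finset.prod_empty]
    exact O.one_mem
  · let i₀ : Fin r := ⟨0, hr⟩
    have h1 : ∏ i, ev (C.ℓ i) ^ e i = ∏ i, (ev (C.ℓ i) / ev (C.ℓ i₀)) ^ e i := by
      have h2 : ∏ i, (ev (C.ℓ i) / ev (C.ℓ i₀)) ^ e i =
          (∏ i, ev (C.ℓ i) ^ e i) / ∏ i, ev (C.ℓ i₀) ^ e i := by
        rw [← Finset.prod_div_distrib]
        exact Finset.prod_congr rfl fun i _ => div_zpow _ _ _
      have h3 : ∏ i, ev (C.ℓ i₀) ^ e i = 1 := by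
        have h4 : ∀ s : Finset (Fin r), ∏ i ∈ s, ev (C.ℓ i₀) ^ e i =
            ev (C.ℓ i₀) ^ (∑ i ∈ s, e i) := by
          intro s
          induction s using Finset.induction_on with
          | empty => simp
          | insert a s ha ih => rw [Finset.prod_insert ha, Finset.sum_insert ha, ih, zpow_add₀ (h0 i₀)]
        rw [h4, he, zpow_zero]
      rw [h2, h3, div_one]
    rw [h1]
    refine O.prod_mem fun i _ => good_zpow O _ (h i i₀) ?_ _
    rw [inv_div]
    exact h i₀ i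

end

theorem tGood : EvStmt → KumDecStmt → KumRegStmt → GoodStmt := by
  intro hEv hKD hKR k _ _ _ r n C K _ _ _ _ _ _ O π E hn hR hπ hE hcase y hy hyK
  have hdec := hKD k r n C K O y hn hR hy hyK
  refine AddSubgroup.closure_induction (p := fun y _ => E y ∈ ic K O) ?_ ?_ ?_ ?_ hdec
  · rintro h ⟨hh, c, e, he, hc⟩
    refine hKR k n K O π E h _ hn hπ hE hh hc ?_
    rcases hcase with h1 | h1
    · left
      refine ⟨c, ∏ i, ev (C.ℓ i) ^ e i, good_prod hEv C O h1 e he, ?_, rfl⟩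
      rw [← Finset.prod_inv_distrib]
      have h2 : ∏ i, (ev (C.ℓ i) ^ e i)⁻¹ = ∏ i, ev (C.ℓ i) ^ ((fun i => - e i) i) :=
        Finset.prod_congr rfl fun i _ => (zpow_neg _ _).symm
      rw [h2]
      refine good_prod hEv C O h1 _ ?_
      rw [Finset.sum_neg_distrib, he, neg_zero]
    · exact Or.inr h1
  · rw [map_zero]
    exact (ic K O).zero_mem
  · intro x z _ _ hx hz
    rw [map_add]
    exact (ic K O).add_mem hx hz
  · intro x _ hx
    rw [map_neg]
    exact (ic K O).neg_mem hx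

end Pool.Agent.Lib.MP_4318ff_ag
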