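import Pool.Agent.Lib.MP_4318ff_ag.A.Hart1

/-!
# MP_4318ff_ag, A/Hart: Hartogs on the charts of the blow-up
-/

set_option autoImplicit false

namespace Pool.Agent.Lib.MP_4318ff_ag

open MvPolynomial
open scoped LinearAlgebra.Projectivization

variable {k : Type} [Field k] {r : ℕ} {C : Config k r}

lemma hart_gen1 (u : Chart C) (c : Fin 3 → k) : ev c / ev u.b ∈ u.R :=
  Algebra.subset_adjoin (Or.inl ⟨c, rfl⟩)

lemma hart_gen2 (u : Chart C) {P : Pt k} (hP : P ∈ C.M) (c : Fin 3 → k) (hc : c ⬝ᵥ P.rep = 0) :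
    ev c / ev (u.a P) ∈ u.R :=
  Algebra.subset_adjoin (Or.inr ⟨P, hP, c, hc, rfl⟩)

lemma hart_le (u : Chart C) (O : Subalgebra k (F k)) (h1 : ∀ c : Fin 3 → k, ev c / ev u.b ∈ O)
    (h2 : ∀ P ∈ C.M, ∀ c : Fin 3 → k, c ⬝ᵥ P.rep = 0 → ev c / ev (u.a P) ∈ O) : u.R ≤ O := by
  unfold Chart.R
  refine Algebra.adjoin_le ?_
  rintro z (⟨c, rfl⟩ | ⟨P, hP, c, hc, rfl⟩)
  · exact h1 c
  · exact h2 P hP c hc

/-- The bad points: the inverse of `α_P` is regular. -/
lemma hart_bad (hE : EvStmt) (u : Chart C) {P : Pt k} (hP : P ∈ C.M)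
    (h : u.b ⬝ᵥ P.rep = 0 ∨ ∃ Q ∈ C.M, Q ≠ P ∧ u.a Q ⬝ᵥ P.rep = 0) :
    ev u.b / ev (u.a P) ∈ u.R := by
  have hev : ∀ a : Fin 3 → k, a ≠ 0 → ev a ≠ 0 := fun a ha h => ha (((hE k).2.2 a).mp h)
  rcases h with h | ⟨Q, hQ, hQP, h⟩
  · exact hart_gen2 u hP _ h
  · obtain ⟨e, heQ, heP⟩ := hart_sep hQP
    have h1 : ev e / ev (u.a P) ∈ u.R := by
      have h2 := mul_mem (hart_gen2 u hQ e heQ) (hart_gen2 u hP (u.a Q) h)
      have h3 : ev e / ev (u.a Q) * (ev (u.a Q) / ev (u.a P)) = ev e / ev (u.a P) := by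
        have := hev _ (u.a_ne Q hQ)
        field_simp
      rw [h3] at h2
      exact h2
    have h4 : (u.b - ((u.b ⬝ᵥ P.rep) / (e ⬝ᵥ P.rep)) • e) ⬝ᵥ P.rep = 0 := by
      rw [sub_dotProduct, smul_dotProduct, smul_eq_mul, div_mul_cancel₀ _ heP, sub_self]
    have h5 := hart_gen2 u hP _ h4
    have h6 : ev u.b / ev (u.a P) =
        ev (u.b - ((u.b ⬝ᵥ P.rep) / (e ⬝ᵥ P.rep)) • e) / ev (u.a P) +
          algebraMap k (F k) ((u.b ⬝ᵥ P.rep) / (e ⬝ᵥ P.rep)) * (ev e / ev (u.a P)) := by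
      have h7 : ev u.b = ev (u.b - ((u.b ⬝ᵥ P.rep) / (e ⬝ᵥ P.rep)) • e) +
          algebraMap k (F k) ((u.b ⬝ᵥ P.rep) / (e ⬝ᵥ P.rep)) * ev e := by
        rw [← (hE k).2.1, ← (hE k).1, sub_add_cancel]
      conv_lhs => rw [h7]
      ring
    rw [h6]
    exact add_mem h5 (mul_mem (u.R.algebraMap_mem _) h1)

/-- The good points. -/
lemma hart_good (hE : EvStmt) (hC : CoordStmt) (hL : LocStmt) (hX : ExcStmt) (hO : OrdStmt)
    (u : Chart C) {c d : Fin 3 → k} (_hli : LinearIndependent k ![u.b, c, d]) {P : Pt k}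
    (hP : P ∈ C.M) (hb : u.b ⬝ᵥ P.rep ≠ 0) (hQ : ∀ Q ∈ C.M, Q ≠ P → u.a Q ⬝ᵥ P.rep ≠ 0) :
    (∃ O, IsDiv C O ∧ u.R ≤ O ∧ ∀ (h : MvPolynomial (Fin 2) k) (e : ℕ),
      cm (ev c / ev u.b) (ev d / ev u.b) h / (ev (u.a P) / ev u.b) ^ e ∈ O →
      cm (ev c / ev u.b) (ev d / ev u.b) h / (ev (u.a P) / ev u.b) ^ e ∈ u.R) ∧
    ∀ Q ∈ C.M, Q ≠ P → ∃ (s : k) (y : F k), s ≠ 0 ∧ y ∈ u.R ∧
      ev (u.a Q) / ev u.b = algebraMap k (F k) s + ev (u.a P) / ev u.b * y := by
  have hev : ∀ a : Fin 3 → k, a ≠ 0 → ev a ≠ 0 := fun a ha h => ha (((hE k).2.2 a).mp h)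
  have haP := u.a_ne P hP
  obtain ⟨d', hli', hd'⟩ := hart_ext P.rep_nonzero haP (u.a_through P hP) hb
  have e1 := hev _ haP
  have e2 := hev _ u.b_ne
  constructor
  · have hcoord := (hC k _ _ _ hli').2
    have hcoordA := (hC k _ _ _ hli').1
    obtain ⟨O, hO'⟩ := (hL k _ _ hcoord (X 0) exc_irr).1
    have hexc : IsExc P O := ⟨_, _, _, hli', u.a_through P hP, hd', hO'⟩
    obtain ⟨x1, x2, x3, x4⟩ := (hX k P).2 O hexc
    refine ⟨O, Or.inr ⟨P, hP, hexc⟩, ?_, ?_⟩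
    · refine hart_le u O (x1 _ hb).2 ?_
      intro Q hQM c hcQ
      by_cases hQP : Q = P
      · subst hQP
        exact x2 _ _ haP (u.a_through Q hQM) hcQ
      · exact (x1 _ (hQ Q hQM hQP)).2 c
    · intro h e hmem
      obtain ⟨N, H, eH⟩ := curve_hom (z := ev (u.a P) / ev u.b) (w := ev d' / ev u.b)
        (z' := ev c / ev u.b) (w' := ev d / ev u.b) (t := 1)
        (by
          obtain ⟨β, γ, δ, -, e⟩ := curve_form hE hli' c
          exact ⟨_, by rw [mul_one]; exact e⟩)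
        (by
          obtain ⟨β, γ, δ, -, e⟩ := curve_form hE hli' d
          exact ⟨_, by rw [mul_one]; exact e⟩)
        ⟨1, (map_one _).symm⟩ h
      rw [one_pow, mul_one] at eH
      rw [eH] at hmem ⊢
      have e3 : ev d' / ev u.b / (ev (u.a P) / ev u.b) = ev d' / ev (u.a P) := by
        field_simp
      have hord := (hO k (ev (u.a P) / ev u.b) (ev d' / ev u.b) H e hcoordA).1 O
        (by rw [e3]; exact hcoord) (by rw [e3]; exact hO')
      refine hart_ord (div_ne_zero e1 e2) (hart_gen1 u _) ?_ H e (hord.mp hmem)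
      rw [e3]
      exact hart_gen2 u hP _ hd'
  · intro Q hQM hQP
    obtain ⟨β, γ, δ, e⟩ := curve_basis hli' (u.a Q)
    refine ⟨β, algebraMap k (F k) γ + algebraMap k (F k) δ * (ev d' / ev (u.a P)), ?_, ?_, ?_⟩
    · rintro rfl
      apply hQ Q hQM hQP
      rw [e, ← exc_f_apply, map_add, map_add, map_smul, map_smul, map_smul, exc_f_apply,
        exc_f_apply, exc_f_apply, u.a_through P hP, hd']
      simp
    · exact add_mem (u.R.algebraMap_mem _) (mul_mem (u.R.algebraMap_mem _) (hart_gen2 u hP _ hd'))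
    · rw [e, curve_ev3 hE]
      field_simp
      ring

open Classical in
/-- The induction over the set of points in the denominator. -/
lemma hart_ind (hE : EvStmt) (hC : CoordStmt) (hL : LocStmt) (hX : ExcStmt) (hO : OrdStmt)
    (u : Chart C) {c d : Fin 3 → k} (hli : LinearIndependent k ![u.b, c, d]) (S : Finset (Pt k))
    (hS : ∀ P ∈ S, P ∈ C.M) (e : Pt k → ℕ) (f : F k)
    (hf : ∀ O, IsDiv C O → u.R ≤ O → f ∈ O)
    (hh : ∃ h, f * ∏ P ∈ S, (ev (u.a P) / ev u.b) ^ e P = cm (ev c / ev u.b) (ev d / ev u.b) h) :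
    f ∈ u.R := by
  have hev : ∀ a : Fin 3 → k, a ≠ 0 → ev a ≠ 0 := fun a ha h => ha (((hE k).2.2 a).mp h)
  induction S using Finset.induction_on generalizing f with
  | empty =>
    obtain ⟨h, e1⟩ := hh
    rw [Finset.prod_empty, mul_one] at e1
    rw [e1]
    exact hart_cm_mem (hart_gen1 u c) (hart_gen1 u d) h
  | insert P S hPS ih =>
    have hP : P ∈ C.M := hS P (Finset.mem_insert_self P S)
    have hS' : ∀ Q ∈ S, Q ∈ C.M := fun Q hQ => hS Q (Finset.mem_insert_of_mem hQ)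
    obtain ⟨h, e1⟩ := hh
    rw [Finset.prod_insert hPS] at e1
    have hα : ev (u.a P) / ev u.b ∈ u.R := hart_gen1 u _
    have hα0 : ev (u.a P) / ev u.b ≠ 0 := div_ne_zero (hev _ (u.a_ne P hP)) (hev _ u.b_ne)
    have hf1 : f * (ev (u.a P) / ev u.b) ^ e P ∈ u.R := by
      refine ih hS' _ ?_ ⟨h, by rw [← e1]; ring⟩
      intro O hO1 hO2
      exact mul_mem (hf O hO1 hO2) (pow_mem (hO2 hα) _)
    by_cases hbad : u.b ⬝ᵥ P.rep = 0 ∨ ∃ Q ∈ C.M, Q ≠ P ∧ u.a Q ⬝ᵥ P.rep = 0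
    · have h1 := hart_bad hE u hP hbad
      have h2 : f = f * (ev (u.a P) / ev u.b) ^ e P * (ev u.b / ev (u.a P)) ^ e P := by
        rw [mul_assoc, ← mul_pow, div_mul_div_comm, mul_comm (ev u.b), div_self, one_pow, mul_one]
        exact mul_ne_zero (hev _ (u.a_ne P hP)) (hev _ u.b_ne)
      rw [h2]
      exact mul_mem hf1 (pow_mem h1 _)
    · push Not at hbad
      obtain ⟨hb, hQ⟩ := hbad
      obtain ⟨⟨O, hO1, hO2, hO3⟩, hcop⟩ := hart_good hE hC hL hX hO u hli hP hb hQ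
      have hg : ∏ Q ∈ S, (ev (u.a Q) / ev u.b) ^ e Q ∈ u.R :=
        prod_mem fun Q _ => pow_mem (hart_gen1 u _) _
      have hf2 : f * ∏ Q ∈ S, (ev (u.a Q) / ev u.b) ^ e Q ∈ u.R := by
        have h1 : f * ∏ Q ∈ S, (ev (u.a Q) / ev u.b) ^ e Q =
            cm (ev c / ev u.b) (ev d / ev u.b) h / (ev (u.a P) / ev u.b) ^ e P := by
          rw [eq_div_iff (pow_ne_zero _ hα0), ← e1]
          ring
        have h2 : f * ∏ Q ∈ S, (ev (u.a Q) / ev u.b) ^ e Q ∈ O :=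
          mul_mem (hf O hO1 hO2) (hO2 hg)
        rw [h1] at h2 ⊢
        exact hO3 h _ h2
      have hco : IsCoprime ((⟨_, hα⟩ : u.R) ^ e P)
          (∏ Q ∈ S, (⟨ev (u.a Q) / ev u.b, hart_gen1 u _⟩ : u.R) ^ e Q) := by
        refine IsCoprime.pow_left (IsCoprime.prod_right fun Q hQS => IsCoprime.pow_right ?_)
        have hQP : Q ≠ P := by
          rintro rfl
          exact hPS hQS
        obtain ⟨s, y, hs, hy, ey⟩ := hcop Q (hS' Q hQS) hQP
        refine ⟨-(⟨_, u.R.algebraMap_mem s⁻¹⟩ : u.R) * ⟨y, hy⟩, ⟨_, u.R.algebraMap_mem s⁻¹⟩, ?_⟩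
        apply Subtype.ext
        show -(algebraMap k (F k) s⁻¹) * y * (ev (u.a P) / ev u.b) +
          algebraMap k (F k) s⁻¹ * (ev (u.a Q) / ev u.b) = 1
        rw [ey, map_inv₀]
        have hs' : algebraMap k (F k) s ≠ 0 := by
          rw [Ne, map_eq_zero]
          exact hs
        field_simp
        ring
      obtain ⟨x, y, exy⟩ := hco
      have exy' : (x : F k) * (ev (u.a P) / ev u.b) ^ e P +
          (y : F k) * ∏ Q ∈ S, (ev (u.a Q) / ev u.b) ^ e Q = 1 := by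
        have := congrArg (fun t : u.R => (t : F k)) exy
        simpa using this
      have h9 : f = x * (f * (ev (u.a P) / ev u.b) ^ e P) +
          y * (f * ∏ Q ∈ S, (ev (u.a Q) / ev u.b) ^ e Q) := by
        linear_combination (-f) * exy'
      rw [h9]
      exact add_mem (mul_mem x.2 hf1) (mul_mem y.2 hf2)

open Classical in
theorem tHart (hE : EvStmt) (hC : CoordStmt) (hL : LocStmt) (hX : ExcStmt) (hO : OrdStmt) :
    HartStmt := by
  intro k _ r C u f hf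
  have hev : ∀ a : Fin 3 → k, a ≠ 0 → ev a ≠ 0 := fun a ha h => ha (((hE k).2.2 a).mp h)
  -- a basis containing b
  obtain ⟨c, d, hli⟩ : ∃ c d : Fin 3 → k, LinearIndependent k ![u.b, c, d] := by
    obtain ⟨i, hi⟩ : ∃ i, u.b i ≠ 0 := by
      by_contra hcon
      push Not at hcon
      exact u.b_ne (funext hcon)
    have h1 : u.b ⬝ᵥ (Pi.single i 1 : Fin 3 → k) ≠ 0 := by
      rw [dotProduct_single, mul_one]
      exact hi
    have h2 : (Pi.single i 1 : Fin 3 → k) ≠ 0 := by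
      intro h
      have := congrFun h i
      rw [Pi.single_eq_same] at this
      exact one_ne_zero this
    obtain ⟨b1, c1, d1, hli1, -, hc1, hd1⟩ := exc_perp (Pi.single i 1 : Fin 3 → k) h2
    obtain ⟨d', hd', -⟩ := hart_ext h2 (hli1.ne_zero 1) hc1 h1
    exact ⟨_, d', hd'⟩
  have hcoord := (hC k _ _ _ hli).1
  have hLP : ∀ P : Pt k, ∃ L : MvPolynomial (Fin 2) k,
      ev (u.a P) / ev u.b = cm (ev c / ev u.b) (ev d / ev u.b) L := by
    intro P
    obtain ⟨β, γ, δ, -, e⟩ := curve_form hE hli (u.a P)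
    exact ⟨_, e⟩
  choose L hLe using hLP
  obtain ⟨g1, g2, hg2, eg⟩ := hcoord.2 f
  obtain ⟨a', b', c', hrel, ea, eb⟩ := UniqueFactorizationMonoid.exists_reduced_factors g2 hg2 g1
  have hcm0 : ∀ h, h ≠ 0 → cm (ev c / ev u.b) (ev d / ev u.b) h ≠ 0 := by
    intro h h0 h1
    exact h0 (hcoord.1 (by rw [h1, map_zero]))
  have ha'0 : a' ≠ 0 := by
    rintro rfl
    rw [mul_zero] at ea
    exact hg2 ea.symm
  have hc'0 : c' ≠ 0 := by
    rintro rfl
    rw [zero_mul] at ea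
    exact hg2 ea.symm
  have ef : f * cm (ev c / ev u.b) (ev d / ev u.b) a' =
      cm (ev c / ev u.b) (ev d / ev u.b) b' := by
    have h1 := hcm0 c' hc'0
    have h2 := hcm0 a' ha'0
    rw [eg, ← ea, ← eb, map_mul, map_mul]
    field_simp
  have hden : ∀ p, Irreducible p → p ∣ a' → ∃ P ∈ C.M, p ∣ L P := by
    intro p hp hpa
    by_contra hcon
    push Not at hcon
    obtain ⟨O, hO1⟩ := (hL k _ _ hcoord p hp).1
    obtain ⟨y1, y2, -⟩ := (hL k _ _ hcoord p hp).2 O hO1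
    have hform : ∀ a : Fin 3 → k, ev a / ev u.b ∈ O := by
      intro a
      obtain ⟨β, γ, δ, -, e⟩ := curve_form hE hli a
      rw [e]
      exact y1 _
    have hle : u.R ≤ O := by
      refine hart_le u O hform ?_
      intro P hP a _
      have h1 := hev _ (u.a_ne P hP)
      have h2 := hev _ u.b_ne
      have hL0 : L P ≠ 0 := by
        intro h0
        have := hLe P
        rw [h0, map_zero] at this
        exact div_ne_zero h1 h2 this
      have h3 : (ev (u.a P) / ev u.b)⁻¹ ∈ O := by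
        rw [hLe P]
        exact (y2 _ hL0).mpr (hcon P hP)
      have h4 : ev a / ev (u.a P) = ev a / ev u.b * (ev (u.a P) / ev u.b)⁻¹ := by
        field_simp
      rw [h4]
      exact mul_mem (hform a) h3
    have hfO := hf O (Or.inl ⟨_, _, _, p, hli, hO1⟩) hle
    obtain ⟨q1, q2, hq, eq⟩ := (hO1.2 f).mp hfO
    have h5 : b' * q2 = a' * q1 := by
      apply hcoord.1
      rw [map_mul, map_mul, ← ef, ← eq]
      ring
    have h6 : p ∣ b' * q2 := by
      rw [h5]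
      exact hpa.mul_right _
    rcases hp.prime.dvd_or_dvd h6 with h7 | h7
    · exact hp.not_isUnit (hrel hpa h7)
    · exact hq h7
  obtain ⟨s, g, hs, eg'⟩ := hart_den C.M L a' ha'0 hden
  refine hart_ind hE hC hL hX hO u hli s.toFinset (fun P hP => hs P (Multiset.mem_toFinset.mp hP))
    (fun P => s.count P) f hf ⟨b' * g, ?_⟩
  have h8 : ∏ P ∈ s.toFinset, (ev (u.a P) / ev u.b) ^ s.count P =
      cm (ev c / ev u.b) (ev d / ev u.b) (a' * g) := by
    rw [eg', Finset.prod_multiset_map_count, map_prod]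
    refine Finset.prod_congr rfl fun P _ => ?_
    rw [map_pow, ← hLe P]
  rw [h8, map_mul, ← mul_assoc, ef, map_mul]

end Pool.Agent.Lib.MP_4318ff_ag
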