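import Pool.Agent.Lib.MP_4318ff_ag.A.Exc

/-!
# MP_4318ff_ag, A/Hart1: lemmas for Hartogs on the charts
-/

set_option autoImplicit false

namespace Pool.Agent.Lib.MP_4318ff_ag

open MvPolynomial
open scoped LinearAlgebra.Projectivization

variable {k : Type} [Field k]

/-- Two different points are separated by a form. -/
lemma hart_sep {P Q : Pt k} (h : Q ≠ P) : ∃ e : Fin 3 → k, e ⬝ᵥ Q.rep = 0 ∧ e ⬝ᵥ P.rep ≠ 0 := by
  by_contra hcon
  push Not at hcon
  apply h
  obtain ⟨b1, c1, d1, hli, hb, hc, hd⟩ := exc_perp Q.rep Q.rep_nonzero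
  have hcP := hcon c1 hc
  have hdP := hcon d1 hd
  have hbP : b1 ⬝ᵥ P.rep ≠ 0 := exc_b P.rep_nonzero hli hcP hdP
  have hzero : P.rep - ((b1 ⬝ᵥ P.rep) / (b1 ⬝ᵥ Q.rep)) • Q.rep = 0 := by
    by_contra hne
    refine exc_b hne hli ?_ ?_ ?_
    · rw [dotProduct_sub, dotProduct_smul, hc, hcP, smul_zero, sub_zero]
    · rw [dotProduct_sub, dotProduct_smul, hd, hdP, smul_zero, sub_zero]
    · rw [dotProduct_sub, dotProduct_smul, smul_eq_mul, div_mul_cancel₀ _ hb, sub_self]
  have h1 : ((b1 ⬝ᵥ P.rep) / (b1 ⬝ᵥ Q.rep)) • Q.rep = P.rep := (sub_eq_zero.mp hzero).symm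
  have h2 : Projectivization.mk k P.rep P.rep_nonzero = Projectivization.mk k Q.rep Q.rep_nonzero :=
    (Projectivization.mk_eq_mk_iff' k _ _ _ _).mpr ⟨_, h1⟩
  rw [Projectivization.mk_rep, Projectivization.mk_rep] at h2
  exact h2.symm

lemma hart_ext {p a b : Fin 3 → k} (hp : p ≠ 0) (ha : a ≠ 0) (hap : a ⬝ᵥ p = 0)
    (hbp : b ⬝ᵥ p ≠ 0) : ∃ d : Fin 3 → k, LinearIndependent k ![b, a, d] ∧ d ⬝ᵥ p = 0 := by
  obtain ⟨b1, c1, d1, hli, hb1, hc1, hd1⟩ := exc_perp p hp
  obtain ⟨β, γ, δ, e⟩ := curve_basis hli a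
  have hβ : β = 0 := by
    have h1 : a ⬝ᵥ p = β * (b1 ⬝ᵥ p) := by
      rw [e, ← exc_f_apply, map_add, map_add, map_smul, map_smul, map_smul, exc_f_apply,
        exc_f_apply, exc_f_apply, hc1, hd1]
      simp
    rw [hap] at h1
    exact (mul_eq_zero.mp h1.symm).resolve_right hb1
  rw [hβ, zero_smul, zero_add] at e
  have hcd : LinearIndependent k ![c1, d1] := (linearIndependent_finCons.mp hli).1
  have hcd' := LinearIndependent.pair_iff.mp hcd
  have hmain : ∀ d : Fin 3 → k, d ⬝ᵥ p = 0 → LinearIndependent k ![a, d] →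
      LinearIndependent k ![b, a, d] := by
    intro d hd h
    refine linearIndependent_finCons.mpr ⟨h, ?_⟩
    intro hmem
    have hle : Submodule.span k (Set.range ![a, d]) ≤ LinearMap.ker (exc_f p) := by
      rw [Submodule.span_le]
      rintro x ⟨i, rfl⟩
      fin_cases i
      · exact hap
      · exact hd
    exact hbp (hle hmem)
  by_cases hδ : δ = 0
  · have hγ : γ ≠ 0 := by
      rintro rfl
      rw [hδ, zero_smul, zero_smul, add_zero] at e
      exact ha e
    refine ⟨d1, hmain d1 hd1 ?_, hd1⟩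
    rw [LinearIndependent.pair_iff]
    intro s t h
    rw [e, hδ, zero_smul, add_zero, smul_smul] at h
    obtain ⟨h1, h2⟩ := hcd' _ _ h
    exact ⟨(mul_eq_zero.mp h1).resolve_right hγ, h2⟩
  · refine ⟨c1, hmain c1 hc1 ?_, hc1⟩
    rw [LinearIndependent.pair_iff]
    intro s t h
    have h0 : (s * γ + t) • c1 + (s * δ) • d1 = 0 := by
      rw [← h, e]
      module
    obtain ⟨h1, h2⟩ := hcd' _ _ h0
    have hs : s = 0 := (mul_eq_zero.mp h2).resolve_right hδ
    rw [hs, zero_mul, zero_add] at h1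
    exact ⟨hs, h1⟩

lemma hart_cm_mem {z w : F k} {R : Subalgebra k (F k)} (hz : z ∈ R) (hw : w ∈ R)
    (h : MvPolynomial (Fin 2) k) : cm z w h ∈ R := by
  induction h using MvPolynomial.induction_on with
  | C a =>
    rw [curve_cmC]
    exact R.algebraMap_mem a
  | add f g hf hg =>
    rw [map_add]
    exact add_mem hf hg
  | mul_X f i hf =>
    rw [map_mul]
    refine mul_mem hf ?_
    rcases (by omega : i = 0 ∨ i = 1) with rfl | rfl
    · rw [curve_cm0]
      exact hz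
    · rw [curve_cm1]
      exact hw

/-- The polynomials with large order. -/
lemma hart_ord {z w : F k} {R : Subalgebra k (F k)} (hz0 : z ≠ 0) (hz : z ∈ R) (hw : w / z ∈ R)
    (h : MvPolynomial (Fin 2) k) (e : ℕ) (hs : ∀ m ∈ h.support, e ≤ m 0 + m 1) :
    cm z w h / z ^ e ∈ R := by
  have h1 : cm z w h = ∑ m ∈ h.support, algebraMap k (F k) (h.coeff m) * (z ^ m 0 * w ^ m 1) := by
    unfold cm
    rw [aeval_def, eval₂_eq']
    refine Finset.sum_congr rfl fun m _ => ?_
    rw [Fin.prod_univ_two]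
    rfl
  rw [h1, Finset.sum_div]
  refine sum_mem fun m hm => ?_
  have h2 : algebraMap k (F k) (h.coeff m) * (z ^ m 0 * w ^ m 1) / z ^ e =
      algebraMap k (F k) (h.coeff m) * (z ^ (m 0 + m 1 - e) * (w / z) ^ m 1) := by
    have h3 : z ^ (m 0) * z ^ (m 1) = z ^ e * z ^ (m 0 + m 1 - e) := by
      rw [← pow_add, ← pow_add]
      congr 1
      have := hs m hm
      omega
    rw [div_pow]
    field_simp
    linear_combination (algebraMap k (F k) (h.coeff m) * w ^ m 1) * h3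
  rw [h2]
  exact mul_mem (R.algebraMap_mem _) (mul_mem (pow_mem hz _) (pow_mem hw _))

/-- Denominators. -/
lemma hart_den (M : Set (Pt k)) (L : Pt k → MvPolynomial (Fin 2) k) (h : MvPolynomial (Fin 2) k)
    (h0 : h ≠ 0) (hp : ∀ p, Irreducible p → p ∣ h → ∃ P ∈ M, p ∣ L P) :
    ∃ (s : Multiset (Pt k)) (g : MvPolynomial (Fin 2) k), (∀ P ∈ s, P ∈ M) ∧
      h * g = (s.map L).prod := by
  induction h using WfDvdMonoid.induction_on_irreducible with
  | zero => exact absurd rfl h0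
  | unit u hu =>
    obtain ⟨v, hv⟩ := hu.exists_right_inv
    exact ⟨0, v, fun P hP => absurd hP (Multiset.notMem_zero P), by simpa using hv⟩
  | mul a i ha hi ih =>
    obtain ⟨s, g, hs, e⟩ := ih ha (fun p hp1 hp2 => hp p hp1 (hp2.mul_left i))
    obtain ⟨P, hP, c, hc⟩ := hp i hi (Dvd.intro a rfl)
    refine ⟨P ::ₘ s, g * c, ?_, ?_⟩
    · intro Q hQ
      rcases Multiset.mem_cons.mp hQ with rfl | hQ
      · exact hP
      · exact hs Q hQ
    · rw [Multiset.map_cons, Multiset.prod_cons, ← e, hc]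
      ring

end Pool.Agent.Lib.MP_4318ff_ag
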