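import Pool.Agent.Lib.MP_4318ff_ag.Spec.A1
import Pool.Agent.Lib.MP_4318ff_ag.A.G2

/-!
# MP_4318ff_ag, module A/HartA: Hartogs on the affine plane `b ≠ 0`
-/

set_option autoImplicit false

namespace Pool.Agent.Lib.MP_4318ff_ag

/-- The quotients `a / b` are polynomials in the coordinates, so they lie in every local ring. -/
theorem harta_quot {k : Type} [Field k] {b c d : Fin 3 → k} (h : LinearIndependent k ![b, c, d])
    (O : Subalgebra k (F k)) (hc : ev c / ev b ∈ O) (hd : ev d / ev b ∈ O) (a : Fin 3 → k) :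
    ev a / ev b ∈ O := by
  have hb : b ≠ 0 := h.ne_zero 0
  have hsp : (⊤ : Submodule k (Fin 3 → k)) ≤ Submodule.span k (Set.range ![b, c, d]) := by
    rw [LinearIndependent.span_eq_top_of_card_eq_finrank' h (by simp)]
  have ha : a ∈ Submodule.span k (Set.range ![b, c, d]) := hsp trivial
  induction ha using Submodule.span_induction with
  | mem x hx =>
    obtain ⟨i, rfl⟩ := hx
    fin_cases i
    · change ev b / ev b ∈ O
      rw [div_self (ev_ne_zero hb)]
      exact one_mem _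
    · exact hc
    · exact hd
  | zero => rw [ev_zero, zero_div]; exact zero_mem _
  | add x y _ _ hx hy => rw [ev_add, add_div]; exact add_mem hx hy
  | smul t x _ hx =>
    rw [ev_smul, mul_div_assoc]
    exact mul_mem (O.algebraMap_mem t) hx

theorem tHartA : CoordStmt → LocStmt → HartAStmt := by
  intro hCoord hLoc k _ b c d h f hf
  obtain ⟨hco, -⟩ := hCoord k b c d h
  set z := ev c / ev b with hz
  set w := ev d / ev b with hw
  obtain ⟨hinj, hfrac⟩ := hco
  -- `f` lies in all localisations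
  have hall : ∀ p : MvPolynomial (Fin 2) k, Irreducible p →
      ∃ g₁ g₂ : MvPolynomial (Fin 2) k, ¬ p ∣ g₂ ∧ f * cm z w g₂ = cm z w g₁ := by
    intro p hp
    obtain ⟨⟨O, hO⟩, hO2⟩ := hLoc k z w ⟨hinj, hfrac⟩ p hp
    obtain ⟨hcm, -, -⟩ := hO2 O hO
    have hzO : z ∈ O := by
      have := hcm (MvPolynomial.X 0)
      simpa [cm] using this
    have hwO : w ∈ O := by
      have := hcm (MvPolynomial.X 1)
      simpa [cm] using this
    have hfO := hf O ⟨b, c, d, p, h, hO⟩ ⟨h.ne_zero 0, harta_quot h O hzO hwO⟩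
    exact (hO.2 f).1 hfO
  obtain ⟨h₁, h₂, hh₂, hfh⟩ := hfrac f
  obtain ⟨a₁, a₂, e, hrel, he₁, he₂⟩ :=
    UniqueFactorizationMonoid.exists_reduced_factors' h₁ h₂ hh₂
  have ha₂ : a₂ ≠ 0 := by
    rintro rfl
    exact hh₂ (by rw [← he₂, mul_zero])
  have he : e ≠ 0 := by
    rintro rfl
    exact hh₂ (by rw [← he₂, zero_mul])
  have h0 : ∀ g : MvPolynomial (Fin 2) k, g ≠ 0 → cm z w g ≠ 0 := by
    intro g hg hg0
    exact hg (hinj (by rw [hg0, map_zero]))
  have hf2 : f * cm z w a₂ = cm z w a₁ := by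
    rw [hfh, ← he₁, ← he₂, map_mul, map_mul]
    have := h0 e he
    have := h0 a₂ ha₂
    field_simp
  have hu : IsUnit a₂ := by
    by_contra hnu
    obtain ⟨p, hp, hpa⟩ := WfDvdMonoid.exists_irreducible_factor hnu ha₂
    obtain ⟨g₁, g₂, hg₂, hfg⟩ := hall p hp
    have e1 : cm z w (a₁ * g₂) = cm z w (g₁ * a₂) := by
      rw [map_mul, map_mul, ← hf2, ← hfg]
      ring
    have e2 : a₁ * g₂ = g₁ * a₂ := hinj e1
    have e3 : p ∣ a₁ * g₂ := by
      rw [e2]
      exact hpa.mul_left g₁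
    have e4 : p ∣ a₁ := (hp.prime.dvd_or_dvd e3).resolve_right hg₂
    exact hp.not_isUnit (hrel e4 hpa)
  obtain ⟨u, hu⟩ := hu
  refine ⟨a₁ * (u⁻¹ : (MvPolynomial (Fin 2) k)ˣ), ?_⟩
  rw [map_mul, ← hf2, mul_assoc, ← map_mul, ← hu, Units.mul_inv, map_one, mul_one]

end Pool.Agent.Lib.MP_4318ff_ag
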