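import Pool.Agent.Lib.MP_4318ff_ag.Spec.A2

/-!
# MP_4318ff_ag: linear algebra in three dimensions, used by `A/RegExc` and `A/RegCurve`
-/

set_option autoImplicit false

namespace Pool.Agent.Lib.MP_4318ff_ag

open scoped LinearAlgebra.Projectivization

section reglin

variable {k : Type} [Field k]

theorem reglin_zero {v : Fin 3 → k} (a b c : Fin 3 → k) (hv : v ≠ 0)
    (ha : a ⬝ᵥ v = 0) (hb : b ⬝ᵥ v = 0) (hc : c ⬝ᵥ v = 0) :
    ¬ LinearIndependent k ![a, b, c] := by
  intro h
  have h1 : IsUnit (Matrix.of ![a, b, c]) :=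
    Matrix.linearIndependent_rows_iff_isUnit.1 h
  have h2 : (Matrix.of ![a, b, c]).det ≠ 0 := ((Matrix.isUnit_iff_isUnit_det _).1 h1).ne_zero
  apply h2
  rw [← Matrix.exists_mulVec_eq_zero_iff]
  refine ⟨v, hv, ?_⟩
  funext i
  fin_cases i
  · exact ha
  · exact hb
  · exact hc

/-- an independent pair spans the forms which vanish at a point -/
theorem reglin_span {v : Fin 3 → k} (a b c : Fin 3 → k) (hv : v ≠ 0)
    (hab : LinearIndependent k ![a, b])
    (ha : a ⬝ᵥ v = 0) (hb : b ⬝ᵥ v = 0) (hc : c ⬝ᵥ v = 0) :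
    ∃ s t : k, c = s • a + t • b := by
  by_contra hcon
  push Not at hcon
  apply reglin_zero c a b hv hc ha hb
  change LinearIndependent k (Fin.cons c ![a, b] : Fin 3 → Fin 3 → k)
  rw [linearIndependent_finCons]
  refine ⟨hab, ?_⟩
  intro h
  rw [Matrix.range_cons, Matrix.range_cons, Matrix.range_empty, Set.union_empty,
    Set.singleton_union, Submodule.mem_span_pair] at h
  obtain ⟨s, t, h⟩ := h
  exact hcon s t h.symm

/-- two different points are separated by a form -/
theorem reglin_sep (Q T : Pt k) (h : Q ≠ T) :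
    ∃ c : Fin 3 → k, c ⬝ᵥ Q.rep = 0 ∧ c ⬝ᵥ T.rep ≠ 0 := by
  by_contra hcon
  push Not at hcon
  obtain ⟨i, hi⟩ := Function.ne_iff.mp Q.rep_nonzero
  have hi' : Q.rep i ≠ 0 := hi
  have hall : ∀ j, T.rep j = (T.rep i / Q.rep i) * Q.rep j := by
    intro j
    have h1 := hcon (Q.rep i • Pi.single j 1 - Q.rep j • Pi.single i 1) (by
      rw [sub_dotProduct, smul_dotProduct, smul_dotProduct, single_dotProduct, single_dotProduct]
      simp
      ring)
    rw [sub_dotProduct, smul_dotProduct, smul_dotProduct, single_dotProduct,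
      single_dotProduct] at h1
    simp only [one_mul, smul_eq_mul] at h1
    field_simp
    linear_combination h1
  have h2 : (T.rep i / Q.rep i) • Q.rep = T.rep := by
    funext j
    rw [Pi.smul_apply, smul_eq_mul, hall j]
  apply h
  have h3 : T = Q := by
    rw [← T.mk_rep, ← Q.mk_rep]
    rw [Projectivization.mk_eq_mk_iff']
    exact ⟨T.rep i / Q.rep i, by rw [h2]⟩
  exact h3.symm

/-- two independent forms have at most one common zero -/
theorem reglin_pts (P Q : Pt k) (a b : Fin 3 → k) (hab : LinearIndependent k ![a, b])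
    (ha : a ⬝ᵥ P.rep = 0) (hb : b ⬝ᵥ P.rep = 0) (ha' : a ⬝ᵥ Q.rep = 0) (hb' : b ⬝ᵥ Q.rep = 0) :
    P = Q := by
  by_contra h
  obtain ⟨c, hc, hc'⟩ := reglin_sep P Q h
  obtain ⟨s, t, rfl⟩ := reglin_span a b c P.rep_nonzero hab ha hb hc
  apply hc'
  rw [add_dotProduct, smul_dotProduct, smul_dotProduct, ha', hb']
  simp

/-- a nonzero form through a point is part of a basis of the forms through the point -/
theorem reglin_ext (v a : Fin 3 → k) (ha0 : a ≠ 0) (ha : a ⬝ᵥ v = 0) :
    ∃ d : Fin 3 → k, d ⬝ᵥ v = 0 ∧ LinearIndependent k ![a, d] := by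
  -- dimension of the forms vanishing at `v` is at least two
  by_contra hcon
  push Not at hcon
  have h1 : ∀ d : Fin 3 → k, d ⬝ᵥ v = 0 → ∃ t : k, d = t • a := by
    intro d hd
    have h2 := hcon d hd
    rw [LinearIndependent.pair_iff] at h2
    push Not at h2
    obtain ⟨s, t, h3, h4⟩ := h2
    by_cases ht : t = 0
    · subst ht
      simp only [zero_smul, add_zero] at h3
      rcases smul_eq_zero.1 h3 with h5 | h5
      · exact absurd rfl (h4 h5)
      · exact absurd h5 ha0
    · refine ⟨-(s / t), ?_⟩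
      have h5 : t • d = -(s • a) := by
        rw [eq_neg_iff_add_eq_zero, add_comm]
        exact h3
      calc d = t⁻¹ • (t • d) := by rw [smul_smul, inv_mul_cancel₀ ht, one_smul]
        _ = -(s / t) • a := by
          rw [h5, smul_neg, smul_smul, neg_smul]
          congr 2
          field_simp
  -- choose a form independent of `a` with the help of the three coordinate forms
  have h6 : ∀ i j : Fin 3, ∃ t : k, v i • Pi.single j (1 : k) - v j • Pi.single i (1 : k) = t • a := by
    intro i j
    apply h1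
    rw [sub_dotProduct, smul_dotProduct, smul_dotProduct, single_dotProduct, single_dotProduct]
    simp
    ring
  by_cases hv : v = 0
  · obtain ⟨t0, h0⟩ := h1 (Pi.single 0 1) (by rw [hv]; simp)
    obtain ⟨t1, h1'⟩ := h1 (Pi.single 1 1) (by rw [hv]; simp)
    have e0 := congrFun h0 0
    have e1 := congrFun h0 1
    have e2 := congrFun h1' 0
    have e3 := congrFun h1' 1
    simp at e0 e1 e2 e3
    rcases e1 with e1 | e1
    · rw [e1] at e0; simp at e0
    · rw [e1] at e3; simp at e3
  · obtain ⟨i, hi⟩ := Function.ne_iff.mp hv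
    have hi' : v i ≠ 0 := hi
    have h3 : ∀ i : Fin 3, ∃ j l : Fin 3, j ≠ i ∧ l ≠ i ∧ j ≠ l := by decide
    obtain ⟨j, l, hj, hl, hjl⟩ := h3 i
    obtain ⟨t, ht⟩ := h6 i j
    obtain ⟨s, hs⟩ := h6 i l
    have e1 := congrFun ht j
    have e2 := congrFun ht l
    have e3 := congrFun hs j
    have e4 := congrFun hs l
    simp only [Pi.sub_apply, Pi.smul_apply, smul_eq_mul, Pi.single_eq_same,
      Pi.single_eq_of_ne hj, Pi.single_eq_of_ne hl, Pi.single_eq_of_ne hjl,
      Pi.single_eq_of_ne hjl.symm, mul_one, mul_zero, sub_zero] at e1 e2 e3 e4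
    have e5 : t ≠ 0 := by
      rintro rfl
      rw [zero_mul] at e1
      exact hi' e1
    have e6 : a l = 0 := by
      rcases mul_eq_zero.1 e2.symm with h | h
      · exact absurd h e5
      · exact h
    rw [e6, mul_zero] at e4
    exact hi' e4

/-- a line through two points -/
theorem reglin_line (v w : Fin 3 → k) : ∃ b : Fin 3 → k, b ≠ 0 ∧ b ⬝ᵥ v = 0 ∧ b ⬝ᵥ w = 0 := by
  have h1 : (Matrix.of ![v, w, 0] : Matrix (Fin 3) (Fin 3) k).det = 0 :=
    Matrix.det_eq_zero_of_row_eq_zero 2 (fun j => rfl)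
  obtain ⟨b, hb, h2⟩ := Matrix.exists_mulVec_eq_zero_iff.2 h1
  refine ⟨b, hb, ?_, ?_⟩
  · have := congrFun h2 0
    rw [dotProduct_comm]
    exact this
  · have := congrFun h2 1
    rw [dotProduct_comm]
    exact this

/-- independence of three forms -/
theorem reglin_three {v : Fin 3 → k} (a b c : Fin 3 → k) (hbc : LinearIndependent k ![b, c])
    (hb : b ⬝ᵥ v = 0) (hc : c ⬝ᵥ v = 0) (ha : a ⬝ᵥ v ≠ 0) : LinearIndependent k ![a, b, c] := by
  change LinearIndependent k (Fin.cons a ![b, c] : Fin 3 → Fin 3 → k)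
  rw [linearIndependent_finCons]
  refine ⟨hbc, ?_⟩
  intro h
  rw [Matrix.range_cons, Matrix.range_cons, Matrix.range_empty, Set.union_empty,
    Set.singleton_union, Submodule.mem_span_pair] at h
  obtain ⟨s, t, rfl⟩ := h
  apply ha
  rw [add_dotProduct, smul_dotProduct, smul_dotProduct, hb, hc]
  simp

/-- rotation of three forms -/
theorem reglin_rot (a b c : Fin 3 → k) (h : LinearIndependent k ![a, b, c]) :
    LinearIndependent k ![b, c, a] := by
  rw [Fintype.linearIndependent_iff] at h ⊢
  intro g hg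
  have h1 := h ![g 2, g 0, g 1] (by
    rw [Fin.sum_univ_three] at hg ⊢
    simp only [Matrix.cons_val_zero, Matrix.cons_val_one, Matrix.cons_val_two, Matrix.head_cons,
      Matrix.tail_cons, Matrix.cons_val] at hg ⊢
    rw [← hg]
    abel)
  intro i
  fin_cases i
  · exact h1 1
  · exact h1 2
  · exact h1 0

/-- two forms, one of them vanishing at a point where the other does not -/
theorem reglin_two {v : Fin 3 → k} (a b : Fin 3 → k) (hb0 : b ≠ 0) (hb : b ⬝ᵥ v = 0)
    (ha : a ⬝ᵥ v ≠ 0) : LinearIndependent k ![a, b] := by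
  rw [LinearIndependent.pair_iff]
  intro s t h
  have h1 := congrArg (fun x => x ⬝ᵥ v) h
  simp only [add_dotProduct, smul_dotProduct, hb, smul_eq_mul, mul_zero, add_zero,
    zero_dotProduct] at h1
  have hs : s = 0 := by
    rcases mul_eq_zero.1 h1 with h2 | h2
    · exact h2
    · exact absurd h2 ha
  refine ⟨hs, ?_⟩
  rw [hs, zero_smul, zero_add] at h
  rcases smul_eq_zero.1 h with h2 | h2
  · exact h2
  · exact absurd h2 hb0

theorem reglin_ne {r : ℕ} (C : Config k r) (i j : Fin r) (h : i ≠ j) : C.ℓ i ≠ 0 :=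
  (C.indep i j h).ne_zero 0

/-- another line through a multiple point -/
theorem reglin_other {r : ℕ} (C : Config k r) (P : Pt k) (hP : P ∈ C.M) (i : Fin r) :
    ∃ j ∈ C.through P, j ≠ i := by
  by_contra h
  push Not at h
  have h1 : C.through P ⊆ {i} := fun j hj => h j hj
  have h2 := Set.ncard_le_ncard h1 (Set.finite_singleton i)
  rw [Set.ncard_singleton] at h2
  have h3 : 3 ≤ (C.through P).ncard := hP
  omega

variable {K : Type} [Field K] [Algebra (F k) K]

theorem reglin_ic (O : Subalgebra k (F k)) (f : F k) (hf : f ∈ O) : algebraMap (F k) K f ∈ ic K O := by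
  have h : IsIntegral O (algebraMap O K ⟨f, hf⟩) := isIntegral_algebraMap
  exact h

theorem reglin_root (O : Subalgebra k (F k)) (f : F k) (hf : f ∈ O) (n : ℕ) (hn : 0 < n) (z : K)
    (hz : z ^ n = algebraMap (F k) K f) : z ∈ ic K O := by
  have h : IsIntegral O (z ^ n) := by
    rw [hz]
    exact reglin_ic O f hf
  have h2 : IsIntegral O z := IsIntegral.of_pow hn h
  exact h2

end reglin

end Pool.Agent.Lib.MP_4318ff_ag
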