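import Pool.Agent.Lib.MP_4318ff_ag.Spec.A2
import Pool.Agent.Lib.MP_4318ff_ag.A.G2
import Pool.Agent.Lib.MP_4318ff_ag.A.RegLin
import Pool.Agent.Lib.MP_4318ff_ag.A.ExtMod

/-!
# MP_4318ff_ag: invariant vector fields at an exceptional curve
-/

set_option autoImplicit false

namespace Pool.Agent.Lib.MP_4318ff_ag

open scoped LinearAlgebra.Projectivization

section

variable {k : Type} [Field k] {r : ℕ} {C : Config k r} {K : Type}
  [Field K] [Algebra (F k) K] [Algebra k K] [IsScalarTower k (F k) K]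

/-- The order of `E (ℓ i / b)` at the exceptional curve. -/
theorem inv_one (hex : ExcStmt) (hpow : PowStmt) (htau : TauStmt) (n : ℕ) (hn : 2 ≤ n)
    (hroots : Roots K C n) (T Q : Pt k) (i : Fin r) (O : Subalgebra k (F k))
    (E : Derivation k K K) (hO : IsExc T O) (hTQ : T ≠ Q) (hQ : Q ∈ C.M)
    (hiT : i ∈ C.through T) (hiQ : i ∈ C.through Q) (hreg : RegAt C n Q O E) (b : Fin 3 → k)
    (hbQ : b ⬝ᵥ Q.rep = 0) (hbT : b ⬝ᵥ T.rep ≠ 0) :
    algebraMap (F k) K (ev (C.ℓ i) / ev b)⁻¹ ^ (n - 1) *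
      E (algebraMap (F k) K (ev (C.ℓ i) / ev b)) ^ n ∈ ic K O := by
  obtain ⟨hunit, hquot, -, -⟩ := (hex k T).2 O hO
  obtain ⟨j, hjQ, hji⟩ := reglin_other C Q hQ i
  have hjT : C.ℓ j ⬝ᵥ T.rep ≠ 0 := fun h =>
    hTQ (reglin_pts T Q (C.ℓ j) (C.ℓ i) (C.indep j i hji) h hiT hjQ hiQ)
  have hi0 : C.ℓ i ≠ 0 := reglin_ne C i j hji.symm
  have hj0 : C.ℓ j ≠ 0 := reglin_ne C j i hji
  have hb0 : b ≠ 0 := fun h => hbT (by rw [h, zero_dotProduct])
  have ei : ev (C.ℓ i) ≠ 0 := ev_ne_zero hi0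
  have ej : ev (C.ℓ j) ≠ 0 := ev_ne_zero hj0
  have eb : ev b ≠ 0 := ev_ne_zero hb0
  obtain ⟨-, hbu⟩ := hunit b hbT
  obtain ⟨-, hju⟩ := hunit (C.ℓ j) hjT
  obtain ⟨-, -, y, hy, hyE⟩ := htau k r n C K Q O E (by omega) hroots hreg i hiQ j hjQ
    (hju (C.ℓ i))
  have hε := hreg.1 (C.ℓ j) b hjQ hbQ (hbu (C.ℓ j))
  set lam : F k := ev (C.ℓ i) / ev (C.ℓ j) with hlam
  set eps : F k := ev (C.ℓ j) / ev b with heps
  have ht : ev (C.ℓ i) / ev b = lam * eps := by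
    rw [hlam, heps]
    field_simp
  have hlam0 : lam ≠ 0 := div_ne_zero ei ej
  have heps0 : eps ≠ 0 := div_ne_zero ej eb
  have hepsi : eps⁻¹ ∈ O := by
    rw [heps, inv_div]
    exact hju b
  have hφl : algebraMap (F k) K lam ≠ 0 := by
    rw [Ne, map_eq_zero]
    exact hlam0
  have hφe : algebraMap (F k) K eps ≠ 0 := by
    rw [Ne, map_eq_zero]
    exact heps0
  obtain ⟨m, rfl⟩ : ∃ m, n = m + 1 := ⟨n - 1, by omega⟩
  rw [Nat.add_sub_cancel] at hyE ⊢
  have hE : E (algebraMap (F k) K (ev (C.ℓ i) / ev b)) =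
      algebraMap (F k) K eps * E (algebraMap (F k) K lam) +
        algebraMap (F k) K lam * E (algebraMap (F k) K eps) := by
    rw [ht, map_mul, Derivation.leibniz, smul_eq_mul, smul_eq_mul]
    ring
  rw [hE]
  refine hpow k K O (m + 1) (Nat.succ_pos m) _ _ _ ?_ ?_
  · have e1 : algebraMap (F k) K (ev (C.ℓ i) / ev b)⁻¹ ^ m *
        (algebraMap (F k) K eps * E (algebraMap (F k) K lam)) ^ (m + 1) =
        algebraMap (F k) K eps * y := by
      rw [mul_pow, hyE, ht, map_inv₀, map_mul, map_pow, inv_pow]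
      field_simp
      ring
    rw [e1]
    exact (ic K O).mul_mem (reglin_ic O _ (hbu (C.ℓ j))) hy
  · have e1 : algebraMap (F k) K (ev (C.ℓ i) / ev b)⁻¹ ^ m *
        (algebraMap (F k) K lam * E (algebraMap (F k) K eps)) ^ (m + 1) =
        algebraMap (F k) K (eps⁻¹ ^ m * lam) * E (algebraMap (F k) K eps) ^ (m + 1) := by
      rw [mul_pow, ht, map_inv₀, map_mul, map_mul, map_pow, map_inv₀, inv_pow, inv_pow]
      field_simp
      ring
    rw [e1]
    exact (ic K O).mul_mem (reglin_ic O _ (O.mul_mem (O.pow_mem hepsi m) (hju (C.ℓ i))))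
      ((ic K O).pow_mem hε (m + 1))

/-- The line through `Q₁` and `Q₂` does not pass through `T`. -/
theorem inv_line (T Q₁ Q₂ : Pt k) (i₁ i₂ : Fin r) (hi : i₁ ≠ i₂) (h1 : T ≠ Q₁) (h2 : T ≠ Q₂)
    (hT1 : i₁ ∈ C.through T) (hT2 : i₂ ∈ C.through T) (hQ1 : i₁ ∈ C.through Q₁)
    (hQ2 : i₂ ∈ C.through Q₂) (b : Fin 3 → k) (hb : b ≠ 0) (hb1 : b ⬝ᵥ Q₁.rep = 0)
    (hb2 : b ⬝ᵥ Q₂.rep = 0) : b ⬝ᵥ T.rep ≠ 0 := by
  intro hbT
  have a1 : ¬ LinearIndependent k ![b, C.ℓ i₁] := fun h =>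
    h1 (reglin_pts T Q₁ b (C.ℓ i₁) h hbT hT1 hb1 hQ1)
  have a2 : ¬ LinearIndependent k ![b, C.ℓ i₂] := fun h =>
    h2 (reglin_pts T Q₂ b (C.ℓ i₂) h hbT hT2 hb2 hQ2)
  rw [LinearIndependent.pair_iff' hb] at a1 a2
  push Not at a1 a2
  obtain ⟨s, hs⟩ := a1
  obtain ⟨t, ht⟩ := a2
  have h3 := C.indep i₁ i₂ hi
  rw [LinearIndependent.pair_iff] at h3
  have h4 := h3 t (-s) (by
    rw [← hs, ← ht, smul_smul, smul_smul, ← add_smul]
    rw [show t * s + -s * t = 0 by ring, zero_smul])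
  have h5 : C.ℓ i₁ = 0 := by
    rw [← hs]
    have : s = 0 := by simpa using h4.2
    rw [this, zero_smul]
  exact reglin_ne C i₁ i₂ hi h5

end

theorem tInv (hex : ExcStmt) (hpow : PowStmt) (htau : TauStmt) (hfix : FixStmt) : InvStmt := by
  intro k _ _ _ r n C K _ _ _ _ _ _ T Q₁ Q₂ i₁ i₂ O E hn hroots hO hi h1 h2 hQ1 hQ2 hT1 hT2 hQi1
    hQi2 hreg1 hreg2 hinv c d hc hcT hdT
  obtain ⟨b, hb0, hbQ1, hbQ2⟩ := reglin_line Q₁.rep Q₂.rep
  have hbT := inv_line (C := C) T Q₁ Q₂ i₁ i₂ hi h1 h2 hT1 hT2 hQi1 hQi2 b hb0 hbQ1 hbQ2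
  have A1 := inv_one (K := K) hex hpow htau n hn hroots T Q₁ i₁ O E hO h1 hQ1 hT1 hQi1 hreg1 b
    hbQ1 hbT
  have A2 := inv_one (K := K) hex hpow htau n hn hroots T Q₂ i₂ O E hO h2 hQ2 hT2 hQi2 hreg2 b
    hbQ2 hbT
  obtain ⟨-, hquot, -, -⟩ := (hex k T).2 O hO
  have l10 : C.ℓ i₁ ≠ 0 := reglin_ne C i₁ i₂ hi
  have l20 : C.ℓ i₂ ≠ 0 := reglin_ne C i₂ i₁ hi.symm
  have e1 : ev (C.ℓ i₁) ≠ 0 := ev_ne_zero l10
  have e2 : ev (C.ℓ i₂) ≠ 0 := ev_ne_zero l20
  have eb : ev b ≠ 0 := ev_ne_zero hb0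
  have ec : ev c ≠ 0 := ev_ne_zero hc
  set t : F k := ev (C.ℓ i₁) / ev b with ht
  set t2 : F k := ev (C.ℓ i₂) / ev b with ht2
  set mu : F k := ev (C.ℓ i₂) / ev (C.ℓ i₁) with hmu
  have hmuO : mu ∈ O := hquot (C.ℓ i₁) (C.ℓ i₂) l10 hT1 hT2
  have htt : t2 = mu * t := by
    rw [ht, ht2, hmu]
    field_simp
  have hmu0 : mu ≠ 0 := div_ne_zero e2 e1
  have ht0 : t ≠ 0 := div_ne_zero e1 eb
  have hφt : algebraMap (F k) K t ≠ 0 := by
    rw [Ne, map_eq_zero]
    exact ht0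
  have hφm : algebraMap (F k) K mu ≠ 0 := by
    rw [Ne, map_eq_zero]
    exact hmu0
  obtain ⟨m, rfl⟩ : ∃ m, n = m + 1 := ⟨n - 1, by omega⟩
  rw [Nat.add_sub_cancel] at A1 A2
  -- the order of `E mu`
  have hE2 : algebraMap (F k) K t * E (algebraMap (F k) K mu) =
      E (algebraMap (F k) K t2) + (-algebraMap (F k) K mu) * E (algebraMap (F k) K t) := by
    rw [htt, map_mul, Derivation.leibniz, smul_eq_mul, smul_eq_mul]
    ring
  have hB : algebraMap (F k) K t * E (algebraMap (F k) K mu) ^ (m + 1) ∈ ic K O := by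
    have h3 : algebraMap (F k) K t * E (algebraMap (F k) K mu) ^ (m + 1) =
        algebraMap (F k) K t⁻¹ ^ m *
          (E (algebraMap (F k) K t2) + (-algebraMap (F k) K mu) * E (algebraMap (F k) K t)) ^
            (m + 1) := by
      rw [← hE2, mul_pow, map_inv₀, inv_pow]
      field_simp
      ring
    rw [h3]
    refine hpow k K O (m + 1) (Nat.succ_pos m) _ _ _ ?_ ?_
    · have h4 : algebraMap (F k) K t⁻¹ ^ m * E (algebraMap (F k) K t2) ^ (m + 1) =
          algebraMap (F k) K mu ^ m *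
            (algebraMap (F k) K t2⁻¹ ^ m * E (algebraMap (F k) K t2) ^ (m + 1)) := by
        rw [← mul_assoc, ← mul_pow]
        congr 2
        rw [htt, map_inv₀, map_inv₀, map_mul]
        field_simp
      rw [h4]
      exact (ic K O).mul_mem ((ic K O).pow_mem (reglin_ic O _ hmuO) m) A2
    · have h4 : algebraMap (F k) K t⁻¹ ^ m *
          (-algebraMap (F k) K mu * E (algebraMap (F k) K t)) ^ (m + 1) =
          (-algebraMap (F k) K mu) ^ (m + 1) *
            (algebraMap (F k) K t⁻¹ ^ m * E (algebraMap (F k) K t) ^ (m + 1)) := by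
        rw [mul_pow]
        ring
      rw [h4]
      exact (ic K O).mul_mem
        ((ic K O).pow_mem ((ic K O).neg_mem (reglin_ic O _ hmuO)) (m + 1)) A1
  -- `E mu` is integral
  have hEmu : E (algebraMap (F k) K mu) ∈ ic K O := by
    refine hfix k (m + 1) K T O b (C.ℓ i₁) _ hn hO hbT l10 hT1 ?_ hB
    intro g hg
    rw [← extmod_conj g E mu, hinv g hg]
  -- all quotients
  have hind := C.indep i₁ i₂ hi
  obtain ⟨γ, δ, hγ⟩ := reglin_span (C.ℓ i₁) (C.ℓ i₂) c T.rep_nonzero hind hT1 hT2 hcT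
  obtain ⟨α, β, hα⟩ := reglin_span (C.ℓ i₁) (C.ℓ i₂) d T.rep_nonzero hind hT1 hT2 hdT
  have hevc : ev c / ev (C.ℓ i₁) = algebraMap k (F k) γ + algebraMap k (F k) δ * mu := by
    rw [hγ, ev_add, ev_smul, ev_smul, hmu]
    field_simp
  have hevd : ev d / ev (C.ℓ i₁) = algebraMap k (F k) α + algebraMap k (F k) β * mu := by
    rw [hα, ev_add, ev_smul, ev_smul, hmu]
    field_simp
  have hw : ev d / ev c ∈ O := hquot c d hc hcT hdT
  have hci : ev (C.ℓ i₁) / ev c ∈ O := hquot c (C.ℓ i₁) hc hcT hT1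
  have hk : ∀ (a e : k), E (algebraMap (F k) K (algebraMap k (F k) a + algebraMap k (F k) e * mu)) =
      algebraMap k K e * E (algebraMap (F k) K mu) := by
    intro a e
    rw [map_add, map_mul, ← IsScalarTower.algebraMap_apply, ← IsScalarTower.algebraMap_apply,
      map_add, Derivation.map_algebraMap, Derivation.leibniz, Derivation.map_algebraMap,
      smul_zero, add_zero, zero_add, smul_eq_mul]
  have hrel : ev c / ev (C.ℓ i₁) * (ev d / ev c) = ev d / ev (C.ℓ i₁) := by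
    field_simp
  have h6 := congrArg (fun f => E (algebraMap (F k) K f)) hrel
  simp only [map_mul, Derivation.leibniz, smul_eq_mul] at h6
  have h7 : E (algebraMap (F k) K (ev c / ev (C.ℓ i₁))) =
      algebraMap k K δ * E (algebraMap (F k) K mu) := by
    rw [hevc]
    exact hk γ δ
  have h8 : E (algebraMap (F k) K (ev d / ev (C.ℓ i₁))) =
      algebraMap k K β * E (algebraMap (F k) K mu) := by
    rw [hevd]
    exact hk α β
  rw [h7, h8] at h6
  have h9 : E (algebraMap (F k) K (ev d / ev c)) = algebraMap (F k) K (ev (C.ℓ i₁) / ev c) *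
      ((algebraMap (F k) K (algebraMap k (F k) β) -
        algebraMap (F k) K (ev d / ev c) * algebraMap (F k) K (algebraMap k (F k) δ)) *
          E (algebraMap (F k) K mu)) := by
    rw [← IsScalarTower.algebraMap_apply, ← IsScalarTower.algebraMap_apply]
    have h10 : algebraMap (F k) K (ev (C.ℓ i₁) / ev c) *
        algebraMap (F k) K (ev c / ev (C.ℓ i₁)) = 1 := by
      rw [← map_mul, div_mul_div_cancel₀ ec, div_self e1, map_one]
    linear_combination (-E (algebraMap (F k) K (ev d / ev c))) * h10 +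
      algebraMap (F k) K (ev (C.ℓ i₁) / ev c) * h6
  rw [h9]
  refine (ic K O).mul_mem (reglin_ic O _ hci) ((ic K O).mul_mem ((ic K O).sub_mem ?_
    ((ic K O).mul_mem (reglin_ic O _ hw) ?_)) hEmu)
  · exact reglin_ic O _ (O.algebraMap_mem β)
  · exact reglin_ic O _ (O.algebraMap_mem δ)

end Pool.Agent.Lib.MP_4318ff_ag
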