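import Pool.Agent.Lib.MP_4318ff_ag.Spec.A2

/-!
# MP_4318ff_ag, module `A/Kill`
-/

set_option autoImplicit false

namespace Pool.Agent.Lib.MP_4318ff_ag

open scoped LinearAlgebra.Projectivization

section

variable {k : Type} [Field k] {K : Type} [Field K] [Algebra (F k) K] [Algebra k K]
  [IsScalarTower k (F k) K]

theorem kill_conj (g : K ≃ₐ[F k] K) (D : Derivation k K K) (f : F k) :
    conjD g D (algebraMap (F k) K f) = g (D (algebraMap (F k) K f)) := by
  have h : conjD g D (algebraMap (F k) K f) = g (D (g.symm (algebraMap (F k) K f))) := rfl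
  rw [h, AlgEquiv.commutes]

open Classical in
theorem kill_avg [FiniteDimensional (F k) K] (N : Subgroup (K ≃ₐ[F k] K)) (D : Derivation k K K)
    (f : F k) : avgD N D (algebraMap (F k) K f) =
      ((Finset.univ.filter (fun g : K ≃ₐ[F k] K => g ∈ N)).card : k)⁻¹ •
        ∑ g ∈ Finset.univ.filter (fun g : K ≃ₐ[F k] K => g ∈ N), g (D (algebraMap (F k) K f)) := by
  unfold avgD
  rw [Derivation.smul_apply]
  congr 1
  have h := congrFun (map_sum (Derivation.coeFnAddMonoidHom (R := k) (A := K) (M := K))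
    (fun g => conjD g D) (Finset.univ.filter (fun g : K ≃ₐ[F k] K => g ∈ N)))
    (algebraMap (F k) K f)
  rw [Finset.sum_apply] at h
  refine h.trans (Finset.sum_congr rfl fun g _ => ?_)
  exact kill_conj g D f

end

theorem kill_core (h1 : RegModStmt) (h2 : AvgStmt) (k : Type) [Field k] [CharZero k] (r n : ℕ)
    (C : Config k r) (K : Type) [Field K] [Algebra (F k) K] [Algebra k K]
    [IsScalarTower k (F k) K] [FiniteDimensional (F k) K] (P : Pt k)
    (D : Chart C → Chart C → Derivation k K K) (hP : P ∈ C.M) (hExt : Ext n P D)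
    (h0 : ∀ u v, avgD (NP K P) (D u v) = 0) : ExtOne n P D := by
  classical
  obtain ⟨Δ, E, hΔ, hE, hD⟩ := hExt
  refine ⟨fun u => Δ u - avgD (NP K P) (Δ u), fun u O hO hu => ?_, fun u v c c' hc hc' => ?_⟩
  · obtain ⟨W, hW1, hW2⟩ := (h1 k r n C K).2.1 P O
    have h3 : Δ u ∈ W := (hW1 _).2 (hΔ u O hO hu)
    have h4 : avgD (NP K P) (Δ u) ∈ W :=
      (h2 k K).2.2.2.2.2.2.2.1 (NP K P) W (fun g _ => hW2 g) _ h3
    exact (hW1 _).1 (W.sub_mem h3 h4)
  · obtain ⟨f, hf⟩ : ∃ f : F k, f = ev c / ev c' := ⟨_, rfl⟩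
    have hD1 := hD u v c c' hc hc'
    have halg := (hE (u.a P) (v.a P) (u.a_ne P hP) (v.a_ne P hP) (u.a_through P hP)
      (v.a_through P hP)).2 c c' hc hc'
    rw [← hf] at hD1 halg ⊢
    have h3 := kill_avg (NP K P) (D u v) f
    rw [h0 u v, hD1] at h3
    have h4 : (0 : K) = avgD (NP K P) (Δ v) (algebraMap (F k) K f) -
        avgD (NP K P) (Δ u) (algebraMap (F k) K f) +
          E (u.a P) (v.a P) (algebraMap (F k) K f) := by
      rw [kill_avg, kill_avg]
      refine h3.trans ?_
      have hcard : ((Finset.univ.filter (fun g : K ≃ₐ[F k] K => g ∈ NP K P)).card : k) ≠ 0 := by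
        rw [Nat.cast_ne_zero]
        exact Finset.card_ne_zero_of_mem
          (Finset.mem_filter.2 ⟨Finset.mem_univ 1, (NP K P).one_mem⟩)
      have h5 : ∀ g ∈ Finset.univ.filter (fun g : K ≃ₐ[F k] K => g ∈ NP K P),
          g ((Δ v - Δ u + E (u.a P) (v.a P)) (algebraMap (F k) K f)) =
          g (Δ v (algebraMap (F k) K f)) - g (Δ u (algebraMap (F k) K f)) +
            E (u.a P) (v.a P) (algebraMap (F k) K f) := by
        intro g hg
        have hg' : g ∈ NP K P := (Finset.mem_filter.1 hg).2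
        rw [Derivation.add_apply, Derivation.sub_apply, map_add, map_sub, hg' _ halg]
      rw [Finset.sum_congr rfl h5, Finset.sum_add_distrib, Finset.sum_sub_distrib,
        Finset.sum_const, smul_add, smul_sub, ← Nat.cast_smul_eq_nsmul k, smul_smul,
        inv_mul_cancel₀ hcard, one_smul]
    rw [hD1, Derivation.add_apply, Derivation.sub_apply, Derivation.sub_apply,
      Derivation.sub_apply, Derivation.sub_apply]
    have h6 : E (u.a P) (v.a P) (algebraMap (F k) K f) =
        -(avgD (NP K P) (Δ v) (algebraMap (F k) K f) -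
        avgD (NP K P) (Δ u) (algebraMap (F k) K f)) := by
      rw [eq_neg_iff_add_eq_zero, add_comm]
      exact h4.symm
    rw [h6]
    ring

theorem tKill : RegModStmt → AvgStmt → KillStmt :=
  fun h1 h2 k _ _ r n C K _ _ _ _ _ P D hP hE h0 => kill_core h1 h2 k r n C K P D hP hE h0

end Pool.Agent.Lib.MP_4318ff_ag
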