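import Pool.Agent.Lib.MP_4318ff_ag.Spec.A2
import Pool.Agent.Lib.MP_4318ff_ag.A.Ev

/-!
# MP_4318ff_ag: decomposition of the integral elements of the Kummer field
-/

set_option autoImplicit false

namespace Pool.Agent.Lib.MP_4318ff_ag

open scoped LinearAlgebra.Projectivization

section mono

variable {k : Type} [Field k] {r : ℕ}

theorem kumdec_ne (C : Config k r) (i : Fin r) : ev (C.ℓ i) ≠ 0 := by
  intro h
  have h0 : C.ℓ i = 0 := ((tEv k).2.2 _).1 h
  have h1 : ∀ j, j = i := by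
    intro j
    by_contra hj
    exact (C.indep j i hj).ne_zero (1 : Fin 2) h0
  have h2 : Set.range C.ℓ ⊆ {0} := by
    rintro _ ⟨j, rfl⟩
    rw [h1 j, h0]
    rfl
  have h3 := Submodule.span_mono (R := k) h2
  rw [C.span, Submodule.span_zero_singleton] at h3
  exact bot_ne_top (eq_bot_iff.2 h3).symm

variable (n : ℕ) (C : Config k r) (K : Type) [Field K] [Algebra (F k) K]

/-- The monomials. -/
def kumdec_M : Submonoid K where
  carrier := {h | ∃ (c : F k) (e : Fin r → ℤ), ∑ i, e i = 0 ∧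
    h ^ n = algebraMap (F k) K (c ^ n * ∏ i, ev (C.ℓ i) ^ e i)}
  one_mem' := ⟨1, 0, by simp, by simp⟩
  mul_mem' := by
    rintro a b ⟨c, e, he, h⟩ ⟨c', e', he', h'⟩
    refine ⟨c * c', e + e', ?_, ?_⟩
    · simp only [Pi.add_apply, Finset.sum_add_distrib, he, he', add_zero]
    · rw [mul_pow, h, h', ← map_mul]
      congr 1
      have : ∏ i, ev (C.ℓ i) ^ (e + e') i =
          (∏ i, ev (C.ℓ i) ^ e i) * ∏ i, ev (C.ℓ i) ^ e' i := by
        rw [← Finset.prod_mul_distrib]
        exact Finset.prod_congr rfl fun i _ => zpow_add₀ (kumdec_ne C i) _ _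
      rw [this]
      ring

theorem kumdec_base (f : F k) : algebraMap (F k) K f ∈ kumdec_M n C K :=
  ⟨f, 0, by simp, by simp⟩

theorem kumdec_root (i j : Fin r) (u : K)
    (h : u ^ n = algebraMap (F k) K (ev (C.ℓ i) / ev (C.ℓ j))) : u ∈ kumdec_M n C K := by
  refine ⟨1, Pi.single i 1 - Pi.single j 1, ?_, ?_⟩
  · simp only [Pi.sub_apply, Finset.sum_sub_distrib, Finset.sum_pi_single', Finset.mem_univ,
      if_true, sub_self]
  · rw [h, one_pow, one_mul]
    congr 1
    have h1 : ∀ m : Fin r, ∏ i, ev (C.ℓ i) ^ (Pi.single m (1 : ℤ) : Fin r → ℤ) i =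
        ev (C.ℓ m) := by
      intro m
      rw [Finset.prod_eq_single m]
      · rw [Pi.single_eq_same, zpow_one]
      · intro b _ hb
        rw [Pi.single_eq_of_ne hb, zpow_zero]
      · simp
    rw [div_eq_mul_inv]
    nth_rewrite 1 [← h1 i]
    rw [← h1 j, ← Finset.prod_inv_distrib, ← Finset.prod_mul_distrib]
    refine Finset.prod_congr rfl fun m _ => ?_
    rw [Pi.sub_apply, zpow_sub₀ (kumdec_ne C m), div_eq_mul_inv]

/-- Elements of the Kummer field are sums of monomials. -/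
theorem kumdec_sum [FiniteDimensional (F k) K] (y : K) (hy : y ∈ Kummer K C n) :
    y ∈ AddSubgroup.closure (kumdec_M n C K : Set K) := by
  have hmem : ∀ x, x ∈ Subring.closure (kumdec_M n C K : Set K) ↔
      x ∈ AddSubgroup.closure (kumdec_M n C K : Set K) := by
    intro x
    rw [Subring.mem_closure_iff, Submonoid.closure_eq]
  let B : Subalgebra (F k) K :=
    { Subring.closure (kumdec_M n C K : Set K) with
      algebraMap_mem' := fun f => Subring.subset_closure (kumdec_base n C K f) }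
  let B' : Subfield K :=
    { Subring.closure (kumdec_M n C K : Set K) with
      inv_mem' := fun x hx => by
        have := B.inv_mem_of_algebraic (x := ⟨x, hx⟩) (Algebra.IsAlgebraic.isAlgebraic x)
        exact this }
  have h1 : Kummer K C n ≤ B' := by
    unfold Kummer
    rw [Subfield.closure_le]
    rintro x (⟨f, rfl⟩ | ⟨i, j, hx⟩)
    · exact Subring.subset_closure (kumdec_base n C K f)
    · exact Subring.subset_closure (kumdec_root n C K i j x hx)
  exact (hmem y).1 (h1 hy)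

end mono

section chars

variable {k : Type} [Field k] {K : Type} [Field K] [Algebra (F k) K] [Algebra k K]
  [IsScalarTower k (F k) K]

theorem kumdec_fix (g : K ≃ₐ[F k] K) (z : k) : g (algebraMap k K z) = algebraMap k K z := by
  rw [IsScalarTower.algebraMap_apply k (F k) K, AlgEquiv.commutes]

theorem kumdec_unity [IsAlgClosed k] (n : ℕ) (hn : 0 < n) (ζ : K) (h : ζ ^ n = 1) :
    ∃ z : k, algebraMap k K z = ζ := by
  have hi : IsIntegral k ζ := by
    refine ⟨Polynomial.X ^ n - 1, Polynomial.monic_X_pow_sub_C 1 hn.ne', ?_⟩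
    simp [h]
  have h1 := IsAlgClosed.degree_eq_one_of_irreducible k (minpoly.irreducible hi)
  exact minpoly.mem_range_of_degree_eq_one k ζ h1

theorem kumdec_char [IsAlgClosed k] (n : ℕ) (hn : 0 < n) (h : K) (h0 : h ≠ 0) (f : F k)
    (hf : h ^ n = algebraMap (F k) K f) :
    ∃ χ : (K ≃ₐ[F k] K) →* kˣ, ∀ g : K ≃ₐ[F k] K, g h = algebraMap k K (χ g) * h := by
  have h1 : ∀ g : K ≃ₐ[F k] K, ∃ z : k, algebraMap k K z = g h / h := by
    intro g
    refine kumdec_unity n hn _ ?_
    rw [div_pow, ← map_pow, hf, AlgEquiv.commutes, div_self]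
    rw [← hf]
    exact pow_ne_zero n h0
  choose z hz using h1
  have hz' : ∀ g : K ≃ₐ[F k] K, g h = algebraMap k K (z g) * h := by
    intro g
    rw [hz, div_mul_cancel₀ _ h0]
  have hinj : Function.Injective (algebraMap k K) := (algebraMap k K).injective
  let ψ : (K ≃ₐ[F k] K) →* k :=
    { toFun := z
      map_one' := hinj (by rw [hz, map_one, AlgEquiv.one_apply, div_self h0])
      map_mul' := fun a b => hinj (by
        have e1 : (a * b) h = algebraMap k K (z a) * algebraMap k K (z b) * h := by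
          rw [AlgEquiv.mul_apply, hz' b, map_mul, kumdec_fix, hz' a]
          ring
        rw [hz, e1, mul_div_cancel_right₀ _ h0, map_mul]) }
  exact ⟨ψ.toHomUnits, fun g => hz' g⟩

variable [FiniteDimensional (F k) K]

/-- The projection to the eigenspace of the character `χ`. -/
noncomputable def kumdec_e (χ : (K ≃ₐ[F k] K) →* kˣ) : K →+ K where
  toFun y := algebraMap k K (Fintype.card (K ≃ₐ[F k] K) : k)⁻¹ *
    ∑ g : K ≃ₐ[F k] K, algebraMap k K ((χ g)⁻¹ : kˣ) * g y
  map_zero' := by simp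
  map_add' a b := by
    rw [← mul_add, ← Finset.sum_add_distrib]
    congr 1
    refine Finset.sum_congr rfl fun g _ => ?_
    rw [map_add, mul_add]

theorem kumdec_e_apply (χ : (K ≃ₐ[F k] K) →* kˣ) (y : K) :
    kumdec_e χ y = algebraMap k K (Fintype.card (K ≃ₐ[F k] K) : k)⁻¹ *
      ∑ g : K ≃ₐ[F k] K, algebraMap k K ((χ g)⁻¹ : kˣ) * g y := rfl

theorem kumdec_e_same [CharZero k] (χ : (K ≃ₐ[F k] K) →* kˣ) (h : K)
    (hh : ∀ g : K ≃ₐ[F k] K, g h = algebraMap k K (χ g) * h) : kumdec_e χ h = h := by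
  rw [kumdec_e_apply]
  have h1 : ∀ g : K ≃ₐ[F k] K, algebraMap k K ((χ g)⁻¹ : kˣ) * g h = h := by
    intro g
    rw [hh g, ← mul_assoc, ← map_mul, Units.inv_mul, map_one, one_mul]
  simp only [h1]
  rw [Finset.sum_const, Finset.card_univ, nsmul_eq_mul, ← map_natCast (algebraMap k K),
    ← mul_assoc, ← map_mul, inv_mul_cancel₀, map_one, one_mul]
  exact Nat.cast_ne_zero.2 Fintype.card_ne_zero

theorem kumdec_e_diff (χ ψ : (K ≃ₐ[F k] K) →* kˣ) (hne : χ ≠ ψ) (h : K)
    (hh : ∀ g : K ≃ₐ[F k] K, g h = algebraMap k K (ψ g) * h) : kumdec_e χ h = 0 := by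
  rw [kumdec_e_apply]
  have h1 : ∀ g : K ≃ₐ[F k] K, algebraMap k K ((χ g)⁻¹ : kˣ) * g h =
      algebraMap k K (((Units.coeHom k).comp (χ⁻¹ * ψ)) g) * h := by
    intro g
    rw [hh g, ← mul_assoc, ← map_mul]
    rfl
  simp only [h1]
  rw [← Finset.sum_mul, ← map_sum, sum_hom_units_eq_zero, map_zero, zero_mul, mul_zero]
  intro hc
  refine hne ?_
  ext g
  have h2 : ((χ g)⁻¹ * ψ g : kˣ) = 1 := Units.ext (DFunLike.congr_fun hc g)
  rw [inv_mul_eq_one] at h2
  rw [h2]

theorem kumdec_e_int (χ : (K ≃ₐ[F k] K) →* kˣ) (S : Subalgebra k (F k)) (y : K)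
    (hy : y ∈ ic K S) : kumdec_e χ y ∈ ic K S := by
  have hk : ∀ z : k, algebraMap k K z ∈ ic K S := by
    intro z
    have h1 : IsIntegral S (algebraMap S K ⟨algebraMap k (F k) z, S.algebraMap_mem z⟩) :=
      isIntegral_algebraMap
    have h2 : algebraMap S K ⟨algebraMap k (F k) z, S.algebraMap_mem z⟩ = algebraMap k K z := by
      rw [IsScalarTower.algebraMap_apply S (F k) K, IsScalarTower.algebraMap_apply k (F k) K]
      rfl
    rw [h2] at h1
    exact h1
  have hg : ∀ g : K ≃ₐ[F k] K, g y ∈ ic K S := by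
    intro g
    have h1 : IsIntegral S y := hy
    exact h1.map ((g.restrictScalars S).toAlgHom)
  rw [kumdec_e_apply]
  exact (ic K S).mul_mem (hk _) ((ic K S).sum_mem fun g _ => (ic K S).mul_mem (hk _) (hg g))

end chars

theorem tKumDec : KumDecStmt := by
  intro k _ _ _ r n C K _ _ _ _ _ _ S y hn _ hyS hyK
  classical
  -- the eigenvectors in the set of monomials form a group
  have hT : ∀ (χ : (K ≃ₐ[F k] K) →* kˣ) (h h' : K), h ∈ kumdec_M n C K →
      (∀ g : K ≃ₐ[F k] K, g h = algebraMap k K (χ g) * h) → h' ∈ kumdec_M n C K →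
      (∀ g : K ≃ₐ[F k] K, g h' = algebraMap k K (χ g) * h') → h + h' ∈ kumdec_M n C K := by
    intro χ h h' hh hg hh' hg'
    rcases eq_or_ne h 0 with rfl | h0
    · rwa [zero_add]
    · have h1 : h' / h ∈ Set.range (algebraMap (F k) K) := by
        rw [IsGalois.mem_range_algebraMap_iff_fixed]
        intro g
        have hc : algebraMap k K (χ g) ≠ 0 := by
          rw [Ne, map_eq_zero]
          exact (χ g).ne_zero
        rw [map_div₀, hg, hg', mul_div_mul_left _ _ hc]
      obtain ⟨f, hf⟩ := h1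
      have h2 : h + h' = algebraMap (F k) K (1 + f) * h := by
        rw [map_add, map_one, hf]
        field_simp
      rw [h2]
      exact (kumdec_M n C K).mul_mem (kumdec_base n C K _) hh
  let W : ((K ≃ₐ[F k] K) →* kˣ) → AddSubgroup K := fun χ =>
    { carrier := {h | h ∈ kumdec_M n C K ∧ ∀ g : K ≃ₐ[F k] K, g h = algebraMap k K (χ g) * h}
      zero_mem' := ⟨by simpa using kumdec_base n C K 0, fun g => by simp⟩
      add_mem' := fun {a b} ha hb => ⟨hT χ a b ha.1 ha.2 hb.1 hb.2, fun g => by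
        rw [map_add, ha.2 g, hb.2 g, mul_add]⟩
      neg_mem' := fun {a} ha => ⟨by
        have := (kumdec_M n C K).mul_mem (kumdec_base n C K (-1)) ha.1
        simpa using this, fun g => by rw [map_neg, ha.2 g, mul_neg]⟩ }
  -- characters of monomials
  have hchar : ∀ h ∈ kumdec_M n C K, ∃ ψ : (K ≃ₐ[F k] K) →* kˣ,
      ∀ g : K ≃ₐ[F k] K, g h = algebraMap k K (ψ g) * h := by
    rintro h ⟨c, e, -, hc⟩
    rcases eq_or_ne h 0 with rfl | h0
    · exact ⟨1, fun g => by simp⟩
    · exact kumdec_char n hn h h0 _ hc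
  have hsum := kumdec_sum n C K y hyK
  have hQ : ∀ χ, kumdec_e χ y ∈ W χ := by
    intro χ
    have hle : AddSubgroup.closure (kumdec_M n C K : Set K) ≤ (W χ).comap (kumdec_e χ) := by
      rw [AddSubgroup.closure_le]
      intro h hh
      obtain ⟨ψ, hψ⟩ := hchar h hh
      change kumdec_e χ h ∈ W χ
      by_cases hc : χ = ψ
      · subst hc
        rw [kumdec_e_same χ h hψ]
        exact ⟨hh, hψ⟩
      · rw [kumdec_e_diff χ ψ hc h hψ]
        exact (W χ).zero_mem
    exact hle hsum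
  have hP : ∃ X : Finset ((K ≃ₐ[F k] K) →* kˣ), y = ∑ χ ∈ X, kumdec_e χ y ∧
      ∀ χ, χ ∉ X → kumdec_e χ y = 0 := by
    refine AddSubgroup.closure_induction (p := fun y _ => ∃ X : Finset ((K ≃ₐ[F k] K) →* kˣ),
      y = ∑ χ ∈ X, kumdec_e χ y ∧ ∀ χ, χ ∉ X → kumdec_e χ y = 0) ?_ ?_ ?_ ?_ hsum
    · intro h hh
      obtain ⟨ψ, hψ⟩ := hchar h hh
      refine ⟨{ψ}, ?_, ?_⟩
      · rw [Finset.sum_singleton, kumdec_e_same ψ h hψ]
      · intro χ hχ
        exact kumdec_e_diff χ ψ (fun hc => hχ (Finset.mem_singleton.2 hc)) h hψ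
    · exact ⟨∅, by simp, fun χ _ => map_zero _⟩
    · rintro a b _ _ ⟨X, hX1, hX2⟩ ⟨Y, hY1, hY2⟩
      have e1 : ∑ χ ∈ X ∪ Y, kumdec_e χ a = a := by
        conv_rhs => rw [hX1]
        refine (Finset.sum_subset Finset.subset_union_left ?_).symm
        exact fun χ _ hχ => hX2 χ hχ
      have e2 : ∑ χ ∈ X ∪ Y, kumdec_e χ b = b := by
        conv_rhs => rw [hY1]
        refine (Finset.sum_subset Finset.subset_union_right ?_).symm
        exact fun χ _ hχ => hY2 χ hχ
      refine ⟨X ∪ Y, ?_, ?_⟩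
      · simp only [map_add]
        rw [Finset.sum_add_distrib, e1, e2]
      · intro χ hχ
        rw [Finset.mem_union, not_or] at hχ
        rw [map_add, hX2 χ hχ.1, hY2 χ hχ.2, add_zero]
    · rintro a _ ⟨X, hX1, hX2⟩
      refine ⟨X, ?_, ?_⟩
      · simp only [map_neg]
        rw [Finset.sum_neg_distrib, ← hX1]
      · intro χ hχ
        rw [map_neg, hX2 χ hχ, neg_zero]
  obtain ⟨X, hX, -⟩ := hP
  rw [hX]
  refine AddSubgroup.sum_mem _ fun χ _ => AddSubgroup.subset_closure ⟨?_, ?_⟩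
  · exact kumdec_e_int χ S y hyS
  · exact (hQ χ).1

end Pool.Agent.Lib.MP_4318ff_ag
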