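import Pool.Agent.Lib.MP_4318ff_ag.Spec.A2

/-!
MP_4318ff_ag, module A/KumReg: regularity of derivations on Kummer elements.
-/

set_option autoImplicit false

namespace Pool.Agent.Lib.MP_4318ff_ag

section

variable {k : Type} [Field k] {K : Type} [Field K] [Algebra (F k) K] [Algebra k K]
  [IsScalarTower k (F k) K]

omit [Algebra k K] [IsScalarTower k (F k) K] in
private lemma kumreg_mem (O : Subalgebra k (F k)) (f : F k) (hf : f ∈ O) :
    algebraMap (F k) K f ∈ ic K O := by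
  have h1 : IsIntegral O (algebraMap O K ⟨f, hf⟩) := isIntegral_algebraMap
  exact h1

private lemma kumreg_const (S : Subalgebra k (F k)) (c : k) : algebraMap k K c ∈ ic K S := by
  rw [IsScalarTower.algebraMap_apply k (F k) K]
  exact kumreg_mem S _ (S.algebraMap_mem c)

omit [Algebra k K] [IsScalarTower k (F k) K] in
private lemma kumreg_root (O : Subalgebra k (F k)) (n : ℕ) (hn : 0 < n) (y : K)
    (hy : y ^ n ∈ ic K O) : y ∈ ic K O := by
  have h1 : IsIntegral O (y ^ n) := hy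
  exact h1.of_pow hn

omit [IsScalarTower k (F k) K] in
private lemma kumreg_mul (O : Subalgebra k (F k)) (E : Derivation k K K) (x y : K)
    (hx : x ∈ ic K O) (hy : y ∈ ic K O) (hx' : E x ∈ ic K O) (hy' : E y ∈ ic K O) :
    E (x * y) ∈ ic K O := by
  rw [Derivation.leibniz, smul_eq_mul, smul_eq_mul]
  exact (ic K O).add_mem ((ic K O).mul_mem hx hy') ((ic K O).mul_mem hy hx')

omit [IsScalarTower k (F k) K] in
private lemma kumreg_pow (O : Subalgebra k (F k)) (E : Derivation k K K) (x : K)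
    (hx : x ∈ ic K O) (hx' : E x ∈ ic K O) (m : ℕ) : E (x ^ m) ∈ ic K O := by
  rw [Derivation.leibniz_pow, nsmul_eq_mul, smul_eq_mul]
  exact (ic K O).mul_mem (natCast_mem _ m) ((ic K O).mul_mem ((ic K O).pow_mem hx _) hx')

private lemma kumreg_unit [CharZero k] (O : Subalgebra k (F k)) (E : Derivation k K K)
    (hE : ∀ f ∈ O, E (algebraMap (F k) K f) ∈ ic K O) (n : ℕ) (hn : 0 < n) (w : K) (u : F k)
    (hu0 : u ≠ 0) (hu : u ∈ O) (hu' : u⁻¹ ∈ O) (hw : w ^ n = algebraMap (F k) K u) :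
    w ∈ ic K O ∧ E w ∈ ic K O := by
  have hw1 : w ∈ ic K O := kumreg_root O n hn w (by rw [hw]; exact kumreg_mem O u hu)
  have hw2 : w⁻¹ ∈ ic K O := by
    apply kumreg_root O n hn
    rw [inv_pow, hw, ← map_inv₀]
    exact kumreg_mem O _ hu'
  have hw0 : w ≠ 0 := by
    intro h0
    rw [h0, zero_pow hn.ne'] at hw
    exact hu0 ((map_eq_zero _).1 hw.symm)
  refine ⟨hw1, ?_⟩
  have hK : CharZero K := charZero_of_injective_algebraMap (algebraMap k K).injective
  have hn0 : (n : K) ≠ 0 := Nat.cast_ne_zero.2 hn.ne'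
  have h1 : E (w ^ n) ∈ ic K O := by
    rw [hw]
    exact hE u hu
  rw [Derivation.leibniz_pow, nsmul_eq_mul, smul_eq_mul] at h1
  have h2 : E w = algebraMap k K ((n : k)⁻¹) * ((w⁻¹) ^ (n - 1) *
      ((n : K) * (w ^ (n - 1) * E w))) := by
    rw [map_inv₀, map_natCast, inv_pow]
    have h3 : w ^ (n - 1) ≠ 0 := pow_ne_zero _ hw0
    field_simp
  rw [h2]
  exact (ic K O).mul_mem (kumreg_const O _) ((ic K O).mul_mem ((ic K O).pow_mem hw2 _) h1)

end

theorem tKumReg : UnifStmt → KumRegStmt := by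
  intro hU k _ _ n K _ _ _ _ O π E h s hn hπ hE hh hs hcase
  obtain ⟨-, hint, -, hord⟩ := hU k O π hπ
  obtain ⟨hπ1, hπ2, hπ3⟩ := hπ
  by_cases h0 : h = 0
  · rw [h0, map_zero]
    exact (ic K O).zero_mem
  have hs0 : s ≠ 0 := by
    intro h1
    rw [h1, map_zero] at hs
    exact h0 (pow_eq_zero_iff hn.ne' |>.1 hs)
  have hsO : s ∈ O := by
    apply hint
    have h1 : IsIntegral O (algebraMap (F k) K s) := by
      rw [← hs]
      exact (ic K O).pow_mem hh n
    exact (isIntegral_algebraMap_iff (algebraMap (F k) K).injective).1 h1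
  have hπ0 : π ≠ 0 := by
    intro h1
    apply hπ2
    rw [h1, inv_zero]
    exact O.zero_mem
  rcases hcase with ⟨c, u, hu, hu', hcu⟩ | ⟨ζ, hζ, hζn, hζE⟩
  · have hc0 : c ≠ 0 := by
      intro h1
      apply hs0
      rw [hcu, h1, zero_pow hn.ne', zero_mul]
    have hu0 : u ≠ 0 := by
      intro h1
      apply hs0
      rw [hcu, h1, mul_zero]
    obtain ⟨e, v, hv, hv', hcv⟩ := hπ3 c hc0
    have hv0 : v ≠ 0 := by
      intro h1
      apply hc0
      rw [hcv, h1, mul_zero]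
    have hs1 : s = π ^ ((n : ℤ) * e) * (v ^ n * u) := by
      rw [hcu, hcv, mul_pow, mul_comm (n : ℤ) e, zpow_mul, zpow_natCast, mul_assoc]
    have hvu : v ^ n * u ∈ O := O.mul_mem (O.pow_mem hv n) hu
    have hvu' : (v ^ n * u)⁻¹ ∈ O := by
      rw [mul_inv, ← inv_pow]
      exact O.mul_mem (O.pow_mem hv' n) hu'
    have hvu0 : v ^ n * u ≠ 0 := mul_ne_zero (pow_ne_zero _ hv0) hu0
    have hne : 0 ≤ (n : ℤ) * e := by
      apply hord _ _ hvu0 hvu hvu'
      rw [← hs1]
      exact hsO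
    have he : 0 ≤ e := by
      by_contra hcon
      have h1 : (n : ℤ) * e < 0 := mul_neg_of_pos_of_neg (by exact_mod_cast hn) (by omega)
      omega
    obtain ⟨m, rfl⟩ := Int.eq_ofNat_of_zero_le he
    have hφ0 : algebraMap (F k) K (π ^ m) ≠ 0 := by
      intro h1
      exact (pow_ne_zero m hπ0) ((map_eq_zero _).1 h1)
    have hw : (h / algebraMap (F k) K (π ^ m)) ^ n = algebraMap (F k) K (v ^ n * u) := by
      rw [div_pow, hs, div_eq_iff (pow_ne_zero _ hφ0), ← map_pow, ← map_mul]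
      congr 1
      rw [hcu, hcv, mul_pow, zpow_natCast]
      ring
    obtain ⟨hw1, hw2⟩ := kumreg_unit O E hE n hn _ _ hvu0 hvu hvu' hw
    have hhw : h = algebraMap (F k) K (π ^ m) * (h / algebraMap (F k) K (π ^ m)) := by
      rw [mul_div_cancel₀ h hφ0]
    rw [hhw]
    exact kumreg_mul O E _ _ (kumreg_mem O _ (O.pow_mem hπ1 m)) hw1 (hE _ (O.pow_mem hπ1 m)) hw2
  · obtain ⟨e, v, hv, hv', hsv⟩ := hπ3 s hs0
    have hv0 : v ≠ 0 := by
      intro h1
      apply hs0
      rw [hsv, h1, mul_zero]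
    have he : 0 ≤ e := by
      apply hord _ _ hv0 hv hv'
      rw [← hsv]
      exact hsO
    obtain ⟨m, rfl⟩ := Int.eq_ofNat_of_zero_le he
    have hζ0 : ζ ≠ 0 := by
      intro h1
      rw [h1, zero_pow hn.ne'] at hζn
      exact hπ0 ((map_eq_zero _).1 hζn.symm)
    have hw : (h / ζ ^ m) ^ n = algebraMap (F k) K v := by
      rw [div_pow, hs, div_eq_iff (pow_ne_zero _ (pow_ne_zero _ hζ0)), ← pow_mul, mul_comm m n,
        pow_mul, hζn, ← map_pow, ← map_mul]
      congr 1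
      rw [hsv, zpow_natCast, mul_comm]
    obtain ⟨hw1, hw2⟩ := kumreg_unit O E hE n hn _ _ hv0 hv hv' hw
    have hhw : h = ζ ^ m * (h / ζ ^ m) := by
      rw [mul_div_cancel₀ h (pow_ne_zero m hζ0)]
    rw [hhw]
    exact kumreg_mul O E _ _ ((ic K O).pow_mem hζ m) hw1 (kumreg_pow O E ζ hζ hζE m) hw2

end Pool.Agent.Lib.MP_4318ff_ag
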