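import Pool.Agent.Lib.MP_4318ff_ag.Spec.A1

/-!
# MP_4318ff_ag, module A/Loc: localisations of `k[z, w]` at irreducible polynomials
-/

set_option autoImplicit false

namespace Pool.Agent.Lib.MP_4318ff_ag

/-- The local ring of the irreducible polynomial `p` in the coordinates `z, w`. -/
theorem loc_exists (k : Type) [Field k] (z w : F k) (p : MvPolynomial (Fin 2) k) (hp : Irreducible p) :
    ∃ O : Subalgebra k (F k), IsLoc z w p O := by
  have hpr : Prime p := hp.prime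
  refine ⟨{ carrier := {f | ∃ h₁ h₂ : MvPolynomial (Fin 2) k, ¬ p ∣ h₂ ∧ f * cm z w h₂ = cm z w h₁}
            mul_mem' := ?_, add_mem' := ?_, algebraMap_mem' := ?_ }, hp, fun f => Iff.rfl⟩
  · rintro f g ⟨h₁, h₂, hn, hf⟩ ⟨h₁', h₂', hn', hg⟩
    refine ⟨h₁ * h₁', h₂ * h₂', fun h => (hpr.dvd_or_dvd h).elim hn hn', ?_⟩
    rw [map_mul, map_mul, ← hf, ← hg]; ring
  · rintro f g ⟨h₁, h₂, hn, hf⟩ ⟨h₁', h₂', hn', hg⟩
    refine ⟨h₁ * h₂' + h₁' * h₂, h₂ * h₂', fun h => (hpr.dvd_or_dvd h).elim hn hn', ?_⟩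
    rw [map_add, map_mul, map_mul, map_mul, ← hf, ← hg]; ring
  · intro c
    refine ⟨MvPolynomial.C c, 1, fun h => hp.not_isUnit (isUnit_of_dvd_one h), ?_⟩
    rw [map_one, mul_one]
    simp [cm]

theorem tLoc : LocStmt := by
  intro k _ z w hzw p hp
  refine ⟨loc_exists k z w p hp, ?_⟩
  rintro O ⟨-, hO⟩
  obtain ⟨hinj, hfrac⟩ := hzw
  have hφ0 : ∀ h : MvPolynomial (Fin 2) k, h ≠ 0 → cm z w h ≠ 0 := by
    intro h hh h0
    exact hh (hinj (by rw [h0, map_zero]))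
  have h1 : ∀ h, cm z w h ∈ O := by
    intro h
    rw [hO]
    exact ⟨h, 1, fun hd => hp.not_isUnit (isUnit_of_dvd_one hd), by rw [map_one, mul_one]⟩
  have h2 : ∀ h, h ≠ 0 → ((cm z w h)⁻¹ ∈ O ↔ ¬ p ∣ h) := by
    intro h hh
    constructor
    · intro hmem hd
      rw [hO] at hmem
      obtain ⟨a, b, hb, hab⟩ := hmem
      have e : cm z w b = cm z w (h * a) := by
        rw [map_mul, ← hab, mul_inv_cancel_left₀ (hφ0 h hh)]
      have e' : b = h * a := hinj e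
      exact hb (e' ▸ hd.mul_right a)
    · intro hd
      rw [hO]
      exact ⟨1, h, hd, by rw [map_one, inv_mul_cancel₀ (hφ0 h hh)]⟩
  refine ⟨h1, h2, h1 p, fun hm => (h2 p hp.ne_zero).1 hm dvd_rfl, ?_⟩
  intro f hf
  obtain ⟨a, b, hb, hab⟩ := hfrac f
  have ha : a ≠ 0 := by
    rintro rfl
    apply hf
    rw [hab, map_zero, zero_div]
  obtain ⟨n, a', ha', hna⟩ := WfDvdMonoid.max_power_factor ha hp
  obtain ⟨m, b', hb', hmb⟩ := WfDvdMonoid.max_power_factor hb hp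
  have ha0 : a' ≠ 0 := fun h => ha' (h ▸ dvd_zero p)
  have hb0 : b' ≠ 0 := fun h => hb' (h ▸ dvd_zero p)
  have hp0 := hφ0 p hp.ne_zero
  have ha1 := hφ0 a' ha0
  have hb1 := hφ0 b' hb0
  refine ⟨(n : ℤ) - m, cm z w a' / cm z w b', ?_, ?_, ?_⟩
  · rw [hO]
    exact ⟨a', b', hb', div_mul_cancel₀ _ hb1⟩
  · rw [hO, inv_div]
    exact ⟨b', a', ha', div_mul_cancel₀ _ ha1⟩
  · rw [hab, hna, hmb, map_mul, map_mul, map_pow, map_pow, zpow_sub₀ hp0, zpow_natCast, zpow_natCast]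
    field_simp

end Pool.Agent.Lib.MP_4318ff_ag
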