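import Pool.Agent.Lib.MP_4318ff_ag.Spec.A1

/-!
# MP_4318ff_ag, module A/LocCurve: the pole of one pencil term at a curve
-/

set_option autoImplicit false

namespace Pool.Agent.Lib.MP_4318ff_ag

open scoped LinearAlgebra.Projectivization

private theorem loccurve_mem {k : Type} [Field k] {K : Type} [Field K] [Algebra (F k) K]
    {O : Subalgebra k (F k)} {f : F k} (hf : f ∈ O) : algebraMap (F k) K f ∈ ic K O := by
  change IsIntegral O (algebraMap (F k) K f)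
  exact isIntegral_algebraMap (R := O) (A := K) (x := ⟨f, hf⟩)

private theorem loccurve_sum {k : Type} [Field k] {K : Type} [Field K] [Algebra (F k) K]
    (hPow : PowStmt) (S : Subalgebra k (F k)) {n : ℕ} (hn : 0 < n) (x : K) {ι : Type}
    (s : Finset ι) (y : ι → K) (h : ∀ i ∈ s, x * y i ^ n ∈ ic K S) :
    x * (∑ i ∈ s, y i) ^ n ∈ ic K S := by
  classical
  induction s using Finset.induction_on with
  | empty =>
    rw [Finset.sum_empty, zero_pow hn.ne', mul_zero]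
    exact zero_mem _
  | insert a s ha ih =>
    rw [Finset.sum_insert ha]
    exact hPow k K S n hn x _ _ (h a (Finset.mem_insert_self a s))
      (ih fun i hi => h i (Finset.mem_insert_of_mem hi))

open Classical in
theorem tLocCurve : EvStmt → UnifStmt → CurveStmt → PowStmt → TauStmt → LocCurveStmt := by
  intro hEv _ hCurve hPow hTau k _ r n C K _ _ _ _ P T O Δ b ρ hn hRoots hP hO hb hReg hRel
  obtain ⟨-, -, hev0⟩ := hEv k
  obtain ⟨-, -, hc3, -⟩ := hCurve k O hO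
  have hl0 : ∀ i, (∃ j, j ≠ i) → C.ℓ i ≠ 0 := by
    rintro i ⟨j, hij⟩ h0
    have h1 := (C.indep i j hij.symm).ne_zero 0
    exact h1 h0
  -- a line through `P` which is a unit form
  obtain ⟨j0, hj0P, hj0U, hj00⟩ : ∃ j0 ∈ C.through P, UnitForm O (C.ℓ j0) ∧ C.ℓ j0 ≠ 0 := by
    have hP' : 3 ≤ (C.through P).ncard := hP
    obtain ⟨i1, hi1, i2, hi2, -, -, h12, -, -⟩ := (Set.two_lt_ncard (Set.toFinite _)).1 hP'
    have h1 := hl0 i1 ⟨i2, h12.symm⟩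
    have h2 := hl0 i2 ⟨i1, h12⟩
    rcases hc3 (C.ℓ i1) h1 with h | h
    · exact ⟨i1, hi1, h, h1⟩
    · exact ⟨i2, hi2, (h (C.ℓ i2) (C.indep i1 i2 h12)).1, h2⟩
  have hej0 : ev (C.ℓ j0) ≠ 0 := fun h => hj00 ((hev0 _).1 h)
  -- the relation evaluated at `T`
  have hsum : ∑ i, ρ i * (C.ℓ i ⬝ᵥ T.rep) = 0 := by
    have h1 : (∑ i, ρ i • C.ℓ i) ⬝ᵥ T.rep = 0 := by rw [hRel.2, zero_dotProduct]
    rw [sum_dotProduct] at h1
    rw [← h1]
    refine Finset.sum_congr rfl fun i _ => ?_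
    rw [smul_dotProduct, smul_eq_mul]
  set φ := algebraMap (F k) K with hφ
  have hshift : (∑ i, algebraMap k K (ρ i * (C.ℓ i ⬝ᵥ T.rep)) *
      (Δ (φ (ev (C.ℓ i))) / φ (ev (C.ℓ i)))) =
      ∑ i, algebraMap k K (ρ i * (C.ℓ i ⬝ᵥ T.rep)) *
        (Δ (φ (ev (C.ℓ i))) / φ (ev (C.ℓ i)) - Δ (φ (ev (C.ℓ j0))) / φ (ev (C.ℓ j0))) := by
    simp only [mul_sub]
    rw [Finset.sum_sub_distrib, ← Finset.sum_mul, ← map_sum, hsum, map_zero, zero_mul, sub_zero]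
  rw [hshift]
  refine loccurve_sum hPow O hn _ Finset.univ _ fun i _ => ?_
  by_cases hzero : ρ i * (C.ℓ i ⬝ᵥ T.rep) = 0
  · rw [hzero, map_zero, zero_mul, zero_pow hn.ne', mul_zero]
    exact zero_mem _
  have hiT : C.ℓ i ⬝ᵥ T.rep ≠ 0 := right_ne_zero_of_mul hzero
  have hiP : i ∈ C.through P := by
    by_contra h
    exact left_ne_zero_of_mul hzero (hRel.1 i h)
  have hmem : i ∈ Finset.univ.filter (fun i => C.ℓ i ⬝ᵥ T.rep ≠ 0) :=
    Finset.mem_filter.2 ⟨Finset.mem_univ i, hiT⟩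
  have hq : ev (C.ℓ i) / ev (C.ℓ j0) ∈ O := hj0U.2 _
  obtain ⟨-, hτ, -⟩ := hTau k r n C K P O Δ hn hRoots hReg i hiP j0 hj0P hq
  set τ := Δ (φ (ev (C.ℓ i))) / φ (ev (C.ℓ i)) - Δ (φ (ev (C.ℓ j0))) / φ (ev (C.ℓ j0)) with hτd
  have hprod : ∏ j ∈ (Finset.univ.filter (fun i => C.ℓ i ⬝ᵥ T.rep ≠ 0)).erase i,
      ev (C.ℓ j) / ev b ∈ O := Subalgebra.prod_mem _ fun j _ => hb.2 _
  have hsplit : ∏ j ∈ Finset.univ.filter (fun i => C.ℓ i ⬝ᵥ T.rep ≠ 0), ev (C.ℓ j) / ev b =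
      (ev (C.ℓ i) / ev (C.ℓ j0)) * ((ev (C.ℓ j0) / ev b) *
        ∏ j ∈ (Finset.univ.filter (fun i => C.ℓ i ⬝ᵥ T.rep ≠ 0)).erase i,
          ev (C.ℓ j) / ev b) := by
    rw [← Finset.mul_prod_erase _ _ hmem, ← mul_assoc]
    congr 1
    rw [div_mul_div_cancel₀ hej0]
  have hfin : φ (∏ j ∈ Finset.univ.filter (fun i => C.ℓ i ⬝ᵥ T.rep ≠ 0), ev (C.ℓ j) / ev b) *
      (algebraMap k K (ρ i * (C.ℓ i ⬝ᵥ T.rep)) * τ) ^ n =
      (φ (ev (C.ℓ i) / ev (C.ℓ j0)) * τ ^ n) *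
        (φ ((ev (C.ℓ j0) / ev b) *
          ∏ j ∈ (Finset.univ.filter (fun i => C.ℓ i ⬝ᵥ T.rep ≠ 0)).erase i,
            ev (C.ℓ j) / ev b) *
        φ (algebraMap k (F k) (ρ i * (C.ℓ i ⬝ᵥ T.rep)) ^ n)) := by
    rw [hsplit, map_mul φ, mul_pow, map_pow, IsScalarTower.algebraMap_apply k (F k) K, ← hφ]
    ring
  rw [hfin]
  refine mul_mem hτ (mul_mem (loccurve_mem (mul_mem (hb.2 _) hprod)) (loccurve_mem ?_))
  exact pow_mem (O.algebraMap_mem _) n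

end Pool.Agent.Lib.MP_4318ff_ag
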