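import Pool.Agent.Lib.MP_4318ff_ag.A.LocExc1

/-!
# MP_4318ff_ag, module A/LocExc: one pencil term at the exceptional curve over another point
-/

set_option autoImplicit false

namespace Pool.Agent.Lib.MP_4318ff_ag

section der

variable {k : Type} [Field k] {r : ℕ} {C : Config k r} {K : Type} [Field K] [Algebra (F k) K]
  [Algebra k K] [IsScalarTower k (F k) K]

omit [Algebra k K] [IsScalarTower k (F k) K] in
private theorem locexc_ic {O : Subalgebra k (F k)} {f : F k} (hf : f ∈ O) :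
    algebraMap (F k) K f ∈ ic K O :=
  isIntegral_algebraMap (R := O) (A := K) (x := (⟨f, hf⟩ : O))

omit [Algebra (F k) K] [IsScalarTower k (F k) K] in
private theorem locexc_log (Δ : Derivation k K K) {x y z : K} {al ga : k} (hy : y ≠ 0)
    (hz : z ≠ 0) (h : z = algebraMap k K al * x + algebraMap k K ga * y) :
    Δ z / z - Δ y / y = Δ (x / y) * (algebraMap k K al * (y / z)) := by
  obtain ⟨q, hq⟩ : ∃ q, q = x / y := ⟨_, rfl⟩
  have hx : x = q * y := by rw [hq, div_mul_cancel₀ _ hy]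
  rw [← hq]
  have e1 : Δ z = algebraMap k K al * (q * Δ y + y * Δ q) + algebraMap k K ga * Δ y := by
    rw [h, hx, map_add, Derivation.leibniz, Derivation.leibniz, Derivation.leibniz,
      Derivation.map_algebraMap, Derivation.map_algebraMap]
    simp only [smul_eq_mul, mul_zero, add_zero]
  rw [div_sub_div _ _ hz hy, div_eq_iff (mul_ne_zero hz hy), e1]
  have e2 : Δ q * (algebraMap k K al * (y / z)) * (z * y) = Δ q * algebraMap k K al * y * y := by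
    field_simp
  rw [e2, h, hx]
  ring

private theorem locexc_rel {P : Pt k} {ρ : Fin r → k} (hrel : C.IsRel P ρ) (T : Fin 3 → k) :
    ∑ i, ρ i * (C.ℓ i ⬝ᵥ T) = 0 := by
  have h := congrArg (fun v => v ⬝ᵥ T) hrel.2
  simp only [zero_dotProduct] at h
  rw [← h]
  simp only [dotProduct, Finset.sum_apply, Pi.smul_apply, smul_eq_mul, Finset.mul_sum,
    Finset.sum_mul]
  rw [Finset.sum_comm]
  refine Finset.sum_congr rfl fun j _ => Finset.sum_congr rfl fun i _ => ?_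
  ring

/-- The term of the pencil as a multiple of one derivative. -/
private theorem locexc_sum (hev : EvStmt) (Δ : Derivation k K K) {P T : Pt k} {ρ : Fin r → k}
    (hrel : C.IsRel P ρ) (hne : ∀ i ∈ C.through P, C.ℓ i ≠ 0) {l1 l2 : Fin 3 → k} (h2 : l2 ≠ 0)
    {al : Fin r → k}
    (hal : ∀ i ∈ C.through P, C.ℓ i = al i • l1 + (C.ℓ i ⬝ᵥ T.rep / l2 ⬝ᵥ T.rep) • l2) :
    ∑ i, algebraMap k K (ρ i * (C.ℓ i ⬝ᵥ T.rep)) *
      (Δ (algebraMap (F k) K (ev (C.ℓ i))) / algebraMap (F k) K (ev (C.ℓ i))) =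
    Δ (algebraMap (F k) K (ev l1 / ev l2)) * algebraMap (F k) K
      (∑ i, algebraMap k (F k) (ρ i * (C.ℓ i ⬝ᵥ T.rep) * al i) * (ev l2 / ev (C.ℓ i))) := by
  obtain ⟨ev1, ev2, ev3⟩ := hev k
  have hφ : ∀ a : Fin 3 → k, a ≠ 0 → algebraMap (F k) K (ev a) ≠ 0 := by
    intro a ha h
    exact ha ((ev3 a).1 ((map_eq_zero _).1 h))
  have h0 : ∑ i, algebraMap k K (ρ i * (C.ℓ i ⬝ᵥ T.rep)) *
      (Δ (algebraMap (F k) K (ev l2)) / algebraMap (F k) K (ev l2)) = 0 := by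
    rw [← Finset.sum_mul, ← map_sum, locexc_rel hrel, map_zero, zero_mul]
  rw [← sub_zero (∑ i, algebraMap k K (ρ i * (C.ℓ i ⬝ᵥ T.rep)) *
      (Δ (algebraMap (F k) K (ev (C.ℓ i))) / algebraMap (F k) K (ev (C.ℓ i)))), ← h0,
    ← Finset.sum_sub_distrib, map_sum, Finset.mul_sum]
  refine Finset.sum_congr rfl fun i _ => ?_
  rw [← mul_sub]
  by_cases hi : i ∈ C.through P
  · have e1 : algebraMap (F k) K (ev (C.ℓ i)) = algebraMap k K (al i) * algebraMap (F k) K (ev l1) +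
        algebraMap k K (C.ℓ i ⬝ᵥ T.rep / l2 ⬝ᵥ T.rep) * algebraMap (F k) K (ev l2) := by
      conv_lhs => rw [hal i hi]
      rw [ev1, ev2, ev2, map_add, map_mul, map_mul, ← IsScalarTower.algebraMap_apply,
        ← IsScalarTower.algebraMap_apply]
    rw [locexc_log Δ (hφ l2 h2) (hφ _ (hne i hi)) e1, ← map_div₀, ← map_div₀, map_mul (algebraMap (F k) K),
      ← IsScalarTower.algebraMap_apply, map_mul (algebraMap k K) (ρ i * (C.ℓ i ⬝ᵥ T.rep))]
    ring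
  · rw [hrel.1 i hi]
    simp

/-- The sum of the first coordinates in a relation. -/
private theorem locexc_al {P T : Pt k} {ρ : Fin r → k} (hrel : C.IsRel P ρ) {l1 l2 : Fin 3 → k}
    (h1 : l1 ≠ 0) {al : Fin r → k}
    (hal : ∀ i ∈ C.through P, C.ℓ i = al i • l1 + (C.ℓ i ⬝ᵥ T.rep / l2 ⬝ᵥ T.rep) • l2) :
    ∑ i, ρ i * al i = 0 := by
  have e1 : (∑ i, ρ i * al i) • l1 = 0 := by
    have e2 : ∀ i, (ρ i * al i) • l1 =
        ρ i • C.ℓ i - (ρ i * (C.ℓ i ⬝ᵥ T.rep)) • ((l2 ⬝ᵥ T.rep)⁻¹ • l2) := by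
      intro i
      by_cases hi : i ∈ C.through P
      · conv_rhs => rw [hal i hi]
        have e3 : (al i • l1 + (C.ℓ i ⬝ᵥ T.rep / l2 ⬝ᵥ T.rep) • l2) ⬝ᵥ T.rep = C.ℓ i ⬝ᵥ T.rep := by
          rw [← hal i hi]
        rw [e3, smul_add, smul_smul, smul_smul, smul_smul, div_eq_mul_inv, mul_assoc,
          add_sub_cancel_right]
      · rw [hrel.1 i hi]
        simp
    rw [Finset.sum_smul, Finset.sum_congr rfl fun i _ => e2 i, Finset.sum_sub_distrib, hrel.2,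
      ← Finset.sum_smul, locexc_rel hrel, zero_smul, sub_zero]
  exact (smul_eq_zero.1 e1).resolve_right h1

end der

theorem tLocExc : EvStmt → ExcStmt → TauStmt → LocExcStmt := by
  intro hev hexc htau k _ r n C K _ _ _ _ P T O Δ b c ρ hn hroots hPM hPT hO hreg hrel hb hc hcT
  obtain ⟨-, ex⟩ := hexc k T
  obtain ⟨x1, x2, -, -⟩ := ex O hO
  obtain ⟨ev1, ev2, ev3⟩ := hev k
  have hev0 : ∀ a : Fin 3 → k, a ≠ 0 → ev a ≠ 0 := fun a ha h => ha ((ev3 a).1 h)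
  have hn0 : ∀ a : Fin 3 → k, a ⬝ᵥ T.rep ≠ 0 → a ≠ 0 := by
    rintro a ha rfl
    exact ha (zero_dotProduct _)
  have hpair : ∀ i, ∃ j ∈ C.through P, j ≠ i := by
    intro i
    have h3 : 3 ≤ (C.through P).ncard := hPM
    exact Set.exists_ne_of_one_lt_ncard (by omega) i
  have hne : ∀ i ∈ C.through P, C.ℓ i ≠ 0 := by
    intro i hi
    obtain ⟨j, hj, hji⟩ := hpair i
    exact (C.indep i j hji.symm).ne_zero 0
  have he : ev c / ev b ∈ O := (x1 b hb).2 c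
  have he0 : ev c / ev b ≠ 0 := div_ne_zero (hev0 c hc) (hev0 b (hn0 b hb))
  have hmu : ∀ l1 l2 : Fin 3 → k, l1 ⬝ᵥ T.rep = 0 → l2 ⬝ᵥ T.rep ≠ 0 →
      ∃ mu ∈ O, ev l1 / ev l2 = ev c / ev b * mu := by
    intro l1 l2 h1 h2
    refine ⟨(ev l1 / ev c) * (ev b / ev l2), O.mul_mem (x2 c l1 hc hcT h1) ((x1 l2 h2).2 b), ?_⟩
    have c0 := hev0 c hc
    have b0 := hev0 b (hn0 b hb)
    have l0 := hev0 l2 (hn0 l2 h2)
    field_simp
  have hco : ∀ l1 l2 : Fin 3 → k, l1 ⬝ᵥ P.rep = 0 → l1 ⬝ᵥ T.rep = 0 → l1 ≠ 0 →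
      l2 ⬝ᵥ P.rep = 0 → l2 ⬝ᵥ T.rep ≠ 0 → ∃ al : Fin r → k, ∀ i ∈ C.through P,
        C.ℓ i = al i • l1 + (C.ℓ i ⬝ᵥ T.rep / l2 ⬝ᵥ T.rep) • l2 := by
    intro l1 l2 h1 h1' h1n h2 h2'
    have h : ∀ i, ∃ al : k, i ∈ C.through P →
        C.ℓ i = al • l1 + (C.ℓ i ⬝ᵥ T.rep / l2 ⬝ᵥ T.rep) • l2 := by
      intro i
      by_cases hi : i ∈ C.through P
      · obtain ⟨s, hs⟩ := locexc_coord hPT h1 h1' h1n h2 h2' hi
        exact ⟨s, fun _ => hs⟩
      · exact ⟨0, fun h => absurd h hi⟩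
    choose al hal using h
    exact ⟨al, hal⟩
  obtain ⟨m, rfl⟩ : ∃ m, n = m + 1 := ⟨n - 1, by omega⟩
  have hm1 : m + 1 - 1 = m := by omega
  rw [hm1]
  by_cases hcase : ∃ i ∈ C.through P, C.ℓ i ⬝ᵥ T.rep = 0
  · -- a line through both points
    obtain ⟨i0, hi0, hiT⟩ := hcase
    obtain ⟨j0, hj0, hji⟩ := hpair i0
    have hjT : C.ℓ j0 ⬝ᵥ T.rep ≠ 0 := by
      intro h0
      obtain ⟨s, hs⟩ := locexc_line (locexc_m_ne hPT) hj0 h0 hi0 hiT (hne i0 hi0)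
      have h2 := (LinearIndependent.pair_iff.1 (C.indep i0 j0 hji.symm)) s (-1) (by
        rw [hs]
        module)
      exact one_ne_zero (neg_eq_zero.1 h2.2)
    obtain ⟨al, hal⟩ := hco (C.ℓ i0) (C.ℓ j0) hi0 hiT (hne i0 hi0) hj0 hjT
    have hsum := locexc_sum hev Δ hrel hne (hne j0 hj0) hal
    obtain ⟨mu, hmuO, hmu'⟩ := hmu (C.ℓ i0) (C.ℓ j0) hiT hjT
    have hlam : ev (C.ℓ i0) / ev (C.ℓ j0) ∈ O := (x1 _ hjT).2 _
    obtain ⟨-, -, y, hy, hyn⟩ := htau k r (m + 1) C K P O Δ hn hroots hreg i0 hi0 j0 hj0 hlam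
    have hG : (∑ i, algebraMap k (F k) (ρ i * (C.ℓ i ⬝ᵥ T.rep) * al i) *
        (ev (C.ℓ j0) / ev (C.ℓ i))) ∈ O := by
      refine O.sum_mem fun i _ => ?_
      by_cases hi : C.ℓ i ⬝ᵥ T.rep = 0
      · rw [hi, mul_zero, zero_mul, map_zero, zero_mul]
        exact O.zero_mem
      · exact O.mul_mem (O.algebraMap_mem _) ((x1 _ hi).2 _)
    rw [hsum, mul_pow, hyn, hm1, ← map_pow]
    have e1 : algebraMap (F k) K ((ev c / ev b)⁻¹ ^ m) *
        (algebraMap (F k) K ((ev (C.ℓ i0) / ev (C.ℓ j0)) ^ m) * y *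
          algebraMap (F k) K ((∑ i, algebraMap k (F k) (ρ i * (C.ℓ i ⬝ᵥ T.rep) * al i) *
        (ev (C.ℓ j0) / ev (C.ℓ i))) ^ (m + 1))) =
        algebraMap (F k) K (mu ^ m * (∑ i, algebraMap k (F k) (ρ i * (C.ℓ i ⬝ᵥ T.rep) * al i) *
        (ev (C.ℓ j0) / ev (C.ℓ i))) ^ (m + 1)) * y := by
      rw [hmu', mul_pow, map_mul, map_mul, inv_pow]
      have e2 : algebraMap (F k) K ((ev c / ev b) ^ m)⁻¹ * algebraMap (F k) K ((ev c / ev b) ^ m) =
          1 := by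
        rw [← map_mul, inv_mul_cancel₀ (pow_ne_zero _ he0), map_one]
      linear_combination (algebraMap (F k) K (mu ^ m) * y *
        algebraMap (F k) K ((∑ i, algebraMap k (F k) (ρ i * (C.ℓ i ⬝ᵥ T.rep) * al i) *
        (ev (C.ℓ j0) / ev (C.ℓ i))) ^ (m + 1))) * e2
    rw [e1]
    exact (ic K O).mul_mem (locexc_ic (O.mul_mem (O.pow_mem hmuO _) (O.pow_mem hG _))) hy
  · -- no line through both points
    push Not at hcase
    obtain ⟨l2, h2P, h2T⟩ := locexc_form hPT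
    obtain ⟨l1, hl1⟩ : ∃ l1, l1 = locexc_m P.rep T.rep := ⟨_, rfl⟩
    have h1P : l1 ⬝ᵥ P.rep = 0 := by rw [hl1]; exact locexc_m_left _ _
    have h1T : l1 ⬝ᵥ T.rep = 0 := by rw [hl1]; exact locexc_m_right _ _
    have h1n : l1 ≠ 0 := by rw [hl1]; exact locexc_m_ne hPT
    obtain ⟨al, hal⟩ := hco l1 l2 h1P h1T h1n h2P h2T
    have hsum := locexc_sum hev Δ hrel hne (hn0 l2 h2T) hal
    have hal0 := locexc_al hrel h1n hal
    obtain ⟨mu, hmuO, hmu'⟩ := hmu l1 l2 h1T h2T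
    have hlam : ev l1 / ev l2 ∈ O := (x1 _ h2T).2 _
    have hd : Δ (algebraMap (F k) K (ev l1 / ev l2)) ∈ ic K O := hreg.1 l1 l2 h1P h2P hlam
    have hG : (∑ i, algebraMap k (F k) (ρ i * (C.ℓ i ⬝ᵥ T.rep) * al i) *
        (ev l2 / ev (C.ℓ i))) = ev l1 / ev l2 *
        (-∑ i, algebraMap k (F k) (l2 ⬝ᵥ T.rep * (ρ i * al i ^ 2)) * (ev l2 / ev (C.ℓ i))) := by
      have e1 : ∀ i, algebraMap k (F k) (ρ i * (C.ℓ i ⬝ᵥ T.rep) * al i) * (ev l2 / ev (C.ℓ i)) =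
          algebraMap k (F k) (l2 ⬝ᵥ T.rep) * algebraMap k (F k) (ρ i * al i) -
          ev l1 / ev l2 * (algebraMap k (F k) (l2 ⬝ᵥ T.rep * (ρ i * al i ^ 2)) *
            (ev l2 / ev (C.ℓ i))) := by
        intro i
        by_cases hi : i ∈ C.through P
        · have f1 : ev (C.ℓ i) = algebraMap k (F k) (al i) * ev l1 +
              algebraMap k (F k) (C.ℓ i ⬝ᵥ T.rep / l2 ⬝ᵥ T.rep) * ev l2 := by
            conv_lhs => rw [hal i hi]
            rw [ev1, ev2, ev2]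
          have f2 := hev0 _ (hne i hi)
          have f3 := hev0 _ (hn0 l2 h2T)
          have f4 : algebraMap k (F k) (C.ℓ i ⬝ᵥ T.rep) = algebraMap k (F k) (l2 ⬝ᵥ T.rep) *
              algebraMap k (F k) (C.ℓ i ⬝ᵥ T.rep / l2 ⬝ᵥ T.rep) := by
            rw [← map_mul, mul_div_cancel₀ _ h2T]
          simp only [map_mul, map_pow, f4]
          field_simp
          rw [f1]
          ring
        · rw [hrel.1 i hi]
          simp
      rw [Finset.sum_congr rfl fun i _ => e1 i, Finset.sum_sub_distrib, ← Finset.mul_sum,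
        ← map_sum, hal0, map_zero, mul_zero, zero_sub, ← Finset.mul_sum, mul_neg]
    have hGO : (-∑ i, algebraMap k (F k) (l2 ⬝ᵥ T.rep * (ρ i * al i ^ 2)) *
        (ev l2 / ev (C.ℓ i))) ∈ O := by
      refine O.neg_mem (O.sum_mem fun i _ => ?_)
      by_cases hi : i ∈ C.through P
      · exact O.mul_mem (O.algebraMap_mem _) ((x1 _ (hcase i hi)).2 _)
      · rw [hrel.1 i hi, zero_mul, mul_zero, map_zero, zero_mul]
        exact O.zero_mem
    obtain ⟨G, hGd⟩ : ∃ G, G = (-∑ i, algebraMap k (F k) (l2 ⬝ᵥ T.rep * (ρ i * al i ^ 2)) *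
        (ev l2 / ev (C.ℓ i))) := ⟨_, rfl⟩
    rw [← hGd] at hG hGO
    rw [hsum, hG, hmu', mul_pow, ← map_pow (algebraMap (F k) K)]
    have e1 : algebraMap (F k) K ((ev c / ev b)⁻¹ ^ m) *
        (Δ (algebraMap (F k) K (ev c / ev b * mu)) ^ (m + 1) *
          algebraMap (F k) K ((ev c / ev b * mu * G) ^ (m + 1))) =
        algebraMap (F k) K (ev c / ev b * (mu * G) ^ (m + 1)) *
          Δ (algebraMap (F k) K (ev c / ev b * mu)) ^ (m + 1) := by
      have e2 : (ev c / ev b)⁻¹ ^ m * (ev c / ev b * mu * G) ^ (m + 1) =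
          ev c / ev b * (mu * G) ^ (m + 1) := by
        have e3 : (ev c / ev b)⁻¹ ^ m * (ev c / ev b) ^ m = 1 := by
          rw [inv_pow, inv_mul_cancel₀ (pow_ne_zero _ he0)]
        rw [mul_assoc (ev c / ev b), mul_pow (ev c / ev b), pow_succ (ev c / ev b)]
        linear_combination (ev c / ev b * (mu * G) ^ (m + 1)) * e3
      rw [← e2, map_mul (algebraMap (F k) K) ((ev c / ev b)⁻¹ ^ m)]
      ring
    rw [e1]
    rw [hmu'] at hd
    exact (ic K O).mul_mem (locexc_ic (O.mul_mem he (O.pow_mem (O.mul_mem hmuO hGO) _)))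
      ((ic K O).pow_mem hd _)

end Pool.Agent.Lib.MP_4318ff_ag
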