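import Pool.Agent.Lib.MP_4318ff_ag.Spec.A1

/-!
# MP_4318ff_ag, module A/LocExc1: forms through two points
-/

set_option autoImplicit false

namespace Pool.Agent.Lib.MP_4318ff_ag

open scoped LinearAlgebra.Projectivization

section lin

variable {k : Type} [Field k]

/-- The line through two points. -/
def locexc_m (p t : Fin 3 → k) : Fin 3 → k :=
  ![p 1 * t 2 - p 2 * t 1, p 2 * t 0 - p 0 * t 2, p 0 * t 1 - p 1 * t 0]

theorem locexc_dot (v w : Fin 3 → k) : v ⬝ᵥ w = v 0 * w 0 + v 1 * w 1 + v 2 * w 2 := by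
  rw [dotProduct, Fin.sum_univ_three]

/-- `m` vanishes at the first point. -/
theorem locexc_m_left (p t : Fin 3 → k) : locexc_m p t ⬝ᵥ p = 0 := by
  rw [locexc_dot]
  simp only [locexc_m, Matrix.cons_val_zero, Matrix.cons_val_one, Matrix.cons_val]
  ring

theorem locexc_m_right (p t : Fin 3 → k) : locexc_m p t ⬝ᵥ t = 0 := by
  rw [locexc_dot]
  simp only [locexc_m, Matrix.cons_val_zero, Matrix.cons_val_one, Matrix.cons_val]
  ring

theorem locexc_cross {p t v : Fin 3 → k} (h1 : v ⬝ᵥ p = 0) (h2 : v ⬝ᵥ t = 0)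
    (i j : Fin 3) : v i * locexc_m p t j = v j * locexc_m p t i := by
  rw [locexc_dot] at h1 h2
  fin_cases i <;> fin_cases j <;>
    simp only [locexc_m, Matrix.cons_val_zero, Matrix.cons_val_one, Matrix.cons_val,
      Fin.zero_eta, Fin.mk_one, Fin.reduceFinMk]
  · linear_combination p 2 * h2 - t 2 * h1
  · linear_combination t 1 * h1 - p 1 * h2
  · linear_combination t 2 * h1 - p 2 * h2
  · linear_combination p 0 * h2 - t 0 * h1
  · linear_combination p 1 * h2 - t 1 * h1
  · linear_combination t 0 * h1 - p 0 * h2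

/-- The forms vanishing at two different points are proportional. -/
theorem locexc_line {p t v w : Fin 3 → k} (hm : locexc_m p t ≠ 0) (v1 : v ⬝ᵥ p = 0)
    (v2 : v ⬝ᵥ t = 0) (w1 : w ⬝ᵥ p = 0) (w2 : w ⬝ᵥ t = 0) (hw : w ≠ 0) : ∃ s : k, v = s • w := by
  obtain ⟨j, hj⟩ : ∃ j, locexc_m p t j ≠ 0 := by
    by_contra h
    push Not at h
    exact hm (funext h)
  have hwj : w j ≠ 0 := by
    intro h0
    refine hw (funext fun i => ?_)
    have h1 := locexc_cross w1 w2 i j
    rw [h0, zero_mul] at h1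
    exact (mul_eq_zero.1 h1).resolve_right hj
  refine ⟨v j / w j, funext fun i => ?_⟩
  have a1 := locexc_cross v1 v2 i j
  have a2 := locexc_cross w1 w2 i j
  rw [Pi.smul_apply, smul_eq_mul, div_mul_eq_mul_div, eq_div_iff hwj]
  refine mul_right_cancel₀ hj ?_
  linear_combination w j * a1 - v j * a2

theorem locexc_m_ne {P T : Pt k} (h : P ≠ T) : locexc_m P.rep T.rep ≠ 0 := by
  intro h0
  apply h
  obtain ⟨j, hj⟩ : ∃ j, P.rep j ≠ 0 := by
    by_contra h'
    push Not at h'
    exact P.rep_nonzero (funext h')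
  have c0 := congrFun h0 0
  have c1 := congrFun h0 1
  have c2 := congrFun h0 2
  simp only [locexc_m, Matrix.cons_val_zero, Matrix.cons_val_one, Matrix.cons_val,
    Pi.zero_apply] at c0 c1 c2
  have key : ∀ i, P.rep j * T.rep i = T.rep j * P.rep i := by
    intro i
    fin_cases i <;> fin_cases j <;>
      simp only [Fin.zero_eta, Fin.mk_one, Fin.reduceFinMk] <;> first
      | ring1
      | linear_combination c0
      | linear_combination -c0
      | linear_combination c1
      | linear_combination -c1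
      | linear_combination c2
      | linear_combination -c2
  rw [← P.mk_rep, ← T.mk_rep, Projectivization.mk_eq_mk_iff']
  have htj : T.rep j ≠ 0 := by
    intro h1
    refine T.rep_nonzero (funext fun i => ?_)
    have h2 := key i
    rw [h1, zero_mul] at h2
    exact (mul_eq_zero.1 h2).resolve_left hj
  refine ⟨P.rep j / T.rep j, funext fun i => ?_⟩
  rw [Pi.smul_apply, smul_eq_mul, div_mul_eq_mul_div, div_eq_iff htj, key i]
  ring

/-- A form through `P` which does not vanish at `T`. -/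
theorem locexc_form {P T : Pt k} (h : P ≠ T) :
    ∃ a : Fin 3 → k, a ⬝ᵥ P.rep = 0 ∧ a ⬝ᵥ T.rep ≠ 0 := by
  obtain ⟨j, hj⟩ : ∃ j, locexc_m P.rep T.rep j ≠ 0 := by
    by_contra h'
    push Not at h'
    exact locexc_m_ne h (funext h')
  fin_cases j
  · refine ⟨![0, -P.rep 2, P.rep 1], ?_, ?_⟩
    · rw [locexc_dot]
      simp only [Matrix.cons_val_zero, Matrix.cons_val_one, Matrix.cons_val]
      ring
    · intro h0
      apply hj
      rw [locexc_dot] at h0
      simp only [Matrix.cons_val_zero, Matrix.cons_val_one, Matrix.cons_val] at h0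
      simp only [locexc_m, Fin.zero_eta, Matrix.cons_val_zero]
      linear_combination h0
  · refine ⟨![P.rep 2, 0, -P.rep 0], ?_, ?_⟩
    · rw [locexc_dot]
      simp only [Matrix.cons_val_zero, Matrix.cons_val_one, Matrix.cons_val]
      ring
    · intro h0
      apply hj
      rw [locexc_dot] at h0
      simp only [Matrix.cons_val_zero, Matrix.cons_val_one, Matrix.cons_val] at h0
      simp only [locexc_m, Fin.mk_one, Matrix.cons_val_one, Matrix.cons_val_zero]
      linear_combination h0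
  · refine ⟨![-P.rep 1, P.rep 0, 0], ?_, ?_⟩
    · rw [locexc_dot]
      simp only [Matrix.cons_val_zero, Matrix.cons_val_one, Matrix.cons_val]
      ring
    · intro h0
      apply hj
      rw [locexc_dot] at h0
      simp only [Matrix.cons_val_zero, Matrix.cons_val_one, Matrix.cons_val] at h0
      simp only [locexc_m, Fin.reduceFinMk, Matrix.cons_val]
      linear_combination h0

/-- Coordinates of a form through `P`. -/
theorem locexc_coord {P T : Pt k} (h : P ≠ T) {l1 l2 a : Fin 3 → k} (h1 : l1 ⬝ᵥ P.rep = 0)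
    (h1' : l1 ⬝ᵥ T.rep = 0) (h1n : l1 ≠ 0) (h2 : l2 ⬝ᵥ P.rep = 0) (h2' : l2 ⬝ᵥ T.rep ≠ 0)
    (ha : a ⬝ᵥ P.rep = 0) :
    ∃ al : k, a = al • l1 + (a ⬝ᵥ T.rep / l2 ⬝ᵥ T.rep) • l2 := by
  have e1 : (a - (a ⬝ᵥ T.rep / l2 ⬝ᵥ T.rep) • l2) ⬝ᵥ P.rep = 0 := by
    rw [sub_dotProduct, smul_dotProduct, ha, h2, smul_zero, sub_zero]
  have e2 : (a - (a ⬝ᵥ T.rep / l2 ⬝ᵥ T.rep) • l2) ⬝ᵥ T.rep = 0 := by
    rw [sub_dotProduct, smul_dotProduct, smul_eq_mul, div_mul_cancel₀ _ h2', sub_self]
  obtain ⟨s, hs⟩ := locexc_line (locexc_m_ne h) e1 e2 h1 h1' h1n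
  exact ⟨s, by rw [← hs]; abel⟩

end lin

end Pool.Agent.Lib.MP_4318ff_ag
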