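import Pool.Agent.Lib.MP_4318ff_ag.Spec.A2

/-!
MP_4318ff_ag, module A/LocReg: a derivation which is regular on the coordinates is regular on the local ring.
-/

set_option autoImplicit false

namespace Pool.Agent.Lib.MP_4318ff_ag

section

variable {k : Type} [Field k] {K : Type} [Field K] [Algebra (F k) K] [Algebra k K]
  [IsScalarTower k (F k) K]

omit [Algebra k K] [IsScalarTower k (F k) K] in
private lemma locreg_mem (O : Subalgebra k (F k)) (f : F k) (hf : f ∈ O) :
    algebraMap (F k) K f ∈ ic K O := by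
  have h1 : IsIntegral O (algebraMap O K ⟨f, hf⟩) := isIntegral_algebraMap
  exact h1

private lemma locreg_cm (z w : F k) (p : MvPolynomial (Fin 2) k) (O : Subalgebra k (F k))
    (hO : IsLoc z w p O) (h : MvPolynomial (Fin 2) k) : cm z w h ∈ O := by
  refine (hO.2 _).2 ⟨h, 1, ?_, by rw [map_one, mul_one]⟩
  intro h1
  exact hO.1.1 (isUnit_of_dvd_one h1)

private lemma locreg_poly (z w : F k) (p : MvPolynomial (Fin 2) k) (O : Subalgebra k (F k))
    (hO : IsLoc z w p O) (E : Derivation k K K) (hz : E (algebraMap (F k) K z) ∈ ic K O)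
    (hw : E (algebraMap (F k) K w) ∈ ic K O) (h : MvPolynomial (Fin 2) k) :
    E (algebraMap (F k) K (cm z w h)) ∈ ic K O := by
  induction h using MvPolynomial.induction_on with
  | C a =>
    have h1 : cm z w (MvPolynomial.C a) = algebraMap k (F k) a := by
      unfold cm
      rw [MvPolynomial.aeval_C]
    rw [h1, ← IsScalarTower.algebraMap_apply, Derivation.map_algebraMap]
    exact (ic K O).zero_mem
  | add p q hp hq =>
    rw [map_add, map_add, map_add]
    exact (ic K O).add_mem hp hq
  | mul_X p i hp =>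
    rw [map_mul, map_mul, Derivation.leibniz, smul_eq_mul, smul_eq_mul]
    have h1 : E (algebraMap (F k) K (cm z w (MvPolynomial.X i))) ∈ ic K O := by
      unfold cm
      rw [MvPolynomial.aeval_X]
      fin_cases i
      · exact hz
      · exact hw
    exact (ic K O).add_mem ((ic K O).mul_mem (locreg_mem O _ (locreg_cm z w _ O hO p)) h1)
      ((ic K O).mul_mem (locreg_mem O _ (locreg_cm z w _ O hO _)) hp)

end

theorem tLocReg : LocRegStmt := by
  intro k _ K _ _ _ _ z w p O E hC hO hz hw f hf
  obtain ⟨h₁, h₂, hp, he⟩ := (hO.2 f).1 hf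
  have h20 : cm z w h₂ ≠ 0 := by
    intro h0
    apply hp
    have h3 : h₂ = 0 := hC.1 (by rw [h0, map_zero])
    rw [h3]
    exact dvd_zero p
  have hinv : (cm z w h₂)⁻¹ ∈ O := by
    refine (hO.2 _).2 ⟨1, h₂, hp, ?_⟩
    rw [map_one, inv_mul_cancel₀ h20]
  have hφ0 : algebraMap (F k) K (cm z w h₂) ≠ 0 := by
    intro h0
    exact h20 ((map_eq_zero _).1 h0)
  have e1 : E (algebraMap (F k) K (f * cm z w h₂)) = E (algebraMap (F k) K (cm z w h₁)) := by
    rw [he]
  rw [map_mul, Derivation.leibniz, smul_eq_mul, smul_eq_mul] at e1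
  have e2 : E (algebraMap (F k) K f) = (E (algebraMap (F k) K (cm z w h₁)) -
      algebraMap (F k) K f * E (algebraMap (F k) K (cm z w h₂))) *
      algebraMap (F k) K (cm z w h₂)⁻¹ := by
    rw [map_inv₀, ← div_eq_mul_inv, eq_div_iff hφ0, ← e1]
    ring
  rw [e2]
  exact (ic K O).mul_mem ((ic K O).sub_mem (locreg_poly z w p O hO E hz hw h₁)
    ((ic K O).mul_mem (locreg_mem O f hf) (locreg_poly z w p O hO E hz hw h₂)))
    (locreg_mem O _ hinv)

end Pool.Agent.Lib.MP_4318ff_ag
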