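import Pool.Agent.Lib.MP_4318ff_ag.Spec.A3

/-!
# MP_4318ff_ag, A/MFin: there are finitely many multiple points
-/

set_option autoImplicit false

namespace Pool.Agent.Lib.MP_4318ff_ag

open scoped LinearAlgebra.Projectivization Matrix

private theorem mfin_eq {k : Type} [Field k] {a b : Fin 3 → k}
    (hne : crossProduct a b ≠ 0) (P : Pt k) (ha : a ⬝ᵥ P.rep = 0) (hb : b ⬝ᵥ P.rep = 0) :
    P = Projectivization.mk k (crossProduct a b) hne := by
  have hx : crossProduct P.rep (crossProduct a b) = 0 := by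
    rw [cross_cross_eq_smul_sub_smul' P.rep a b, dotProduct_comm P.rep b, ha, hb,
      zero_smul, zero_smul, sub_zero]
  have hdep : ¬ LinearIndependent k ![P.rep, crossProduct a b] := by
    rw [← crossProduct_ne_zero_iff_linearIndependent]
    exact fun h => h hx
  rw [LinearIndependent.pair_iff] at hdep
  push Not at hdep
  obtain ⟨s, t, hst, hne'⟩ := hdep
  have hs : s ≠ 0 := by
    rintro rfl
    rw [zero_smul, zero_add] at hst
    rcases smul_eq_zero.mp hst with h | h
    · exact hne' rfl h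
    · exact hne h
  conv_lhs => rw [← P.mk_rep]
  rw [Projectivization.mk_eq_mk_iff']
  refine ⟨- (s⁻¹ * t), ?_⟩
  have e : s • P.rep = - (t • crossProduct a b) := eq_neg_of_add_eq_zero_left hst
  rw [neg_smul, mul_smul, ← smul_neg, ← e, smul_smul, inv_mul_cancel₀ hs, one_smul]

theorem tMFin : MFinStmt := by
  intro k _ r C
  have h1 : C.M ⊆ ⋃ (i : Fin r) (j : Fin r),
      {P : Pt k | i ≠ j ∧ C.ℓ i ⬝ᵥ P.rep = 0 ∧ C.ℓ j ⬝ᵥ P.rep = 0} := by
    intro P hP
    have hP' : 3 ≤ (C.through P).ncard := hP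
    obtain ⟨i, hi, j, hj, hij⟩ := (Set.one_lt_ncard (Set.toFinite _)).mp
      (by omega : 1 < (C.through P).ncard)
    simp only [Set.mem_iUnion]
    exact ⟨i, j, hij, hi, hj⟩
  refine Set.Finite.subset (Set.finite_iUnion fun i => Set.finite_iUnion fun j => ?_) h1
  apply Set.Subsingleton.finite
  rintro P ⟨hij, hPi, hPj⟩ Q ⟨_, hQi, hQj⟩
  have hli := C.indep i j hij
  have hne : crossProduct (C.ℓ i) (C.ℓ j) ≠ 0 :=
    crossProduct_ne_zero_iff_linearIndependent.mpr hli
  rw [mfin_eq hne P hPi hPj, mfin_eq hne Q hQi hQj]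

end Pool.Agent.Lib.MP_4318ff_ag
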