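import Pool.Agent.Lib.MP_4318ff_ag.Spec.A3

set_option autoImplicit false

namespace Pool.Agent.Lib.MP_4318ff_ag

open scoped LinearAlgebra.Projectivization

section mt

variable {k : Type} [Field k] {r : ℕ} {C : Config k r} {K : Type} [Field K] [Algebra (F k) K]
  [Algebra k K] [IsScalarTower k (F k) K]

private theorem mt_bdry_add {n : ℕ} {D D' : Chart C → Chart C → Derivation k K K} (h : IsBdry n D)
    (h' : IsBdry n D') : IsBdry n (fun u v => D u v + D' u v) := by
  obtain ⟨E, hE, hD⟩ := h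
  obtain ⟨E', hE', hD'⟩ := h'
  refine ⟨fun u => E u + E' u, fun u x hx hk => ?_, fun u v => ?_⟩
  · rw [Derivation.add_apply]
    exact add_mem (hE u x hx hk) (hE' u x hx hk)
  · show D u v + D' u v = (E v + E' v) - (E u + E' u)
    rw [hD u v, hD' u v]
    abel

private theorem mt_bdry_sum {n : ℕ} {ι : Type} (s : Finset ι)
    (f : ι → Chart C → Chart C → Derivation k K K) (h : ∀ i ∈ s, IsBdry n (f i)) :
    IsBdry n (fun u v => ∑ i ∈ s, f i u v) := by
  classical
  induction s using Finset.induction_on with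
  | empty =>
    refine ⟨fun _ => 0, fun u x _ _ => ?_, fun u v => ?_⟩
    · rw [Derivation.zero_apply]
      exact zero_mem _
    · show ∑ i ∈ (∅ : Finset ι), f i u v = (0 : Derivation k K K) - 0
      rw [Finset.sum_empty, sub_zero]
  | insert a s ha ih =>
    have h1 := mt_bdry_add (h a (Finset.mem_insert_self a s))
      (ih fun i hi => h i (Finset.mem_insert_of_mem hi))
    have h2 : (fun u v => ∑ i ∈ insert a s, f i u v) = fun u v => f a u v + ∑ i ∈ s, f i u v := by
      funext u v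
      rw [Finset.sum_insert ha]
    rw [h2]
    exact h1

end mt

theorem tMT (h1 : MFinStmt) (h2 : AvgStmt) (h3 : NPnormalStmt) (h4 : DisjStmt) (h5 : ExtModStmt)
    (h6 : KillStmt) (h7 : CoreStmt) (h8 : CaseCStmt) (_h9 : RegModStmt) (h10 : TwoStmt) : MTStmt := by
  intro k _ _ _ r n C K _ _ _ _ _ _ hrig hr6 hrn hroots D hcoc hExt
  classical
  obtain ⟨a1, a2, a3, a4, a5, a6, a7, a8, a9, a10⟩ := h2 k K
  have hfin := h1 k r C
  have hn2 : 2 ≤ n := by omega
  -- the averages as additive maps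
  set e : Subgroup (K ≃ₐ[F k] K) → Derivation k K K →+ Derivation k K K := fun N =>
    AddMonoidHom.mk' (fun D => avgD N D) (a4 N) with he
  have he' : ∀ N D, avgD N D = e N D := fun N D => rfl
  set cj : (K ≃ₐ[F k] K) → Derivation k K K →+ Derivation k K K := fun g =>
    AddMonoidHom.mk' (fun D => conjD g D) (a1 g) with hcj
  have hcj' : ∀ g D, conjD g D = cj g D := fun g D => rfl
  have hnP : ∀ P : Pt k, (NP K P).Normal := fun P => h3 k K P
  have hnT : (⊤ : Subgroup (K ≃ₐ[F k] K)).Normal := inferInstance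
  have c1 : ∀ (P Q : Pt k) (X : Derivation k K K), P ≠ Q → e (NP K Q) (e (NP K P) X) = e ⊤ X := by
    intro P Q X hPQ
    rw [← he', ← he', ← he', a9 _ _ (hnP Q) (hnP P), h4 k K Q P hPQ.symm]
  have c2 : ∀ (P : Pt k) (X : Derivation k K K), e (NP K P) (e (NP K P) X) = e (NP K P) X := by
    intro P X
    rw [← he', ← he', a9 _ _ (hnP P) (hnP P), sup_idem]
  have c3 : ∀ (P : Pt k) (X : Derivation k K K), e (NP K P) (e ⊤ X) = e ⊤ X := by
    intro P X
    rw [← he', ← he', a9 _ _ (hnP P) hnT, sup_top_eq]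
  -- a point of C.M
  obtain ⟨P₀, hP₀, -⟩ := h10 k r C hrig hr6 ⟨0, by omega⟩
  -- the extension property of the summands
  have x1 : ∀ Q ∈ C.M, ∀ N : Subgroup (K ≃ₐ[F k] K), Ext n Q (fun u v => e N (D u v)) := by
    intro Q hQ N
    exact (h5 k r n C K Q D D (hExt Q hQ) (hExt Q hQ)).2.2 N
  have x0 : ∀ Q ∈ C.M, Ext n Q (fun _ _ => (0 : Derivation k K K) : Chart C → Chart C → Derivation k K K) := by
    intro Q hQ
    have h := (h5 k r n C K Q D D (hExt Q hQ) (hExt Q hQ)).1
    simpa using h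
  have x2 : ∀ P, ∀ Q ∈ C.M, Ext n Q (fun u v => e (NP K P) (D u v) - e ⊤ (D u v)) := by
    intro P Q hQ
    exact (h5 k r n C K Q _ _ (x1 Q hQ (NP K P)) (x1 Q hQ ⊤)).1
  have x3 : ∀ Q ∈ C.M, ∀ s : Finset (Pt k),
      Ext n Q (fun u v => ∑ P ∈ s, (e (NP K P) (D u v) - e ⊤ (D u v))) := by
    intro Q hQ s
    induction s using Finset.induction_on with
    | empty => simpa using x0 Q hQ
    | insert a s ha ih =>
      have h := (h5 k r n C K Q _ _ (x2 a Q hQ) ih).2.1
      have h' : (fun u v => ∑ P ∈ insert a s, (e (NP K P) (D u v) - e ⊤ (D u v))) =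
          fun u v => (e (NP K a) (D u v) - e ⊤ (D u v)) +
            ∑ P ∈ s, (e (NP K P) (D u v) - e ⊤ (D u v)) := by
        funext u v
        rw [Finset.sum_insert ha]
      rw [h']
      exact h
  -- part A
  have bA : IsBdry n (fun u v => D u v - ∑ P ∈ hfin.toFinset, (e (NP K P) (D u v) - e ⊤ (D u v)) -
      e ⊤ (D u v)) := by
    have hone : ∀ Q ∈ C.M, ExtOne n Q (fun u v => D u v -
        ∑ P ∈ hfin.toFinset, (e (NP K P) (D u v) - e ⊤ (D u v)) - e ⊤ (D u v)) := by
      intro Q hQ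
      refine h6 k r n C K Q _ ?_ ?_
      · exact (h5 k r n C K Q _ _ (h5 k r n C K Q _ _ (hExt Q hQ) (x3 Q hQ hfin.toFinset)).1
          (x1 Q hQ ⊤)).1
      · intro u v
        rw [he', map_sub, map_sub, map_sum, c3, Finset.sum_eq_single Q]
        · rw [map_sub, c2, c3]
          abel
        · intro P _ hPQ
          rw [map_sub, c1 P Q _ hPQ, c3, sub_self]
        · intro h
          exact absurd (hfin.mem_toFinset.2 hQ) h
    exact h7 k r n C K hrig hr6 hrn hroots _ P₀ (fun P hP _ => hone P hP) (Or.inl (hone P₀ hP₀))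
  -- part B
  have bB : ∀ P ∈ hfin.toFinset, IsBdry n (fun u v => e (NP K P) (D u v) - e ⊤ (D u v)) := by
    intro P _
    refine h7 k r n C K hrig hr6 hrn hroots _ P ?_ (Or.inr ?_)
    · intro Q hQ hQP
      refine h6 k r n C K Q _ (x2 P Q hQ) fun u v => ?_
      rw [he', map_sub, c1 P Q _ hQP.symm, c3, sub_self]
    · intro g hg u v
      rw [hcj', map_sub, ← hcj', ← hcj']
      rw [show conjD g (e (NP K P) (D u v)) = e (NP K P) (D u v) from a6 _ _ g hg,
        show conjD g (e ⊤ (D u v)) = e ⊤ (D u v) from a6 _ _ g (Subgroup.mem_top g)]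
  -- part C
  have bC : IsBdry n (fun u v => e ⊤ (D u v)) := by
    have hone := h8 k r n C K hrig hr6 hn2 hroots (fun u v => e ⊤ (D u v))
      (fun u v w => by rw [← map_add, hcoc u v w])
      (fun g u v => a6 _ _ g (Subgroup.mem_top g)) (fun P hP => x1 P hP ⊤)
    exact h7 k r n C K hrig hr6 hrn hroots _ P₀ (fun P hP _ => hone P hP) (Or.inl (hone P₀ hP₀))
  have hfinal := mt_bdry_add (mt_bdry_add bA (mt_bdry_sum _ _ bB)) bC
  have hD : D = fun u v => (D u v - ∑ P ∈ hfin.toFinset, (e (NP K P) (D u v) - e ⊤ (D u v)) -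
      e ⊤ (D u v)) + (∑ P ∈ hfin.toFinset, (e (NP K P) (D u v) - e ⊤ (D u v))) + e ⊤ (D u v) := by
    funext u v
    abel
  rw [hD]
  exact hfinal

end Pool.Agent.Lib.MP_4318ff_ag
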