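import Pool.Agent.Lib.MP_4318ff_ag.Spec.A2

/-!
MP_4318ff_ag, module A/NPnormal: the subgroups `NP` are normal.
-/

set_option autoImplicit false

namespace Pool.Agent.Lib.MP_4318ff_ag

private lemma npnormal_alg {k : Type} [Field k] {K : Type} [Field K] [Algebra (F k) K]
    [Algebra k K] [IsScalarTower k (F k) K] (P : Pt k) (g : K ≃ₐ[F k] K) (y : K)
    (hy : IsAlgebraic (PF P) y) : IsAlgebraic (PF P) (g y) := by
  have h : IsAlgebraic (PF P) ((g.toAlgHom.restrictScalars (PF P)) y) := hy.algHom _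
  exact h

theorem tNPnormal : NPnormalStmt := by
  intro k _ K _ _ _ _ P
  constructor
  intro n hn g y hy
  have h1 : IsAlgebraic (PF P) (g⁻¹ y) := npnormal_alg P g⁻¹ y hy
  have h2 : n (g⁻¹ y) = g⁻¹ y := hn (g⁻¹ y) h1
  have h3 : (g * n * g⁻¹) y = g (n (g⁻¹ y)) := rfl
  rw [h3, h2]
  exact g.apply_symm_apply y

end Pool.Agent.Lib.MP_4318ff_ag
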