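import Pool.Agent.Lib.MP_4318ff_ag.Spec.A1

/-!
# MP_4318ff_ag, part A, module `A/Norm`: the norm argument
-/

set_option autoImplicit false

namespace Pool.Agent.Lib.MP_4318ff_ag

open MvPolynomial

/-- A form which does not vanish at `T` and two independent forms which do. -/
private theorem norm_basis {k : Type} [Field k] (T : Fin 3 → k) (hT : T ≠ 0) :
    ∃ b c d : Fin 3 → k, LinearIndependent k ![b, c, d] ∧ b ⬝ᵥ T ≠ 0 ∧ c ⬝ᵥ T = 0 ∧ d ⬝ᵥ T = 0 := by
  have h1 : T 0 ≠ 0 ∨ T 1 ≠ 0 ∨ T 2 ≠ 0 := by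
    by_contra h
    push Not at h
    apply hT
    ext i
    fin_cases i
    · exact h.1
    · exact h.2.1
    · exact h.2.2
  rcases h1 with h | h | h
  · refine ⟨![1, 0, 0], ![T 1, -T 0, 0], ![T 2, 0, -T 0], ?_, ?_, ?_, ?_⟩
    · apply Matrix.linearIndependent_rows_of_det_ne_zero
        (A := Matrix.of ![![1, 0, 0], ![T 1, -T 0, 0], ![T 2, 0, -T 0]])
      simp [Matrix.det_fin_three, h]
    · simpa [dotProduct, Fin.sum_univ_three] using h
    · simp [dotProduct, Fin.sum_univ_three]
      ring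
    · simp [dotProduct, Fin.sum_univ_three]
      ring
  · refine ⟨![0, 1, 0], ![-T 1, T 0, 0], ![0, T 2, -T 1], ?_, ?_, ?_, ?_⟩
    · apply Matrix.linearIndependent_rows_of_det_ne_zero
        (A := Matrix.of ![![0, 1, 0], ![-T 1, T 0, 0], ![0, T 2, -T 1]])
      simp [Matrix.det_fin_three, h]
    · simpa [dotProduct, Fin.sum_univ_three] using h
    · simp [dotProduct, Fin.sum_univ_three]
      ring
    · simp [dotProduct, Fin.sum_univ_three]
      ring
  · refine ⟨![0, 0, 1], ![-T 2, 0, T 0], ![0, -T 2, T 1], ?_, ?_, ?_, ?_⟩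
    · apply Matrix.linearIndependent_rows_of_det_ne_zero
        (A := Matrix.of ![![0, 0, 1], ![-T 2, 0, T 0], ![0, -T 2, T 1]])
      simp [Matrix.det_fin_three, h]
    · simpa [dotProduct, Fin.sum_univ_three] using h
    · simp [dotProduct, Fin.sum_univ_three]
      ring
    · simp [dotProduct, Fin.sum_univ_three]
      ring

section

variable {k : Type} [Field k] (K : Type) [Field K] [Algebra (F k) K] [FiniteDimensional (F k) K]

omit [FiniteDimensional (F k) K] in
/-- The norm of an element integral over `O` lies in `O`. -/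
private theorem norm_mem (hU : UnifStmt) (O : Subalgebra k (F k)) (π : F k) (hπ : IsUnif O π)
    (x : K) (hx : x ∈ ic K O) : Algebra.norm (F k) x ∈ O := by
  apply (hU k O π hπ).2.1
  apply Algebra.isIntegral_norm
  exact hx

/-- The norm of a multiple of `g ^ n`. -/
private theorem norm_mul (a : F k) (g : K) (n : ℕ) :
    Algebra.norm (F k) (algebraMap (F k) K a * g ^ n) =
      a ^ Module.finrank (F k) K * Algebra.norm (F k) g ^ n := by
  rw [map_mul, Algebra.norm_algebraMap, map_pow]

end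

open Classical in
theorem tNorm : EvStmt → CoordStmt → LocStmt → UnifStmt → CurveStmt → ExcStmt → OrdStmt →
    HartAStmt → NormStmt := by
  intro hEv hCo hLo hU hCu hEx hOr hHa k _ r n C K _ _ _ T g hq h1 h2
  set L := Finset.univ.filter (fun i => C.ℓ i ⬝ᵥ T.rep ≠ 0) with hL
  set N := Module.finrank (F k) K with hN
  have hNpos : 0 < N := Module.finrank_pos
  obtain ⟨b, c, d, hbcd, hbT, hcT, hdT⟩ := norm_basis T.rep T.rep_nonzero
  obtain ⟨-, -, hev⟩ := hEv k
  have hb0 : b ≠ 0 := hbcd.ne_zero 0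
  have hc0 : c ≠ 0 := hbcd.ne_zero 1
  have heb : ev b ≠ 0 := fun h => hb0 ((hev b).1 h)
  have hec : ev c ≠ 0 := fun h => hc0 ((hev c).1 h)
  have hcbd : LinearIndependent k ![c, b, d] := by
    have h3 := hbcd.comp ![1, 0, 2] (by decide)
    have h4 : ![b, c, d] ∘ ![1, 0, 2] = ![c, b, d] := by
      funext i
      fin_cases i
      · rfl
      · rfl
      · rfl
    rwa [h4] at h3
  have hbc : LinearIndependent k ![b, c] := by
    have h3 := hbcd.comp (![0, 1] : Fin 2 → Fin 3) (by decide)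
    have h4 : ![b, c, d] ∘ (![0, 1] : Fin 2 → Fin 3) = ![b, c] := by
      funext i
      fin_cases i
      · rfl
      · rfl
    rwa [h4] at h3
  set z : F k := ev c / ev b with hz
  set w : F k := ev d / ev b with hw
  have hz0 : z ≠ 0 := div_ne_zero hec heb
  have hwz : w / z = ev d / ev c := by
    rw [hz, hw]
    field_simp
  have hz1 : 1 / z = ev b / ev c := by
    rw [hz, one_div_div]
  set P : (Fin 3 → k) → F k := fun a => ∏ i ∈ L, ev (C.ℓ i) / ev a with hP
  set H : F k := Algebra.norm (F k) g ^ n with hH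
  -- the first hypothesis
  have k1 : ∀ O, IsCurve O → ∀ a, UnitForm O a → P a ^ N * H ∈ O := by
    intro O hO a ha
    obtain ⟨π, hπ⟩ := (hCu k O hO).1
    rw [hH, ← norm_mul]
    exact norm_mem K hU O π hπ _ (h1 O hO a ha)
  obtain ⟨h, hh⟩ := hHa k b c d hbcd (P b ^ N * H) (fun O hO hb => k1 O hO b hb)
  obtain ⟨o1, o2⟩ := hOr k z w h (N * (n - 1)) (hCo k b c d hbcd).1
  obtain ⟨-, o3⟩ := hOr k z w h (L.card * N) (hCo k b c d hbcd).1
  -- the exceptional curve
  have low : ∀ m ∈ h.support, N * (n - 1) ≤ m 0 + m 1 := by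
    obtain ⟨⟨O, hO⟩, hE⟩ := hEx k T
    obtain ⟨e1, e2, e3, e4⟩ := hE O hO
    have hl := e4 b c d hbcd hcT hdT
    rw [← hwz] at hl
    have hco := (hCo k b c d hbcd).2
    rw [← hwz] at hco
    rw [← o1 O hco hl, ← hh]
    have hπ := e3 b c hbT hc0 hcT
    have h5 := norm_mem K hU O _ hπ _ (h2 O hO b c hbT hc0 hcT)
    rw [norm_mul] at h5
    have h6 : P b ∈ O := Subalgebra.prod_mem O fun i _ => (e1 b hbT).2 (C.ℓ i)
    have h7 : P b ^ N * H / z ^ (N * (n - 1)) =
        P b ^ N * (((ev c / ev b)⁻¹ ^ (n - 1)) ^ N * H) := by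
      rw [← pow_mul, mul_comm (n - 1) N, inv_pow, div_eq_mul_inv]
      ring
    rw [h7]
    exact O.mul_mem (O.pow_mem h6 N) h5
  -- the line `b = 0`
  have high : ∀ m ∈ h.support, m 0 + m 1 ≤ L.card * N := by
    have hco := (hCo k c b d hcbd).1
    rw [← hwz, ← hz1] at hco
    obtain ⟨⟨O, hO⟩, hl⟩ := hLo k (1 / z) (w / z) hco (X 0) X_prime.irreducible
    obtain ⟨l1, l2, l3⟩ := hl O hO
    have hcm : cm (1 / z) (w / z) (X 0) = 1 / z := by simp [cm]
    have hcu : IsCurve O := by
      refine ⟨c, b, d, X 0, hcbd, ?_⟩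
      rw [← hwz, ← hz1]
      exact hO
    have hcf : UnitForm O c := by
      rcases (hCu k O hcu).2.2.1 b hb0 with h8 | h8
      · exfalso
        apply l3.2.1
        rw [hcm, one_div, inv_inv]
        exact h8.2 c
      · exact (h8 c hbc).1
    rw [← o3 O hco hO, ← hh]
    have h9 : P b = P c * z ^ L.card := by
      rw [hP]
      simp only
      rw [← Finset.prod_const, ← Finset.prod_mul_distrib]
      refine Finset.prod_congr rfl fun i _ => ?_
      rw [hz]
      field_simp
    have h10 : P b ^ N * H / z ^ (L.card * N) = P c ^ N * H := by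
      rw [h9, mul_pow, ← pow_mul]
      have := pow_ne_zero (L.card * N) hz0
      field_simp
    rw [h10]
    exact k1 O hcu c hcf
  -- so `h = 0`
  have hh0 : h = 0 := by
    by_contra hne
    obtain ⟨m, hm⟩ := Finset.nonempty_of_ne_empty (fun he => hne (support_eq_empty.1 he))
    have h11 := (low m hm).trans (high m hm)
    rw [mul_comm N] at h11
    have h12 := Nat.le_of_mul_le_mul_right h11 hNpos
    omega
  rw [hh0, map_zero] at hh
  have hPb : P b ≠ 0 := by
    refine Finset.prod_ne_zero_iff.2 fun i hi => div_ne_zero (fun h13 => ?_) heb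
    have h14 := (hev _).1 h13
    rw [hL, Finset.mem_filter] at hi
    apply hi.2
    rw [h14, zero_dotProduct]
  have hH0 : H = 0 := (mul_eq_zero.1 hh).resolve_left (pow_ne_zero _ hPb)
  have h15 : Algebra.norm (F k) g = 0 := pow_eq_zero_iff (by omega) |>.1 hH0
  exact Algebra.norm_eq_zero_iff.1 h15

end Pool.Agent.Lib.MP_4318ff_ag
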