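import Pool.Agent.Lib.MP_4318ff_ag.Spec.A1

/-!
# MP_4318ff_ag, part A, module `A/Ord`: order of vanishing at the origin and at infinity
-/

set_option autoImplicit false

namespace Pool.Agent.Lib.MP_4318ff_ag

open MvPolynomial

section

variable {k : Type} [Field k]

/-- The exponent vector `(a, b)`. -/
private noncomputable def ord_ex (a b : ℕ) : Fin 2 →₀ ℕ := Finsupp.single 0 a + Finsupp.single 1 b

private theorem ord_ex0 (a b : ℕ) : ord_ex a b 0 = a := by simp [ord_ex]

private theorem ord_ex1 (a b : ℕ) : ord_ex a b 1 = b := by simp [ord_ex]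

/-- The polynomial with the exponent of the first variable changed by `f`. -/
private noncomputable def ord_T (f : (Fin 2 →₀ ℕ) → ℕ) (h : MvPolynomial (Fin 2) k) :
    MvPolynomial (Fin 2) k :=
  ∑ m ∈ h.support, monomial (ord_ex (f m) (m 1)) (coeff m h)

private theorem ord_dvd (f : (Fin 2 →₀ ℕ) → ℕ) (h : MvPolynomial (Fin 2) k)
    (hf : ∀ m ∈ h.support, ∀ m' ∈ h.support, f m = f m' → m 1 = m' 1 → m = m') (E : ℕ) :
    (X 0 : MvPolynomial (Fin 2) k) ^ E ∣ ord_T f h ↔ ∀ m ∈ h.support, E ≤ f m := by
  constructor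
  · rintro ⟨q, hq⟩ m hm
    by_contra hlt
    push Not at hlt
    have h1 : coeff (ord_ex (f m) (m 1)) (ord_T f h) = coeff m h := by
      rw [ord_T, coeff_sum, Finset.sum_eq_single m]
      · rw [coeff_monomial, if_pos rfl]
      · intro m' hm' hne
        rw [coeff_monomial, if_neg]
        intro heq
        apply hne
        apply hf m' hm' m hm
        · have := DFunLike.congr_fun heq 0
          rwa [ord_ex0, ord_ex0] at this
        · have := DFunLike.congr_fun heq 1
          rwa [ord_ex1, ord_ex1] at this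
      · intro hno
        exact absurd hm hno
    rw [hq, X_pow_eq_monomial, coeff_monomial_mul', if_neg] at h1
    · exact (mem_support_iff.1 hm) h1.symm
    · intro hle
      have := hle 0
      rw [ord_ex0] at this
      simp at this
      omega
  · intro hm
    refine Finset.dvd_sum fun m hmm => ?_
    refine ⟨monomial (ord_ex (f m - E) (m 1)) (coeff m h), ?_⟩
    have h2 := hm m hmm
    have h3 : ord_ex (f m) (m 1) = Finsupp.single 0 E + ord_ex (f m - E) (m 1) := by
      rw [ord_ex, ord_ex, ← add_assoc, ← Finsupp.single_add, Nat.add_sub_cancel' h2]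
    rw [X_pow_eq_monomial, monomial_mul, one_mul, h3]

/-- Evaluation of a monomial. -/
private theorem ord_cm_monomial (z w : F k) (a b : ℕ) (c : k) :
    cm z w (monomial (ord_ex a b) c) = algebraMap k (F k) c * (z ^ a * w ^ b) := by
  rw [cm, aeval_monomial, ord_ex, Finsupp.prod_add_index']
  · rw [Finsupp.prod_single_index, Finsupp.prod_single_index]
    · simp
    · simp
    · simp
  · simp
  · intro i b₁ b₂
    rw [pow_add]

private theorem ord_cm (z w : F k) (h : MvPolynomial (Fin 2) k) :
    cm z w h = ∑ m ∈ h.support, algebraMap k (F k) (coeff m h) * (z ^ (m 0) * w ^ (m 1)) := by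
  conv_lhs => rw [h.as_sum]
  rw [map_sum]
  refine Finset.sum_congr rfl fun m _ => ?_
  have : m = ord_ex (m 0) (m 1) := by
    ext i
    fin_cases i
    · simp [ord_ex]
    · simp [ord_ex]
  conv_lhs => rw [this]
  rw [ord_cm_monomial]
  rw [← this]

private theorem ord_cm_T (z w : F k) (f : (Fin 2 →₀ ℕ) → ℕ) (h : MvPolynomial (Fin 2) k) :
    cm z w (ord_T f h) =
      ∑ m ∈ h.support, algebraMap k (F k) (coeff m h) * (z ^ (f m) * w ^ (m 1)) := by
  rw [ord_T, map_sum]
  refine Finset.sum_congr rfl fun m _ => ?_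
  rw [ord_cm_monomial]

private theorem ord_cm_X0 (z w : F k) : cm z w (X 0) = z := by simp [cm]

/-- The common step. -/
private theorem ord_mem (s ξ : F k) (O : Subalgebra k (F k)) (hc : IsCoord s ξ)
    (hO : IsLoc s ξ (X 0) O) (hs : s ≠ 0) (G : F k) (E : ℕ) (T : MvPolynomial (Fin 2) k)
    (hG : G * s ^ E = cm s ξ T) : G ∈ O ↔ (X 0 : MvPolynomial (Fin 2) k) ^ E ∣ T := by
  rw [hO.2 G]
  constructor
  · rintro ⟨h₁, h₂, hd, heq⟩
    have h3 : T * h₂ = X 0 ^ E * h₁ := by
      apply hc.1
      rw [map_mul, map_mul, map_pow, ord_cm_X0, ← hG, ← heq]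
      ring
    exact hO.1.prime.pow_dvd_of_dvd_mul_right E hd ⟨h₁, h3⟩
  · rintro ⟨q, hq⟩
    refine ⟨q, 1, fun hd => hO.1.not_isUnit (isUnit_of_dvd_one hd), ?_⟩
    rw [map_one, mul_one]
    rw [hq, map_mul, map_pow, ord_cm_X0, mul_comm] at hG
    exact mul_left_cancel₀ (pow_ne_zero E hs) hG

end

theorem tOrd : OrdStmt := by
  intro k _ z w h e hzw
  have hz : z ≠ 0 := by
    intro h0
    have h1 : (X 0 : MvPolynomial (Fin 2) k) = 0 := by
      apply hzw.1
      rw [ord_cm_X0, map_zero, h0]
    exact X_ne_zero 0 h1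
  refine ⟨fun O hc hO => ?_, fun O hc hO => ?_⟩
  · rw [ord_mem z (w / z) O hc hO hz _ e (ord_T (fun m => m 0 + m 1) h), ord_dvd]
    · intro m _ m' _ h0 h1
      ext i
      fin_cases i
      · change m 0 + m 1 = m' 0 + m' 1 at h0
        change m 0 = m' 0
        omega
      · exact h1
    · rw [div_mul_cancel₀ _ (pow_ne_zero e hz), ord_cm, ord_cm_T]
      refine Finset.sum_congr rfl fun m _ => ?_
      congr 1
      rw [pow_add, div_pow]
      field_simp
  · have hs : 1 / z ≠ 0 := one_div_ne_zero hz
    set D : ℕ := h.totalDegree + e with hD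
    have hdeg : ∀ m ∈ h.support, m 0 + m 1 ≤ h.totalDegree := by
      intro m hm
      have h1 := le_totalDegree hm
      have h2 : (m.sum fun _ n => n) = m 0 + m 1 := by
        rw [Finsupp.sum_fintype _ _ (fun _ => rfl), Fin.sum_univ_two]
      omega
    rw [ord_mem (1 / z) (w / z) O hc hO hs _ (D - e) (ord_T (fun m => D - (m 0 + m 1)) h), ord_dvd]
    · constructor
      · intro h1 m hm
        have h2 := h1 m hm
        have h3 := hdeg m hm
        omega
      · intro h1 m hm
        have h2 := h1 m hm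
        have h3 := hdeg m hm
        omega
    · intro m hm m' hm' h0 h1
      have h2 := hdeg m hm
      have h3 := hdeg m' hm'
      change D - (m 0 + m 1) = D - (m' 0 + m' 1) at h0
      ext i
      fin_cases i
      · change m 0 = m' 0
        omega
      · exact h1
    · rw [ord_cm, ord_cm_T, div_mul_eq_mul_div, Finset.sum_mul, Finset.sum_div]
      refine Finset.sum_congr rfl fun m hm => ?_
      have h3 := hdeg m hm
      rw [mul_assoc, mul_div_assoc]
      congr 1
      have hDe : D - e = h.totalDegree := by omega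
      have hDm : D - (m 0 + m 1) = e + (h.totalDegree - (m 0 + m 1)) := by omega
      obtain ⟨t, ht⟩ := Nat.exists_eq_add_of_le h3
      have ht' : h.totalDegree - (m 0 + m 1) = t := by omega
      rw [hDe, hDm, ht', ht, div_pow, div_pow, div_pow, one_pow, one_pow]
      field_simp
      ring

end Pool.Agent.Lib.MP_4318ff_ag
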