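import Pool.Agent.Lib.MP_4318ff_ag.Spec.A2

/-!
# MP_4318ff_ag, module A/Pen: equality on the lines of `C` gives equality on the pencil
-/

set_option autoImplicit false

namespace Pool.Agent.Lib.MP_4318ff_ag

open scoped LinearAlgebra.Projectivization

/-- A form which vanishes at a point is a combination of two independent forms vanishing there. -/
private theorem pen_span {k : Type} [Field k] (x c d e : Fin 3 → k) (hx : x ≠ 0)
    (h : LinearIndependent k ![c, d]) (hc : c ⬝ᵥ x = 0) (hd : d ⬝ᵥ x = 0) (he : e ⬝ᵥ x = 0) :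
    ∃ a b : k, e = a • c + b • d := by
  have h1 : (Matrix.of ![e, c, d]).det = 0 := by
    refine Matrix.exists_mulVec_eq_zero_iff.1 ⟨x, hx, ?_⟩
    ext i
    fin_cases i
    · exact he
    · exact hc
    · exact hd
  obtain ⟨w, hw, hw2⟩ := Matrix.exists_vecMul_eq_zero_iff.2 h1
  have h2 : w 0 • e + w 1 • c + w 2 • d = 0 := by
    ext i
    have h3 := congrFun hw2 i
    simp only [Matrix.vecMul, dotProduct, Fin.sum_univ_three, Matrix.of_apply, Pi.zero_apply] at h3
    simpa using h3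
  have h3 : w 0 ≠ 0 := by
    intro h0
    rw [h0, zero_smul, zero_add] at h2
    have h4 := LinearIndependent.pair_iff.1 h (w 1) (w 2) h2
    apply hw
    ext i
    fin_cases i
    · exact h0
    · exact h4.1
    · exact h4.2
  refine ⟨-(w 0)⁻¹ * w 1, -(w 0)⁻¹ * w 2, ?_⟩
  ext i
  have h4 := congrFun h2 i
  simp only [Pi.add_apply, Pi.smul_apply, smul_eq_mul, Pi.zero_apply] at h4 ⊢
  field_simp
  linear_combination h4

theorem tPen : EvStmt → PenStmt := by
  intro hEv k _ r C K _ _ _ _ P E Δ hP hyp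
  obtain ⟨hadd, hsmul, hzero⟩ := hEv k
  let φ := algebraMap (F k) K
  -- two different lines through the point
  obtain ⟨i, hi, j, hj, hij⟩ : ∃ i ∈ C.through P, ∃ j ∈ C.through P, i ≠ j := by
    have h3 : 1 < (C.through P).ncard := lt_of_lt_of_le (by norm_num) hP
    obtain ⟨i, j, hi, hj, hij⟩ := (Set.one_lt_ncard_iff (Set.toFinite _)).1 h3
    exact ⟨i, hi, j, hj, hij⟩
  have hne : ∀ m : Fin r, φ (ev (C.ℓ m)) ≠ 0 := by
    intro m h0
    have h1 : ev (C.ℓ m) = 0 := (map_eq_zero φ).1 h0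
    have h2 : C.ℓ m = 0 := (hzero _).1 h1
    by_cases hm : m = i
    · have := (C.indep i j hij).ne_zero 0
      rw [hm] at h2
      exact this h2
    · have := (C.indep m i hm).ne_zero 0
      exact this h2
  let D : Derivation k K K := E - Δ
  let t : K := D (φ (ev (C.ℓ i))) / φ (ev (C.ℓ i))
  have hDi : D (φ (ev (C.ℓ i))) = t * φ (ev (C.ℓ i)) := by
    rw [div_mul_cancel₀ _ (hne i)]
  have hDj : D (φ (ev (C.ℓ j))) = t * φ (ev (C.ℓ j)) := by
    have h1 : E (φ (ev (C.ℓ i))) / φ (ev (C.ℓ i)) - E (φ (ev (C.ℓ j))) / φ (ev (C.ℓ j)) =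
        Δ (φ (ev (C.ℓ i))) / φ (ev (C.ℓ i)) - Δ (φ (ev (C.ℓ j))) / φ (ev (C.ℓ j)) :=
      hyp i hi j hj
    have h2 : D (φ (ev (C.ℓ j))) / φ (ev (C.ℓ j)) = t := by
      change (E - Δ) (φ (ev (C.ℓ j))) / φ (ev (C.ℓ j)) =
        (E - Δ) (φ (ev (C.ℓ i))) / φ (ev (C.ℓ i))
      rw [Derivation.sub_apply, Derivation.sub_apply, sub_div, sub_div]
      linear_combination -h1
    rw [← h2, div_mul_cancel₀ _ (hne j)]
  have hk : ∀ (a : k) (z : F k), D (φ (algebraMap k (F k) a * z)) = φ (algebraMap k (F k) a) * D (φ z) := by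
    intro a z
    rw [map_mul]
    have h1 : φ (algebraMap k (F k) a) = algebraMap k K a :=
      (IsScalarTower.algebraMap_apply k (F k) K a).symm
    rw [h1, ← Algebra.smul_def, D.map_smul, Algebra.smul_def]
  have key : ∀ c : Fin 3 → k, c ⬝ᵥ P.rep = 0 → D (φ (ev c)) = t * φ (ev c) := by
    intro c hc
    obtain ⟨a, b, rfl⟩ := pen_span P.rep (C.ℓ i) (C.ℓ j) c P.rep_nonzero (C.indep i j hij) hi hj hc
    rw [hadd, hsmul, hsmul, map_add, map_add, hk, hk, hDi, hDj, map_mul, map_mul]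
    ring
  intro c c' hc hc'
  have h1 : D (φ (ev c / ev c')) = 0 := by
    rw [map_div₀, Derivation.leibniz_div, key c hc, key c' hc']
    simp only [smul_eq_mul]
    ring
  have h2 : (E - Δ) (φ (ev c / ev c')) = 0 := h1
  rw [Derivation.sub_apply, sub_eq_zero] at h2
  exact h2

end Pool.Agent.Lib.MP_4318ff_ag
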