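import Pool.Agent.Lib.MP_4318ff_ag.Spec.A1

/-!
# MP_4318ff_ag, module A/Pow
-/

set_option autoImplicit false

namespace Pool.Agent.Lib.MP_4318ff_ag

theorem tPow : PowStmt := by
  intro k _ K _ _ S n hn x y₁ y₂ h1 h2
  have h1' : IsIntegral S (x * y₁ ^ n) := h1
  have h2' : IsIntegral S (x * y₂ ^ n) := h2
  change IsIntegral S (x * (y₁ + y₂) ^ n)
  rw [add_pow, Finset.mul_sum]
  refine IsIntegral.sum _ fun m hm => ?_
  have hm' : m ≤ n := by
    rw [Finset.mem_range] at hm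
    omega
  have h3 : IsIntegral S (x * (y₁ ^ m * y₂ ^ (n - m))) := by
    refine IsIntegral.of_pow hn ?_
    have h4 : (x * (y₁ ^ m * y₂ ^ (n - m))) ^ n = (x * y₁ ^ n) ^ m * (x * y₂ ^ n) ^ (n - m) := by
      rw [mul_pow, mul_pow, mul_pow, mul_pow, ← pow_mul, ← pow_mul, ← pow_mul, ← pow_mul]
      have h5 : x ^ n = x ^ m * x ^ (n - m) := by
        rw [← pow_add]
        congr 1
        omega
      rw [h5, mul_comm m n, mul_comm (n - m) n]
      ring
    rw [h4]
    exact (h1'.pow m).mul (h2'.pow (n - m))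
  have h4 : x * (y₁ ^ m * y₂ ^ (n - m) * (n.choose m : K)) =
      x * (y₁ ^ m * y₂ ^ (n - m)) * (n.choose m : K) := by ring
  rw [h4]
  exact h3.mul (isIntegral_natCast _)

end Pool.Agent.Lib.MP_4318ff_ag
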