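import Pool.Agent.Lib.MP_4318ff_ag.A.RegLin

/-!
# MP_4318ff_ag: regularity at a curve (`RegCurveStmt`)
-/

set_option autoImplicit false

namespace Pool.Agent.Lib.MP_4318ff_ag

open scoped LinearAlgebra.Projectivization

/-- **Regularity at a curve.** -/
theorem tRegCurve : EvStmt → CoordStmt → CurveStmt → LocRegStmt → GoodStmt → RegCurveStmt := by
  intro _ hco hcv hlr hgood k _ _ _ r n C K _ _ _ _ _ _ O E P₀ hn hroots hO h1 h2 h3 y hy hyK
  obtain ⟨⟨π₀, hπ₀⟩, -, hform, hloc⟩ := hcv k O hO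
  -- step (0)
  have key : ∀ P ∈ C.M, P ≠ P₀ → ∀ Q ∈ C.M, Q ≠ P₀ → P ≠ Q → ∀ b : Fin 3 → k, b ≠ 0 →
      b ⬝ᵥ P.rep = 0 → b ⬝ᵥ Q.rep = 0 → UnitForm O b →
      ∀ f ∈ O, E (algebraMap (F k) K f) ∈ ic K O := by
    intro P hP hP0 Q hQ hQ0 hPQ b hb0 hbP hbQ hu
    obtain ⟨c, hc, hbc⟩ := reglin_ext P.rep b hb0 hbP
    obtain ⟨d, hd, hbd⟩ := reglin_ext Q.rep b hb0 hbQ
    have hdP : d ⬝ᵥ P.rep ≠ 0 := by
      intro h
      exact hPQ (reglin_pts P Q _ _ hbd hbP h hbQ hd)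
    have h4 : LinearIndependent k ![b, c, d] :=
      reglin_rot _ _ _ (reglin_three d b c hbc hbP hc hdP)
    obtain ⟨p, hp⟩ := hloc b c d h4 hu
    exact hlr k K _ _ p O E (hco k b c d h4).1 hp
      ((h3 P hP hP0).1 c b hc hbP (hu.2 c)) ((h3 Q hQ hQ0).1 d b hd hbQ (hu.2 d))
  by_cases hall : ∀ i, UnitForm O (C.ℓ i)
  · -- all lines are unit forms
    have h5 : ∀ f ∈ O, E (algebraMap (F k) K f) ∈ ic K O := by
      by_cases hc₀ : ∃ c₀ : Fin 3 → k, c₀ ≠ 0 ∧ ¬ UnitForm O c₀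
      · obtain ⟨c₀, hc0, hc1⟩ := hc₀
        obtain ⟨P, hP, hP0, hcP⟩ := h2 c₀ hc0
        obtain ⟨e, he0, heP, -⟩ := reglin_line P.rep P.rep
        obtain ⟨Q, hQ, hQ0, heQ⟩ := h2 e he0
        have hPQ : P ≠ Q := by
          rintro rfl
          exact heQ heP
        obtain ⟨b, hb0, hbP, hbQ⟩ := reglin_line P.rep Q.rep
        have hu : UnitForm O b := by
          rcases hform c₀ hc0 with h | h
          · exact absurd h hc1
          · exact (h b (reglin_two c₀ b hb0 hbP hcP)).1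
        exact key P hP hP0 Q hQ hQ0 hPQ b hb0 hbP hbQ hu
      · push Not at hc₀
        obtain ⟨P, hP, hP0, -⟩ := h2 (Pi.single 0 1) (by
          intro h
          have := congrFun h 0
          simp at this)
        obtain ⟨e, he0, heP, -⟩ := reglin_line P.rep P.rep
        obtain ⟨Q, hQ, hQ0, heQ⟩ := h2 e he0
        have hPQ : P ≠ Q := by
          rintro rfl
          exact heQ heP
        obtain ⟨b, hb0, hbP, hbQ⟩ := reglin_line P.rep Q.rep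
        exact key P hP hP0 Q hQ hQ0 hPQ b hb0 hbP hbQ (hc₀ b hb0)
    exact hgood k r n C K O _ E hn hroots hπ₀ h5 (Or.inl fun i j => (hall j).2 (C.ℓ i)) y hy hyK
  · -- the line `i` is not a unit form
    push Not at hall
    obtain ⟨i, hi⟩ := hall
    obtain ⟨P, hP, hP0, hiP⟩ := h1 i
    have hiP' : C.ℓ i ⬝ᵥ P.rep = 0 := hiP
    obtain ⟨j, hjP, hji⟩ := reglin_other C P hP i
    have hi0 : C.ℓ i ≠ 0 := reglin_ne C i j hji.symm
    obtain ⟨Q, hQ, hQ0, hiQ⟩ := h2 (C.ℓ i) hi0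
    have hPQ : P ≠ Q := by
      rintro rfl
      exact hiQ hiP'
    obtain ⟨b, hb0, hbP, hbQ⟩ := reglin_line P.rep Q.rep
    have hf := (hform (C.ℓ i) hi0).resolve_left hi
    have hu : UnitForm O b := (hf b (reglin_two (C.ℓ i) b hb0 hbQ hiQ)).1
    have h5 := key P hP hP0 Q hQ hQ0 hPQ b hb0 hbP hbQ hu
    obtain ⟨-, hπ⟩ := hf (C.ℓ j) (C.indep i j hji.symm)
    obtain ⟨ζ, hζ⟩ := hroots i j
    have hζi : ζ ∈ ic K O := reglin_root O _ hπ.1 n hn ζ hζ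
    have hζE : E ζ ∈ ic K O := (h3 P hP hP0).2 i hiP j hjP hπ.1 ζ hζ
    exact hgood k r n C K O _ E hn hroots hπ h5 (Or.inr ⟨ζ, hζi, hζ, hζE⟩) y hy hyK

end Pool.Agent.Lib.MP_4318ff_ag
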