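import Pool.Agent.Lib.MP_4318ff_ag.Spec.A2

/-!
MP_4318ff_ag, module A/RegEq: a derivation which agrees with a regular one along a pencil is regular.
-/

set_option autoImplicit false

namespace Pool.Agent.Lib.MP_4318ff_ag

private lemma regeq_root {k : Type} [Field k] [CharZero k] {K : Type} [Field K] [Algebra k K]
    (E Δ : Derivation k K K) (n : ℕ) (hn : 0 < n) (z : K) (h : E (z ^ n) = Δ (z ^ n)) : E z = Δ z := by
  have : CharZero K := charZero_of_injective_algebraMap (algebraMap k K).injective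
  by_cases hz : z = 0
  · rw [hz, map_zero, map_zero]
  · rw [Derivation.leibniz_pow, Derivation.leibniz_pow, nsmul_eq_mul, nsmul_eq_mul, smul_eq_mul,
      smul_eq_mul] at h
    have h1 : (n : K) ≠ 0 := Nat.cast_ne_zero.2 hn.ne'
    have h2 : z ^ (n - 1) ≠ 0 := pow_ne_zero _ hz
    exact mul_left_cancel₀ h2 (mul_left_cancel₀ h1 h)

theorem tRegEq : RegEqStmt := by
  intro k _ _ r n C K _ _ _ _ P O E Δ hn hE hΔ
  obtain ⟨h1, h2⟩ := hΔ
  refine ⟨?_, ?_⟩
  · intro c c' hc hc' hO
    rw [hE c c' hc hc']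
    exact h1 c c' hc hc' hO
  · intro i hi j hj hO z hz
    have h3 : E z = Δ z := by
      apply regeq_root E Δ n hn z
      rw [hz]
      exact hE _ _ hi hj
    rw [h3]
    exact h2 i hi j hj hO z hz

end Pool.Agent.Lib.MP_4318ff_ag
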