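import Pool.Agent.Lib.MP_4318ff_ag.A.RegLin

/-!
# MP_4318ff_ag: regularity at the exceptional curve (`RegExcStmt`)
-/

set_option autoImplicit false

namespace Pool.Agent.Lib.MP_4318ff_ag

open scoped LinearAlgebra.Projectivization

/-- **Regularity at the exceptional curve over `T`.** -/
theorem tRegExc : EvStmt → CoordStmt → ExcStmt → LocRegStmt → GoodStmt → RegExcStmt := by
  intro _ hco hex hlr hgood k _ _ _ r n C K _ _ _ _ _ _ T Q i O E hn hroots hO hTQ hQ hiT hiQ hreg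
    hpen y hy hyK
  obtain ⟨-, -, hunif, hloc⟩ := (hex k T).2 O hO
  obtain ⟨j, hjQ, hji⟩ := reglin_other C Q hQ i
  have hi0 : C.ℓ i ≠ 0 := reglin_ne C i j hji.symm
  have hiT' : C.ℓ i ⬝ᵥ T.rep = 0 := hiT
  have hiQ' : C.ℓ i ⬝ᵥ Q.rep = 0 := hiQ
  have hjQ' : C.ℓ j ⬝ᵥ Q.rep = 0 := hjQ
  have hjT : C.ℓ j ⬝ᵥ T.rep ≠ 0 := by
    intro h
    exact hTQ (reglin_pts T Q _ _ (C.indep i j hji.symm) hiT' h hiQ' hjQ')
  have hπ : IsUnif O (ev (C.ℓ i) / ev (C.ℓ j)) := hunif _ _ hjT hi0 hiT'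
  obtain ⟨ζ, hζ⟩ := hroots i j
  have hζi : ζ ∈ ic K O := reglin_root O _ hπ.1 n hn ζ hζ
  have hζE : E ζ ∈ ic K O := hreg.2 i hiQ j hjQ hπ.1 ζ hζ
  have hπE : E (algebraMap (F k) K (ev (C.ℓ i) / ev (C.ℓ j))) ∈ ic K O :=
    hreg.1 _ _ hiQ' hjQ' hπ.1
  obtain ⟨d, hd, hid⟩ := reglin_ext T.rep (C.ℓ i) hi0 hiT'
  have h3 : LinearIndependent k ![C.ℓ j, C.ℓ i, d] :=
    reglin_three _ _ _ hid hiT' hd hjT
  have h4 := hloc _ _ _ h3 hiT' hd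
  have h5 : ∀ f ∈ O, E (algebraMap (F k) K f) ∈ ic K O :=
    hlr k K _ _ _ O E (hco k _ _ _ h3).2 h4 hπE (hpen _ _ hi0 hiT' hd)
  exact hgood k r n C K O _ E hn hroots hπ h5 (Or.inr ⟨ζ, hζi, hζ, hζE⟩) y hy hyK

end Pool.Agent.Lib.MP_4318ff_ag
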