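import Pool.Agent.Lib.MP_4318ff_ag.Spec.A2

/-!
MP_4318ff_ag, module A/RegMod: the regular derivations form a vector space stable under the Galois group.
-/

set_option autoImplicit false

namespace Pool.Agent.Lib.MP_4318ff_ag

section

variable {k : Type} [Field k] {K : Type} [Field K] [Algebra (F k) K] [Algebra k K]
  [IsScalarTower k (F k) K]

omit [Algebra k K] [IsScalarTower k (F k) K] in
private lemma regmod_ic (S : Subalgebra k (F k)) (g : K ≃ₐ[F k] K) (y : K) (hy : y ∈ ic K S) :
    g y ∈ ic K S := by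
  have h1 : IsIntegral S y := hy
  exact h1.map ((g : K →ₐ[F k] K).restrictScalars S)

private lemma regmod_const (S : Subalgebra k (F k)) (c : k) : algebraMap k K c ∈ ic K S := by
  have h1 : IsIntegral S (algebraMap S K (algebraMap k S c)) := isIntegral_algebraMap
  have h2 : algebraMap S K (algebraMap k S c) = algebraMap k K c := by
    rw [IsScalarTower.algebraMap_apply k (F k) K]
    rfl
  rw [h2] at h1
  exact h1

private lemma regmod_smul (S : Subalgebra k (F k)) (c : k) (y : K) (hy : y ∈ ic K S) :
    c • y ∈ ic K S := by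
  rw [Algebra.smul_def]
  exact (ic K S).mul_mem (regmod_const S c) hy

private lemma regmod_conj (g : K ≃ₐ[F k] K) (D : Derivation k K K) (y : K) :
    conjD g D y = g (D (g.symm y)) := rfl

omit [Algebra k K] [IsScalarTower k (F k) K] in
private lemma regmod_kum {r : ℕ} (C : Config k r) (n : ℕ) (g : K ≃ₐ[F k] K) (y : K)
    (hy : y ∈ Kummer K C n) : g y ∈ Kummer K C n := by
  have h1 : Kummer K C n ≤ (Kummer K C n).comap (g : K →+* K) := by
    unfold Kummer
    rw [Subfield.closure_le]
    rintro z (⟨f, rfl⟩ | ⟨i, j, hz⟩)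
    · change g (algebraMap (F k) K f) ∈ Subfield.closure _
      rw [AlgEquiv.commutes]
      exact Subfield.subset_closure (Or.inl ⟨f, rfl⟩)
    · change g z ∈ Subfield.closure _
      refine Subfield.subset_closure (Or.inr ⟨i, j, ?_⟩)
      rw [← map_pow, hz, AlgEquiv.commutes]
  exact h1 hy

end

theorem tRegMod : RegModStmt := by
  intro k _ r n C K _ _ _ _
  refine ⟨fun S g y hy => regmod_ic S g y hy, ?_, ?_⟩
  · intro P O
    refine ⟨{ carrier := {D | RegAt C n P O D}, add_mem' := ?_, zero_mem' := ?_, smul_mem' := ?_ },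
      fun D => Iff.rfl, ?_⟩
    · intro D D' hD hD'
      refine ⟨fun c c' hc hc' hO => ?_, fun i hi j hj hO z hz => ?_⟩
      · exact (ic K O).add_mem (hD.1 c c' hc hc' hO) (hD'.1 c c' hc hc' hO)
      · exact (ic K O).add_mem (hD.2 i hi j hj hO z hz) (hD'.2 i hi j hj hO z hz)
    · exact ⟨fun c c' hc hc' hO => (ic K O).zero_mem, fun i hi j hj hO z hz => (ic K O).zero_mem⟩
    · intro c D hD
      refine ⟨fun d d' hd hd' hO => ?_, fun i hi j hj hO z hz => ?_⟩
      · exact regmod_smul O c _ (hD.1 d d' hd hd' hO)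
      · exact regmod_smul O c _ (hD.2 i hi j hj hO z hz)
    · intro g D hD
      change RegAt C n P O D at hD
      change RegAt C n P O (conjD g D)
      refine ⟨fun c c' hc hc' hO => ?_, fun i hi j hj hO z hz => ?_⟩
      · rw [regmod_conj, AlgEquiv.commutes]
        exact regmod_ic O g _ (hD.1 c c' hc hc' hO)
      · rw [regmod_conj]
        refine regmod_ic O g _ (hD.2 i hi j hj hO _ ?_)
        rw [← map_pow, hz, AlgEquiv.commutes]
  · intro S
    let A : Set (Derivation k K K) := {D | ∀ y ∈ ic K S, y ∈ Kummer K C n → D y ∈ ic K S}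
    refine ⟨{ carrier := A, add_mem' := ?_, zero_mem' := ?_, smul_mem' := ?_ },
      fun D => Iff.rfl, ?_⟩
    · intro D D' hD hD' y hy hy'
      exact (ic K S).add_mem (hD y hy hy') (hD' y hy hy')
    · intro y hy hy'
      exact (ic K S).zero_mem
    · intro c D hD y hy hy'
      exact regmod_smul S c _ (hD y hy hy')
    · intro g D hD y hy hy'
      rw [regmod_conj]
      exact regmod_ic S g _ (hD _ (regmod_ic S g.symm y hy) (regmod_kum C n g.symm y hy'))

end Pool.Agent.Lib.MP_4318ff_ag
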