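import Pool.Agent.Lib.MP_4318ff_ag.Spec.A1
import Pool.Agent.Lib.MP_4318ff_ag.A.G2

/-!
# MP_4318ff_ag, module A/Tau: logarithmic derivatives along a pencil
-/

set_option autoImplicit false

namespace Pool.Agent.Lib.MP_4318ff_ag

theorem tau_div {k K : Type} [Field k] [Field K] [Algebra k K] (Δ : Derivation k K K) {a b : K}
    (ha : a ≠ 0) (hb : b ≠ 0) : Δ a / a - Δ b / b = Δ (a / b) / (a / b) := by
  have h1 : Δ a = Δ (a / b) * b + a / b * Δ b := by
    have h2 : Δ (a / b * b) = a / b * Δ b + b * Δ (a / b) := by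
      rw [Derivation.leibniz, smul_eq_mul, smul_eq_mul]
    rw [div_mul_cancel₀ a hb] at h2
    rw [h2]
    ring
  rw [h1]
  field_simp
  ring

theorem tau_ne {k : Type} [Field k] {r : ℕ} (C : Config k r) {i j : Fin r} (hij : i ≠ j) :
    ev (C.ℓ i) ≠ 0 ∧ ev (C.ℓ j) ≠ 0 := by
  have h := C.indep i j hij
  exact ⟨fun h0 => h.ne_zero 0 (ev_eq_zero h0), fun h0 => h.ne_zero 1 (ev_eq_zero h0)⟩

theorem tTau : TauStmt := by
  intro k _ r n C K _ _ _ _ P O Δ hn hroots hreg i hi j hj hO φ τ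
  by_cases hij : i = j
  · subst hij
    have h0 : τ = 0 := sub_self _
    have h1 : Δ (φ (ev (C.ℓ i) / ev (C.ℓ i))) = 0 := by
      by_cases h : ev (C.ℓ i) = 0
      · rw [h, div_zero, map_zero, map_zero]
      · rw [div_self h, map_one, Derivation.map_one_eq_zero]
    refine ⟨fun _ => ?_, ?_, 0, zero_mem _, ?_⟩
    · rw [h0]
      exact zero_mem _
    · rw [h0, zero_pow hn.ne', mul_zero]
      exact zero_mem _
    · rw [h1, zero_pow hn.ne', mul_zero]
  obtain ⟨hi0, hj0⟩ := tau_ne C hij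
  have hinj : Function.Injective φ := φ.injective
  have hi1 : φ (ev (C.ℓ i)) ≠ 0 := fun h => hi0 (hinj (h.trans (map_zero φ).symm))
  have hj1 : φ (ev (C.ℓ j)) ≠ 0 := fun h => hj0 (hinj (h.trans (map_zero φ).symm))
  obtain ⟨L, hL⟩ : ∃ L, L = ev (C.ℓ i) / ev (C.ℓ j) := ⟨_, rfl⟩
  have hL0 : L ≠ 0 := by
    rw [hL]
    exact div_ne_zero hi0 hj0
  have hφL : φ L ≠ 0 := fun h => hL0 (hinj (h.trans (map_zero φ).symm))
  have hτ : τ = Δ (φ L) / φ L := by
    rw [hL, map_div₀]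
    exact tau_div Δ hi1 hj1
  have hdL : Δ (φ L) ∈ ic K O := by
    rw [hL]
    exact hreg.1 (C.ℓ i) (C.ℓ j) hi hj hO
  obtain ⟨z, hz⟩ := hroots i j
  have hdz : Δ z ∈ ic K O := hreg.2 i hi j hj hO z hz
  rw [← hL] at hz
  have hz0 : z ≠ 0 := by
    intro h
    rw [h, zero_pow hn.ne'] at hz
    exact hφL hz.symm
  have hdz2 : Δ (φ L) = (n : K) * (z ^ (n - 1) * Δ z) := by
    rw [← show z ^ n = φ L from hz, Derivation.leibniz_pow, smul_eq_mul, nsmul_eq_mul]
  have hy : ((n : K) * Δ z) ^ n ∈ ic K O := by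
    refine Subring.pow_mem _ (Subring.mul_mem _ ?_ hdz) n
    exact natCast_mem _ n
  have hkey : Δ (φ L) ^ n = φ L ^ (n - 1) * ((n : K) * Δ z) ^ n := by
    rw [hdz2, ← show z ^ n = φ L from hz, ← pow_mul, mul_pow, mul_pow, mul_pow, ← pow_mul,
      mul_comm (n - 1) n]
    ring
  rw [← hL] at hO
  rw [← hL]
  refine ⟨fun h => ?_, ?_, _, hy, ?_⟩
  · rw [hτ, div_eq_mul_inv]
    refine Subring.mul_mem _ hdL ?_
    have h1 : (φ L)⁻¹ = φ (ev (C.ℓ j) / ev (C.ℓ i)) := by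
      rw [← map_inv₀, hL, inv_div]
    rw [h1]
    exact isIntegral_algebraMap (R := O) (A := K) (x := ⟨_, h⟩)
  · have h1 : φ L * τ ^ n = ((n : K) * Δ z) ^ n := by
      rw [hτ, div_pow, hkey]
      have h2 : φ L ^ n = φ L * φ L ^ (n - 1) := by
        rw [← pow_succ']
        congr 1
        omega
      rw [h2]
      have h3 : φ L ^ (n - 1) ≠ 0 := pow_ne_zero _ hφL
      field_simp
    rw [h1]
    exact hy
  · rw [map_pow]
    exact hkey

end Pool.Agent.Lib.MP_4318ff_ag
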