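import Pool.Agent.Lib.MP_4318ff_ag.Spec.A1

/-!
MP_4318ff_ag, module A/Unif: consequences of the existence of a uniformiser.
-/

set_option autoImplicit false

namespace Pool.Agent.Lib.MP_4318ff_ag

private lemma unif_pow {k : Type} [Field k] (O : Subalgebra k (F k)) (π u : F k) (hπ : π ∈ O)
    (hu : u ∈ O) (e : ℤ) (he : 0 ≤ e) : π ^ e * u ∈ O := by
  obtain ⟨m, rfl⟩ := Int.eq_ofNat_of_zero_le he
  rw [zpow_natCast]
  exact O.mul_mem (O.pow_mem hπ m) hu

private lemma unif_inv {k : Type} [Field k] (O : Subalgebra k (F k)) (π u : F k) (hπ : π ∈ O)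
    (hu : u⁻¹ ∈ O) (e : ℤ) (he : e ≤ 0) : (π ^ e * u)⁻¹ ∈ O := by
  rw [mul_inv, ← zpow_neg]
  exact unif_pow O π u⁻¹ hπ hu (-e) (by omega)

private lemma unif_or {k : Type} [Field k] (O : Subalgebra k (F k)) (π : F k) (h : IsUnif O π)
    (f : F k) : f ∈ O ∨ f⁻¹ ∈ O := by
  obtain ⟨h1, _, h3⟩ := h
  by_cases hf : f = 0
  · left
    rw [hf]
    exact O.zero_mem
  · obtain ⟨e, u, hu, hu', rfl⟩ := h3 f hf
    rcases le_total 0 e with he | he
    · exact Or.inl (unif_pow O π u h1 hu e he)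
    · exact Or.inr (unif_inv O π u h1 hu' e he)

private lemma unif_int {k : Type} [Field k] (O : Subalgebra k (F k)) (π : F k) (h : IsUnif O π)
    (f : F k) (hf : IsIntegral O f) : f ∈ O := by
  let A : ValuationSubring (F k) :=
    { O.toSubring with mem_or_inv_mem' := fun x => unif_or O π h x }
  let i : O →+* A :=
    { toFun := fun x => ⟨x.1, x.2⟩
      map_one' := rfl
      map_mul' := fun _ _ => rfl
      map_zero' := rfl
      map_add' := fun _ _ => rfl }
  have h1 : IsIntegral A f := by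
    obtain ⟨p, hp, hpe⟩ := hf
    refine ⟨p.map i, hp.map i, ?_⟩
    rw [Polynomial.eval₂_map]
    exact hpe
  obtain ⟨y, hy⟩ := IsIntegrallyClosed.algebraMap_eq_of_integral h1
  have h2 : (y : F k) = f := hy
  rw [← h2]
  exact y.2

theorem tUnif : UnifStmt := by
  intro k _ O π h
  have h' := h
  obtain ⟨h1, h2, h3⟩ := h'
  have hπ0 : π ≠ 0 := by
    intro h0
    apply h2
    rw [h0, inv_zero]
    exact O.zero_mem
  refine ⟨unif_or O π h, unif_int O π h, ?_, ?_⟩
  · intro f hf hf'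
    have hf0 : f ≠ 0 := by
      intro h0
      apply hf'
      rw [h0, inv_zero]
      exact O.zero_mem
    obtain ⟨e, u, hu, hu', rfl⟩ := h3 f hf0
    have he : 0 < e := by
      by_contra hcon
      exact hf' (unif_inv O π u h1 hu' e (by omega))
    have h4 : π ^ e * u / π = π ^ (e - 1) * u := by
      rw [zpow_sub_one₀ hπ0]
      ring
    rw [h4]
    exact unif_pow O π u h1 hu (e - 1) (by omega)
  · intro e u hu0 hu hu' hm
    by_contra hcon
    apply h2
    have h4 : π⁻¹ = (π ^ (-e - 1) * (π ^ e * u)) * u⁻¹ := by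
      have h5 : π ^ (-e - 1) * π ^ e = π⁻¹ := by
        rw [← zpow_add₀ hπ0, show -e - 1 + e = -1 by ring, zpow_neg_one]
      rw [← mul_assoc, h5, mul_assoc, mul_inv_cancel₀ hu0, mul_one]
    rw [h4]
    exact O.mul_mem (unif_pow O π _ h1 hm (-e - 1) (by omega)) hu'

end Pool.Agent.Lib.MP_4318ff_ag
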