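import Pool.Agent.Lib.MP_4318ff_ag.Spec.A1

/-!
# MP_4318ff_ag, module A/Van: the vanishing of the global functions `g`
-/

set_option autoImplicit false

namespace Pool.Agent.Lib.MP_4318ff_ag

open scoped LinearAlgebra.Projectivization

/-- Adding up integral powers over a finite set. -/
theorem van_sum (hPow : PowStmt) (k : Type) [Field k] (K : Type) [Field K] [Algebra (F k) K]
    (O : Subalgebra k (F k)) (n : ℕ) (hn : 0 < n) (x : K) {ι : Type} (S : Finset ι) (t : ι → K)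
    (h : ∀ P ∈ S, x * t P ^ n ∈ ic K O) : x * (∑ P ∈ S, t P) ^ n ∈ ic K O := by
  classical
  induction S using Finset.induction_on with
  | empty =>
    rw [Finset.sum_empty, zero_pow hn.ne', mul_zero]
    exact (ic K O).zero_mem
  | insert a S ha ih =>
    rw [Finset.sum_insert ha]
    exact hPow k K O n hn x _ _ (h a (Finset.mem_insert_self a S))
      (ih fun P hP => h P (Finset.mem_insert_of_mem hP))

/-- Fewer hypotheses: `EvStmt`, `CurveStmt`, `ExcStmt` are not needed. -/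
theorem van_main (hCh : ChartExStmt) (hPow : PowStmt) (hNorm : NormStmt) (hLC : LocCurveStmt)
    (hLE : LocExcStmt) (hGlob : GlobStmt) : VanStmt := by
  classical
  intro k _ r n C K _ _ _ _ _ T hR hT hcard D S Δ hSM hReg hEq ρ hρ hsum u
  have hn : 0 < n := by omega
  -- the coefficients
  have hs1 : ∀ P ∈ S, ∀ i, i ∉ C.through P → ρ P i * (C.ℓ i ⬝ᵥ T.rep) = 0 := by
    intro P hP i hi
    rw [(hρ P hP).1 i hi, zero_mul]
  have hs2 : ∀ P ∈ S, ∑ i, ρ P i * (C.ℓ i ⬝ᵥ T.rep) = 0 := by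
    intro P hP
    have h0 := congrArg (fun v : Fin 3 → k => v ⬝ᵥ T.rep) (hρ P hP).2
    simp only [zero_dotProduct, sum_dotProduct, smul_dotProduct, smul_eq_mul] at h0
    exact h0
  have hs3 : ∀ i, ∑ P ∈ S, ρ P i * (C.ℓ i ⬝ᵥ T.rep) = 0 := by
    intro i
    by_cases hi : C.ℓ i ⬝ᵥ T.rep = 0
    · exact Finset.sum_eq_zero fun P _ => by rw [hi, mul_zero]
    · rw [← Finset.sum_mul, hsum i hi, zero_mul]
  -- independence of the chart
  have hind : ∀ v : Chart C,
      ∑ P ∈ S, ∑ i, algebraMap k K (ρ P i * (C.ℓ i ⬝ᵥ T.rep)) *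
        (Δ P u (algebraMap (F k) K (ev (C.ℓ i))) / algebraMap (F k) K (ev (C.ℓ i))) =
      ∑ P ∈ S, ∑ i, algebraMap k K (ρ P i * (C.ℓ i ⬝ᵥ T.rep)) *
        (Δ P v (algebraMap (F k) K (ev (C.ℓ i))) / algebraMap (F k) K (ev (C.ℓ i))) := by
    intro v
    exact hGlob k r C K S (D u v) (fun P => Δ P u) (fun P => Δ P v)
      (fun P i => ρ P i * (C.ℓ i ⬝ᵥ T.rep)) (fun P hP => hEq P hP u v) hs1 hs2 hs3
  apply hNorm k r n C K T _ hcard
  · intro O hO b hb
    obtain ⟨v, hv⟩ := hCh k r C O (Or.inl hO)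
    rw [hind v]
    apply van_sum hPow k K O n hn
    intro P hP
    exact hLC k r n C K P T O (Δ P v) b (ρ P) hn hR (hSM P hP) hO hb
      (hReg P hP v O (Or.inl hO) hv) (hρ P hP)
  · intro O hO b c hb hc0 hc
    obtain ⟨v, hv⟩ := hCh k r C O (Or.inr ⟨T, hT, hO⟩)
    rw [hind v]
    apply van_sum hPow k K O n hn
    intro P hP
    by_cases hPT : P = T
    · subst hPT
      have h0 : ∑ i, algebraMap k K (ρ P i * (C.ℓ i ⬝ᵥ P.rep)) *
          (Δ P v (algebraMap (F k) K (ev (C.ℓ i))) / algebraMap (F k) K (ev (C.ℓ i))) = 0 := by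
        apply Finset.sum_eq_zero
        intro i _
        have : ρ P i * (C.ℓ i ⬝ᵥ P.rep) = 0 := by
          by_cases hi : i ∈ C.through P
          · have hi' : C.ℓ i ⬝ᵥ P.rep = 0 := hi
            rw [hi', mul_zero]
          · rw [(hρ P hP).1 i hi, zero_mul]
        rw [this, map_zero, zero_mul]
      rw [h0, zero_pow hn.ne', mul_zero]
      exact (ic K O).zero_mem
    · exact hLE k r n C K P T O (Δ P v) b c (ρ P) hn hR (hSM P hP) hPT hO
        (hReg P hP v O (Or.inr ⟨T, hT, hO⟩) hv) (hρ P hP) hb hc0 hc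

theorem tVan : EvStmt → ChartExStmt → CurveStmt → ExcStmt → PowStmt → NormStmt → LocCurveStmt →
    LocExcStmt → GlobStmt → VanStmt :=
  fun _ hCh _ _ hPow hNorm hLC hLE hGlob => van_main hCh hPow hNorm hLC hLE hGlob

end Pool.Agent.Lib.MP_4318ff_ag
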