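import Pool.Agent.Lib.MP_4318ff_ag.Spec.A3

/-!
MP_4318ff_ag, module A/Vec: one vector field for all pencils.
-/

set_option autoImplicit false

namespace Pool.Agent.Lib.MP_4318ff_ag

open scoped LinearAlgebra.Projectivization

private lemma vec_dotE {k : Type} [Field k] {K : Type} [Field K] [Algebra (F k) K] [Algebra k K]
    [IsScalarTower k (F k) K] (Δ : Derivation k K K) (c : Fin 3 → k) :
    dotE c (fun j => Δ (algebraMap (F k) K (gen k j))) = Δ (algebraMap (F k) K (ev c)) := by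
  unfold dotE ev
  rw [map_sum, map_sum]
  refine Finset.sum_congr rfl fun i _ => ?_
  rw [map_mul, ← IsScalarTower.algebraMap_apply, ← Algebra.smul_def, Derivation.map_smul]

private lemma vec_card {k : Type} [Field k] {r : ℕ} (C : Config k r) (T : Pt k) (hT : T ∈ C.M)
    [DecidablePred (fun i => C.ℓ i ⬝ᵥ T.rep ≠ 0)] :
    (Finset.univ.filter (fun i => C.ℓ i ⬝ᵥ T.rep ≠ 0)).card + 3 ≤ r := by
  classical
  have h1 : 3 ≤ (C.through T).ncard := hT
  have h2 : (C.through T).ncard = (Finset.univ.filter (fun i => ¬ (C.ℓ i ⬝ᵥ T.rep ≠ 0))).card := by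
    rw [← Set.ncard_coe_finset]
    congr 1
    ext i
    simp [Config.through]
  have h3 := Finset.card_filter_add_card_filter_not (s := (Finset.univ : Finset (Fin r)))
    (fun i => C.ℓ i ⬝ᵥ T.rep ≠ 0)
  rw [Finset.card_univ, Fintype.card_fin] at h3
  omega

private lemma vec_ne {k : Type} [Field k] {r : ℕ} (C : Config k r) (hr : 6 ≤ r) (i : Fin r) :
    C.ℓ i ≠ 0 := by
  obtain ⟨j, hj⟩ : ∃ j : Fin r, i ≠ j := by
    by_cases h : i = ⟨0, by omega⟩
    · exact ⟨⟨1, by omega⟩, by rw [h]; simp⟩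
    · exact ⟨⟨0, by omega⟩, h⟩
  exact (C.indep i j hj).ne_zero 0

theorem tVec : EvStmt → VanStmt → LA5Stmt → DerVStmt → PenStmt → VecStmt := by
  classical
  intro hEv hVan hLA5 hDerV hPen k _ _ _ r n C K _ _ _ _ _ hR hr hrn hroots P₀ S hS1 hS2 D Δ hreg heq
  have hne : ∀ i, algebraMap (F k) K (ev (C.ℓ i)) ≠ 0 := by
    intro i h
    have h1 : ev (C.ℓ i) = 0 := (map_eq_zero (algebraMap (F k) K)).1 h
    exact vec_ne C hr i (((hEv k).2.2 (C.ℓ i)).1 h1)
  have key : ∀ u : Chart C, ∃ E : Derivation k K K, ∀ P ∈ S, EqOn P E (Δ P u) := by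
    intro u
    obtain ⟨s, a, v, hsa, hv⟩ := hLA5 k r C hR hr P₀ S hS1 hS2 K
      (fun P i => Δ P u (algebraMap (F k) K (ev (C.ℓ i))) / algebraMap (F k) K (ev (C.ℓ i)))
      (fun P j => Δ P u (algebraMap (F k) K (gen k j)))
      (by
        intro P _ i _
        rw [div_mul_cancel₀ _ (hne i)]
        exact (vec_dotE (Δ P u) (C.ℓ i)).symm)
      (by
        intro T hT ρ _ hrel hsum
        have h1 := hVan k r n C K T hroots hT ((show ∀ m : ℕ, m + 3 ≤ r → m + 1 < n from fun m hm => by omega) _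
          (vec_card C T hT)) D S Δ hS1 hreg heq ρ hrel (fun i hi => hsum i hi) u
        rw [← h1]
        refine Finset.sum_congr rfl fun P _ => Finset.sum_congr rfl fun i _ => ?_
        rw [Algebra.smul_def])
    obtain ⟨E, hE⟩ := hDerV k K v
    refine ⟨E, fun P hP => ?_⟩
    have hE2 : ∀ i, E (algebraMap (F k) K (ev (C.ℓ i))) / algebraMap (F k) K (ev (C.ℓ i)) =
        s i - v 0 := by
      intro i
      rw [div_eq_iff (hne i), hE, sub_mul, ← hv i]
      congr 1
      unfold dotE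
      refine Finset.sum_congr rfl fun j _ => ?_
      rw [Algebra.smul_def]
    refine hPen k r C K P E (Δ P u) (hS1 P hP) ?_
    intro i hi j hj
    have h2 := hsa P hP i hi
    have h3 := hsa P hP j hj
    simp only at h2 h3 ⊢
    rw [hE2 i, hE2 j, h2, h3]
    ring
  choose E hE using key
  exact ⟨E, hE⟩

end Pool.Agent.Lib.MP_4318ff_ag
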